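import Pool.Agent.QUP.RaF
import Pool.Agent.QUT.Flt

/-!
# QUP/Ch: one hub and four elements

`Cv S p`: no triangles, no triads, all single removals 3-connected, smaller boxes have forms.
`ch`: hub `u` (type `t`), `x`, `e` (type `t`), `z`, `z'` (the other type), target `e` with both types.
-/

set_option autoImplicit false

open QUB

namespace Pool.Agent.QU

open Pool.Agent.FRM

variable {E : Type} [Fintype E] [DecidableEq E]

/-- the hypotheses of NT case II -/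
structure Cv (S : TP F4 E) (p : Itv E) : Prop where
  nu : NU S.r
  hp : p.1 ⊆ p.2
  hC : Cn S.r p
  h3 : Th3 S.r p
  nt : Nt S.r p
  hn : 10 ≤ (gs p).card
  th : ∀ w ∈ gs p, ∀ s : Bool, Th3 S.r (rm s w p)
  ih : ∀ q : Itv E, q.1 ⊆ q.2 → Sub q p → (gs q).card < (gs p).card → ∃ T, InVs S q T

variable {S : TP F4 E} {p : Itv E}

theorem Cv.cn1 (h : Cv S p) {w : E} (hw : w ∈ gs p) (s : Bool) : Cn S.r (rm s w p) :=
  th3_cn S.rk h.hp h.hC h.h3 (by have := h.hn; omega) hw s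

theorem Cv.cn2 (h : Cv S p) {a b : E} (ha : a ∈ gs p) (hb : b ∈ gs p) (hab : a ≠ b) (s t : Bool) : Cn S.r (rm s a (rm t b p)) := by
  have hn := h.hn
  refine th3_cn S.rk (QUB.wf_rm h.hp hb) (h.cn1 hb t) (h.th b hb t) ?_ ?_ s
  · rw [show gs (rm t b p) = (gs p).erase b from QUB.gs_rm t b p, Finset.card_erase_of_mem hb]
    omega
  · rw [show gs (rm t b p) = (gs p).erase b from QUB.gs_rm t b p]
    exact Finset.mem_erase.2 ⟨hab, ha⟩

theorem Cv.ex (h : Cv S p) {w : E} (hw : w ∈ gs p) (s : Bool) : ∃ T, InVs S (rm s w p) T := by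
  refine h.ih (rm s w p) (QUB.wf_rm h.hp hw) (rm_sub s w p) ?_
  rw [show gs (rm s w p) = (gs p).erase w from QUB.gs_rm s w p]
  exact Finset.card_erase_lt_of_mem hw

omit [Fintype E] in
private theorem ch_mem {p : Itv E} {a b : E} {s : Bool} (hab : a ≠ b) (ha : a ∈ gs p) : a ∈ gs (rm s b p) := by
  rw [gs_rm]
  exact Finset.mem_erase.2 ⟨hab, ha⟩

theorem Cv.uq (h : Cv S p) {a b : E} (ha : a ∈ gs p) (hb : b ∈ gs p) (hab : a ≠ b) {s t : Bool} (ho : Ok S.r (rm s a (rm t b p))) :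
    Uq S (rm s a (rm t b p)) :=
  uq_of_ok S h.nu (QUB.wf_rm (QUB.wf_rm h.hp hb) (ch_mem hab ha)) (h.cn2 ha hb hab s t) ho

theorem Cv.nd (h : Cv S p) {a b x : E} (ha : a ∈ gs p) (hb : b ∈ gs p) (hx : x ∈ gs p) (hab : a ≠ b) (hax : a ≠ x) (hbx : b ≠ x)
    (t s : Bool) : ND S.r (rm s x p) a b t t := by
  refine nd_of_cn S.rk hab (ch_mem hax ha) (ch_mem hbx hb) ?_ (h.cn2 ha hx hax t s) (h.cn2 hb hx hbx t s)
  rw [show gs (rm s x p) = (gs p).erase x from QUB.gs_rm s x p, Finset.card_erase_of_mem hx]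
  have := h.hn
  omega

/-- a third target -/
theorem Cv.third (h : Cv S p) {k1 k2 x : E} {t s : Bool} (m1 : k1 ∈ gs p) (m2 : k2 ∈ gs p) (mx : x ∈ gs p) (h12 : k1 ≠ k2)
    (h1x : k1 ≠ x) (h2x : k2 ≠ x) {T : Fm F4 E} (i1 : InV S.U S.W (rm t k1 p) T) (i2 : InV S.U S.W (rm t k2 p) T)
    (o1 : Ok S.r (rm t k1 (rm s x p))) (o2 : Ok S.r (rm t k2 (rm s x p)))
    (c : Cn S.r (rm t k1 (rm t k2 (rm s x p)))) (R : HasRich S.r (rm t k1 (rm t k2 (rm s x p)))) : InV S.U S.W (rm s x p) T :=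
  third' S h.hp h12 h1x h2x m1 m2 mx i1 i2 (h.ex mx s) (h.uq m1 mx h1x o1) (h.uq m2 mx h2x o2) c R (h.nd m1 m2 mx h12 h1x h2x t s)

/-- the form of two hubs -/
theorem Cv.two (h : Cv S p) {k1 k2 : E} {t : Bool} (m1 : k1 ∈ gs p) (m2 : k2 ∈ gs p) (h12 : k1 ≠ k2)
    (o : Ok S.r (rm t k1 (rm t k2 p))) :
    ∃ T : Fm F4 E, InV S.U S.W (rm t k1 p) T ∧ InV S.U S.W (rm t k2 p) T ∧
      ∀ q, Sub q (rm t k1 p) → Rich S.r q → ¬ EqD S.U S.W q T 0 :=
  two_hub' S (h.ex m1 t) (h.ex m2 t) (h.uq m1 m2 h12 o)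

/-- the connector `a` of type `t` and two hubs of the other type -/
theorem Cv.con (h : Cv S p) {k1 k2 a x : E} {t : Bool} (m1 : k1 ∈ gs p) (m2 : k2 ∈ gs p) (ma : a ∈ gs p) (mx : x ∈ gs p)
    (h12 : k1 ≠ k2) (h1x : k1 ≠ x) (h2x : k2 ≠ x) (ha1 : a ≠ k1) (ha2 : a ≠ k2) (hax : a ≠ x) {T : Fm F4 E}
    (i1 : InV S.U S.W (rm (!t) k1 p) T) (i2 : InV S.U S.W (rm (!t) k2 p) T) (ia : InV S.U S.W (rm t a p) T)
    (o1 : Ok S.r (rm (!t) k1 (rm t x p))) (o2 : Ok S.r (rm (!t) k2 (rm t x p))) (oa : Ok S.r (rm t a (rm t x p)))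
    (ca1 : Cn S.r (rm t a (rm (!t) k1 (rm t x p)))) (ra1 : HasRich S.r (rm t a (rm (!t) k1 (rm t x p))))
    (ca2 : Cn S.r (rm t a (rm (!t) k2 (rm t x p)))) (ra2 : HasRich S.r (rm t a (rm (!t) k2 (rm t x p)))) :
    InV S.U S.W (rm t x p) T := by
  refine trg S h.hp h12 h1x h2x ha1 ha2 hax m1 m2 ma mx i1 i2 ia (h.ex mx t) (h.uq m1 mx h1x o1) (h.uq m2 mx h2x o2)
    (h.uq ma mx hax oa) ca1 ra1 ca2 ra2 (h.nd m1 m2 mx h12 h1x h2x (!t) t) ?_ ?_
  · cases t with
    | true =>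
      obtain ⟨e1, e2, e3⟩ := h.nt.ins S.rk ma m1 m2 ha1 ha2 h12
      show S.r (insert a (insert k1 (insert k2 p.1))) = S.r (insert k1 (insert k2 p.1)) + 1
      omega
    | false =>
      obtain ⟨e1, e2, e3⟩ := h.nt.ins S.rk m1 ma mx ha1.symm h1x hax
      show S.r (insert a (insert x p.1)) = S.r (insert x p.1) + 1
      omega
  · have hmono := S.rk.mono
    cases t with
    | true =>
      have e1 := h.nt.d3 {k1, x, a} (by
        intro v hv
        simp only [Finset.mem_insert, Finset.mem_singleton] at hv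
        rcases hv with rfl | rfl | rfl <;> assumption) (Finset.card_eq_three.2 ⟨k1, x, a, h1x, ha1.symm, hax.symm, rfl⟩)
      have e2 := hmono (p.2 \ {k1, x, a}) ((p.2.erase x).erase a) (by
        intro v hv
        simp only [Finset.mem_sdiff, Finset.mem_insert, Finset.mem_singleton, not_or] at hv
        simp only [Finset.mem_erase]
        tauto)
      have e3 := hmono ((p.2.erase x).erase a) (p.2.erase x) (Finset.erase_subset _ _)
      have e4 := hmono (p.2.erase x) p.2 (Finset.erase_subset _ _)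
      show S.r ((p.2.erase x).erase a) = S.r (p.2.erase x)
      omega
    | false =>
      have e1 := h.nt.d3 {k1, k2, a} (by
        intro v hv
        simp only [Finset.mem_insert, Finset.mem_singleton] at hv
        rcases hv with rfl | rfl | rfl <;> assumption) (Finset.card_eq_three.2 ⟨k1, k2, a, h12, ha1.symm, ha2.symm, rfl⟩)
      have e2 := hmono (p.2 \ {k1, k2, a}) (((p.2.erase k2).erase k1).erase a) (by
        intro v hv
        simp only [Finset.mem_sdiff, Finset.mem_insert, Finset.mem_singleton, not_or] at hv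
        simp only [Finset.mem_erase]
        tauto)
      have e3 := hmono (((p.2.erase k2).erase k1).erase a) ((p.2.erase k2).erase k1) (Finset.erase_subset _ _)
      have e4 := hmono ((p.2.erase k2).erase k1) p.2 ((Finset.erase_subset _ _).trans (Finset.erase_subset _ _))
      show S.r (((p.2.erase k2).erase k1).erase a) = S.r ((p.2.erase k2).erase k1)
      omega

/-- **one hub and four elements** -/
theorem ch (h : Cv S p) {u x e z z' : E} (t : Bool) (mu : u ∈ gs p) (mx : x ∈ gs p) (me : e ∈ gs p) (mz : z ∈ gs p) (mz' : z' ∈ gs p)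
    (hux : u ≠ x) (hue : u ≠ e) (huz : u ≠ z) (huz' : u ≠ z') (hxe : x ≠ e) (hxz : x ≠ z) (hxz' : x ≠ z') (hez : e ≠ z)
    (hez' : e ≠ z') (hzz : z ≠ z')
    (oux : Ok S.r (rm t u (rm t x p))) (oue : Ok S.r (rm t u (rm t e p))) (oue' : Ok S.r (rm t u (rm (!t) e p)))
    (ouz : Ok S.r (rm t u (rm (!t) z p))) (ouz' : Ok S.r (rm t u (rm (!t) z' p)))
    (oxe : Ok S.r (rm t x (rm (!t) e p))) (oxz : Ok S.r (rm t x (rm (!t) z p))) (oxz' : Ok S.r (rm t x (rm (!t) z' p)))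
    (oez : Ok S.r (rm (!t) z (rm t e p))) (oez' : Ok S.r (rm (!t) z' (rm t e p)))
    (cxe : Cn S.r (rm t u (rm t x (rm (!t) e p)))) (rxe : HasRich S.r (rm t u (rm t x (rm (!t) e p))))
    (cxz : Cn S.r (rm t u (rm t x (rm (!t) z p)))) (rxz : HasRich S.r (rm t u (rm t x (rm (!t) z p))))
    (cxz' : Cn S.r (rm t u (rm t x (rm (!t) z' p)))) (rxz' : HasRich S.r (rm t u (rm t x (rm (!t) z' p))))
    (cez : Cn S.r (rm t u (rm (!t) z (rm t e p)))) (rez : HasRich S.r (rm t u (rm (!t) z (rm t e p))))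
    (cez' : Cn S.r (rm t u (rm (!t) z' (rm t e p)))) (rez' : HasRich S.r (rm t u (rm (!t) z' (rm t e p)))) :
    ∃ T : Fm F4 E, InV S.U S.W p T ∧ ¬ EqD S.U S.W p T 0 := by
  obtain ⟨T, i1, i2, hne⟩ := h.two mu mx hux oux
  have iz := h.third mu mx mz hux huz hxz i1 i2 ouz oxz cxz rxz
  have iz' := h.third mu mx mz' hux huz' hxz' i1 i2 ouz' oxz' cxz' rxz'
  have ie' := h.third mu mx me hux hue hxe i1 i2 oue' oxe cxe rxe
  have ie := h.con mz mz' mu me hzz hez.symm hez'.symm huz huz' hue iz iz' i1 oez oez' oue cez rez cez' rez'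
  have hin : InV S.U S.W p T := by
    cases t with
    | true => exact inV_of_rm ie ie'
    | false => exact inV_of_rm ie' ie
  refine ⟨T, hin, fun hT => ?_⟩
  obtain ⟨N, h1, h2⟩ := rxe
  have h3 : Sub N (rm t u p) := (((rm_sub (!t) e p).trans (rm_sub t x _)).rm t u).trans h1
  exact hne N h3 h2 (hT.mono ((rm_sub t u p).trans h3))

/-- **two hubs, one target with both types** -/
theorem rr_cv (h : Cv S p) {u x e : E} (t : Bool) (mu : u ∈ gs p) (mx : x ∈ gs p) (me : e ∈ gs p) (hux : u ≠ x) (hue : u ≠ e)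
    (hxe : x ≠ e) (oux : Ok S.r (rm t u (rm t x p))) (oue : ∀ s, Ok S.r (rm t u (rm s e p))) (oxe : ∀ s, Ok S.r (rm t x (rm s e p)))
    (c : ∀ s, Cn S.r (rm t u (rm t x (rm s e p)))) (R : ∀ s, HasRich S.r (rm t u (rm t x (rm s e p)))) :
    ∃ T : Fm F4 E, InV S.U S.W p T ∧ ¬ EqD S.U S.W p T 0 := by
  obtain ⟨T, i1, i2, hne⟩ := h.two mu mx hux oux
  have ie := fun s => h.third mu mx me hux hue hxe i1 i2 (oue s) (oxe s) (c s) (R s)
  refine ⟨T, inV_of_rm (ie true) (ie false), fun hT => ?_⟩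
  obtain ⟨N, h1, h2⟩ := R true
  have h3 : Sub N (rm t u p) := (((rm_sub true e p).trans (rm_sub t x _)).rm t u).trans h1
  exact hne N h3 h2 (hT.mono ((rm_sub t u p).trans h3))

end Pool.Agent.QU
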