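import Pool.Agent.QUB.Defs
import Mathlib.Tactic.Linarith
import Mathlib.Data.Fintype.Fin
import Mathlib.Data.Finset.Union

/-!
# QUP/ExcA: sides behind a flat of corank two

`C` is independent of corank two, `P` are the five classes of the contraction of `C`, the class `k` is deleted. `Cst c a`: the row `c` is constant
on `a`. `Spp c a`: the row `c` is supported on `a`. `Sd h i a`: `a` is (the part outside of `C` of) a 2-side behind `h`, in the class `i`.
-/

set_option autoImplicit false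
set_option linter.all false

namespace Pool.Agent.QU.Exc

open QUB (Rk)

variable {E : Type} [DecidableEq E]

/-- the union of the classes other than `k` -/
def Rr (P : Fin 5 → Finset E) (k : Fin 5) : Finset E := (Finset.univ.erase k).biUnion P

/-- a flat of corank two with five classes, the class `k` deleted -/
structure Pn (r : Finset E → ℤ) (C : Finset E) (P : Fin 5 → Finset E) (k : Fin 5) : Prop where
  hr : Rk r
  rC : r C = C.card
  dC : ∀ i, Disjoint (P i) C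
  dP : ∀ i j, i ≠ j → Disjoint (P i) (P j)
  ne : ∀ i, (P i).Nonempty
  one : ∀ i, r (C ∪ P i) = C.card + 1
  two : ∀ i j, i ≠ j → ∀ s ∈ P i, ∀ s' ∈ P j, r (insert s (insert s' C)) = C.card + 2
  ful : r (C ∪ Rr P k) ≤ C.card + 2
  t3 : ∀ Z ⊆ C ∪ Rr P k, Z.card = 3 → r Z = 3
  d2 : ∀ Z ⊆ C ∪ Rr P k, Z.card ≤ 2 → (C.card : ℤ) + 2 ≤ r ((C ∪ Rr P k) \ Z)
  c3 : ∀ A ⊆ C ∪ Rr P k, 2 ≤ A.card → 2 ≤ ((C ∪ Rr P k) \ A).card → (C.card : ℤ) + 4 ≤ r A + r ((C ∪ Rr P k) \ A)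

/-- the row `c` is constant on `a` -/
def Cst (r : Finset E → ℤ) (C : Finset E) (c : E) (a : Finset E) : Prop := r (C.erase c ∪ a) ≤ C.card

/-- the row `c` is supported on `a` -/
def Spp (r : Finset E → ℤ) (C R : Finset E) (c : E) (a : Finset E) : Prop := r (C.erase c ∪ (R \ a)) ≤ C.card + 1

/-- a side behind `h` -/
structure Sde (r : Finset E → ℤ) (C : Finset E) (P : Fin 5 → Finset E) (k : Fin 5) (h : E) (i : Fin 5) (a : Finset E) : Prop where
  hi : i ≠ k
  sub : a ⊆ P i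
  two : 2 ≤ a.card
  fn : ∀ c ∈ C, c ≠ h → Cst r C c a ∨ Spp r C (Rr P k) c a

section basic

variable {r : Finset E → ℤ} {C : Finset E} {P : Fin 5 → Finset E} {k : Fin 5}

theorem mem_Rr {w : E} : w ∈ Rr P k ↔ ∃ i, i ≠ k ∧ w ∈ P i := by
  simp [Rr]

theorem sub_Rr {i : Fin 5} (hi : i ≠ k) : P i ⊆ Rr P k := fun w hw => mem_Rr.2 ⟨i, hi, hw⟩

private theorem fin5 : ∀ i j k : Fin 5, ∃ l m : Fin 5, l ≠ m ∧ l ≠ i ∧ l ≠ j ∧ l ≠ k ∧ m ≠ i ∧ m ≠ j ∧ m ≠ k := by decide

/-- two other classes -/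
theorem Pn.mt (h : Pn r C P k) (i j : Fin 5) : ∃ l m : Fin 5, ∃ s s' : E, l ≠ m ∧ s ∈ P l ∧ s' ∈ P m ∧ l ≠ i ∧ l ≠ j ∧ l ≠ k ∧ m ≠ i ∧ m ≠ j ∧ m ≠ k := by
  obtain ⟨l, m, h1, h2, h3, h4, h5, h6, h7⟩ := fin5 i j k
  obtain ⟨s, hs⟩ := h.ne l
  obtain ⟨s', hs'⟩ := h.ne m
  exact ⟨l, m, s, s', h1, hs, hs', h2, h3, h4, h5, h6, h7⟩

theorem Pn.er (h : Pn r C P k) {c : E} (hc : c ∈ C) (X : Finset E) : r (C ∪ X) ≤ r (C.erase c ∪ X) + 1 := by
  have e : C ∪ X = insert c (C.erase c ∪ X) := by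
    ext w
    simp only [Finset.mem_union, Finset.mem_insert, Finset.mem_erase]
    by_cases hw : w = c
    · subst hw; simp [hc]
    · simp [hw]
  rw [e]
  exact h.hr.unit _ _

theorem Pn.lo1' (h : Pn r C P k) {i : Fin 5} {s : E} (hs : s ∈ P i) {X : Finset E} (hX : s ∈ X) : (C.card : ℤ) + 1 ≤ r (C ∪ X) := by
  obtain ⟨l, m, t, t', h1, h2, h3, h4, h5, -⟩ := h.mt i i
  have e := h.two l i h4 t h2 s hs
  have e2 := h.hr.unit (insert s C) t
  have e3 := h.hr.mono (insert s C) (C ∪ X) (by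
    intro w hw
    rcases Finset.mem_insert.1 hw with rfl | hw
    · exact Finset.mem_union_right _ hX
    · exact Finset.mem_union_left _ hw)
  linarith

theorem Pn.lo1 (h : Pn r C P k) {c : E} (hc : c ∈ C) {i : Fin 5} {s : E} (hs : s ∈ P i) {X : Finset E} (hX : s ∈ X) : (C.card : ℤ) ≤ r (C.erase c ∪ X) := by
  have h1 := h.lo1' hs hX
  have h2 := h.er hc X
  linarith

theorem Pn.lo2' (h : Pn r C P k) {i j : Fin 5} (hij : i ≠ j) {s s' : E} (hs : s ∈ P i) (hs' : s' ∈ P j) {X : Finset E} (hX : s ∈ X) (hX' : s' ∈ X) :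
    (C.card : ℤ) + 2 ≤ r (C ∪ X) := by
  rw [← h.two i j hij s hs s' hs']
  apply h.hr.mono
  intro w hw
  rcases Finset.mem_insert.1 hw with rfl | hw
  · exact Finset.mem_union_right _ hX
  · rcases Finset.mem_insert.1 hw with rfl | hw
    · exact Finset.mem_union_right _ hX'
    · exact Finset.mem_union_left _ hw

theorem Pn.lo2 (h : Pn r C P k) {c : E} (hc : c ∈ C) {i j : Fin 5} (hij : i ≠ j) {s s' : E} (hs : s ∈ P i) (hs' : s' ∈ P j) {X : Finset E}
    (hX : s ∈ X) (hX' : s' ∈ X) : (C.card : ℤ) + 1 ≤ r (C.erase c ∪ X) := by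
  have h1 := h.lo2' hij hs hs' hX hX'
  have h2 := h.er hc X
  linarith

theorem Pn.up1 (h : Pn r C P k) {i : Fin 5} {a : Finset E} (ha : a ⊆ P i) : r (C ∪ a) ≤ C.card + 1 := by
  rw [← h.one i]
  exact h.hr.mono _ _ (Finset.union_subset_union_right ha)

theorem Cst.mono (hr : Rk r) {c : E} {a b : Finset E} (hab : a ⊆ b) (h : Cst r C c b) : Cst r C c a :=
  (hr.mono _ _ (Finset.union_subset_union_right hab)).trans h

theorem Spp.mono (hr : Rk r) {R : Finset E} {c : E} {a b : Finset E} (hab : a ⊆ b) (h : Spp r C R c a) : Spp r C R c b :=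
  (hr.mono _ _ (Finset.union_subset_union_right (Finset.sdiff_subset_sdiff Finset.Subset.rfl hab))).trans h

/-- constant on a union -/
theorem Pn.cu (h : Pn r C P k) {c : E} (hc : c ∈ C) {a b : Finset E} {y : E} {i : Fin 5} (hy : y ∈ P i) (hya : y ∈ a) (hyb : y ∈ b)
    (ha : Cst r C c a) (hb : Cst r C c b) : Cst r C c (a ∪ b) := by
  have h1 := h.hr.sub (C.erase c ∪ a) (C.erase c ∪ b)
  have h2 := h.lo1 hc hy (X := a ∩ b) (Finset.mem_inter.2 ⟨hya, hyb⟩)
  have h3 : r (C.erase c ∪ (a ∪ b)) ≤ r ((C.erase c ∪ a) ∪ (C.erase c ∪ b)) := h.hr.mono _ _ (by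
    intro w; simp only [Finset.mem_union, Finset.mem_inter]; tauto)
  have h4 : r (C.erase c ∪ (a ∩ b)) ≤ r ((C.erase c ∪ a) ∩ (C.erase c ∪ b)) := h.hr.mono _ _ (by
    intro w; simp only [Finset.mem_union, Finset.mem_inter]; tauto)
  unfold Cst at *
  linarith

/-- supported on an intersection -/
theorem Pn.si (h : Pn r C P k) {c : E} (hc : c ∈ C) {a b : Finset E} {i j : Fin 5} (hia : a ⊆ P i) (hjb : b ⊆ P j)
    (ha : Spp r C (Rr P k) c a) (hb : Spp r C (Rr P k) c b) : Spp r C (Rr P k) c (a ∩ b) := by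
  obtain ⟨l, m, s, s', h1, h2, h3, h4, h5, h6, h7, h8, h9⟩ := h.mt i j
  have hs : ∀ {l : Fin 5} {s : E}, s ∈ P l → l ≠ i → l ≠ j → l ≠ k → s ∈ (Rr P k \ a) ∩ (Rr P k \ b) := by
    intro l s hs hi hj hk
    have e1 : s ∉ a := fun hh => Finset.disjoint_left.1 (h.dP l i hi) hs (hia hh)
    have e2 : s ∉ b := fun hh => Finset.disjoint_left.1 (h.dP l j hj) hs (hjb hh)
    exact Finset.mem_inter.2 ⟨Finset.mem_sdiff.2 ⟨sub_Rr hk hs, e1⟩, Finset.mem_sdiff.2 ⟨sub_Rr hk hs, e2⟩⟩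
  have g2 := h.lo2 hc h1 h2 h3 (hs h2 h4 h5 h6) (hs h3 h7 h8 h9)
  have g1 := h.hr.sub (C.erase c ∪ (Rr P k \ a)) (C.erase c ∪ (Rr P k \ b))
  have g3 : r (C.erase c ∪ (Rr P k \ (a ∩ b))) ≤ r ((C.erase c ∪ (Rr P k \ a)) ∪ (C.erase c ∪ (Rr P k \ b))) := h.hr.mono _ _ (by
    intro w; simp only [Finset.mem_union, Finset.mem_inter, Finset.mem_sdiff]; tauto)
  have g4 : r (C.erase c ∪ ((Rr P k \ a) ∩ (Rr P k \ b))) ≤ r ((C.erase c ∪ (Rr P k \ a)) ∩ (C.erase c ∪ (Rr P k \ b))) := h.hr.mono _ _ (by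
    intro w; simp only [Finset.mem_union, Finset.mem_inter, Finset.mem_sdiff]; tauto)
  unfold Spp at *
  linarith

/-- supported on `a`, constant on `b`, `b` not inside `a` -/
theorem Pn.sc (h : Pn r C P k) {c : E} (hc : c ∈ C) {a b : Finset E} {y : E} {i : Fin 5} (hy : y ∈ P i) (hik : i ≠ k) (hyb : y ∈ b) (hya : y ∉ a)
    (ha : Spp r C (Rr P k) c a) (hb : Cst r C c b) : Spp r C (Rr P k) c (a \ b) := by
  have g2 := h.lo1 hc hy (X := (Rr P k \ a) ∩ b) (Finset.mem_inter.2 ⟨Finset.mem_sdiff.2 ⟨sub_Rr hik hy, hya⟩, hyb⟩)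
  have g1 := h.hr.sub (C.erase c ∪ (Rr P k \ a)) (C.erase c ∪ b)
  have g3 : r (C.erase c ∪ (Rr P k \ (a \ b))) ≤ r ((C.erase c ∪ (Rr P k \ a)) ∪ (C.erase c ∪ b)) := h.hr.mono _ _ (by
    intro w; simp only [Finset.mem_union, Finset.mem_inter, Finset.mem_sdiff]; tauto)
  have g4 : r (C.erase c ∪ ((Rr P k \ a) ∩ b)) ≤ r ((C.erase c ∪ (Rr P k \ a)) ∩ (C.erase c ∪ b)) := h.hr.mono _ _ (by
    intro w; simp only [Finset.mem_union, Finset.mem_inter, Finset.mem_sdiff]; tauto)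
  unfold Cst at hb
  unfold Spp at *
  linarith

/-- off the support the row is constant on every class -/
theorem Pn.sx (h : Pn r C P k) {c : E} (hc : c ∈ C) {a b : Finset E} {i j : Fin 5} (hia : a ⊆ P i) (hjb : b ⊆ P j) (hj : j ≠ k) (hab : Disjoint a b)
    (ha : Spp r C (Rr P k) c a) : Cst r C c b := by
  obtain ⟨l, m, s, s', h1, h2, h3, h4, h5, h6, h7, h8, h9⟩ := h.mt i i
  have hs : ∀ {l : Fin 5} {s : E}, s ∈ P l → l ≠ i → l ≠ k → s ∈ Rr P k \ a := by
    intro l s hs hi hk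
    have e1 : s ∉ a := fun hh => Finset.disjoint_left.1 (h.dP l i hi) hs (hia hh)
    exact Finset.mem_sdiff.2 ⟨sub_Rr hk hs, e1⟩
  have g2 := h.lo2' h1 h2 h3 (hs h2 h4 h6) (hs h3 h7 h9)
  have g1 := h.hr.sub (C.erase c ∪ (Rr P k \ a)) (C ∪ b)
  have g0 := h.up1 hjb
  have g3 : r (C ∪ (Rr P k \ a)) ≤ r ((C.erase c ∪ (Rr P k \ a)) ∪ (C ∪ b)) := h.hr.mono _ _ (by
    intro w; simp only [Finset.mem_union, Finset.mem_inter, Finset.mem_sdiff]; tauto)
  have g4 : r (C.erase c ∪ b) ≤ r ((C.erase c ∪ (Rr P k \ a)) ∩ (C ∪ b)) := h.hr.mono _ _ (by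
    intro w hw
    rcases Finset.mem_union.1 hw with hw | hw
    · exact Finset.mem_inter.2 ⟨Finset.mem_union_left _ hw, Finset.mem_union_left _ (Finset.erase_subset _ _ hw)⟩
    · exact Finset.mem_inter.2 ⟨Finset.mem_union_right _ (Finset.mem_sdiff.2 ⟨sub_Rr hj (hjb hw), fun h' => Finset.disjoint_left.1 hab h' hw⟩),
        Finset.mem_union_right _ hw⟩)
  unfold Cst
  unfold Spp at ha
  linarith

theorem Pn.cR (h : Pn r C P k) {w : E} (hw : w ∈ Rr P k) : w ∉ C := by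
  obtain ⟨i, -, hi⟩ := mem_Rr.1 hw
  exact Finset.disjoint_left.1 (h.dC i) hi

/-- a support has two elements -/
theorem Pn.s2 (h : Pn r C P k) {c : E} (hc : c ∈ C) {a : Finset E} (haR : a ⊆ Rr P k) (ha : Spp r C (Rr P k) c a) : 2 ≤ a.card := by
  by_contra hcon
  have h1 : (insert c a).card ≤ 2 := (Finset.card_insert_le _ _).trans (by omega)
  have h2 := h.d2 (insert c a) (Finset.insert_subset (Finset.mem_union_left _ hc) (haR.trans Finset.subset_union_right)) h1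
  have e : (C ∪ Rr P k) \ insert c a ⊆ C.erase c ∪ (Rr P k \ a) := by
    intro w
    simp only [Finset.mem_union, Finset.mem_insert, Finset.mem_sdiff, Finset.mem_erase]
    tauto
  have h3 := h.hr.mono _ _ e
  unfold Spp at ha
  linarith

/-- supports in different classes -/
theorem Pn.sd (h : Pn r C P k) {c : E} (hc : c ∈ C) {a b : Finset E} {i j : Fin 5} (hia : a ⊆ P i) (hjb : b ⊆ P j) (hab : Disjoint a b)
    (ha : Spp r C (Rr P k) c a) (hb : Spp r C (Rr P k) c b) : False := by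
  have h1 := h.si hc hia hjb ha hb
  rw [Finset.disjoint_iff_inter_eq_empty.1 hab] at h1
  have h2 := h.s2 hc (Finset.empty_subset _) h1
  simp at h2

theorem Pn.sij (h : Pn r C P k) {c : E} (hc : c ∈ C) {a b : Finset E} {i j : Fin 5} (hia : a ⊆ P i) (hjb : b ⊆ P j)
    (ha : Spp r C (Rr P k) c a) (hb : Spp r C (Rr P k) c b) : i = j := by
  by_contra hij
  exact h.sd hc hia hjb (Finset.disjoint_of_subset_left hia (Finset.disjoint_of_subset_right hjb (h.dP i j hij))) ha hb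

/-- many constant rows -/
theorem Pn.i1 (h : Pn r C P k) {a : Finset E} {i : Fin 5} (hia : a ⊆ P i) (hne : a.Nonempty) :
    ∀ S : Finset E, S ⊆ C → (∀ c ∈ S, Cst r C c a) → r ((C \ S) ∪ a) ≤ (C \ S).card + 1 := by
  intro S
  induction S using Finset.induction_on with
  | empty =>
    intro _ _
    rw [Finset.sdiff_empty]
    exact h.up1 hia
  | insert s S hs ih =>
    intro hSC hcst
    have hsC : s ∈ C := hSC (Finset.mem_insert_self _ _)
    have h1 := ih ((Finset.subset_insert _ _).trans hSC) (fun c hc => hcst c (Finset.mem_insert_of_mem hc))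
    have h2 : Cst r C s a := hcst s (Finset.mem_insert_self _ _)
    obtain ⟨y, hy⟩ := hne
    have h3 := h.lo1' (hia hy) hy
    have h4 := h.hr.sub ((C \ S) ∪ a) (C.erase s ∪ a)
    have h5 : r (C ∪ a) ≤ r (((C \ S) ∪ a) ∪ (C.erase s ∪ a)) := h.hr.mono _ _ (by
      intro w hw
      by_cases hws : w = s
      · subst hws
        exact Finset.mem_union_left _ (Finset.mem_union_left _ (Finset.mem_sdiff.2 ⟨hsC, hs⟩))
      · simp only [Finset.mem_union, Finset.mem_erase] at hw ⊢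
        tauto)
    have h6 : r ((C \ insert s S) ∪ a) ≤ r (((C \ S) ∪ a) ∩ (C.erase s ∪ a)) := h.hr.mono _ _ (by
      intro w
      simp only [Finset.mem_union, Finset.mem_erase, Finset.mem_inter, Finset.mem_sdiff, Finset.mem_insert]
      tauto)
    have h7 : ((C \ insert s S).card : ℤ) = (C \ S).card - 1 := by
      have e : C \ insert s S = (C \ S).erase s := by
        ext w
        simp only [Finset.mem_erase, Finset.mem_sdiff, Finset.mem_insert]
        tauto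
      have hm : s ∈ C \ S := Finset.mem_sdiff.2 ⟨hsC, hs⟩
      rw [e, Finset.card_erase_of_mem hm]
      have := Finset.card_pos.2 ⟨s, hm⟩
      push_cast [this]
      omega
    unfold Cst at h2
    linarith

/-- many supported rows -/
theorem Pn.i2 (h : Pn r C P k) {a : Finset E} {i : Fin 5} (hia : a ⊆ P i) :
    ∀ S : Finset E, S ⊆ C → (∀ c ∈ S, Spp r C (Rr P k) c a) → r ((C \ S) ∪ (Rr P k \ a)) ≤ (C \ S).card + 2 := by
  intro S
  induction S using Finset.induction_on with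
  | empty =>
    intro _ _
    rw [Finset.sdiff_empty]
    exact (h.hr.mono _ _ (Finset.union_subset_union_right Finset.sdiff_subset)).trans h.ful
  | insert s S hs ih =>
    intro hSC hcst
    have hsC : s ∈ C := hSC (Finset.mem_insert_self _ _)
    have h1 := ih ((Finset.subset_insert _ _).trans hSC) (fun c hc => hcst c (Finset.mem_insert_of_mem hc))
    have h2 : Spp r C (Rr P k) s a := hcst s (Finset.mem_insert_self _ _)
    obtain ⟨l, m, t, t', g1, g2, g3, g4, g5, g6, g7, g8, g9⟩ := h.mt i i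
    have ht : ∀ {l : Fin 5} {s : E}, s ∈ P l → l ≠ i → l ≠ k → s ∈ Rr P k \ a := by
      intro l s hs hi hk
      have e1 : s ∉ a := fun hh => Finset.disjoint_left.1 (h.dP l i hi) hs (hia hh)
      exact Finset.mem_sdiff.2 ⟨sub_Rr hk hs, e1⟩
    have h3 := h.lo2' g1 g2 g3 (ht g2 g4 g6) (ht g3 g7 g9)
    have h4 := h.hr.sub ((C \ S) ∪ (Rr P k \ a)) (C.erase s ∪ (Rr P k \ a))
    have h5 : r (C ∪ (Rr P k \ a)) ≤ r (((C \ S) ∪ (Rr P k \ a)) ∪ (C.erase s ∪ (Rr P k \ a))) := h.hr.mono _ _ (by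
      intro w hw
      by_cases hws : w = s
      · subst hws
        exact Finset.mem_union_left _ (Finset.mem_union_left _ (Finset.mem_sdiff.2 ⟨hsC, hs⟩))
      · simp only [Finset.mem_union, Finset.mem_erase] at hw ⊢
        tauto)
    have h6 : r ((C \ insert s S) ∪ (Rr P k \ a)) ≤ r (((C \ S) ∪ (Rr P k \ a)) ∩ (C.erase s ∪ (Rr P k \ a))) := h.hr.mono _ _ (by
      intro w
      simp only [Finset.mem_union, Finset.mem_erase, Finset.mem_inter, Finset.mem_sdiff, Finset.mem_insert]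
      tauto)
    have h7 : ((C \ insert s S).card : ℤ) = (C \ S).card - 1 := by
      have e : C \ insert s S = (C \ S).erase s := by
        ext w
        simp only [Finset.mem_erase, Finset.mem_sdiff, Finset.mem_insert]
        tauto
      have hm : s ∈ C \ S := Finset.mem_sdiff.2 ⟨hsC, hs⟩
      rw [e, Finset.card_erase_of_mem hm]
      have := Finset.card_pos.2 ⟨s, hm⟩
      push_cast [this]
      omega
    unfold Spp at h2
    linarith

/-- not every row is constant or supported -/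
theorem Pn.f0 (h : Pn r C P k) {a : Finset E} {i : Fin 5} (hik : i ≠ k) (hia : a ⊆ P i) (h2 : 2 ≤ a.card)
    (hf : ∀ c ∈ C, Cst r C c a ∨ Spp r C (Rr P k) c a) : False := by
  classical
  set α := C.filter fun c => Spp r C (Rr P k) c a with hα
  have hαC : α ⊆ C := Finset.filter_subset _ _
  have e0 : C \ (C \ α) = α := Finset.sdiff_sdiff_eq_self hαC
  have g1 := h.i1 hia (Finset.card_pos.1 (by omega)) (C \ α) Finset.sdiff_subset (by
    intro c hc
    obtain ⟨hc1, hc2⟩ := Finset.mem_sdiff.1 hc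
    exact (hf c hc1).resolve_right fun h' => hc2 (Finset.mem_filter.2 ⟨hc1, h'⟩))
  rw [e0] at g1
  have g2 := h.i2 hia α hαC (fun c hc => (Finset.mem_filter.1 hc).2)
  obtain ⟨l, m, t, t', q1, q2, q3, q4, q5, q6, q7, q8, q9⟩ := h.mt i i
  have ht : ∀ {l : Fin 5} {s : E}, s ∈ P l → l ≠ i → l ≠ k → s ∈ Rr P k \ a := by
    intro l s hs hi hk
    have e1 : s ∉ a := fun hh => Finset.disjoint_left.1 (h.dP l i hi) hs (hia hh)
    exact Finset.mem_sdiff.2 ⟨sub_Rr hk hs, e1⟩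
  have e3 : (C ∪ Rr P k) \ (α ∪ a) = (C \ α) ∪ (Rr P k \ a) := by
    ext w
    have c1 : w ∈ Rr P k → w ∉ C := fun hw => h.cR hw
    have c2 : w ∈ α → w ∈ C := fun hw => hαC hw
    have c3 : w ∈ a → w ∈ Rr P k := fun hw => sub_Rr hik (hia hw)
    simp only [Finset.mem_union, Finset.mem_sdiff]
    tauto
  have g3 := h.c3 (α ∪ a) (Finset.union_subset (hαC.trans Finset.subset_union_left) ((hia.trans (sub_Rr hik)).trans Finset.subset_union_right))
    (h2.trans (Finset.card_le_card Finset.subset_union_right)) (by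
      rw [e3]
      have htt : t ≠ t' := fun e => Finset.disjoint_left.1 (h.dP l m q1) q2 (e ▸ q3)
      have : ({t, t'} : Finset E) ⊆ (C \ α) ∪ (Rr P k \ a) := by
        intro w hw
        rcases Finset.mem_insert.1 hw with rfl | hw
        · exact Finset.mem_union_right _ (ht q2 q4 q6)
        · rw [Finset.mem_singleton.1 hw]
          exact Finset.mem_union_right _ (ht q3 q7 q9)
      have := Finset.card_le_card this
      rwa [Finset.card_pair htt] at this)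
  rw [e3] at g3
  have g4 : (α.card : ℤ) + (C \ α).card = C.card := by
    have := Finset.card_sdiff_add_card_eq_card hαC
    omega
  linarith

/-- two elements of a class differ in a second row -/
theorem Pn.f1 (h : Pn r C P k) {i : Fin 5} (hik : i ≠ k) {y y' : E} (hy : y ∈ P i) (hy' : y' ∈ P i) (hne : y ≠ y') {g : E} (hg : g ∈ C)
    : ∃ c ∈ C, c ≠ g ∧ ¬ Cst r C c {y, y'} := by
  by_contra hcon
  push Not at hcon
  have hia : ({y, y'} : Finset E) ⊆ P i := by
    intro w hw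
    rcases Finset.mem_insert.1 hw with rfl | hw
    · exact hy
    · rw [Finset.mem_singleton.1 hw]; exact hy'
  have g1 := h.i1 hia ⟨y, Finset.mem_insert_self _ _⟩ (C.erase g) (Finset.erase_subset _ _) (fun c hc => hcon c (Finset.mem_erase.1 hc).2 (Finset.mem_erase.1 hc).1)
  have e : C \ C.erase g = {g} := by
    ext w
    simp only [Finset.mem_sdiff, Finset.mem_erase, Finset.mem_singleton]
    constructor
    · rintro ⟨h1, h2⟩
      by_contra h3
      exact h2 ⟨h3, h1⟩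
    · rintro rfl
      exact ⟨hg, fun h => h.1 rfl⟩
  rw [e, Finset.card_singleton] at g1
  have gy : g ≠ y := fun e => Finset.disjoint_left.1 (h.dC i) hy (e ▸ hg)
  have gy' : g ≠ y' := fun e => Finset.disjoint_left.1 (h.dC i) hy' (e ▸ hg)
  have c3 : ({g} ∪ {y, y'} : Finset E).card = 3 := by
    have e2 : ({g} ∪ {y, y'} : Finset E) = {g, y, y'} := rfl
    rw [e2]
    exact Finset.card_eq_three.2 ⟨g, y, y', gy, gy', hne, rfl⟩
  have g2 := h.t3 _ (Finset.union_subset (Finset.singleton_subset_iff.2 (Finset.mem_union_left _ hg)) (hia.trans ((sub_Rr hik).trans Finset.subset_union_right))) c3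
  rw [Nat.cast_one] at g1
  linarith

theorem fine_int (h : Pn r C P k) {c : E} (hc : c ∈ C) {a b : Finset E} {i j : Fin 5} (hia : a ⊆ P i) (hjb : b ⊆ P j)
    (ha : Cst r C c a ∨ Spp r C (Rr P k) c a) (hb : Cst r C c b ∨ Spp r C (Rr P k) c b) :
    Cst r C c (a ∩ b) ∨ Spp r C (Rr P k) c (a ∩ b) := by
  rcases ha with ha | ha
  · exact Or.inl (ha.mono h.hr Finset.inter_subset_left)
  · rcases hb with hb | hb
    · exact Or.inl (hb.mono h.hr Finset.inter_subset_right)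
    · exact Or.inr (h.si hc hia hjb ha hb)

theorem fine_un (h : Pn r C P k) {c : E} (hc : c ∈ C) {a b : Finset E} {i : Fin 5} {y : E} (hy : y ∈ P i) (hya : y ∈ a) (hyb : y ∈ b)
    (ha : Cst r C c a ∨ Spp r C (Rr P k) c a) (hb : Cst r C c b ∨ Spp r C (Rr P k) c b) :
    Cst r C c (a ∪ b) ∨ Spp r C (Rr P k) c (a ∪ b) := by
  rcases ha with ha | ha
  · rcases hb with hb | hb
    · exact Or.inl (h.cu hc hy hya hyb ha hb)
    · exact Or.inr (hb.mono h.hr Finset.subset_union_right)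
  · exact Or.inr (ha.mono h.hr Finset.subset_union_left)

/-- the hub of a side violates it -/
theorem Sde.vl (h : Pn r C P k) {g : E} {i : Fin 5} {a : Finset E} (hs : Sde r C P k g i a) (hg : g ∈ C) : ¬ Cst r C g a ∧ ¬ Spp r C (Rr P k) g a := by
  rw [← not_or]
  intro hcon
  exact h.f0 hs.hi hs.sub hs.two fun c hc => by
    by_cases e : c = g
    · rw [e]; exact hcon
    · exact hs.fn c hc e

/-- base lemma: `a` is a side behind `g` which supports `c`, `b` is a side behind `c` -/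
theorem Pn.bs (h : Pn r C P k) {g c : E} (hg : g ∈ C) (hc : c ∈ C) {i j : Fin 5} {a b : Finset E} (ha : Sde r C P k g i a) (hca : Spp r C (Rr P k) c a)
    (hb : Sde r C P k c j b) : j = i ∧ Sde r C P k c i (a ∩ b) ∧ Cst r C g b ∧ ¬ Spp r C (Rr P k) g b := by
  have hcg : c ≠ g := fun e => (ha.vl h hg).2 (e ▸ hca)
  obtain ⟨v1, v2⟩ := hb.vl h hc
  have hdis : ¬ Disjoint a b := fun hd => v1 (h.sx hc ha.sub hb.sub hb.hi hd hca)
  have hji : j = i := by
    by_contra hji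
    exact hdis (Finset.disjoint_of_subset_left ha.sub (Finset.disjoint_of_subset_right hb.sub (h.dP i j (fun e => hji e.symm))))
  subst hji
  obtain ⟨y, hya, hyb⟩ := Finset.not_disjoint_iff.1 hdis
  have hyP := ha.sub hya
  have hgb : ¬ Spp r C (Rr P k) g b := by
    intro hgb
    refine h.f0 ha.hi (Finset.union_subset ha.sub hb.sub) (ha.two.trans (Finset.card_le_card Finset.subset_union_left)) fun e he => ?_
    by_cases e1 : e = g
    · rw [e1]; exact Or.inr (hgb.mono h.hr Finset.subset_union_right)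
    by_cases e2 : e = c
    · rw [e2]; exact Or.inr (hca.mono h.hr Finset.subset_union_left)
    exact fine_un h he hyP hya hyb (ha.fn e he e1) (hb.fn e he e2)
  have hcb : Cst r C g b := (hb.fn g hg hcg.symm).resolve_right hgb
  refine ⟨rfl, ⟨ha.hi, Finset.inter_subset_left.trans ha.sub, ?_, ?_⟩, hcb, hgb⟩
  · by_contra h2
    have hint : a ∩ b = {y} := by
      have : (a ∩ b).card = 1 := by
        have := Finset.card_pos.2 ⟨y, Finset.mem_inter.2 ⟨hya, hyb⟩⟩
        omega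
      obtain ⟨z, hz⟩ := Finset.card_eq_one.1 this
      have : y ∈ ({z} : Finset E) := hz ▸ Finset.mem_inter.2 ⟨hya, hyb⟩
      rw [hz, Finset.mem_singleton.1 this]
    -- the difference
    have hbR : b ⊆ Rr P k := hb.sub.trans (sub_Rr hb.hi)
    obtain ⟨z, hza, hzb⟩ : ∃ z ∈ a, z ∉ b := by
      by_contra hcon
      push Not at hcon
      have : a ⊆ a ∩ b := fun w hw => Finset.mem_inter.2 ⟨hw, hcon w hw⟩
      have := Finset.card_le_card this
      have := ha.two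
      omega
    have key : ∀ e ∈ C, e ≠ c → Spp r C (Rr P k) e b → Cst r C e a ∧ Spp r C (Rr P k) e (b \ a) ∨ e = g := by
      intro e he hec heb
      by_cases e1 : e = g
      · exact Or.inr e1
      left
      have hea : Cst r C e a := by
        refine (ha.fn e he e1).resolve_right fun h' => ?_
        have := h.s2 he (Finset.inter_subset_left.trans (ha.sub.trans (sub_Rr ha.hi))) (h.si he ha.sub hb.sub h' heb)
        omega
      exact ⟨hea, h.sc he (ha.sub hza) ha.hi hza hzb heb hea⟩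
    have hba : (b \ a).card ≤ 1 := by
      by_contra h3
      refine h.f0 (a := b \ a) ha.hi (Finset.sdiff_subset.trans hb.sub) (by omega) fun e he => ?_
      by_cases e1 : e = c
      · rw [e1]
        exact Or.inl (h.sx hc ha.sub (Finset.sdiff_subset.trans hb.sub) hb.hi Finset.disjoint_sdiff hca)
      by_cases e2 : e = g
      · rw [e2]; exact Or.inl (hcb.mono h.hr Finset.sdiff_subset)
      rcases hb.fn e he e1 with h4 | h4
      · exact Or.inl (h4.mono h.hr Finset.sdiff_subset)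
      · rcases key e he e1 h4 with h5 | h5
        · exact Or.inr h5.2
        · exact absurd h5 e2
    obtain ⟨y2, hy2b, hy2⟩ : ∃ z ∈ b, z ≠ y := by
      by_contra hcon
      push Not at hcon
      have : b ⊆ {y} := fun w hw => Finset.mem_singleton.2 (hcon w hw)
      have := Finset.card_le_card this
      have := hb.two
      rw [Finset.card_singleton] at *
      omega
    obtain ⟨e, he, hec, hne⟩ := h.f1 ha.hi hyP (hb.sub hy2b) hy2.symm hc
    have hsub : ({y, y2} : Finset E) ⊆ b := by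
      intro w hw
      rcases Finset.mem_insert.1 hw with rfl | hw
      · exact hyb
      · rw [Finset.mem_singleton.1 hw]; exact hy2b
    have heb : ¬ Cst r C e b := fun h' => hne (h'.mono h.hr hsub)
    have hes := (hb.fn e he hec).resolve_left heb
    rcases key e he hec hes with h5 | h5
    · have := h.s2 he (Finset.sdiff_subset.trans hbR) h5.2
      omega
    · subst h5
      exact hgb hes
  · intro e he hec
    by_cases e1 : e = g
    · rw [e1]; exact Or.inl (hcb.mono h.hr Finset.inter_subset_right)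
    exact fine_int h he ha.sub hb.sub (ha.fn e he e1) (hb.fn e he hec)

/-- `c` has no side -/
def NoSd (r : Finset E → ℤ) (C : Finset E) (P : Fin 5 → Finset E) (k : Fin 5) (c : E) : Prop := ∀ i a, ¬ Sde r C P k c i a

/-- a side contains the support of a row without sides -/
theorem Pn.gd (h : Pn r C P k) : ∀ n : ℕ, ∀ {g : E} {i : Fin 5} {a : Finset E}, g ∈ C → a.card ≤ n → Sde r C P k g i a →
    ∃ c ∈ C, Spp r C (Rr P k) c a ∧ NoSd r C P k c := by
  intro n
  induction n with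
  | zero =>
    intro g i a _ hn ha
    have := ha.two
    omega
  | succ n ih =>
    intro g i a hg hn ha
    by_cases hex : ∃ g' ∈ C, ∃ b, Sde r C P k g' i b ∧ b ⊆ a ∧ b ≠ a
    · obtain ⟨g', hg', b, hb, hba, hne⟩ := hex
      have hlt := Finset.card_lt_card (Finset.ssubset_iff_subset_ne.2 ⟨hba, hne⟩)
      obtain ⟨c, hc, hcb, hcn⟩ := ih hg' (by omega) hb
      exact ⟨c, hc, hcb.mono h.hr hba, hcn⟩
    · push Not at hex
      obtain ⟨y, hy, y', hy', hyy⟩ := Finset.one_lt_card.1 (by have := ha.two; omega : 1 < a.card)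
      obtain ⟨c, hc, hcg, hcn⟩ := h.f1 ha.hi (ha.sub hy) (ha.sub hy') hyy hg
      have hca : ¬ Cst r C c a := fun h' => hcn (h'.mono h.hr (by
        intro w hw
        rcases Finset.mem_insert.1 hw with rfl | hw
        · exact hy
        · rw [Finset.mem_singleton.1 hw]; exact hy'))
      have hcs := (ha.fn c hc hcg).resolve_left hca
      refine ⟨c, hc, hcs, fun j b hb => ?_⟩
      obtain ⟨rfl, h1, -, -⟩ := h.bs hg hc ha hcs hb
      have h2 := hex c hc _ h1 Finset.inter_subset_left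
      exact (hb.vl h hc).2 (hcs.mono h.hr (by rw [← h2]; exact Finset.inter_subset_right))

/-- nested sides with a new row: a second row without sides -/
theorem Pn.ns (h : Pn r C P k) {g c : E} (hg : g ∈ C) (hc : c ∈ C) {i : Fin 5} {a b : Finset E} (ha : Sde r C P k g i a) (hb : Sde r C P k g i b)
    (hab : a ⊆ b) (hcb : Spp r C (Rr P k) c b) (hca : ¬ Spp r C (Rr P k) c a) :
    ∃ c' ∈ C, Spp r C (Rr P k) c' b ∧ ¬ Spp r C (Rr P k) c' a ∧ NoSd r C P k c' := by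
  by_cases hn : NoSd r C P k c
  · exact ⟨c, hc, hcb, hca, hn⟩
  obtain ⟨j, b', hb'⟩ : ∃ j b', Sde r C P k c j b' := by
    by_contra hcon
    push Not at hcon
    exact hn hcon
  obtain ⟨rfl, h1, h2, h3⟩ := h.bs hg hc hb hcb hb'
  have hcg : c ≠ g := fun e => (hb.vl h hg).2 (e ▸ hcb)
  have hcc : Cst r C c a := (ha.fn c hc hcg).resolve_right hca
  have h4 : (a ∩ b').card ≤ 1 := by
    by_contra h5
    refine h.f0 (a := a ∩ b') ha.hi (Finset.inter_subset_left.trans ha.sub) (by omega) fun e he => ?_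
    by_cases e1 : e = c
    · rw [e1]; exact Or.inl (hcc.mono h.hr Finset.inter_subset_left)
    by_cases e2 : e = g
    · rw [e2]; exact Or.inl (h2.mono h.hr Finset.inter_subset_right)
    exact fine_int h he ha.sub hb'.sub (ha.fn e he e2) (hb'.fn e he e1)
  obtain ⟨c', hc', h6, h7⟩ := h.gd _ hc le_rfl h1
  refine ⟨c', hc', h6.mono h.hr Finset.inter_subset_left, fun h8 => ?_, h7⟩
  have h9 := h.si hc' ha.sub h1.sub h8 h6
  have h10 := h.s2 hc' (Finset.inter_subset_left.trans (ha.sub.trans (sub_Rr ha.hi))) h9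
  have h11 : a ∩ (b ∩ b') ⊆ a ∩ b' := fun w hw => by
    simp only [Finset.mem_inter] at hw ⊢
    exact ⟨hw.1, hw.2.2⟩
  have := Finset.card_le_card h11
  omega

/-- a bad hub: two disjoint sides, or nested sides with a new row -/
def Bdd (r : Finset E → ℤ) (C : Finset E) (P : Fin 5 → Finset E) (k : Fin 5) (g : E) : Prop :=
  (∃ i j a b, Sde r C P k g i a ∧ Sde r C P k g j b ∧ Disjoint a b) ∨
  (∃ i a b, Sde r C P k g i a ∧ Sde r C P k g i b ∧ a ⊆ b ∧ ∃ c ∈ C, Spp r C (Rr P k) c b ∧ ¬ Spp r C (Rr P k) c a)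

theorem Pn.bad2 (h : Pn r C P k) {g : E} (hg : g ∈ C) (hb : Bdd r C P k g) : ∃ c1 ∈ C, ∃ c2 ∈ C, c1 ≠ c2 ∧ NoSd r C P k c1 ∧ NoSd r C P k c2 ∧
    (∃ i a, Sde r C P k g i a ∧ Spp r C (Rr P k) c1 a) ∧ (∃ i a, Sde r C P k g i a ∧ Spp r C (Rr P k) c2 a) := by
  rcases hb with ⟨i, j, a, b, ha, hb, hd⟩ | ⟨i, a, b, ha, hb, hab, c, hc, hcb, hca⟩
  · obtain ⟨c1, h1, h2, h3⟩ := h.gd _ hg le_rfl ha
    obtain ⟨c2, h4, h5, h6⟩ := h.gd _ hg le_rfl hb
    refine ⟨c1, h1, c2, h4, ?_, h3, h6, ⟨i, a, ha, h2⟩, ⟨j, b, hb, h5⟩⟩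
    rintro rfl
    exact h.sd h1 ha.sub hb.sub hd h2 h5
  · obtain ⟨c1, h1, h2, h3⟩ := h.gd _ hg le_rfl ha
    obtain ⟨c2, h4, h5, h5', h6⟩ := h.ns hg hc ha hb hab hcb hca
    refine ⟨c1, h1, c2, h4, ?_, h3, h6, ⟨i, a, ha, h2⟩, ⟨i, b, hb, h5⟩⟩
    rintro rfl
    exact h5' h2

/-- the two (or one) hubs without sides -/
structure Ex2 (r : Finset E → ℤ) (C : Finset E) (P : Fin 5 → Finset E) (k : Fin 5) (c1 c2 : E) : Prop where
  m1 : c1 ∈ C
  m2 : c2 ∈ C
  gd : ∀ c ∈ C, NoSd r C P k c → c = c1 ∨ c = c2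
  s1 : ∀ g ∈ C, g ≠ c1 → g ≠ c2 → ∃ i a, Sde r C P k g i a ∧ Spp r C (Rr P k) c1 a
  s2 : ∀ g ∈ C, g ≠ c1 → g ≠ c2 → ∃ i a, Sde r C P k g i a ∧ Spp r C (Rr P k) c2 a
  ex : ∃ g ∈ C, g ≠ c1 ∧ g ≠ c2

/-- case E1: all but two hubs are bad -/
theorem Pn.e1 (h : Pn r C P k) {Lv : E → Prop} (h3 : 3 ≤ C.card) (hL : ∀ c ∈ C, NoSd r C P k c → Lv c) (hB : ∀ c ∈ C, ¬ Lv c → Bdd r C P k c)
    (hn : ¬ ∃ k1 ∈ C, ∃ k2 ∈ C, ∃ k3 ∈ C, k1 ≠ k2 ∧ k1 ≠ k3 ∧ k2 ≠ k3 ∧ Lv k1 ∧ Lv k2 ∧ Lv k3) :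
    ∃ c1 c2, Ex2 r C P k c1 c2 ∧ c1 ≠ c2 ∧ ∀ g ∈ C, g ≠ c1 → g ≠ c2 → ¬ Lv g := by
  have h0 : ∃ g ∈ C, ¬ Lv g := by
    by_contra hcon
    push Not at hcon
    obtain ⟨a, ha, b, hb, c, hc, hab, hac, hbc⟩ := Finset.two_lt_card.1 (by omega : 2 < C.card)
    exact hn ⟨a, ha, b, hb, c, hc, hab, hac, hbc, hcon a ha, hcon b hb, hcon c hc⟩
  obtain ⟨g0, hg0, hl0⟩ := h0
  obtain ⟨c1, m1, c2, m2, h12, n1, n2, s1, s2⟩ := h.bad2 hg0 (hB g0 hg0 hl0)
  have l1 := hL c1 m1 n1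
  have l2 := hL c2 m2 n2
  have third : ∀ c ∈ C, Lv c → c = c1 ∨ c = c2 := by
    intro c hc hl
    by_contra hcon
    push Not at hcon
    exact hn ⟨c1, m1, c2, m2, c, hc, h12, hcon.1.symm, hcon.2.symm, l1, l2, hl⟩
  have bad : ∀ g ∈ C, g ≠ c1 → g ≠ c2 → ¬ Lv g := fun g hg e1 e2 hl => (third g hg hl).elim e1 e2
  have both : ∀ g ∈ C, g ≠ c1 → g ≠ c2 → (∃ i a, Sde r C P k g i a ∧ Spp r C (Rr P k) c1 a) ∧ (∃ i a, Sde r C P k g i a ∧ Spp r C (Rr P k) c2 a) := by
    intro g hg e1 e2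
    obtain ⟨d1, q1, d2, q2, q12, p1, p2, t1, t2⟩ := h.bad2 hg (hB g hg (bad g hg e1 e2))
    rcases third d1 q1 (hL d1 q1 p1) with rfl | rfl
    · rcases third d2 q2 (hL d2 q2 p2) with rfl | rfl
      · exact absurd rfl q12
      · exact ⟨t1, t2⟩
    · rcases third d2 q2 (hL d2 q2 p2) with rfl | rfl
      · exact ⟨t2, t1⟩
      · exact absurd rfl q12
  refine ⟨c1, c2, ⟨m1, m2, fun c hc hn => third c hc (hL c hc hn), fun g hg e1 e2 => (both g hg e1 e2).1, fun g hg e1 e2 => (both g hg e1 e2).2,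
    g0, hg0, ?_, ?_⟩, h12, bad⟩
  · rintro rfl; exact hl0 l1
  · rintro rfl; exact hl0 l2

/-- case E2: all but one hub have a side -/
theorem Pn.e2 (h : Pn r C P k) {Lv : E → Prop} (h3 : 3 ≤ C.card) (hL : ∀ c ∈ C, NoSd r C P k c → Lv c) (hB : ∀ c ∈ C, ¬ Lv c → ∃ i a, Sde r C P k c i a)
    (hn : ¬ ∃ k1 ∈ C, ∃ k2 ∈ C, k1 ≠ k2 ∧ Lv k1 ∧ Lv k2) :
    ∃ c1, Ex2 r C P k c1 c1 := by
  have h0 : ∃ g ∈ C, ¬ Lv g := by
    by_contra hcon
    push Not at hcon
    obtain ⟨a, ha, b, hb, c, hc, hab, hac, hbc⟩ := Finset.two_lt_card.1 (by omega : 2 < C.card)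
    exact hn ⟨a, ha, b, hb, hab, hcon a ha, hcon b hb⟩
  obtain ⟨g0, hg0, hl0⟩ := h0
  obtain ⟨i0, a0, s0⟩ := hB g0 hg0 hl0
  obtain ⟨c1, m1, q1, n1⟩ := h.gd _ hg0 le_rfl s0
  have l1 := hL c1 m1 n1
  have third : ∀ c ∈ C, Lv c → c = c1 := by
    intro c hc hl
    by_contra hcon
    exact hn ⟨c, hc, c1, m1, hcon, hl, l1⟩
  have sd : ∀ g ∈ C, g ≠ c1 → g ≠ c1 → ∃ i a, Sde r C P k g i a ∧ Spp r C (Rr P k) c1 a := by
    intro g hg e1 _
    obtain ⟨i, a, sa⟩ := hB g hg fun hl => e1 (third g hg hl)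
    obtain ⟨d, hd, q, nd⟩ := h.gd _ hg le_rfl sa
    have := third d hd (hL d hd nd)
    subst this
    exact ⟨i, a, sa, q⟩
  exact ⟨c1, ⟨m1, m1, fun c hc hn => Or.inl (third c hc (hL c hc hn)), sd, sd, g0, hg0, fun e => hl0 (e ▸ l1), fun e => hl0 (e ▸ l1)⟩⟩

/-- two hubs with sides around the same row are comparable -/
theorem Pn.cmp (h : Pn r C P k) {g g' c : E} (hg : g ∈ C) (hg' : g' ∈ C) (hc : c ∈ C) (hne : g ≠ g') {i j : Fin 5} {a b : Finset E} (ha : Sde r C P k g i a)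
    (hb : Sde r C P k g' j b) (hca : Spp r C (Rr P k) c a) (hcb : Spp r C (Rr P k) c b) : Spp r C (Rr P k) g b ∨ Spp r C (Rr P k) g' a := by
  have hij := h.sij hc ha.sub hb.sub hca hcb
  subst hij
  by_contra hcon
  push Not at hcon
  have h1 : Cst r C g b := (hb.fn g hg hne).resolve_right hcon.1
  have h2 : Cst r C g' a := (ha.fn g' hg' hne.symm).resolve_right hcon.2
  have h3 := h.s2 hc (Finset.inter_subset_left.trans (ha.sub.trans (sub_Rr ha.hi))) (h.si hc ha.sub hb.sub hca hcb)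
  refine h.f0 ha.hi (Finset.inter_subset_left.trans ha.sub) h3 fun e he => ?_
  by_cases e1 : e = g
  · rw [e1]; exact Or.inl (h1.mono h.hr Finset.inter_subset_right)
  by_cases e2 : e = g'
  · rw [e2]; exact Or.inl (h2.mono h.hr Finset.inter_subset_left)
  exact fine_int h he ha.sub hb.sub (ha.fn e he e1) (hb.fn e he e2)

/-- the top hub -/
theorem Pn.top (h : Pn r C P k) {c1 c2 : E} (hx : Ex2 r C P k c1 c2) {i0 : Fin 5} (hi0 : i0 ≠ k) (h2 : 2 ≤ (P i0).card) :
    ∃ g ∈ C, g ≠ c1 ∧ g ≠ c2 ∧ (∀ i, i ≠ k → ¬ Spp r C (Rr P k) g (P i)) ∧ (∀ c ∈ C, c ≠ g → ∃ i, i ≠ k ∧ Spp r C (Rr P k) c (P i)) := by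
  obtain ⟨g', hg', e1', e2'⟩ := hx.ex
  obtain ⟨i1, a1, sa1, q1⟩ := hx.s1 g' hg' e1' e2'
  obtain ⟨i2, a2, sa2, q2⟩ := hx.s2 g' hg' e1' e2'
  obtain ⟨g, hg, v⟩ : ∃ g ∈ C, ¬ (Cst r C g (P i0) ∨ Spp r C (Rr P k) g (P i0)) := by
    by_contra hcon
    push Not at hcon
    exact h.f0 hi0 Finset.Subset.rfl h2 hcon
  rw [not_or] at v
  have hno : ∀ i, i ≠ k → ¬ Spp r C (Rr P k) g (P i) := by
    intro i hi hs
    by_cases e : i = i0
    · subst e; exact v.2 hs
    · exact v.1 (h.sx hg Finset.Subset.rfl Finset.Subset.rfl hi0 (h.dP i i0 e) hs)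
  have hg1 : g ≠ c1 := by
    rintro rfl
    exact hno i1 sa1.hi (q1.mono h.hr sa1.sub)
  have hg2 : g ≠ c2 := by
    rintro rfl
    exact hno i2 sa2.hi (q2.mono h.hr sa2.sub)
  refine ⟨g, hg, hg1, hg2, hno, fun c hc hcg => ?_⟩
  by_contra hcon
  push Not at hcon
  have hc1 : c ≠ c1 := by
    rintro rfl
    exact hcon i1 sa1.hi (q1.mono h.hr sa1.sub)
  have hc2 : c ≠ c2 := by
    rintro rfl
    exact hcon i2 sa2.hi (q2.mono h.hr sa2.sub)
  obtain ⟨i, a, sa, qa⟩ := hx.s1 g hg hg1 hg2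
  obtain ⟨j, b, sb, qb⟩ := hx.s1 c hc hc1 hc2
  rcases h.cmp hg hc hx.m1 hcg.symm sa sb qa qb with h5 | h5
  · exact hno j sb.hi (h5.mono h.hr sb.sub)
  · exact hcon i sa.hi (h5.mono h.hr sa.sub)

/-- the two cases -/
theorem Pn.nd (h : Pn r C P k) {c1 c2 : E} (hx : Ex2 r C P k c1 c2) {i0 : Fin 5} (hi0 : i0 ≠ k) (h2 : 2 ≤ (P i0).card) :
    ∃ g ∈ C, g ≠ c1 ∧ g ≠ c2 ∧ ((∃ i, i ≠ k ∧ (∀ j, j ≠ i → j ≠ k → (P j).card = 1) ∧ ∀ c ∈ C, c ≠ g → Spp r C (Rr P k) c (P i)) ∨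
      (∃ i1 i2, i1 ≠ k ∧ i2 ≠ k ∧ i1 ≠ i2 ∧ C = {c1, c2, g} ∧ c1 ≠ c2 ∧ Spp r C (Rr P k) c1 (P i1) ∧ Spp r C (Rr P k) c2 (P i2) ∧
        (∀ j, j ≠ i1 → j ≠ i2 → j ≠ k → (P j).card = 1) ∧ ¬ Cst r C g (P i1) ∧ ¬ Cst r C g (P i2) ∧ ¬ Cst r C c1 (P i1) ∧ ¬ Cst r C c2 (P i2))) := by
  obtain ⟨g, hg, hg1, hg2, hno, hall⟩ := h.top hx hi0 h2
  refine ⟨g, hg, hg1, hg2, ?_⟩
  obtain ⟨i1, a1, sa1, q1⟩ := hx.s1 g hg hg1 hg2
  obtain ⟨i2, a2, sa2, q2⟩ := hx.s2 g hg hg1 hg2
  have r1 := q1.mono h.hr sa1.sub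
  have r2 := q2.mono h.hr sa2.sub
  -- a class with two elements is a side behind the top hub
  have side : ∀ i, i ≠ k → 2 ≤ (P i).card → Sde r C P k g i (P i) := by
    intro i hi hc
    refine ⟨hi, Finset.Subset.rfl, hc, fun c hcC hcg => ?_⟩
    obtain ⟨j, hj, hs⟩ := hall c hcC hcg
    by_cases e : j = i
    · subst e; exact Or.inr hs
    · exact Or.inl (h.sx hcC Finset.Subset.rfl Finset.Subset.rfl hi (h.dP j i e) hs)
  have single : ∀ j, j ≠ i1 → j ≠ i2 → j ≠ k → (P j).card = 1 := by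
    intro j e1 e2 e3
    by_contra hcon
    have := Finset.card_pos.2 (h.ne j)
    obtain ⟨c, hc, hs, hn⟩ := h.gd _ hg le_rfl (side j e3 (by omega))
    rcases hx.gd c hc hn with rfl | rfl
    · exact e1 (h.sij hc Finset.Subset.rfl Finset.Subset.rfl hs r1)
    · exact e2 (h.sij hc Finset.Subset.rfl Finset.Subset.rfl hs r2)
  -- the class of a bad hub
  have cls : ∀ c ∈ C, c ≠ c1 → c ≠ c2 → c ≠ g → Spp r C (Rr P k) c (P i1) ∧ Spp r C (Rr P k) c (P i2) := by
    intro c hc e1 e2 e3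
    obtain ⟨j, hj, hs⟩ := hall c hc e3
    have aux : ∀ {i : Fin 5} {c' : E}, c' ∈ C → Spp r C (Rr P k) c' (P i) → (∃ l a, Sde r C P k c l a ∧ Spp r C (Rr P k) c' a) → Spp r C (Rr P k) c (P i) := by
      intro i c' hc' hr' ⟨l, a, sa, qa⟩
      have hl := h.sij hc' Finset.Subset.rfl Finset.Subset.rfl (qa.mono h.hr sa.sub) hr'
      subst hl
      by_cases e : j = l
      · subst e; exact hs
      · exact absurd (h.sx hc Finset.Subset.rfl sa.sub sa.hi (Finset.disjoint_of_subset_right sa.sub (h.dP j l e)) hs) (sa.vl h hc).1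
    exact ⟨aux hx.m1 r1 (hx.s1 c hc e1 e2), aux hx.m2 r2 (hx.s2 c hc e1 e2)⟩
  by_cases h12 : i1 = i2
  · subst h12
    left
    refine ⟨i1, sa1.hi, fun j e1 e3 => single j e1 e1 e3, fun c hc hcg => ?_⟩
    by_cases e1 : c = c1
    · rw [e1]; exact r1
    by_cases e2 : c = c2
    · rw [e2]; exact r2
    exact (cls c hc e1 e2 hcg).1
  · right
    have hc12 : c1 ≠ c2 := by
      rintro rfl
      exact h12 (h.sij hx.m1 Finset.Subset.rfl Finset.Subset.rfl r1 r2)
    have hC : C = {c1, c2, g} := by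
      apply Finset.Subset.antisymm
      · intro c hc
        simp only [Finset.mem_insert, Finset.mem_singleton]
        by_contra hcon
        push Not at hcon
        obtain ⟨t1, t2⟩ := cls c hc hcon.1 hcon.2.1 hcon.2.2
        exact h12 (h.sij hc Finset.Subset.rfl Finset.Subset.rfl t1 t2)
      · intro c hc
        simp only [Finset.mem_insert, Finset.mem_singleton] at hc
        rcases hc with rfl | rfl | rfl
        · exact hx.m1
        · exact hx.m2
        · exact hg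
    -- the rows `c1`, `c2` are not constant
    have nc : ∀ {c c' : E} {i j : Fin 5} {a : Finset E}, c ∈ C → c' ∈ C → C = {c, c', g} → i ≠ j → i ≠ k → j ≠ k → Sde r C P k g i a → Spp r C (Rr P k) c' (P j) → ¬ Cst r C c a := by
      intro c c' i j a hc hc' hC hij hi hj sa hs hcst
      obtain ⟨y, hy, y', hy', hyy⟩ := Finset.one_lt_card.1 (by have := sa.two; omega : 1 < a.card)
      obtain ⟨e, he, heg, hen⟩ := h.f1 sa.hi (sa.sub hy) (sa.sub hy') hyy hg
      have hsub : ({y, y'} : Finset E) ⊆ a := by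
        intro w hw
        rcases Finset.mem_insert.1 hw with rfl | hw
        · exact hy
        · rw [Finset.mem_singleton.1 hw]; exact hy'
      rw [hC] at he
      simp only [Finset.mem_insert, Finset.mem_singleton] at he
      rcases he with rfl | rfl | rfl
      · exact hen (hcst.mono h.hr hsub)
      · exact hen ((h.sx hc' Finset.Subset.rfl sa.sub sa.hi (Finset.disjoint_of_subset_right sa.sub (h.dP j i hij.symm)) hs).mono h.hr hsub)
      · exact heg rfl
    refine ⟨i1, i2, sa1.hi, sa2.hi, h12, hC, hc12, r1, r2, single, fun h' => (sa1.vl h hg).1 (h'.mono h.hr sa1.sub), fun h' => (sa2.vl h hg).1 (h'.mono h.hr sa2.sub),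
      fun h' => ?_, fun h' => ?_⟩
    · exact nc hx.m1 hx.m2 hC h12 sa1.hi sa2.hi sa1 r2 (h'.mono h.hr sa1.sub)
    · refine nc hx.m2 hx.m1 ?_ (Ne.symm h12) sa2.hi sa1.hi sa2 r1 (h'.mono h.hr sa2.sub)
      rw [hC]
      ext w
      simp only [Finset.mem_insert, Finset.mem_singleton]
      tauto

end basic

end Pool.Agent.QU.Exc
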