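import Pool.Agent.QUP.ExcA

/-!
# QUP/ExcB: from separations to sides
-/

set_option autoImplicit false
set_option linter.all false

namespace Pool.Agent.QU.Exc

open QUB (Rk)

variable {E : Type} [DecidableEq E] {r : Finset E → ℤ} {C : Finset E} {P : Fin 5 → Finset E} {k : Fin 5}

theorem un_card (hr : Rk r) (X : Finset E) : ∀ Y : Finset E, r (X ∪ Y) ≤ r X + Y.card := by
  intro Y
  induction Y using Finset.induction_on with
  | empty => simp
  | insert a s ha ih =>
    rw [Finset.union_insert, Finset.card_insert_of_notMem ha]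
    have := hr.unit (X ∪ s) a
    push_cast
    linarith

/-- a small side behind `g` -/
structure Sid (r : Finset E → ℤ) (C : Finset E) (P : Fin 5 → Finset E) (k : Fin 5) (g : E) (i : Fin 5) (A : Finset E) : Prop where
  hi : i ≠ k
  sub : A ⊆ (C ∪ Rr P k).erase g
  cls : A ∩ Rr P k ⊆ P i
  two : 2 ≤ (A ∩ Rr P k).card
  rA : r (insert g A) ≤ (A ∩ C).card + 2
  rB : r (insert g ((C ∪ Rr P k).erase g \ A)) + (A ∩ C).card ≤ C.card + 2

theorem Sid.gA {g : E} {i : Fin 5} {A : Finset E} (s : Sid r C P k g i A) : g ∉ A := fun h => (Finset.mem_erase.1 (s.sub h)).1 rfl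

theorem Sid.sp (h : Pn r C P k) {g : E} {i : Fin 5} {A : Finset E} (s : Sid r C P k g i A) (hg : g ∈ C) {c : E} (hc : c ∈ C) (hcA : c ∈ A) :
    Spp r C (Rr P k) c (A ∩ Rr P k) := by
  have hgA := s.gA
  have h1 : C.erase c ∪ (Rr P k \ (A ∩ Rr P k)) ⊆ insert g ((C ∪ Rr P k).erase g \ A) ∪ (A ∩ C).erase c := by
    intro w hw
    have q1 : w ∈ Rr P k → w ∉ C := fun hh => h.cR hh
    have q2 : w = g → w ∈ C := fun hh => hh ▸ hg
    simp only [Finset.mem_union, Finset.mem_insert, Finset.mem_sdiff, Finset.mem_erase, Finset.mem_inter] at hw ⊢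
    by_cases e : w = g
    · exact Or.inl (Or.inl e)
    · tauto
  have h2 := (h.hr.mono _ _ h1).trans (un_card h.hr _ _)
  have hm : c ∈ A ∩ C := Finset.mem_inter.2 ⟨hcA, hc⟩
  have h3 : (((A ∩ C).erase c).card : ℤ) = (A ∩ C).card - 1 := by
    rw [Finset.card_erase_of_mem hm]
    have := Finset.card_pos.2 ⟨c, hm⟩
    push_cast [this]
    omega
  have h4 := s.rB
  unfold Spp
  linarith

theorem Sid.cs (h : Pn r C P k) {g : E} {i : Fin 5} {A : Finset E} (s : Sid r C P k g i A) (hg : g ∈ C) {c : E} (hc : c ∈ C) (hcA : c ∉ A) (hcg : c ≠ g) :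
    Cst r C c (A ∩ Rr P k) := by
  have hgA := s.gA
  have h1 : C.erase c ∪ (A ∩ Rr P k) ⊆ insert g A ∪ ((C \ A).erase c).erase g := by
    intro w hw
    simp only [Finset.mem_union, Finset.mem_insert, Finset.mem_sdiff, Finset.mem_erase, Finset.mem_inter] at hw ⊢
    tauto
  have h2 := (h.hr.mono _ _ h1).trans (un_card h.hr _ _)
  have hm : c ∈ C \ A := Finset.mem_sdiff.2 ⟨hc, hcA⟩
  have hm2 : g ∈ (C \ A).erase c := Finset.mem_erase.2 ⟨hcg.symm, Finset.mem_sdiff.2 ⟨hg, hgA⟩⟩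
  have h3 : ((((C \ A).erase c).erase g).card : ℤ) = (C \ A).card - 2 := by
    have q1 := Finset.card_erase_add_one hm2
    have q2 := Finset.card_erase_add_one hm
    omega
  have h5 : ((C \ A).card : ℤ) + (A ∩ C).card = C.card := by
    have := Finset.card_sdiff_add_card_inter C A
    rw [Finset.inter_comm] at this
    omega
  have h4 := s.rA
  unfold Cst
  linarith

theorem Sid.sd (h : Pn r C P k) {g : E} {i : Fin 5} {A : Finset E} (s : Sid r C P k g i A) (hg : g ∈ C) : Sde r C P k g i (A ∩ Rr P k) :=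
  ⟨s.hi, s.cls, s.two, fun c hc hcg => by
    by_cases hcA : c ∈ A
    · exact Or.inr (s.sp h hg hc hcA)
    · exact Or.inl (s.cs h hg hc hcA hcg)⟩

/-- lower bound -/
theorem Pn.lwb (h : Pn r C P k) {g : E} (hg : g ∈ C) {X : Finset E} (hX : X ⊆ (C ∪ Rr P k).erase g) :
    r (C ∪ X) + (X ∩ C).card + 1 ≤ r (insert g X) + C.card := by
  have hgX : g ∉ X := fun hh => (Finset.mem_erase.1 (hX hh)).1 rfl
  have h1 : C ∪ X ⊆ insert g X ∪ (C.erase g \ X) := by
    intro w hw
    simp only [Finset.mem_union, Finset.mem_insert, Finset.mem_sdiff, Finset.mem_erase] at hw ⊢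
    tauto
  have h2 := (h.hr.mono _ _ h1).trans (un_card h.hr _ _)
  have h3 : (C.erase g \ X).card + (X ∩ C).card + 1 = C.card := by
    have q1 := Finset.card_sdiff_add_card_inter (C.erase g) X
    have q2 := Finset.card_erase_add_one hg
    have q3 : C.erase g ∩ X = X ∩ C := by
      ext w
      simp only [Finset.mem_inter, Finset.mem_erase]
      constructor
      · rintro ⟨⟨a, b⟩, c⟩; exact ⟨c, b⟩
      · rintro ⟨a, b⟩; exact ⟨⟨fun e => hgX (e ▸ a), b⟩, a⟩
    rw [q3] at q1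
    omega
  have h4 : ((C.erase g \ X).card : ℤ) + (X ∩ C).card + 1 = C.card := by exact_mod_cast h3
  linarith

theorem Pn.loc1 (h : Pn r C P k) {g : E} (hg : g ∈ C) {A : Finset E} (hA : A ⊆ (C ∪ Rr P k).erase g) (hA2 : 2 ≤ A.card)
    (hl : r (insert g A) + r (insert g ((C ∪ Rr P k).erase g \ A)) ≤ C.card + 4) {i : Fin 5} (hi : i ≠ k) (hcl : A ∩ Rr P k ⊆ P i) :
    Sid r C P k g i A := by
  have hgA : g ∉ A := fun hh => (Finset.mem_erase.1 (hA hh)).1 rfl
  set B := (C ∪ Rr P k).erase g \ A with hB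
  have hBs : B ⊆ (C ∪ Rr P k).erase g := Finset.sdiff_subset
  obtain ⟨l, m, t, t', q1, q2, q3, q4, q5, q6, q7, q8, q9⟩ := h.mt i i
  have ht : ∀ {l : Fin 5} {s : E}, s ∈ P l → l ≠ i → l ≠ k → s ∈ B := by
    intro l s hs hli hlk
    have e1 : s ∉ A := fun hh => Finset.disjoint_left.1 (h.dP l i hli) hs (hcl (Finset.mem_inter.2 ⟨hh, sub_Rr hlk hs⟩))
    have e2 : s ≠ g := fun e => Finset.disjoint_left.1 (h.dC l) hs (e ▸ hg)
    exact Finset.mem_sdiff.2 ⟨Finset.mem_erase.2 ⟨e2, Finset.mem_union_right _ (sub_Rr hlk hs)⟩, e1⟩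
  have b1 := h.lwb hg hBs
  have b2 := h.lo2' q1 q2 q3 (ht q2 q4 q6) (ht q3 q7 q9)
  have a1 := h.lwb hg hA
  have hcard : ((A ∩ C).card : ℤ) + (B ∩ C).card + 1 = C.card := by
    have e1 : (A ∩ C) ∪ (B ∩ C) = C.erase g := by
      ext w
      have := @hA w
      simp only [hB, Finset.mem_union, Finset.mem_inter, Finset.mem_sdiff, Finset.mem_erase] at this ⊢
      tauto
    have e2 : Disjoint (A ∩ C) (B ∩ C) := by
      rw [Finset.disjoint_left]
      intro w hw hw'
      exact (Finset.mem_sdiff.1 (Finset.mem_inter.1 hw').1).2 (Finset.mem_inter.1 hw).1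
    have e3 := Finset.card_union_of_disjoint e2
    rw [e1] at e3
    have e4 := Finset.card_erase_add_one hg
    omega
  have split : (A ∩ C).card + (A ∩ Rr P k).card = A.card := by
    have e1 : (A ∩ C) ∪ (A ∩ Rr P k) = A := by
      ext w
      have := @hA w
      simp only [Finset.mem_union, Finset.mem_inter, Finset.mem_erase] at this ⊢
      tauto
    have e2 : Disjoint (A ∩ C) (A ∩ Rr P k) := by
      rw [Finset.disjoint_left]
      intro w hw hw'
      exact h.cR (Finset.mem_inter.1 hw').2 (Finset.mem_inter.1 hw).2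
    have e3 := Finset.card_union_of_disjoint e2
    rw [e1] at e3
    omega
  by_cases h2 : 2 ≤ (A ∩ Rr P k).card
  · obtain ⟨y, hy⟩ := Finset.card_pos.1 (by omega : 0 < (A ∩ Rr P k).card)
    have a2 := h.lo1' (hcl hy) (Finset.mem_inter.1 hy).1
    exact ⟨hi, hA, hcl, h2, by linarith, by linarith⟩
  · exfalso
    -- `insert g A` is independent
    have ind : (A.card : ℤ) + 1 ≤ r (insert g A) := by
      rcases Finset.eq_empty_or_nonempty (A ∩ Rr P k) with he | ⟨y, hy⟩
      · rw [he, Finset.card_empty] at split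
        have c0 := h.hr.mono C (C ∪ A) Finset.subset_union_left
        rw [h.rC] at c0
        have : ((A ∩ C).card : ℤ) = A.card := by exact_mod_cast split
        linarith
      · have a2 := h.lo1' (hcl hy) (Finset.mem_inter.1 hy).1
        have c1 := Finset.card_pos.2 ⟨y, hy⟩
        have : ((A ∩ C).card : ℤ) + 1 = A.card := by
          have : (A ∩ C).card + 1 = A.card := by omega
          exact_mod_cast this
        linarith
    obtain ⟨e, he, f, hf, hef⟩ := Finset.one_lt_card.1 (by omega : 1 < A.card)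
    have hsub : ({e, f} : Finset E) ⊆ A := by
      intro w hw
      rcases Finset.mem_insert.1 hw with rfl | hw
      · exact he
      · rw [Finset.mem_singleton.1 hw]; exact hf
    have d := h.d2 {e, f} (hsub.trans (hA.trans (Finset.erase_subset _ _))) (Finset.card_le_two)
    have h5 : (C ∪ Rr P k) \ {e, f} ⊆ insert g B ∪ (A \ {e, f}) := by
      intro w hw
      simp only [hB, Finset.mem_union, Finset.mem_insert, Finset.mem_sdiff, Finset.mem_erase, Finset.mem_singleton] at hw ⊢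
      tauto
    have h6 := (h.hr.mono _ _ h5).trans (un_card h.hr _ _)
    have h7 : (A \ {e, f}).card + 2 = A.card := by
      have := Finset.card_sdiff_add_card_eq_card hsub
      rwa [Finset.card_pair hef] at this
    have h8 : ((A \ {e, f}).card : ℤ) + 2 = A.card := by exact_mod_cast h7
    linarith

theorem Pn.loc (h : Pn r C P k) {g : E} (hg : g ∈ C) {A : Finset E} (hA : A ⊆ (C ∪ Rr P k).erase g) (hA2 : 2 ≤ A.card)
    (hB2 : 2 ≤ ((C ∪ Rr P k).erase g \ A).card)
    (hl : r (insert g A) + r (insert g ((C ∪ Rr P k).erase g \ A)) ≤ C.card + 4) :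
    (∃ i, Sid r C P k g i A) ∨ (∃ i, Sid r C P k g i ((C ∪ Rr P k).erase g \ A)) := by
  by_cases hcA : ∃ i, i ≠ k ∧ A ∩ Rr P k ⊆ P i
  · obtain ⟨i, hi, hcl⟩ := hcA
    exact Or.inl ⟨i, h.loc1 hg hA hA2 hl hi hcl⟩
  set B := (C ∪ Rr P k).erase g \ A with hB
  have hBA : (C ∪ Rr P k).erase g \ B = A := Finset.sdiff_sdiff_eq_self hA
  by_cases hcB : ∃ i, i ≠ k ∧ B ∩ Rr P k ⊆ P i
  · obtain ⟨i, hi, hcl⟩ := hcB
    refine Or.inr ⟨i, h.loc1 hg Finset.sdiff_subset hB2 ?_ hi hcl⟩
    rw [← hB, hBA]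
    linarith
  exfalso
  have key : ∀ {X : Finset E}, X ⊆ (C ∪ Rr P k).erase g → (¬ ∃ i, i ≠ k ∧ X ∩ Rr P k ⊆ P i) → (C.card : ℤ) + 2 ≤ r (C ∪ X) := by
    intro X hX hn
    push Not at hn
    obtain ⟨l, m, t, t', q1, q2, q3, q4, q5, q6, q7, q8, q9⟩ := h.mt k k
    obtain ⟨s, hs, -⟩ := Finset.not_subset.1 (hn l q6)
    obtain ⟨i, hi, hsi⟩ := mem_Rr.1 (Finset.mem_inter.1 hs).2
    obtain ⟨s', hs', hs'i⟩ := Finset.not_subset.1 (hn i hi)
    obtain ⟨j, hj, hsj⟩ := mem_Rr.1 (Finset.mem_inter.1 hs').2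
    have hij : i ≠ j := fun e => hs'i (e ▸ hsj)
    exact h.lo2' hij hsi hsj (Finset.mem_inter.1 hs).1 (Finset.mem_inter.1 hs').1
  have a1 := h.lwb hg hA
  have a2 := key hA hcA
  have b1 := h.lwb hg (X := B) Finset.sdiff_subset
  have b2 := key (X := B) Finset.sdiff_subset hcB
  have hcard : ((A ∩ C).card : ℤ) + (B ∩ C).card + 1 = C.card := by
    have hgA : g ∉ A := fun hh => (Finset.mem_erase.1 (hA hh)).1 rfl
    have e1 : (A ∩ C) ∪ (B ∩ C) = C.erase g := by
      ext w
      have := @hA w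
      simp only [hB, Finset.mem_union, Finset.mem_inter, Finset.mem_sdiff, Finset.mem_erase] at this ⊢
      tauto
    have e2 : Disjoint (A ∩ C) (B ∩ C) := by
      rw [Finset.disjoint_left]
      intro w hw hw'
      exact (Finset.mem_sdiff.1 (Finset.mem_inter.1 hw').1).2 (Finset.mem_inter.1 hw).1
    have e3 := Finset.card_union_of_disjoint e2
    rw [e1] at e3
    have e4 := Finset.card_erase_add_one hg
    omega
  linarith

/-- a supported row can be added to a small side -/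
theorem Pn.add (h : Pn r C P k) {g c : E} (hg : g ∈ C) {i : Fin 5} {A : Finset E} (s : Sid r C P k g i A) (hc : c ∈ C) (hcg : c ≠ g) (hcA : c ∉ A)
    (hs : Spp r C (Rr P k) c (A ∩ Rr P k)) :
    r (insert g (insert c A)) + r (insert g ((C ∪ Rr P k).erase g \ insert c A)) ≤ C.card + 4 := by
  have h1 : r (insert g (insert c A)) ≤ r (insert g A) + 1 := by
    rw [Finset.insert_comm]
    exact h.hr.unit _ _
  set B := (C ∪ Rr P k).erase g \ A with hB
  obtain ⟨l, m, t, t', q1, q2, q3, q4, q5, q6, q7, q8, q9⟩ := h.mt i i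
  have ht : ∀ {l : Fin 5} {s' : E}, s' ∈ P l → l ≠ i → l ≠ k → s' ∈ Rr P k \ (A ∩ Rr P k) := by
    intro l s' hs' hli hlk
    refine Finset.mem_sdiff.2 ⟨sub_Rr hlk hs', fun hh => Finset.disjoint_left.1 (h.dP l i hli) hs' (s.cls hh)⟩
  have b2 := h.lo2' q1 q2 q3 (ht q2 q4 q6) (ht q3 q7 q9)
  have g1 := h.hr.sub (insert g B) (C.erase c ∪ (Rr P k \ (A ∩ Rr P k)))
  have g2 : r (C ∪ (Rr P k \ (A ∩ Rr P k))) ≤ r (insert g B ∪ (C.erase c ∪ (Rr P k \ (A ∩ Rr P k)))) := h.hr.mono _ _ (by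
    intro w hw
    by_cases e : w = c
    · subst e
      refine Finset.mem_union_left _ (Finset.mem_insert_of_mem (Finset.mem_sdiff.2 ⟨Finset.mem_erase.2 ⟨hcg, Finset.mem_union_left _ hc⟩, hcA⟩))
    · simp only [Finset.mem_union, Finset.mem_erase] at hw ⊢
      tauto)
  have g3 : r (insert g ((C ∪ Rr P k).erase g \ insert c A)) ≤ r (insert g B ∩ (C.erase c ∪ (Rr P k \ (A ∩ Rr P k)))) := h.hr.mono _ _ (by
    intro w hw
    have q : w = g → w ∈ C := fun e => e ▸ hg
    have q' : w = g → w ≠ c := fun e e' => hcg (e'.symm.trans e)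
    simp only [hB, Finset.mem_union, Finset.mem_erase, Finset.mem_inter, Finset.mem_sdiff, Finset.mem_insert] at hw ⊢
    tauto)
  have h2 := s.rA
  have h3 := s.rB
  rw [← hB] at h3
  unfold Spp at hs
  linarith

/-- nested small sides without a new row differ by at most one element of `C` and one other element -/
theorem Pn.thin (h : Pn r C P k) {g : E} (hg : g ∈ C) {i : Fin 5} {A B : Finset E} (sA : Sid r C P k g i A) (sB : Sid r C P k g i B) (hAB : A ⊆ B)
    (hno : ∀ c ∈ C, Spp r C (Rr P k) c (B ∩ Rr P k) → Spp r C (Rr P k) c (A ∩ Rr P k)) :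
    ((B \ A) ∩ C).card ≤ 1 ∧ ((B \ A) ∩ Rr P k).card ≤ 1 := by
  constructor
  · rw [Finset.card_le_one]
    intro c hc c' hc'
    by_contra hne
    simp only [Finset.mem_inter, Finset.mem_sdiff] at hc hc'
    obtain ⟨⟨c1, c2⟩, c3⟩ := hc
    obtain ⟨⟨d1, d2⟩, d3⟩ := hc'
    have cg : c ≠ g := fun e => sB.gA (e ▸ c1)
    have dg : c' ≠ g := fun e => sB.gA (e ▸ d1)
    have hS : ({c, c'} : Finset E) ⊆ C := by
      intro w hw
      rcases Finset.mem_insert.1 hw with rfl | hw
      · exact c3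
      · rw [Finset.mem_singleton.1 hw]; exact d3
    have hsp : ∀ e ∈ ({c, c'} : Finset E), Spp r C (Rr P k) e (A ∩ Rr P k) := by
      intro e he
      rcases Finset.mem_insert.1 he with rfl | he
      · exact hno _ c3 (sB.sp h hg c3 c1)
      · rw [Finset.mem_singleton.1 he]; exact hno _ d3 (sB.sp h hg d3 d1)
    have hcs : ∀ e ∈ ({c, c'} : Finset E), Cst r C e (A ∩ Rr P k) := by
      intro e he
      rcases Finset.mem_insert.1 he with rfl | he
      · exact sA.cs h hg c3 c2 cg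
      · rw [Finset.mem_singleton.1 he]; exact sA.cs h hg d3 d2 dg
    have g1 := h.i1 sA.cls (Finset.card_pos.1 (by have := sA.two; omega)) _ hS hcs
    have g2 := h.i2 sA.cls _ hS hsp
    have g3 := h.hr.sub ((C \ {c, c'}) ∪ (A ∩ Rr P k)) ((C \ {c, c'}) ∪ (Rr P k \ (A ∩ Rr P k)))
    have g4 : (C.card : ℤ) ≤ r (C \ {c, c'}) + 2 := by
      have q := un_card h.hr (C \ {c, c'}) {c, c'}
      rw [Finset.sdiff_union_of_subset hS, h.rC, Finset.card_pair hne] at q
      push_cast at q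
      exact q
    have g5 : r (C \ {c, c'}) ≤ r (((C \ {c, c'}) ∪ (A ∩ Rr P k)) ∩ ((C \ {c, c'}) ∪ (Rr P k \ (A ∩ Rr P k)))) := h.hr.mono _ _ (by
      intro w hw
      exact Finset.mem_inter.2 ⟨Finset.mem_union_left _ hw, Finset.mem_union_left _ hw⟩)
    have g6 := h.d2 {c, c'} (hS.trans Finset.subset_union_left) Finset.card_le_two
    have g7 : r ((C ∪ Rr P k) \ {c, c'}) ≤ r (((C \ {c, c'}) ∪ (A ∩ Rr P k)) ∪ ((C \ {c, c'}) ∪ (Rr P k \ (A ∩ Rr P k)))) := h.hr.mono _ _ (by
      intro w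
      simp only [Finset.mem_union, Finset.mem_sdiff, Finset.mem_inter]
      tauto)
    have g8 : ((C \ {c, c'}).card : ℤ) + 2 = C.card := by
      have q := Finset.card_sdiff_add_card_eq_card hS
      rw [Finset.card_pair hne] at q
      exact_mod_cast q
    linarith
  · rw [Finset.card_le_one]
    intro y hy y' hy'
    by_contra hne
    simp only [Finset.mem_inter, Finset.mem_sdiff] at hy hy'
    obtain ⟨⟨y1, y2⟩, y3⟩ := hy
    obtain ⟨⟨z1, z2⟩, z3⟩ := hy'
    have yP : y ∈ P i := sB.cls (Finset.mem_inter.2 ⟨y1, y3⟩)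
    have zP : y' ∈ P i := sB.cls (Finset.mem_inter.2 ⟨z1, z3⟩)
    obtain ⟨c, hc, hcg, hn⟩ := h.f1 sB.hi yP zP hne hg
    have hsub : ({y, y'} : Finset E) ⊆ B ∩ Rr P k := by
      intro w hw
      rcases Finset.mem_insert.1 hw with rfl | hw
      · exact Finset.mem_inter.2 ⟨y1, y3⟩
      · rw [Finset.mem_singleton.1 hw]; exact Finset.mem_inter.2 ⟨z1, z3⟩
    have hcB : c ∈ B := by
      by_contra hcB
      exact hn ((sB.cs h hg hc hcB hcg).mono h.hr hsub)
    have hs := hno c hc (sB.sp h hg hc hcB)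
    refine hn (h.sx hc sA.cls (b := {y, y'}) (hsub.trans sB.cls) sA.hi ?_ hs)
    rw [Finset.disjoint_left]
    intro w hw hw'
    rcases Finset.mem_insert.1 hw' with rfl | hw'
    · exact y2 (Finset.mem_inter.1 hw).1
    · rw [Finset.mem_singleton.1 hw'] at hw
      exact z2 (Finset.mem_inter.1 hw).1

end Pool.Agent.QU.Exc
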