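import Pool.Agent.QUP.Nc
import Pool.Agent.QUW.Fin
import Pool.Agent.QUR.Cft

/-!
# QUP/NcM: three contraction hubs in a flat of corank two

`Lv2 S q`: two forms of `V(q)` have a diagonal combination. `tgt_p1`: three hubs of one type, a target `x` such that the three pairs are `Lv2`
(helper63's T-trick over the projective line). `nc_main`: the conclusion for a fan with independent `W`.
-/

set_option autoImplicit false
set_option linter.all false

open QUB

namespace Pool.Agent.QU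

open Pool.Agent.FRM

section tgt

variable {E : Type} [Fintype E] [DecidableEq E]

/-- two forms of `V(q)` have a diagonal combination -/
def Lv2 (S : TP F4 E) (q : Itv E) : Prop :=
  ∀ T T' : Fm F4 E, InV S.U S.W q T → InV S.U S.W q T' → ∃ a b : F4, (a ≠ 0 ∨ b ≠ 0) ∧ EqD S.U S.W q (a • T + b • T') 0

omit [Fintype E] in
private theorem m_mem {p : Itv E} {a b : E} {s : Bool} (hab : a ≠ b) (ha : a ∈ gs p) : a ∈ gs (rm s b p) := by
  rw [gs_rm]
  exact Finset.mem_erase.2 ⟨hab, ha⟩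

private theorem sc_solve {S : TP F4 E} {q : Itv E} {T Ts : Fm F4 E} {a b : F4} (ha : a ≠ 0) (h : EqD S.U S.W q (a • T + b • Ts) 0) :
    EqD S.U S.W q T ((-(a⁻¹ * b)) • Ts) := by
  obtain ⟨l, hl⟩ := h
  refine ⟨a⁻¹ • l, fun c hc d hd => ?_⟩
  have e1 := hl c hc d hd
  rw [LinearMap.add_apply, LinearMap.add_apply, LinearMap.smul_apply, LinearMap.smul_apply, LinearMap.smul_apply, LinearMap.smul_apply,
    LinearMap.add_apply, LinearMap.add_apply, LinearMap.zero_apply, LinearMap.zero_apply, smul_eq_mul, smul_eq_mul, zero_add] at e1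
  rw [LinearMap.add_apply, LinearMap.add_apply, LinearMap.smul_apply, LinearMap.smul_apply, dg_smul, LinearMap.smul_apply, LinearMap.smul_apply,
    smul_eq_mul, smul_eq_mul, ← e1, mul_add, ← mul_assoc, inv_mul_cancel₀ ha, one_mul]
  ring

/-- two different combinations are diagonal -/
private theorem sc_two {S : TP F4 E} {q : Itv E} {T Ts : Fm F4 E} {a b a' b' : F4} (h : EqD S.U S.W q (a • T + b • Ts) 0)
    (h' : EqD S.U S.W q (a' • T + b' • Ts) 0) (hne : a * b' ≠ a' * b) : EqD S.U S.W q Ts 0 := by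
  have h2 : a * b' - a' * b ≠ 0 := sub_ne_zero.2 hne
  obtain ⟨l, hl⟩ := h
  obtain ⟨m, hm⟩ := h'
  refine ⟨(a * b' - a' * b)⁻¹ • (a • m - a' • l), fun c hc d hd => ?_⟩
  have e1 := hl c hc d hd
  have e2 := hm c hc d hd
  rw [LinearMap.add_apply, LinearMap.add_apply, LinearMap.smul_apply, LinearMap.smul_apply, LinearMap.smul_apply, LinearMap.smul_apply,
    LinearMap.add_apply, LinearMap.add_apply, LinearMap.zero_apply, LinearMap.zero_apply, smul_eq_mul, smul_eq_mul, zero_add] at e1 e2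
  rw [LinearMap.add_apply, LinearMap.add_apply, LinearMap.zero_apply, LinearMap.zero_apply, dg_smul, LinearMap.smul_apply, LinearMap.smul_apply,
    dg_sub, LinearMap.sub_apply, LinearMap.sub_apply, dg_smul, dg_smul, LinearMap.smul_apply, LinearMap.smul_apply, LinearMap.smul_apply,
    LinearMap.smul_apply, smul_eq_mul, smul_eq_mul, smul_eq_mul, ← e1, ← e2, zero_add]
  have e3 : a * (a' * T c d + b' * Ts c d) - a' * (a * T c d + b * Ts c d) = (a * b' - a' * b) * Ts c d := by ring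
  rw [e3, ← mul_assoc, inv_mul_cancel₀ h2, one_mul]

private theorem sc_b {S : TP F4 E} {q : Itv E} {T Ts : Fm F4 E} {b : F4} (hb : b ≠ 0) (h : EqD S.U S.W q ((0 : F4) • T + b • Ts) 0) :
    EqD S.U S.W q Ts 0 := by
  obtain ⟨l, hl⟩ := h
  refine ⟨b⁻¹ • l, fun c hc d hd => ?_⟩
  have e1 := hl c hc d hd
  rw [LinearMap.add_apply, LinearMap.add_apply, LinearMap.smul_apply, LinearMap.smul_apply, LinearMap.smul_apply, LinearMap.smul_apply,
    LinearMap.add_apply, LinearMap.add_apply, LinearMap.zero_apply, LinearMap.zero_apply, smul_eq_mul, smul_eq_mul, zero_add, zero_mul, zero_add] at e1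
  rw [LinearMap.add_apply, LinearMap.add_apply, LinearMap.zero_apply, LinearMap.zero_apply, dg_smul, LinearMap.smul_apply, LinearMap.smul_apply,
    smul_eq_mul, ← e1, zero_add, ← mul_assoc, inv_mul_cancel₀ hb, one_mul]

/-- T-TRICK over the projective line -/
theorem tgt_p1 (S : TP F4 E) {p : Itv E} (hp : p.1 ⊆ p.2) {k1 k2 k3 x : E} {t s : Bool}
    (h12 : k1 ≠ k2) (h13 : k1 ≠ k3) (h23 : k2 ≠ k3) (h1x : k1 ≠ x) (h2x : k2 ≠ x) (h3x : k3 ≠ x)
    (m1 : k1 ∈ gs p) (m2 : k2 ∈ gs p) (m3 : k3 ∈ gs p) (mx : x ∈ gs p) {T Ts : Fm F4 E}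
    (i1 : InV S.U S.W (rm t k1 p) T) (i2 : InV S.U S.W (rm t k2 p) T) (i3 : InV S.U S.W (rm t k3 p) T)
    (hTs : InV S.U S.W (rm s x p) Ts) (hne : ¬ EqD S.U S.W (rm s x p) Ts 0)
    (c1 : Cn S.r (rm t k1 (rm s x p))) (o1 : Lv2 S (rm t k1 (rm s x p)))
    (c2 : Cn S.r (rm t k2 (rm s x p))) (o2 : Lv2 S (rm t k2 (rm s x p)))
    (c3 : Cn S.r (rm t k3 (rm s x p))) (o3 : Lv2 S (rm t k3 (rm s x p)))
    (c12 : Cn S.r (rm t k1 (rm t k2 (rm s x p))))
    (c13 : Cn S.r (rm t k1 (rm t k3 (rm s x p))))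
    (c23 : Cn S.r (rm t k2 (rm t k3 (rm s x p))))
    (c123 : Cn S.r (rm t k1 (rm t k2 (rm t k3 (rm s x p)))))
    (l123 : HasLn S.r (rm t k1 (rm t k2 (rm t k3 (rm s x p))))) :
    InV S.U S.W (rm s x p) T := by
  have wq : (rm s x p).1 ⊆ (rm s x p).2 := QUB.wf_rm hp mx
  have n1 : k1 ∈ gs (rm s x p) := m_mem h1x m1
  have n2 : k2 ∈ gs (rm s x p) := m_mem h2x m2
  have n3 : k3 ∈ gs (rm s x p) := m_mem h3x m3
  have w1 : (rm t k1 (rm s x p)).1 ⊆ (rm t k1 (rm s x p)).2 := QUB.wf_rm wq n1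
  have w2 : (rm t k2 (rm s x p)).1 ⊆ (rm t k2 (rm s x p)).2 := QUB.wf_rm wq n2
  have w3 : (rm t k3 (rm s x p)).1 ⊆ (rm t k3 (rm s x p)).2 := QUB.wf_rm wq n3
  have j1 : InV S.U S.W (rm t k1 (rm s x p)) T := i1.mono ((rm_sub s x p).rm t k1)
  have j2 : InV S.U S.W (rm t k2 (rm s x p)) T := i2.mono ((rm_sub s x p).rm t k2)
  have j3 : InV S.U S.W (rm t k3 (rm s x p)) T := i3.mono ((rm_sub s x p).rm t k3)
  have v1 : InV S.U S.W (rm t k1 (rm s x p)) Ts := hTs.mono (rm_sub t k1 _)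
  have v2 : InV S.U S.W (rm t k2 (rm s x p)) Ts := hTs.mono (rm_sub t k2 _)
  have v3 : InV S.U S.W (rm t k3 (rm s x p)) Ts := hTs.mono (rm_sub t k3 _)
  obtain ⟨a1, b1, hab1, e1⟩ := o1 T Ts j1 v1
  obtain ⟨a2, b2, hab2, e2⟩ := o2 T Ts j2 v2
  obtain ⟨a3, b3, hab3, e3⟩ := o3 T Ts j3 v3
  have r12 : rm t k1 (rm t k2 (rm s x p)) = rm t k2 (rm t k1 (rm s x p)) := rm_comm t t k1 k2 _
  have r13 : rm t k1 (rm t k3 (rm s x p)) = rm t k3 (rm t k1 (rm s x p)) := rm_comm t t k1 k3 _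
  have r23 : rm t k2 (rm t k3 (rm s x p)) = rm t k3 (rm t k2 (rm s x p)) := rm_comm t t k2 k3 _
  have s12 : Sub (rm t k1 (rm t k2 (rm t k3 (rm s x p)))) (rm t k1 (rm t k2 (rm s x p))) := ((rm_sub t k3 (rm s x p)).rm t k2).rm t k1
  have s13 : Sub (rm t k1 (rm t k2 (rm t k3 (rm s x p)))) (rm t k1 (rm t k3 (rm s x p))) := (rm_sub t k2 _).rm t k1
  have s23 : Sub (rm t k1 (rm t k2 (rm t k3 (rm s x p)))) (rm t k2 (rm t k3 (rm s x p))) := rm_sub t k1 _
  have l12 : HasLn S.r (rm t k1 (rm t k2 (rm s x p))) := l123.mono s12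
  have l13 : HasLn S.r (rm t k1 (rm t k3 (rm s x p))) := l123.mono s13
  have l23 : HasLn S.r (rm t k2 (rm t k3 (rm s x p))) := l123.mono s23
  have card3 : 3 ≤ (gs (rm s x p)).card := by
    have h1 : ({k1, k2, k3} : Finset E) ⊆ gs (rm s x p) := by
      intro z hz
      simp only [Finset.mem_insert, Finset.mem_singleton] at hz
      rcases hz with rfl | rfl | rfl
      · exact n1
      · exact n2
      · exact n3
    have h2 := Finset.card_le_card h1
    rwa [Finset.card_eq_three.2 ⟨k1, k2, k3, h12, h13, h23, rfl⟩] at h2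
  -- two proportional combinations
  have key : ∀ {u v : E} {a b a' b' : F4}, u ≠ v → u ≠ x → v ≠ x → u ∈ gs p → v ∈ gs p → (a ≠ 0 ∨ b ≠ 0) → (a' ≠ 0 ∨ b' ≠ 0) →
      EqD S.U S.W (rm t u (rm s x p)) (a • T + b • Ts) 0 → EqD S.U S.W (rm t v (rm s x p)) (a' • T + b' • Ts) 0 → a * b' = a' * b →
      Cn S.r (rm t u (rm s x p)) → Cn S.r (rm t v (rm s x p)) → Cn S.r (rm t u (rm t v (rm s x p))) → HasLn S.r (rm t u (rm t v (rm s x p))) →
      InV S.U S.W (rm s x p) T := by
    intro u v a b a' b' huv hux hvx mu mv hab hab' eu ev hpr cu cv cuv luv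
    have nu := m_mem (s := s) hux mu
    have nv := m_mem (s := s) hvx mv
    have wuv : (rm t u (rm t v (rm s x p))).1 ⊆ (rm t u (rm t v (rm s x p))).2 := QUB.wf_rm (QUB.wf_rm wq nv) (m_mem huv nu)
    have hnd := nd_of_cn S.rk huv nu nv card3 cu cv
    by_cases ha : a = 0
    · -- then `Ts` is diagonal on both
      exfalso
      subst ha
      have hb : b ≠ 0 := hab.resolve_left fun h => h rfl
      have ha' : a' = 0 := by
        rw [zero_mul] at hpr
        exact (mul_eq_zero.1 hpr.symm).resolve_right hb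
      subst ha'
      have hb' : b' ≠ 0 := hab'.resolve_left fun h => h rfl
      exact hne (g_pair S wq huv nu nv hTs (sc_b hb eu) (sc_b hb' ev) cuv luv hnd)
    · have ha' : a' ≠ 0 := by
        intro h
        subst h
        rw [zero_mul] at hpr
        have h2 : b' = 0 := (mul_eq_zero.1 hpr).resolve_left ha
        exact hab'.elim (fun h => h rfl) fun h => h h2
      have f1 := sc_solve ha eu
      have f2 := sc_solve ha' ev
      have e : a'⁻¹ * b' = a⁻¹ * b := by
        field_simp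
        linear_combination hpr
      rw [e] at f2
      exact (pair_w S huv hux.symm hvx.symm mu mv (hTs.smul _) f1 f2 (fun l hl => hom_cn S wuv cuv luv hl) hnd).1
  by_cases p12 : a1 * b2 = a2 * b1
  · exact key h12 h1x h2x m1 m2 hab1 hab2 e1 e2 p12 c1 c2 c12 l12
  by_cases p13 : a1 * b3 = a3 * b1
  · exact key h13 h1x h3x m1 m3 hab1 hab3 e1 e3 p13 c1 c3 c13 l13
  by_cases p23 : a2 * b3 = a3 * b2
  · exact key h23 h2x h3x m2 m3 hab2 hab3 e2 e3 p23 c2 c3 c23 l23
  exfalso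
  have sb1 : Sub (rm t k1 (rm t k2 (rm s x p))) (rm t k1 (rm s x p)) := (rm_sub t k2 (rm s x p)).rm t k1
  have sb2 : Sub (rm t k1 (rm t k2 (rm s x p))) (rm t k2 (rm s x p)) := rm_sub t k1 _
  have sc1 : Sub (rm t k1 (rm t k3 (rm s x p))) (rm t k1 (rm s x p)) := (rm_sub t k3 (rm s x p)).rm t k1
  have sc3 : Sub (rm t k1 (rm t k3 (rm s x p))) (rm t k3 (rm s x p)) := rm_sub t k1 _
  have sd2 : Sub (rm t k2 (rm t k3 (rm s x p))) (rm t k2 (rm s x p)) := (rm_sub t k3 (rm s x p)).rm t k2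
  have sd3 : Sub (rm t k2 (rm t k3 (rm s x p))) (rm t k3 (rm s x p)) := rm_sub t k2 _
  have z12 : EqD S.U S.W (rm t k1 (rm t k2 (rm s x p))) Ts 0 := sc_two (e1.mono sb1) (e2.mono sb2) p12
  have z13 : EqD S.U S.W (rm t k1 (rm t k3 (rm s x p))) Ts 0 := sc_two (e1.mono sc1) (e3.mono sc3) p13
  have z23 : EqD S.U S.W (rm t k2 (rm t k3 (rm s x p))) Ts 0 := sc_two (e2.mono sd2) (e3.mono sd3) p23
  have cd : ∀ {u : E}, u ∈ gs p → u ≠ x → HasLn S.r (rm t u (rm s x p)) → 3 ≤ (gs (rm t u (rm s x p))).card := by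
    rintro u - - ⟨N, hN⟩
    have h1 := Finset.card_le_card hN.sub
    have h2 : N.card = 4 := hN.1
    have e : (QUB.gs (rm t u (rm s x p))).card = (gs (rm t u (rm s x p))).card := rfl
    omega
  -- on the first box
  have z1 : EqD S.U S.W (rm t k1 (rm s x p)) Ts 0 := by
    have f2 : EqD S.U S.W (rm t k2 (rm t k1 (rm s x p))) Ts 0 := by rw [← r12]; exact z12
    have f3 : EqD S.U S.W (rm t k3 (rm t k1 (rm s x p))) Ts 0 := by rw [← r13]; exact z13
    have e : rm t k2 (rm t k3 (rm t k1 (rm s x p))) = rm t k1 (rm t k2 (rm t k3 (rm s x p))) := by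
      rw [← r13, rm_comm t t k2 k1]
    refine g_pair S w1 h23 (m_mem h12.symm n2) (m_mem h13.symm n3) v1 f2 f3 ?_ ?_ ?_
    · rw [e]; exact c123
    · rw [e]; exact l123
    · refine nd_of_cn S.rk h23 (m_mem h12.symm n2) (m_mem h13.symm n3) (cd m1 h1x (l12.mono (by rw [r12]; exact rm_sub t k2 _))) ?_ ?_
      · rw [← r12]; exact c12
      · rw [← r13]; exact c13
  have z2 : EqD S.U S.W (rm t k2 (rm s x p)) Ts 0 := by
    have f1 : EqD S.U S.W (rm t k1 (rm t k2 (rm s x p))) Ts 0 := z12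
    have f3 : EqD S.U S.W (rm t k3 (rm t k2 (rm s x p))) Ts 0 := by rw [← r23]; exact z23
    have e : rm t k1 (rm t k3 (rm t k2 (rm s x p))) = rm t k1 (rm t k2 (rm t k3 (rm s x p))) := by
      rw [← r23]
    refine g_pair S w2 h13 (m_mem h12 n1) (m_mem h23.symm n3) v2 f1 f3 ?_ ?_ ?_
    · rw [e]; exact c123
    · rw [e]; exact l123
    · refine nd_of_cn S.rk h13 (m_mem h12 n1) (m_mem h23.symm n3) (cd m2 h2x (l12.mono (rm_sub t k1 _))) c12 ?_
      rw [← r23]; exact c23
  exact hne (g_pair S wq h12 n1 n2 hTs z1 z2 c12 l12 (nd_of_cn S.rk h12 n1 n2 card3 c1 c2))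

end tgt

section main

variable {E : Type} [DecidableEq E] {r : Finset E → ℤ} {p : Itv E} {W : Finset E} {P : Fin 5 → Finset E}

theorem bx_1 (g x : E) : rm false g (rm true x p) = bx p {g} {x} := by
  refine Prod.ext ?_ ?_
  · ext w
    simp only [rm, bx, Finset.mem_insert, Finset.mem_union, Finset.mem_singleton, Finset.mem_erase, Finset.mem_sdiff, Finset.notMem_empty] <;> tauto
  · ext w
    simp only [rm, bx, Finset.mem_insert, Finset.mem_union, Finset.mem_singleton, Finset.mem_erase, Finset.mem_sdiff, Finset.notMem_empty] <;> tauto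

theorem bx_2 (g g' x : E) : rm false g (rm false g' (rm true x p)) = bx p {g, g'} {x} := by
  refine Prod.ext ?_ ?_
  · ext w
    simp only [rm, bx, Finset.mem_insert, Finset.mem_union, Finset.mem_singleton, Finset.mem_erase, Finset.mem_sdiff, Finset.notMem_empty] <;> tauto
  · ext w
    simp only [rm, bx, Finset.mem_insert, Finset.mem_union, Finset.mem_singleton, Finset.mem_erase, Finset.mem_sdiff, Finset.notMem_empty] <;> tauto

theorem bx_3 (g g' g'' x : E) : rm false g (rm false g' (rm false g'' (rm true x p))) = bx p {g, g', g''} {x} := by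
  refine Prod.ext ?_ ?_
  · ext w
    simp only [rm, bx, Finset.mem_insert, Finset.mem_union, Finset.mem_singleton, Finset.mem_erase, Finset.mem_sdiff, Finset.notMem_empty] <;> tauto
  · ext w
    simp only [rm, bx, Finset.mem_insert, Finset.mem_union, Finset.mem_singleton, Finset.mem_erase, Finset.mem_sdiff, Finset.notMem_empty] <;> tauto

theorem bx_10 (g : E) : rm false g p = bx p {g} ∅ := by
  refine Prod.ext ?_ ?_
  · ext w
    simp only [rm, bx, Finset.mem_insert, Finset.mem_union, Finset.mem_singleton, Finset.mem_erase, Finset.mem_sdiff, Finset.notMem_empty] <;> tauto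
  · ext w
    simp [rm, bx]

theorem bx_20 (g g' : E) : rm false g (rm false g' p) = bx p {g, g'} ∅ := by
  refine Prod.ext ?_ ?_
  · ext w
    simp only [rm, bx, Finset.mem_insert, Finset.mem_union, Finset.mem_singleton, Finset.mem_erase, Finset.mem_sdiff, Finset.notMem_empty] <;> tauto
  · ext w
    simp [rm, bx]

theorem bx_30 (g g' g'' : E) : rm false g (rm false g' (rm false g'' p)) = bx p {g, g', g''} ∅ := by
  refine Prod.ext ?_ ?_
  · ext w
    simp only [rm, bx, Finset.mem_insert, Finset.mem_union, Finset.mem_singleton, Finset.mem_erase, Finset.mem_sdiff, Finset.notMem_empty] <;> tauto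
  · ext w
    simp [rm, bx]

theorem bx_02 (y z : E) : rm true y (rm true z p) = bx p ∅ {y, z} := by
  refine Prod.ext ?_ ?_
  · ext w
    simp [rm, bx]
  · ext w
    simp only [rm, bx, Finset.mem_insert, Finset.mem_union, Finset.mem_singleton, Finset.mem_erase, Finset.mem_sdiff, Finset.notMem_empty] <;> tauto

theorem bx_12 (g y z : E) : rm true z (rm false g (rm true y p)) = bx p {g} {y, z} := by
  refine Prod.ext ?_ ?_
  · ext w
    simp only [rm, bx, Finset.mem_insert, Finset.mem_union, Finset.mem_singleton, Finset.mem_erase, Finset.mem_sdiff, Finset.notMem_empty] <;> tauto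
  · ext w
    simp only [rm, bx, Finset.mem_insert, Finset.mem_union, Finset.mem_singleton, Finset.mem_erase, Finset.mem_sdiff, Finset.notMem_empty] <;> tauto

/-- at most `|J|` classes are inside `J` -/
private theorem nc_out (hF : Fan r p W P) {J : Finset E} (k : ℕ) (hJ : J.card ≤ k) (s : Finset (Fin 5)) (hs : k < s.card) : ∃ i ∈ s, ¬ P i ⊆ J := by
  classical
  by_contra hcon
  push Not at hcon
  choose n hn using fun i => hF.ne i
  have h1 : s.image n ⊆ J := by
    intro w hw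
    obtain ⟨i, hi, rfl⟩ := Finset.mem_image.1 hw
    exact hcon i hi (hn i)
  have h2 : (s.image n).card = s.card := by
    refine Finset.card_image_of_injOn fun i _ j _ he => ?_
    by_contra hij
    exact Finset.disjoint_left.1 (hF.dP i j hij) (hn i) (he ▸ hn j)
  have h3 := Finset.card_le_card h1
  omega

/-- three classes outside of `J` -/
private theorem nc_three' (hF : Fan r p W P) {J : Finset E} (hJ : J.card ≤ 2) : ∃ i j k : Fin 5, i ≠ j ∧ i ≠ k ∧ j ≠ k ∧ ¬ P i ⊆ J ∧ ¬ P j ⊆ J ∧ ¬ P k ⊆ J := by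
  obtain ⟨i, -, hi⟩ := nc_out hF 2 hJ Finset.univ (by rw [Finset.card_univ, Fintype.card_fin]; omega)
  obtain ⟨j, hj, hj'⟩ := nc_out hF 2 hJ (Finset.univ.erase i) (by
    rw [Finset.card_erase_of_mem (Finset.mem_univ i), Finset.card_univ, Fintype.card_fin]; omega)
  obtain ⟨k, hk, hk'⟩ := nc_out hF 2 hJ ((Finset.univ.erase i).erase j) (by
    rw [Finset.card_erase_of_mem hj, Finset.card_erase_of_mem (Finset.mem_univ i), Finset.card_univ, Fintype.card_fin]; omega)
  have h1 := (Finset.mem_erase.1 hj).1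
  obtain ⟨h2, h3⟩ := Finset.mem_erase.1 hk
  exact ⟨i, j, k, h1.symm, (Finset.mem_erase.1 h3).1.symm, h2.symm, hi, hj', hk'⟩

/-- connectivity for at most two deletions -/
private theorem nc_cn2 (hr : Rk r) (hp : p.1 ⊆ p.2) (h3 : Th3 r p) (hn : 4 ≤ (gs p).card) (hT : NoTd r p) (hF : Fan r p W P)
    (hI : r W = r p.1 + (W \ p.1).card) {C' J : Finset E} (hC : p.1 ∪ C' ⊆ W) (hJW : Disjoint J W) (hJp : J ⊆ p.2) (hJ : J.card ≤ 2) :
    Cn r (bx p C' J) := by
  obtain ⟨i, j, k, hij, hik, hjk, hi, hj, hk⟩ := nc_three' hF hJ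
  refine nc_cn hr hF hI hC hJW hij hik hjk hi hj hk fun b hb => ?_
  have hbW := (Finset.mem_sdiff.1 hb).1
  have hbC := (Finset.mem_sdiff.1 hb).2
  have hbg : b ∈ gs p := Finset.mem_sdiff.2 ⟨hF.hW2 hbW, fun h => hbC (Finset.mem_union_left _ h)⟩
  have hJg : ∀ x ∈ J, x ∈ gs p ∧ x ≠ b := fun x hx =>
    ⟨Finset.mem_sdiff.2 ⟨hJp hx, fun h => Finset.disjoint_left.1 hJW hx (hC (Finset.mem_union_left _ h))⟩,
      fun h => Finset.disjoint_left.1 hJW hx (h ▸ hbW)⟩
  have e0 : ∀ x : E, p.2 \ {x} = p.2.erase x := fun x => Finset.sdiff_singleton_eq_erase x p.2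
  have c : J.card = 0 ∨ J.card = 1 ∨ J.card = 2 := by omega
  rcases c with c | c | c
  · rw [Finset.card_eq_zero.1 c, Finset.sdiff_empty]
    exact th3_del1 hr hp h3 hn hbg
  · obtain ⟨x, rfl⟩ := Finset.card_eq_one.1 c
    obtain ⟨hx, hxb⟩ := hJg x (Finset.mem_singleton_self x)
    rw [e0, th3_del2 hr hp h3 hn hx hbg hxb, th3_del1 hr hp h3 hn hx]
  · obtain ⟨x, y, hxy, rfl⟩ := Finset.card_eq_two.1 c
    obtain ⟨hx, hxb⟩ := hJg x (by simp)
    obtain ⟨hy, hyb⟩ := hJg y (by simp)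
    have e1 : p.2 \ {x, y} = (p.2.erase x).erase y := by
      ext w
      simp only [Finset.mem_sdiff, Finset.mem_insert, Finset.mem_singleton, Finset.mem_erase]
      tauto
    rw [e1, th3_del2 hr hp h3 hn hx hy hxy]
    exact hT x hx y hy b hbg hxy hxb hyb

end main

section fin

variable {E : Type} [Fintype E] [DecidableEq E]

/-- two elements whose deletions have no rich minor: the deletion of both has no line (theorem `nr_two` of `QUW`) -/
def NrD (r : Finset E → ℤ) (p : Itv E) : Prop :=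
  ∀ y ∈ gs p, ∀ z ∈ gs p, y ≠ z → ¬ HasRich r (rm true y p) → ¬ HasRich r (rm true z p) → Cn r (rm true y (rm true z p)) →
    ¬ HasLn r (rm true y (rm true z p))

/-- a target `y` with `p \ y` not rich -/
private theorem tgt_non (S : TP F4 E) (hNU : NU S.r) {p : Itv E} (hp : p.1 ⊆ p.2) {k1 k2 x : E} (h12 : k1 ≠ k2) (h1x : k1 ≠ x) (h2x : k2 ≠ x)
    (m1 : k1 ∈ gs p) (m2 : k2 ∈ gs p) (mx : x ∈ gs p) {T : Fm F4 E}
    (i1 : InV S.U S.W (rm false k1 p) T) (i2 : InV S.U S.W (rm false k2 p) T)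
    (c1 : Cn S.r (rm false k1 (rm true x p))) (o1 : Ok S.r (rm false k1 (rm true x p)))
    (c2 : Cn S.r (rm false k2 (rm true x p))) (o2 : Ok S.r (rm false k2 (rm true x p)))
    (c12 : Cn S.r (rm false k1 (rm false k2 (rm true x p)))) (l12 : HasLn S.r (rm false k1 (rm false k2 (rm true x p))))
    (hn : ¬ HasRich S.r (rm true x p)) : InV S.U S.W (rm true x p) T := by
  have wq : (rm true x p).1 ⊆ (rm true x p).2 := QUB.wf_rm hp mx
  have n1 : k1 ∈ gs (rm true x p) := m_mem h1x m1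
  have n2 : k2 ∈ gs (rm true x p) := m_mem h2x m2
  have w1 : (rm false k1 (rm true x p)).1 ⊆ (rm false k1 (rm true x p)).2 := QUB.wf_rm wq n1
  have w2 : (rm false k2 (rm true x p)).1 ⊆ (rm false k2 (rm true x p)).2 := QUB.wf_rm wq n2
  have j1 : InV S.U S.W (rm false k1 (rm true x p)) T := i1.mono ((rm_sub true x p).rm false k1)
  have j2 : InV S.U S.W (rm false k2 (rm true x p)) T := i2.mono ((rm_sub true x p).rm false k2)
  have r1 : ¬ HasRich S.r (rm false k1 (rm true x p)) := fun ⟨N, a, b⟩ => hn ⟨N, (rm_sub false k1 _).trans a, b⟩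
  have r2 : ¬ HasRich S.r (rm false k2 (rm true x p)) := fun ⟨N, a, b⟩ => hn ⟨N, (rm_sub false k2 _).trans a, b⟩
  have z1 := thmU S hNU _ w1 c1 o1 j1 (Or.inr r1)
  have z2 := thmU S hNU _ w2 c2 o2 j2 (Or.inr r2)
  have w12 : (rm false k1 (rm false k2 (rm true x p))).1 ⊆ (rm false k1 (rm false k2 (rm true x p))).2 := QUB.wf_rm w2 (m_mem h12 n1)
  have card3 : 3 ≤ (gs (rm true x p)).card := by
    obtain ⟨N, hN⟩ := l12
    have h1 := Finset.card_le_card hN.sub
    have h2 : N.card = 4 := hN.1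
    have h3 : gs (rm false k1 (rm false k2 (rm true x p))) ⊆ gs (rm true x p) := by
      rw [gs_rm, gs_rm]
      exact (Finset.erase_subset _ _).trans (Finset.erase_subset _ _)
    have h4 := Finset.card_le_card h3
    have e : (QUB.gs (rm false k1 (rm false k2 (rm true x p)))).card = (gs (rm false k1 (rm false k2 (rm true x p)))).card := rfl
    omega
  exact (pair_w S h12 h1x.symm h2x.symm m1 m2 (Tw := 0) InV.zero z1 z2 (fun l hl => hom_cn S w12 c12 l12 hl)
    (nd_of_cn S.rk h12 n1 n2 card3 c1 c2)).1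

/-- NC+: three contraction hubs in `W`, all pairs at most of total level two -/
theorem nc_main (S : TP F4 E) (hNU : NU S.r) {p : Itv E} (hp : p.1 ⊆ p.2) (h3 : Th3 S.r p) (hT : NoTd S.r p) (hNr : NrD S.r p) {W : Finset E} {P : Fin 5 → Finset E} (hF : Fan S.r p W P)
    (hI : S.r W = S.r p.1 + (W \ p.1).card) (hn : 2 * (S.r p.2 - S.r p.1) ≤ (gs p).card) (hn4 : 9 ≤ (gs p).card)
    (hex : ∀ w ∈ gs p, ∀ s, ∃ T, InVs S (rm s w p) T) {g1 g2 g3 : E} (m1 : g1 ∈ W \ p.1) (m2 : g2 ∈ W \ p.1) (m3 : g3 ∈ W \ p.1)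
    (h12 : g1 ≠ g2) (h13 : g1 ≠ g3) (h23 : g2 ≠ g3)
    (hok : ∀ g ∈ ({g1, g2, g3} : Finset E), ∀ g' ∈ ({g1, g2, g3} : Finset E), g ≠ g' → Ok S.r (rm false g (rm false g' p)))
    (hlv : ∀ g ∈ ({g1, g2, g3} : Finset E), ∀ x ∈ gs p, x ∉ W → Lv2 S (rm false g (rm true x p))) :
    ∃ T : Fm F4 E, InV S.U S.W p T ∧ ¬ EqD S.U S.W p T 0 := by
  have hr := S.rk
  have hW2 := hF.hW2
  have mg : ∀ {g : E}, g ∈ W \ p.1 → g ∈ gs p := fun hg => Finset.mem_sdiff.2 ⟨hW2 (Finset.mem_sdiff.1 hg).1, (Finset.mem_sdiff.1 hg).2⟩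
  have sW : ∀ {A : Finset E}, A ⊆ W \ p.1 → p.1 ∪ A ⊆ W := fun hA =>
    Finset.union_subset hF.h1 (hA.trans Finset.sdiff_subset)
  have hs : ∀ {A J : Finset E}, A ⊆ W \ p.1 → J ⊆ gs p → Disjoint J W → J.card ≤ 2 → Cn S.r (bx p A J) :=
    fun hA hJ hJW hJ2 => nc_cn2 hr hp h3 (by omega) hT hF hI (sW hA) hJW (fun x hx => (Finset.mem_sdiff.1 (hJ hx)).1) hJ2
  have p1 : ∀ {g : E}, g ∈ W \ p.1 → ({g} : Finset E) ⊆ W \ p.1 := fun h => Finset.singleton_subset_iff.2 h
  have p2 : ∀ {g g' : E}, g ∈ W \ p.1 → g' ∈ W \ p.1 → ({g, g'} : Finset E) ⊆ W \ p.1 := fun h h' => Finset.insert_subset h (p1 h')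
  have p3 : ∀ {g g' g'' : E}, g ∈ W \ p.1 → g' ∈ W \ p.1 → g'' ∈ W \ p.1 → ({g, g', g''} : Finset E) ⊆ W \ p.1 :=
    fun h h' h'' => Finset.insert_subset h (p2 h' h'')
  have hall : ∀ g ∈ ({g1, g2, g3} : Finset E), g ∈ W \ p.1 := by
    intro g hg
    exact p3 m1 m2 m3 hg
  have he0 : ∀ {A : Finset E}, A ⊆ W \ p.1 → Cn S.r (bx p A ∅) := fun hA =>
    hs hA (Finset.empty_subset _) (Finset.disjoint_empty_left _) (by simp)
  -- the form
  have c12 : Cn S.r (rm false g1 (rm false g2 p)) := by rw [bx_20]; exact he0 (p2 m1 m2)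
  obtain ⟨T, i1, i2, hne⟩ := two_hub S hNU hp h12 (mg m1) (mg m2) (hex g1 (mg m1) false) (hex g2 (mg m2) false) c12 (hok g1 (by simp) g2 (by simp) h12)
  have hne0 : ∀ J : Finset E, (∀ l, ¬ P l ⊆ J) → Disjoint J W → ∀ A ⊆ W \ p.1, HasRich S.r (bx p A J) :=
    fun J hJ hJW A hA => nc_rich hF hr (sW hA) hJW hJ
  have hnP : ∀ l, ¬ P l ⊆ (∅ : Finset E) := fun l h => (Finset.nonempty_iff_ne_empty.1 (hF.ne l)) (Finset.subset_empty.1 h)
  have i3 : InV S.U S.W (rm false g3 p) T := by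
    refine third_hub S hNU hp h12 h13 h23 (mg m1) (mg m2) (mg m3) i1 i2 (hex g3 (mg m3) false) ?_ (hok g1 (by simp) g3 (by simp) h13) ?_
      (hok g2 (by simp) g3 (by simp) h23) ?_ ?_ (Or.inl ?_)
    · rw [bx_20]; exact he0 (p2 m1 m3)
    · rw [bx_20]; exact he0 (p2 m2 m3)
    · rw [bx_30]; exact he0 (p3 m1 m2 m3)
    · rw [bx_30]
      exact nc_ln hF hr (sW (p3 m1 m2 m3)) (Finset.disjoint_empty_left _) 0 fun l _ => hnP l
    · rw [bx_30]; exact hne0 ∅ hnP (Finset.disjoint_empty_left _) _ (p3 m1 m2 m3)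
  -- targets
  have hJ1 : ∀ {x : E}, x ∈ gs p → ({x} : Finset E) ⊆ gs p := fun h => Finset.singleton_subset_iff.2 h
  have hJW1 : ∀ {x : E}, x ∉ W → Disjoint ({x} : Finset E) W := fun h => Finset.disjoint_singleton_left.2 h
  have cx : ∀ {x : E} {A : Finset E}, x ∈ gs p → x ∉ W → A ⊆ W \ p.1 → Cn S.r (bx p A {x}) := fun hx hxW hA =>
    hs hA (hJ1 hx) (hJW1 hxW) (by simp)
  have lx : ∀ {x : E} {A : Finset E}, x ∈ gs p → x ∉ W → A ⊆ W \ p.1 → HasLn S.r (bx p A {x}) := by
    intro x A hx hxW hA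
    have h1 : x ∈ Finset.univ.biUnion P := by
      have : x ∈ W ∪ Finset.univ.biUnion P := by rw [hF.hU]; exact (Finset.mem_sdiff.1 hx).1
      exact (Finset.mem_union.1 this).resolve_left hxW
    obtain ⟨m, -, hm⟩ := Finset.mem_biUnion.1 h1
    refine nc_ln hF hr (sW hA) (hJW1 hxW) m fun l hl h2 => ?_
    obtain ⟨y, hy⟩ := hF.ne l
    have h3 := Finset.mem_singleton.1 (h2 hy)
    exact Finset.disjoint_left.1 (hF.dP l m hl) hy (h3 ▸ hm)
  have gx : ∀ {g x : E}, g ∈ W \ p.1 → x ∉ W → g ≠ x := fun hg hx h => hx (h ▸ (Finset.mem_sdiff.1 hg).1)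
  have tgt : ∀ x ∈ gs p, x ∉ W → HasRich S.r (rm true x p) → InV S.U S.W (rm true x p) T := by
    intro x hx hxW hRx
    obtain ⟨Ts, hTs⟩ := hex x hx true
    have hneq : ¬ EqD S.U S.W (rm true x p) Ts 0 := by
      obtain ⟨N, a, b⟩ := hRx
      exact fun h => hTs.2 N a b (h.mono a)
    refine tgt_p1 S hp h12 h13 h23 (gx m1 hxW) (gx m2 hxW) (gx m3 hxW) (mg m1) (mg m2) (mg m3) hx i1 i2 i3 hTs.1 hneq ?_
      (hlv g1 (by simp) x hx hxW) ?_ (hlv g2 (by simp) x hx hxW) ?_ (hlv g3 (by simp) x hx hxW) ?_ ?_ ?_ ?_ ?_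
    · rw [bx_1]; exact cx hx hxW (p1 m1)
    · rw [bx_1]; exact cx hx hxW (p1 m2)
    · rw [bx_1]; exact cx hx hxW (p1 m3)
    · rw [bx_2]; exact cx hx hxW (p2 m1 m2)
    · rw [bx_2]; exact cx hx hxW (p2 m1 m3)
    · rw [bx_2]; exact cx hx hxW (p2 m2 m3)
    · rw [bx_3]; exact cx hx hxW (p3 m1 m2 m3)
    · rw [bx_3]; exact lx hx hxW (p3 m1 m2 m3)
  have two : ∀ y ∈ gs p, ∀ z ∈ gs p, y ∉ W → z ∉ W → y ≠ z → ¬ HasRich S.r (rm true y p) → ¬ HasRich S.r (rm true z p) →
      InV S.U S.W (rm true y p) T := by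
    intro y hy z hz hyW hzW hyz ny nz
    have hJ2 : ({y, z} : Finset E) ⊆ gs p := Finset.insert_subset hy (hJ1 hz)
    have hJW2 : Disjoint ({y, z} : Finset E) W := by
      rw [Finset.disjoint_left]
      intro w hw
      rcases Finset.mem_insert.1 hw with h | h
      · rw [h]; exact hyW
      · rw [Finset.mem_singleton.1 h]; exact hzW
    have hno : ¬ HasLn S.r (rm true y (rm true z p)) := by
      refine hNr y hy z hz hyz ny nz ?_
      rw [bx_02]
      exact hs (Finset.empty_subset _) hJ2 hJW2 (Finset.card_le_two)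
    have ok : ∀ g ∈ W \ p.1, Ok S.r (rm false g (rm true y p)) := by
      intro g hg
      have hcz : Cn S.r (rm true z (rm false g (rm true y p))) := by
        rw [bx_12]
        exact hs (p1 hg) hJ2 hJW2 (Finset.card_le_two)
      have zq : z ∈ gs (rm false g (rm true y p)) := m_mem (gx hg hzW).symm (m_mem hyz.symm hz)
      have wq : (rm false g (rm true y p)).1 ⊆ (rm false g (rm true y p)).2 := QUB.wf_rm (QUB.wf_rm hp hy) (m_mem (gx hg hyW) (mg hg))
      have key : ∀ A ⊆ gs (rm false g (rm true y p)), QUB.lam S.r (rm false g (rm true y p)) A ≤ 1 → Hv S.r (rm false g (rm true y p)) A →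
          3 ≤ (gs (rm false g (rm true y p)) \ A).card → z ∉ A → False := by
        intro A hA hl hv hc hzA
        have hA' : A ⊆ (gs (rm false g (rm true y p))).erase z := fun w hw => Finset.mem_erase.2 ⟨fun h => hzA (h ▸ hw), hA hw⟩
        have h1 : 1 ≤ QUB.lam S.r (rm true z (rm false g (rm true y p))) A := by
          refine hcz A (by rw [gs_rm]; exact hA') (Finset.card_pos.1 (by have := hv.card; omega)) ?_
          rw [gs_rm]
          have e : (gs (rm false g (rm true y p))).erase z \ A = (gs (rm false g (rm true y p)) \ A).erase z := by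
            ext w
            simp only [Finset.mem_sdiff, Finset.mem_erase]
            tauto
          rw [e, ← Finset.card_pos]
          have h2 := Finset.pred_card_le_card_erase (s := gs (rm false g (rm true y p)) \ A) (a := z)
          omega
        obtain ⟨N, hN, -⟩ := hv_keep hr wq hA' zq hl h1 hv
        apply hno
        have hN' : HasLn S.r (rm true z (rm false g (rm true y p))) := ⟨N, hN⟩
        refine hN'.mono ?_
        rw [rm_comm true true y z]
        exact (rm_sub false g (rm true y p)).rm true z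
      intro A hA hl hh
      by_cases hzA : z ∈ A
      · refine key (gs (rm false g (rm true y p)) \ A) Finset.sdiff_subset ?_ hh.2 ?_ fun h => (Finset.mem_sdiff.1 h).2 hzA
        · have := lam_compl S.r wq hA
          have e : QUB.lam S.r (rm false g (rm true y p)) (gs (rm false g (rm true y p)) \ A) = QUB.lam S.r (rm false g (rm true y p)) A := this
          rw [e]
          exact hl
        · rw [Finset.sdiff_sdiff_eq_self hA]
          exact hh.1.card
      · exact key A hA hl hh.1 hh.2.card hzA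
    refine tgt_non S hNU hp h12 (gx m1 hyW) (gx m2 hyW) (mg m1) (mg m2) hy i1 i2 ?_ (ok g1 m1) ?_ (ok g2 m2) ?_ ?_ ny
    · rw [bx_1]; exact cx hy hyW (p1 m1)
    · rw [bx_1]; exact cx hy hyW (p1 m2)
    · rw [bx_2]; exact cx hy hyW (p2 m1 m2)
    · rw [bx_2]; exact lx hy hyW (p2 m1 m2)
  -- the count
  classical
  set X := (gs p \ W).filter fun x => InV S.U S.W (rm true x p) T with hX
  have hcX : (gs p \ W).card ≤ X.card + 1 := by
    have h1 : ((gs p \ W) \ X).card ≤ 1 := by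
      rw [Finset.card_le_one]
      intro y hy z hz
      by_contra hyz
      obtain ⟨y1, y2⟩ := Finset.mem_sdiff.1 hy
      obtain ⟨z1, z2⟩ := Finset.mem_sdiff.1 hz
      obtain ⟨y3, y4⟩ := Finset.mem_sdiff.1 y1
      obtain ⟨z3, z4⟩ := Finset.mem_sdiff.1 z1
      have ny : ¬ HasRich S.r (rm true y p) := fun h => y2 (Finset.mem_filter.2 ⟨y1, tgt y y3 y4 h⟩)
      have nz : ¬ HasRich S.r (rm true z p) := fun h => z2 (Finset.mem_filter.2 ⟨z1, tgt z z3 z4 h⟩)
      exact y2 (Finset.mem_filter.2 ⟨y1, two y y3 z z3 y4 z4 hyz ny nz⟩)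
    have h2 := Finset.card_sdiff_add_card_eq_card (Finset.filter_subset (fun x => InV S.U S.W (rm true x p) T) (gs p \ W))
    rw [← hX] at h2
    omega
  have hcW : (gs p \ W).card + (W \ p.1).card = (gs p).card := by
    rw [← Finset.card_union_of_disjoint]
    · congr 1
      ext w
      have e1 := @hF.h1 w
      have e2 := @hW2 w
      simp only [gs, Finset.mem_sdiff, Finset.mem_union]
      tauto
    · rw [Finset.disjoint_left]
      intro w hw hw'
      exact (Finset.mem_sdiff.1 hw).2 (Finset.mem_sdiff.1 hw').1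
  have hrW := hF.rW
  have hVp : InV S.U S.W p T := by
    refine nc_count S hp (mg m1) i1 (X := X) ?_ ?_ ?_
    · exact (Finset.filter_subset _ _).trans Finset.sdiff_subset
    · intro x hx
      exact (Finset.mem_filter.1 hx).2
    · have e1 : ((W \ p.1).card : ℤ) = S.r p.2 - 2 - S.r p.1 := by omega
      have e2 : ((gs p \ W).card : ℤ) ≤ X.card + 1 := by exact_mod_cast hcX
      have e3 : ((gs p \ W).card : ℤ) + (W \ p.1).card = (gs p).card := by exact_mod_cast hcW
      linarith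
  refine ⟨T, hVp, fun h => ?_⟩
  obtain ⟨N, a, b⟩ := hne0 ∅ hnP (Finset.disjoint_empty_left _) {g1} (p1 m1)
  rw [← bx_10] at a
  exact hne N a b (h.mono ((rm_sub false g1 p).trans a))

end fin



end Pool.Agent.QU
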