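import Pool.Agent.QUP.ExcB
import Pool.Agent.QUP.NcM
import Pool.Agent.QUT.Flt
import Pool.Agent.QUR.LemJ

/-!
# QUP/ExcC: the bridge: a pair which is not `Ok` (not `Lv2`) gives sides
-/

set_option autoImplicit false
set_option linter.all false

open QUB

namespace Pool.Agent.QU.Exc

open Pool.Agent.FRM

section rank

variable {E : Type} [DecidableEq E] {r : Finset E → ℤ}

/-- contraction of `Y` -/
def con (r : Finset E → ℤ) (Y : Finset E) : Finset E → ℤ := fun A => r (Y ∪ A) - r Y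

theorem rk_con (hr : Rk r) (Y : Finset E) : Rk (con r Y) where
  empty := by simp [con]
  mono := fun A B h => by
    have := hr.mono _ _ (Finset.union_subset_union_right (s := Y) h)
    simp only [con]
    linarith
  unit := fun A x => by
    simp only [con]
    rw [Finset.union_insert]
    have := hr.unit (Y ∪ A) x
    linarith
  sub := fun A B => by
    have h1 := hr.sub (Y ∪ A) (Y ∪ B)
    have e1 : (Y ∪ A) ∪ (Y ∪ B) = Y ∪ (A ∪ B) := by
      ext w; simp only [Finset.mem_union]; tauto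
    have e2 : (Y ∪ A) ∩ (Y ∪ B) = Y ∪ (A ∩ B) := by
      ext w; simp only [Finset.mem_union, Finset.mem_inter]; tauto
    rw [e1, e2] at h1
    simp only [con]
    linarith

theorem lam_sub_le (hr : Rk r) {q' q : Itv E} (hs : Sub q' q) {T : Finset E} (hT : T ⊆ gs q') : QUB.lam r q' T ≤ QUB.lam r q T := by
  have h1 := hr.sub (q.1 ∪ T) q'.1
  have h2 := hr.sub (q.2 \ T) q'.2
  have g1 : r (q'.1 ∪ T) ≤ r ((q.1 ∪ T) ∪ q'.1) := hr.mono _ _ (by
    intro w; simp only [Finset.mem_union]; tauto)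
  have g2 : r q.1 ≤ r ((q.1 ∪ T) ∩ q'.1) := hr.mono _ _ fun w hw => Finset.mem_inter.2 ⟨Finset.mem_union_left _ hw, hs.1 hw⟩
  have g3 : r q.2 ≤ r ((q.2 \ T) ∪ q'.2) := hr.mono _ _ fun w hw => by
    by_cases hwT : w ∈ T
    · exact Finset.mem_union_right _ (Finset.mem_sdiff.1 (hT hwT)).1
    · exact Finset.mem_union_left _ (Finset.mem_sdiff.2 ⟨hw, hwT⟩)
  have g4 : r (q'.2 \ T) ≤ r ((q.2 \ T) ∩ q'.2) := hr.mono _ _ fun w hw => by
    obtain ⟨a, b⟩ := Finset.mem_sdiff.1 hw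
    exact Finset.mem_inter.2 ⟨Finset.mem_sdiff.2 ⟨hs.2 a, b⟩, a⟩
  unfold QUB.lam
  linarith

theorem lam_sub_eq (hr : Rk r) {q' q : Itv E} (hs : Sub q' q) {Y : Finset E} (hY : Y ⊆ gs q') (h : QUB.lam r q Y ≤ QUB.lam r q' Y) {Z : Finset E}
    (hZ : Z ⊆ Y) : QUB.lam r q Z ≤ QUB.lam r q' Z := by
  have h1 := hr.sub (q.1 ∪ Y) (q'.1 ∪ Z)
  have h2 := hr.sub (q.2 \ Y) (q'.2 \ Z)
  have g1 : r (q'.1 ∪ Y) ≤ r ((q.1 ∪ Y) ∪ (q'.1 ∪ Z)) := hr.mono _ _ (by
    intro w; simp only [Finset.mem_union]; tauto)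
  have g2 : r (q.1 ∪ Z) ≤ r ((q.1 ∪ Y) ∩ (q'.1 ∪ Z)) := hr.mono _ _ (by
    intro w hw
    rcases Finset.mem_union.1 hw with hw | hw
    · exact Finset.mem_inter.2 ⟨Finset.mem_union_left _ hw, Finset.mem_union_left _ (hs.1 hw)⟩
    · exact Finset.mem_inter.2 ⟨Finset.mem_union_right _ (hZ hw), Finset.mem_union_right _ hw⟩)
  have g3 : r (q.2 \ Z) ≤ r ((q.2 \ Y) ∪ (q'.2 \ Z)) := hr.mono _ _ fun w hw => by
    obtain ⟨a, b⟩ := Finset.mem_sdiff.1 hw
    by_cases hwY : w ∈ Y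
    · exact Finset.mem_union_right _ (Finset.mem_sdiff.2 ⟨(Finset.mem_sdiff.1 (hY hwY)).1, b⟩)
    · exact Finset.mem_union_left _ (Finset.mem_sdiff.2 ⟨a, hwY⟩)
  have g4 : r (q'.2 \ Y) ≤ r ((q.2 \ Y) ∩ (q'.2 \ Z)) := hr.mono _ _ fun w hw => by
    obtain ⟨a, b⟩ := Finset.mem_sdiff.1 hw
    exact Finset.mem_inter.2 ⟨Finset.mem_sdiff.2 ⟨hs.2 a, b⟩, Finset.mem_sdiff.2 ⟨a, fun c => b (hZ c)⟩⟩
  unfold QUB.lam at h ⊢
  linarith

/-- two elements of a line have connectivity two -/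
theorem ln_two (hr : Rk r) {q : Itv E} (hq : q.1 ⊆ q.2) {N : Finset E} (hN : QUB.Ln r q N) {u v : E} (hu : u ∈ N) (hv : v ∈ N) (huv : u ≠ v) :
    2 ≤ QUB.lam r q (gs q \ {u, v}) := by
  obtain ⟨h4, Y, h1, h2, h3, h5, h6⟩ := hN
  have uY : u ∉ Y := fun h => Finset.disjoint_left.1 h3 hu h
  have vY : v ∉ Y := fun h => Finset.disjoint_left.1 h3 hv h
  have e1 : q.2 \ (gs q \ {u, v}) = q.1 ∪ {u, v} := by
    ext w
    have a1 := @hq w
    have a2 : w = u → w ∈ q.2 := fun e => h2 (Finset.mem_union_right _ (e ▸ hu))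
    have a3 : w = v → w ∈ q.2 := fun e => h2 (Finset.mem_union_right _ (e ▸ hv))
    simp only [QUB.gs, Finset.mem_sdiff, Finset.mem_union, Finset.mem_insert, Finset.mem_singleton] at a1 a2 a3 ⊢
    tauto
  have p1 : r (q.1 ∪ {u, v}) ≥ r q.1 + 2 := by
    have g1 := hr.sub (q.1 ∪ {u, v}) Y
    have g2 : r (insert u (insert v Y)) ≤ r ((q.1 ∪ {u, v}) ∪ Y) := hr.mono _ _ (by
      intro w; simp only [Finset.mem_union, Finset.mem_insert, Finset.mem_singleton]; tauto)
    have g3 : r q.1 ≤ r ((q.1 ∪ {u, v}) ∩ Y) := hr.mono _ _ fun w hw => Finset.mem_inter.2 ⟨Finset.mem_union_left _ hw, h1 hw⟩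
    have g4 := h6 u hu v hv huv
    linarith
  have p2 : r q.2 ≤ r (q.1 ∪ (gs q \ {u, v})) := by
    have huvN : ({u, v} : Finset E) ⊆ N := by
      intro w hw
      rcases Finset.mem_insert.1 hw with rfl | hw
      · exact hu
      · rw [Finset.mem_singleton.1 hw]; exact hv
    have hc : (N \ {u, v}).card = 2 := by
      have := Finset.card_sdiff_add_card_eq_card huvN
      rw [Finset.card_pair huv] at this
      omega
    obtain ⟨a, b, hab, hN'⟩ := Finset.card_eq_two.1 hc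
    have ha : a ∈ N \ {u, v} := by rw [hN']; simp
    have hb : b ∈ N \ {u, v} := by rw [hN']; simp
    obtain ⟨ha1, ha2⟩ := Finset.mem_sdiff.1 ha
    obtain ⟨hb1, hb2⟩ := Finset.mem_sdiff.1 hb
    have g1 := hr.sub (q.1 ∪ (gs q \ {u, v})) (Y ∪ N)
    have g2 : r q.2 ≤ r ((q.1 ∪ (gs q \ {u, v})) ∪ (Y ∪ N)) := hr.mono _ _ (by
      intro w hw
      have a2 : w = u → w ∈ N := fun e => e ▸ hu
      have a3 : w = v → w ∈ N := fun e => e ▸ hv
      simp only [QUB.gs, Finset.mem_sdiff, Finset.mem_union, Finset.mem_insert, Finset.mem_singleton] at a2 a3 ⊢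
      tauto)
    have g3 : r (insert a (insert b Y)) ≤ r ((q.1 ∪ (gs q \ {u, v})) ∩ (Y ∪ N)) := hr.mono _ _ (by
      intro w hw
      have b1 : ∀ z, z ∈ Y ∪ N → z ∈ q.2 := fun z hz => h2 hz
      have key : ∀ z, z ∈ Y ∪ N → z ∉ ({u, v} : Finset E) → z ∈ (q.1 ∪ (gs q \ {u, v})) ∩ (Y ∪ N) := by
        intro z hz hz'
        refine Finset.mem_inter.2 ⟨?_, hz⟩
        by_cases hz1 : z ∈ q.1
        · exact Finset.mem_union_left _ hz1
        · exact Finset.mem_union_right _ (Finset.mem_sdiff.2 ⟨Finset.mem_sdiff.2 ⟨b1 z hz, hz1⟩, hz'⟩)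
      rcases Finset.mem_insert.1 hw with rfl | hw
      · exact key _ (Finset.mem_union_right _ ha1) ha2
      · rcases Finset.mem_insert.1 hw with rfl | hw
        · exact key _ (Finset.mem_union_right _ hb1) hb2
        · refine key _ (Finset.mem_union_left _ hw) fun hh => ?_
          rcases Finset.mem_insert.1 hh with rfl | hh
          · exact uY hw
          · rw [Finset.mem_singleton.1 hh] at hw
            exact vY hw)
    have g4 := h6 a ha1 b hb1 hab
    linarith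
  unfold QUB.lam
  rw [e1]
  linarith

end rank

section main

variable {E : Type} [Fintype E] [DecidableEq E] {S : TP F4 E} {p : Itv E} {W : Finset E} {P : Fin 5 → Finset E}

theorem gz (hF : Fan S.r p W P) {k : Fin 5} {x : E} (hk : P k = {x}) : (W \ p.1) ∪ Rr P k = (gs p).erase x := by
  have hW2 := hF.hW2
  ext w
  have h1 := @hF.h1 w
  have h2 := @hW2 w
  have h3 : w ∈ p.2 ↔ w ∈ W ∨ ∃ i, w ∈ P i := by
    rw [← hF.hU]; simp
  have h4 : ∀ i, w ∈ P i → w ∉ W := fun i hi => Finset.disjoint_left.1 (hF.dW i) hi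
  have hxk : x ∈ P k := by rw [hk]; simp
  have h5 : w = x → w ∉ W := fun e => by rw [e]; exact Finset.disjoint_left.1 (hF.dW k) hxk
  have h6 : (∃ i, i ≠ k ∧ w ∈ P i) ↔ (∃ i, w ∈ P i) ∧ w ≠ x := by
    constructor
    · rintro ⟨i, hi, hw⟩
      refine ⟨⟨i, hw⟩, fun e => ?_⟩
      exact Finset.disjoint_left.1 (hF.dP i k hi) hw (e ▸ hxk)
    · rintro ⟨⟨i, hi⟩, hne⟩
      refine ⟨i, fun e => hne ?_, hi⟩
      rw [e, hk] at hi
      exact Finset.mem_singleton.1 hi
  rw [Finset.mem_union, mem_Rr, h6]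
  simp only [gs, Finset.mem_sdiff, Finset.mem_erase]
  constructor
  · rintro (⟨a, b⟩ | ⟨⟨i, a⟩, b⟩)
    · exact ⟨fun e => h5 e a, h2 a, b⟩
    · exact ⟨b, h3.2 (Or.inr ⟨i, a⟩), fun c => h4 i a (h1 c)⟩
  · rintro ⟨a, b, c⟩
    rcases h3.1 b with h | h
    · exact Or.inl ⟨h, c⟩
    · exact Or.inr ⟨h, a⟩

theorem nt_del (h : Cu S p) {Z : Finset E} (hZ : Z ⊆ gs p) (hc : Z.card ≤ 3) : S.r (p.2 \ Z) = S.r p.2 := by
  obtain ⟨Z', h1, h2, h4⟩ := Finset.exists_subsuperset_card_eq hZ hc (by have := h.hn; omega)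
  have h5 := h.nt.d3 Z' h2 h4
  have h6 := S.rk.mono (p.2 \ Z') (p.2 \ Z) (Finset.sdiff_subset_sdiff Finset.Subset.rfl h1)
  have h7 := S.rk.mono (p.2 \ Z) p.2 Finset.sdiff_subset
  omega

theorem pn_of (h : Cu S p) (hF : Fan S.r p W P) (hI : S.r W = S.r p.1 + (W \ p.1).card) {k : Fin 5} {x : E} (hk : P k = {x}) :
    Pn (con S.r p.1) (W \ p.1) P k := by
  have hG := gz hF hk
  have hW2 := hF.hW2
  have eW : p.1 ∪ (W \ p.1) = W := Finset.union_sdiff_of_subset hF.h1
  have hxk : x ∈ P k := by rw [hk]; simp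
  have hPg : ∀ i, P i ⊆ gs p := fun i w hw => by
    have h1 : w ∈ p.2 := by
      rw [← hF.hU]
      exact Finset.mem_union_right _ (Finset.mem_biUnion.2 ⟨i, Finset.mem_univ i, hw⟩)
    exact Finset.mem_sdiff.2 ⟨h1, fun h' => Finset.disjoint_left.1 (hF.dW i) hw (hF.h1 h')⟩
  have hxg : x ∈ gs p := hPg k hxk
  have eU : ∀ A, con S.r p.1 ((W \ p.1) ∪ A) = S.r (W ∪ A) - S.r p.1 := fun A => by
    simp only [con]
    rw [← Finset.union_assoc, eW]
  have hrW := hF.rW
  have eins : ∀ Z, Z ⊆ (gs p).erase x → p.1 ∪ ((gs p).erase x \ Z) = p.2 \ insert x Z := by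
    intro Z hZ
    ext w
    have a1 := @h.hp w
    have a2 := @hZ w
    have a3 : w = x → w ∉ p.1 := fun e => by rw [e]; exact (Finset.mem_sdiff.1 hxg).2
    simp only [gs, Finset.mem_sdiff, Finset.mem_union, Finset.mem_insert, Finset.mem_erase] at a1 a2 ⊢
    tauto
  refine ⟨rk_con S.rk p.1, ?_, fun i => Finset.disjoint_of_subset_right Finset.sdiff_subset (hF.dW i), hF.dP, hF.ne, fun i => ?_,
    fun i j hij s hs s' hs' => ?_, ?_, fun Z hZ hc => ?_, fun Z hZ hc => ?_, fun A hA hA2 hB2 => ?_⟩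
  · simp only [con]
    rw [eW]
    linarith
  · rw [eU, hF.one i]
    linarith
  · have e : insert s (insert s' (W \ p.1)) = (W \ p.1) ∪ {s, s'} := by
      ext w; simp only [Finset.mem_insert, Finset.mem_union, Finset.mem_singleton]; tauto
    have e2 : W ∪ {s, s'} = insert s (insert s' W) := by
      ext w; simp only [Finset.mem_insert, Finset.mem_union, Finset.mem_singleton]; tauto
    rw [e, eU, e2, hF.two i j hij s hs s' hs']
    linarith
  · rw [hG]
    simp only [con]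
    have := S.rk.mono (p.1 ∪ (gs p).erase x) p.2 (Finset.union_subset h.hp ((Finset.erase_subset _ _).trans Finset.sdiff_subset))
    linarith
  · rw [hG] at hZ
    have := h.nt.t3 Z (hZ.trans (Finset.erase_subset _ _)) hc
    simp only [con]
    linarith
  · rw [hG] at hZ ⊢
    simp only [con]
    rw [eins Z hZ, nt_del h (Finset.insert_subset hxg (hZ.trans (Finset.erase_subset _ _))) ((Finset.card_insert_le _ _).trans (by omega))]
    linarith
  · rw [hG] at hA hB2 ⊢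
    have h1 := h.th x hxg true A (by rw [gs_rm]; exact hA) hA2 (by rw [gs_rm]; exact hB2)
    have e1 : (rm true x p).2 = p.2.erase x := rfl
    have e2 : (rm true x p).1 = p.1 := rfl
    have h2 : QUB.lam S.r (rm true x p) A = S.r (p.1 ∪ A) + S.r (p.2.erase x \ A) - S.r (p.2.erase x) - S.r p.1 := rfl
    have h3 : S.r (p.2.erase x) = S.r p.2 := by
      have := nt_del h (Z := {x}) (Finset.singleton_subset_iff.2 hxg) (by simp)
      rwa [Finset.sdiff_singleton_eq_erase] at this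
    have h4 : p.2.erase x \ A = p.1 ∪ ((gs p).erase x \ A) := by
      rw [eins A hA]
      ext w
      simp only [Finset.mem_sdiff, Finset.mem_insert, Finset.mem_erase]
      tauto
    have h5 : QUB.lam S.r (rm true x p) A = Pool.Agent.QU.lam S.r (rm true x p) A := rfl
    rw [h4, h3] at h2
    simp only [con]
    linarith

/-- the pair box -/
theorem lamq (h : Cu S p) (hF : Fan S.r p W P) (hI : S.r W = S.r p.1 + (W \ p.1).card) {k : Fin 5} {x : E} (hk : P k = {x}) {g : E} (hg : g ∈ W \ p.1)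
    {A : Finset E} (hA : A ⊆ (gs (rm false g (rm true x p)))) :
    QUB.lam S.r (rm false g (rm true x p)) A = con S.r p.1 (insert g A) + con S.r p.1 (insert g (gs (rm false g (rm true x p)) \ A)) - ((W \ p.1).card + 3) := by
  have hxk : x ∈ P k := by rw [hk]; simp
  have hxW : x ∉ W := Finset.disjoint_left.1 (hF.dW k) hxk
  have hW2 := hF.hW2
  have hgW := Finset.mem_sdiff.1 hg
  have hgg : g ∈ gs p := Finset.mem_sdiff.2 ⟨hW2 hgW.1, hgW.2⟩
  have hgx : g ≠ x := fun e => hxW (e ▸ hgW.1)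
  have hxp : x ∈ p.2 := by
    rw [← hF.hU]
    exact Finset.mem_union_right _ (Finset.mem_biUnion.2 ⟨k, Finset.mem_univ k, hxk⟩)
  have hx1 : x ∉ p.1 := fun hh => hxW (hF.h1 hh)
  have e1 : (rm false g (rm true x p)).1 = insert g p.1 := rfl
  have e2 : (rm false g (rm true x p)).2 = p.2.erase x := rfl
  have h2 : QUB.lam S.r (rm false g (rm true x p)) A = S.r (insert g p.1 ∪ A) + S.r (p.2.erase x \ A) - S.r (p.2.erase x) - S.r (insert g p.1) := rfl
  have h3 : S.r (p.2.erase x) = S.r p.2 := by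
    have := nt_del h (Z := {x}) (Finset.singleton_subset_iff.2 (Finset.mem_sdiff.2 ⟨hxp, hx1⟩)) (by simp)
    rwa [Finset.sdiff_singleton_eq_erase] at this
  have h4 : S.r (insert g p.1) = S.r p.1 + 1 := by
    have := Nt.le3 S.rk h.nt (by have := h.hn; omega) (Z := {g}) (Finset.singleton_subset_iff.2 hgg) (by simp)
    rw [Finset.card_singleton] at this
    have e : p.1 ∪ {g} = insert g p.1 := by
      ext w; simp only [Finset.mem_union, Finset.mem_insert, Finset.mem_singleton]; tauto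
    rw [e] at this
    simpa using this
  have hgs : gs (rm false g (rm true x p)) = ((gs p).erase x).erase g := by rw [gs_rm, gs_rm]
  have h5 : p.2.erase x \ A = p.1 ∪ insert g (gs (rm false g (rm true x p)) \ A) := by
    rw [hgs] at hA ⊢
    have hp := h.hp
    have hgp := (Finset.mem_sdiff.1 hgg).1
    have hg1 := hgW.2
    clear h2 h3 h4 e1 e2 hgs hW2 hgW hgg hxW hI hF hk hxk h hg
    ext w
    have a1 := @hp w
    have a2 : w ∈ A → w ∈ p.2 ∧ w ∉ p.1 ∧ w ≠ x ∧ w ≠ g := fun hw => by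
      have := hA hw
      simp only [gs, Finset.mem_sdiff, Finset.mem_erase] at this
      tauto
    simp only [gs, Finset.mem_sdiff, Finset.mem_union, Finset.mem_insert, Finset.mem_erase]
    by_cases w1 : w = g
    · subst w1
      constructor
      · intro _; exact Or.inr (Or.inl rfl)
      · intro _; exact ⟨⟨hgx, hgp⟩, fun hh => (a2 hh).2.2.2 rfl⟩
    · constructor
      · rintro ⟨⟨b1, b2⟩, b3⟩
        by_cases b4 : w ∈ p.1
        · exact Or.inl b4
        · exact Or.inr (Or.inr ⟨⟨w1, b1, b2, b4⟩, b3⟩)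
      · rintro (b1 | b1 | ⟨⟨b1, b2, b3, b4⟩, b5⟩)
        · exact ⟨⟨fun e => hx1 (e ▸ b1), a1 b1⟩, fun hh => (a2 hh).2.1 b1⟩
        · exact absurd b1 w1
        · exact ⟨⟨b2, b3⟩, b5⟩
  have h6 : insert g p.1 ∪ A = p.1 ∪ insert g A := by
    ext w; simp only [Finset.mem_union, Finset.mem_insert]; tauto
  have hrW := hF.rW
  rw [h2, h3, h4, h5, h6]
  simp only [con]
  linarith

theorem gq (hF : Fan S.r p W P) {k : Fin 5} {x : E} (hk : P k = {x}) (g : E) :
    gs (rm false g (rm true x p)) = ((W \ p.1) ∪ Rr P k).erase g := by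
  rw [gs_rm, gs_rm, gz hF hk]

/-- a separation of the pair box has a small side -/
theorem sep_sid (h : Cu S p) (hF : Fan S.r p W P) (hI : S.r W = S.r p.1 + (W \ p.1).card) {k : Fin 5} {x : E} (hk : P k = {x}) {g : E} (hg : g ∈ W \ p.1)
    {A : Finset E} (hA : A ⊆ (gs (rm false g (rm true x p)))) (hA2 : 2 ≤ A.card) (hB2 : 2 ≤ (gs (rm false g (rm true x p)) \ A).card)
    (hl : QUB.lam S.r (rm false g (rm true x p)) A ≤ 1) :
    (∃ i, Sid (con S.r p.1) (W \ p.1) P k g i A) ∨ (∃ i, Sid (con S.r p.1) (W \ p.1) P k g i (gs (rm false g (rm true x p)) \ A)) := by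
  have h1 := lamq h hF hI hk hg hA
  rw [gq hF hk g] at hA hB2 h1 ⊢
  exact (pn_of h hF hI hk).loc hg hA hA2 hB2 (by linarith)

theorem ok_or (h : Cu S p) (hF : Fan S.r p W P) (hI : S.r W = S.r p.1 + (W \ p.1).card) {k : Fin 5} {x : E} (hk : P k = {x}) {g : E} (hg : g ∈ W \ p.1) :
    Ok S.r (rm false g (rm true x p)) ∨ ∃ i a, Sde (con S.r p.1) (W \ p.1) P k g i a := by
  by_cases ho : Ok S.r (rm false g (rm true x p))
  · exact Or.inl ho
  right
  unfold QUB.Ok at ho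
  push Not at ho
  obtain ⟨A, hA, hl, h1, h2⟩ := ho
  have c1 := h1.card
  have c2 := h2.card
  rcases sep_sid h hF hI hk hg hA (by omega) (by omega) hl with ⟨i, s⟩ | ⟨i, s⟩
  · exact ⟨i, _, s.sd (pn_of h hF hI hk) hg⟩
  · exact ⟨i, _, s.sd (pn_of h hF hI hk) hg⟩

end main

end Pool.Agent.QU.Exc
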