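import Pool.Agent.QUP.ExcC

/-!
# QUP/ExcD: a pair which is not `Lv2` gives a bad hub
-/

set_option autoImplicit false
set_option linter.all false

open QUB

namespace Pool.Agent.QU.Exc

open Pool.Agent.FRM

section main

variable {E : Type} [Fintype E] [DecidableEq E] {S : TP F4 E} {p : Itv E} {W : Finset E} {P : Fin 5 → Finset E}

private theorem ex_elt {A : Finset E} {B : Finset E} {C : Finset E} (h : A ⊆ B ∪ C) (h1 : (A ∩ B).card ≤ 1) (h2 : (A ∩ C).card ≤ 1) (h3 : 2 ≤ A.card) :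
    ∃ c y, c ∈ B ∧ y ∈ C ∧ c ≠ y ∧ A = {c, y} := by
  have e : A = (A ∩ B) ∪ (A ∩ C) := by
    ext w
    have := @h w
    simp only [Finset.mem_union, Finset.mem_inter] at this ⊢
    tauto
  have h4 := Finset.card_union_le (A ∩ B) (A ∩ C)
  rw [← e] at h4
  obtain ⟨c, hc⟩ := Finset.card_eq_one.1 (by omega : (A ∩ B).card = 1)
  obtain ⟨y, hy⟩ := Finset.card_eq_one.1 (by omega : (A ∩ C).card = 1)
  have c1 : c ∈ A ∩ B := by rw [hc]; simp
  have y1 : y ∈ A ∩ C := by rw [hy]; simp
  have e2 : A = {c, y} := by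
    rw [e, hc, hy]
    ext w; simp only [Finset.mem_union, Finset.mem_insert, Finset.mem_singleton]
  refine ⟨c, y, (Finset.mem_inter.1 c1).2, (Finset.mem_inter.1 y1).2, ?_, e2⟩
  rintro rfl
  rw [e2] at h3
  simp at h3

theorem lv_or (h : Cu S p) (hF : Fan S.r p W P) (hI : S.r W = S.r p.1 + (W \ p.1).card) {k : Fin 5} {x : E} (hk : P k = {x}) {g : E} (hg : g ∈ W \ p.1) :
    Lv2 S (rm false g (rm true x p)) ∨ Bdd (con S.r p.1) (W \ p.1) P k g := by
  have hr := S.rk
  have hxk : x ∈ P k := by rw [hk]; simp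
  have hxW : x ∉ W := Finset.disjoint_left.1 (hF.dW k) hxk
  have hgW := Finset.mem_sdiff.1 hg
  have hgg : g ∈ gs p := Finset.mem_sdiff.2 ⟨hF.hW2 hgW.1, hgW.2⟩
  have hgx : g ≠ x := fun e => hxW (e ▸ hgW.1)
  have hxg : x ∈ gs p := by
    have h1 : x ∈ p.2 := by
      rw [← hF.hU]
      exact Finset.mem_union_right _ (Finset.mem_biUnion.2 ⟨k, Finset.mem_univ k, hxk⟩)
    exact Finset.mem_sdiff.2 ⟨h1, fun h' => hxW (hF.h1 h')⟩
  have hPn := pn_of h hF hI hk
  have hgs := gq hF hk g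
  have hlq : ∀ {A : Finset E}, A ⊆ gs (rm false g (rm true x p)) → _ := fun {A} hA => lamq h hF hI hk hg (A := A) hA
  have hsid : ∀ {A : Finset E}, A ⊆ gs (rm false g (rm true x p)) → _ := fun {A} hA => sep_sid h hF hI hk hg (A := A) hA
  have hok := h.ok g hgg x hxg hgx false true
  have cq : Cn S.r (rm false g (rm true x p)) := h.cn2 hgg hxg hgx false true
  have wx : (rm true x p).1 ⊆ (rm true x p).2 := QUB.wf_rm h.hp hxg
  have gx : g ∈ gs (rm true x p) := by rw [gs_rm]; exact Finset.mem_erase.2 ⟨hgx, hgg⟩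
  have wq : (rm false g (rm true x p)).1 ⊆ (rm false g (rm true x p)).2 := QUB.wf_rm wx gx
  have hex : ∃ T, InVs S (rm false g (rm true x p)) T := by
    refine h.ih _ wq ((rm_sub true x p).trans (rm_sub false g (rm true x p))) ?_
    rw [gs_rm, gs_rm, Finset.card_erase_of_mem (by rw [gs_rm] at gx; exact gx), Finset.card_erase_of_mem hxg]
    have := h.hn
    omega
  rcases lemJ S h.nu wq cq hex with h1 | ⟨X, hX, hl, hv1, hv2, q', sb, wq', ⟨y, hy, gy⟩, cq', hbad⟩
  · exact Or.inl h1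
  right
  set q := rm false g (rm true x p) with hq
  set C := W \ p.1 with hC
  have hnR : ¬ HasRich S.r q := fun hR => hok hR X hX hl ⟨hv1, hv2⟩
  have hnR' : ¬ HasRich S.r q' := fun ⟨N, a, b⟩ => hnR ⟨N, sb.trans a, b⟩
  have hno := hbad.resolve_left hnR'
  unfold QUB.Ok at hno
  push Not at hno
  obtain ⟨Z0, hZ0, lZ0, vZ0, vZ0'⟩ := hno
  have gy' : QUB.gs q' = insert y (gs q \ X) := gy
  -- choose the side without `y`
  obtain ⟨Z, hZ, hyZ, lZ, vZ, vZ'⟩ : ∃ Z ⊆ gs q', y ∉ Z ∧ QUB.lam S.r q' Z ≤ 1 ∧ Hv S.r q' Z ∧ Hv S.r q' (gs q' \ Z) := by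
    by_cases hyZ : y ∈ Z0
    · refine ⟨gs q' \ Z0, Finset.sdiff_subset, fun hh => (Finset.mem_sdiff.1 hh).2 hyZ, ?_, vZ0', ?_⟩
      · exact (QUB.lam_compl S.r (p := q') wq' hZ0).trans_le lZ0
      · have : gs q' \ (gs q' \ Z0) = Z0 := Finset.sdiff_sdiff_eq_self hZ0
        rw [this]; exact vZ0
    · exact ⟨Z0, hZ0, hyZ, lZ0, vZ0, vZ0'⟩
  have hZY : Z ⊆ gs q \ X := by
    intro w hw
    have := hZ hw
    have e : gs q' = insert y (gs q \ X) := gy
    rw [e] at this
    rcases Finset.mem_insert.1 this with rfl | h'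
    · exact absurd hw hyZ
    · exact h'
  have hyX : y ∉ gs q \ X := fun hh => (Finset.mem_sdiff.1 hh).2 hy
  have hYq' : gs q \ X ⊆ gs q' := by
    have e : gs q' = insert y (gs q \ X) := gy
    rw [e]; exact Finset.subset_insert _ _
  have cY := hv2.card
  have cX := hv1.card
  have cZ := vZ.card
  have hlY : QUB.lam S.r q (gs q \ X) ≤ 1 := (QUB.lam_compl S.r (p := q) wq hX).trans_le hl
  have hlY' : QUB.lam S.r q (gs q \ X) ≤ QUB.lam S.r q' (gs q \ X) := by
    refine hlY.trans (cq' _ hYq' (Finset.card_pos.1 (by have e : (QUB.gs q \ X).card = (gs q \ X).card := rfl; omega)) ⟨y, Finset.mem_sdiff.2 ⟨?_, hyX⟩⟩)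
    rw [gy']; exact Finset.mem_insert_self _ _
  have lqZ : QUB.lam S.r q Z ≤ 1 := (lam_sub_eq hr sb hYq' hlY' hZY).trans lZ
  have hZq : Z ⊆ gs q := hZY.trans Finset.sdiff_subset
  have hXZ : X ⊆ gs q \ Z := fun w hw => Finset.mem_sdiff.2 ⟨hX hw, fun hh => (Finset.mem_sdiff.1 (hZY hh)).2 hw⟩
  have cZ' : 3 ≤ (gs q \ Z).card := by
    have := Finset.card_le_card hXZ
    omega
  have cY' : 3 ≤ (gs q \ X).card := cY
  -- the middle
  have mid : ∀ {c y2 : E}, (gs q \ X) \ Z = {c, y2} → c ≠ y2 → ∃ N, QUB.Ln S.r q' N ∧ c ∈ N ∧ y2 ∈ N ∧ y ∈ N := by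
    intro c y2 he hne
    obtain ⟨N, hN, hc⟩ := vZ'
    have e1 : gs q' \ Z = {y, c, y2} := by
      have e : gs q' = insert y (gs q \ X) := gy
      rw [e, Finset.insert_sdiff_of_notMem _ hyZ, he]
    have e2 : (QUB.gs q' \ Z) = {y, c, y2} := e1
    rw [e2] at hc
    have e3 : ({y, c, y2} : Finset E).card ≤ 3 := Finset.card_le_three
    have e4 : N ∩ {y, c, y2} = {y, c, y2} := Finset.eq_of_subset_of_card_le Finset.inter_subset_right (by omega)
    have e5 : ∀ w ∈ ({y, c, y2} : Finset E), w ∈ N := fun w hw => by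
      rw [← e4] at hw
      exact (Finset.mem_inter.1 hw).1
    exact ⟨N, hN, e5 c (by simp), e5 y2 (by simp), e5 y (by simp)⟩
  have two : ¬ ((gs q \ X) \ Z).card ≤ 1 := by
    intro hc
    obtain ⟨N, hN, hc'⟩ := vZ'
    have e : gs q' = insert y (gs q \ X) := gy
    have e2 : QUB.gs q' \ Z = insert y ((gs q \ X) \ Z) := by
      rw [show QUB.gs q' = insert y (gs q \ X) from gy, Finset.insert_sdiff_of_notMem _ hyZ]
    rw [e2] at hc'
    have h1 : (N ∩ insert y ((gs q \ X) \ Z)).card ≤ (insert y ((gs q \ X) \ Z)).card := Finset.card_le_card Finset.inter_subset_right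
    have h2 := Finset.card_insert_le y ((gs q \ X) \ Z)
    omega
  have hmidsub : (gs q \ X) \ Z ⊆ C ∪ Rr P k := by
    intro w hw
    have h1 : w ∈ gs q := (Finset.mem_sdiff.1 (Finset.mem_sdiff.1 hw).1).1
    rw [hgs] at h1
    exact (Finset.mem_erase.1 h1).2
  have nei : ∀ {i j : Fin 5} {A B : Finset E}, Sid (con S.r p.1) C P k g i A → Sid (con S.r p.1) C P k g j B → A ⊆ B → i = j := by
    intro i j A B sA sB hAB
    obtain ⟨w, hw⟩ := Finset.card_pos.1 (by have := sA.two; omega : 0 < (A ∩ Rr P k).card)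
    by_contra hij
    refine Finset.disjoint_left.1 (hF.dP i j hij) (sA.cls hw) (sB.cls (Finset.mem_inter.2 ⟨hAB (Finset.mem_inter.1 hw).1, (Finset.mem_inter.1 hw).2⟩))
  rcases hsid hX (by omega) (by omega) hl with ⟨i, sX⟩ | ⟨i, sY⟩
  · rcases hsid hZq (by omega) (by omega) lqZ with ⟨j, sZ⟩ | ⟨j, sZ⟩
    · -- disjoint sides
      left
      refine ⟨i, j, _, _, sX.sd hPn hg, sZ.sd hPn hg, ?_⟩
      rw [Finset.disjoint_left]
      intro w hw hw'
      exact (Finset.mem_sdiff.1 (hZY (Finset.mem_inter.1 hw').1)).2 (Finset.mem_inter.1 hw).1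
    · -- `X` inside the complement of `Z`
      right
      have hij := nei sX sZ hXZ
      subst hij
      refine ⟨i, _, _, sX.sd hPn hg, sZ.sd hPn hg, Finset.inter_subset_inter_right hXZ, ?_⟩
      by_contra hcon
      push Not at hcon
      obtain ⟨t1, t2⟩ := hPn.thin hg sX sZ hXZ hcon
      have e : (gs q \ Z) \ X = (gs q \ X) \ Z := by
        ext w; simp only [Finset.mem_sdiff]; tauto
      rw [e] at t1 t2
      obtain ⟨c, y2, hc, hy2, hne, he⟩ := ex_elt hmidsub t1 t2 (by omega)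
      obtain ⟨N, hN, n1, n2, n3⟩ := mid he hne
      have hcm : c ∈ (gs q \ X) \ Z := by rw [he]; simp
      have hcY := (Finset.mem_sdiff.1 hcm).1
      have hcX : c ∉ X := (Finset.mem_sdiff.1 hcY).2
      have hcy : c ≠ y := fun e => hcX (e ▸ hy)
      have hcg : c ≠ g := fun e => by
        have := (Finset.mem_sdiff.1 hcY).1
        rw [hgs] at this
        exact (Finset.mem_erase.1 this).1 e
      have hsp : Spp (con S.r p.1) C (Rr P k) c (X ∩ Rr P k) := hcon c hc (sZ.sp hPn hg hc (Finset.mem_sdiff.2 ⟨(Finset.mem_sdiff.1 hcY).1, (Finset.mem_sdiff.1 hcm).2⟩))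
      have hadd := hPn.add hg sX hc hcg hcX hsp
      -- the complement
      have hcXq : insert c X ⊆ gs q := Finset.insert_subset (Finset.mem_sdiff.1 hcY).1 hX
      have l1 : QUB.lam S.r q (insert c X) ≤ 1 := by
        have := hlq hcXq
        rw [hgs] at this
        linarith
      have l2 : QUB.lam S.r q (gs q \ insert c X) ≤ 1 := (QUB.lam_compl S.r (p := q) wq hcXq).trans_le l1
      have e3 : gs q' \ {c, y} = gs q \ insert c X := by
        rw [show gs q' = insert y (gs q \ X) from gy]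
        ext w
        by_cases w1 : w = y
        · subst w1
          constructor
          · intro hh; exact absurd (by simp : w ∈ ({c, w} : Finset E)) (Finset.mem_sdiff.1 hh).2
          · intro hh; exact absurd (Finset.mem_insert_of_mem hy) (Finset.mem_sdiff.1 hh).2
        · simp only [Finset.mem_sdiff, Finset.mem_insert, Finset.mem_singleton]
          constructor
          · rintro ⟨hh | ⟨ha, hb⟩, hc'⟩
            · exact absurd hh w1
            · exact ⟨ha, fun hd => hd.elim (fun e => hc' (Or.inl e)) hb⟩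
          · rintro ⟨ha, hb⟩
            exact ⟨Or.inr ⟨ha, fun hh => hb (Or.inr hh)⟩, fun hd => hd.elim (fun e => hb (Or.inl e)) w1⟩
      have l3 := lam_sub_le hr sb (T := gs q' \ {c, y}) Finset.sdiff_subset
      have l4 : 2 ≤ QUB.lam S.r q' (gs q' \ {c, y}) := ln_two hr wq' hN n1 n3 hcy
      rw [e3] at l3 l4
      omega
  · rcases hsid hZq (by omega) (by omega) lqZ with ⟨j, sZ⟩ | ⟨j, sZ⟩
    · -- `Z` inside `Y`
      right
      have hij := nei sZ sY hZY
      subst hij
      refine ⟨j, _, _, sZ.sd hPn hg, sY.sd hPn hg, Finset.inter_subset_inter_right hZY, ?_⟩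
      by_contra hcon
      push Not at hcon
      obtain ⟨t1, t2⟩ := hPn.thin hg sZ sY hZY hcon
      obtain ⟨c, y2, hc, hy2, hne, he⟩ := ex_elt hmidsub t1 t2 (by omega)
      obtain ⟨N, hN, n1, n2, n3⟩ := mid he hne
      have hcm : c ∈ (gs q \ X) \ Z := by rw [he]; simp
      have hym : y2 ∈ (gs q \ X) \ Z := by rw [he]; simp
      have hcY := (Finset.mem_sdiff.1 hcm).1
      have hcZ := (Finset.mem_sdiff.1 hcm).2
      have hyy : y2 ≠ y := fun e => (Finset.mem_sdiff.1 (Finset.mem_sdiff.1 hym).1).2 (e ▸ hy)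
      have hcg : c ≠ g := fun e => by
        have := (Finset.mem_sdiff.1 hcY).1
        rw [hgs] at this
        exact (Finset.mem_erase.1 this).1 e
      have hsp : Spp (con S.r p.1) C (Rr P k) c (Z ∩ Rr P k) := hcon c hc (sY.sp hPn hg hc hcY)
      have hadd := hPn.add hg sZ hc hcg hcZ hsp
      have hcZq : insert c Z ⊆ gs q := Finset.insert_subset (Finset.mem_sdiff.1 hcY).1 hZq
      have l1 : QUB.lam S.r q (insert c Z) ≤ 1 := by
        have := hlq hcZq
        rw [hgs] at this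
        linarith
      have e3 : gs q' \ {y2, y} = insert c Z := by
        rw [show gs q' = insert y (gs q \ X) from gy]
        have k1 : ∀ w, w ∈ gs q \ X ↔ w ∈ Z ∨ w = c ∨ w = y2 := by
          intro w
          constructor
          · intro hw
            by_cases hwZ : w ∈ Z
            · exact Or.inl hwZ
            · have : w ∈ (gs q \ X) \ Z := Finset.mem_sdiff.2 ⟨hw, hwZ⟩
              rw [he] at this
              simp only [Finset.mem_insert, Finset.mem_singleton] at this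
              exact Or.inr this
          · rintro (hw | rfl | rfl)
            · exact hZY hw
            · exact hcY
            · exact (Finset.mem_sdiff.1 hym).1
        have k2 : y2 ∉ Z := (Finset.mem_sdiff.1 hym).2
        ext w
        rw [Finset.mem_sdiff, Finset.mem_insert, k1, Finset.mem_insert, Finset.mem_insert, Finset.mem_singleton]
        constructor
        · rintro ⟨rfl | hw | hw | hw, hh⟩
          · exact absurd (Or.inr rfl) hh
          · exact Or.inr hw
          · exact Or.inl hw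
          · exact absurd (Or.inl hw) hh
        · rintro (rfl | hw)
          · exact ⟨Or.inr (Or.inr (Or.inl rfl)), fun hh => hh.elim hne (fun e => (Finset.mem_sdiff.1 hcY).2 (e ▸ hy))⟩
          · exact ⟨Or.inr (Or.inl hw), fun hh => hh.elim (fun e => k2 (e ▸ hw)) (fun e => hyZ (e ▸ hw))⟩
      have l3 := lam_sub_le hr sb (T := gs q' \ {y2, y}) Finset.sdiff_subset
      have l4 : 2 ≤ QUB.lam S.r q' (gs q' \ {y2, y}) := ln_two hr wq' hN n2 n3 hyy
      rw [e3] at l3 l4
      omega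
    · -- impossible
      exfalso
      obtain ⟨l, m, t, t', q1, q2, q3, q4, q5, q6, q7, q8, q9⟩ := hPn.mt i j
      have ht : t ∈ gs q := by
        rw [hgs]
        exact Finset.mem_erase.2 ⟨fun e => Finset.disjoint_left.1 (hF.dW l) q2 (e ▸ hgW.1), Finset.mem_union_right _ (sub_Rr q6 q2)⟩
      by_cases htX : t ∈ X
      · exact Finset.disjoint_left.1 (hF.dP l j q5) q2 (sZ.cls (Finset.mem_inter.2 ⟨hXZ htX, sub_Rr q6 q2⟩))
      · exact Finset.disjoint_left.1 (hF.dP l i q4) q2 (sY.cls (Finset.mem_inter.2 ⟨Finset.mem_sdiff.2 ⟨ht, htX⟩, sub_Rr q6 q2⟩))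

end main

end Pool.Agent.QU.Exc
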