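import Pool.Agent.QUP.ExcB

/-!
# QUP/ExcE: two exceptional points, rank part
-/

set_option autoImplicit false
set_option linter.all false

namespace Pool.Agent.QU.Exc

open QUB (Rk)

variable {E : Type} [DecidableEq E] {r : Finset E → ℤ} {C : Finset E} {P : Fin 5 → Finset E} {k k' : Fin 5}

/-- all classes -/
def Rf (P : Fin 5 → Finset E) : Finset E := Finset.univ.biUnion P

theorem mem_Rf {w : E} : w ∈ Rf P ↔ ∃ i, w ∈ P i := by
  simp [Rf]

theorem Pn.ix (h : Pn r C P k) {X : Finset E} (hX : (C.card : ℤ) + 2 ≤ r (C ∪ X)) (hX' : r (C ∪ X) ≤ C.card + 2) :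
    ∀ S : Finset E, S ⊆ C → (∀ c ∈ S, r (C.erase c ∪ X) ≤ C.card + 1) → r ((C \ S) ∪ X) ≤ (C \ S).card + 2 := by
  intro S
  induction S using Finset.induction_on with
  | empty =>
    intro _ _
    rw [Finset.sdiff_empty]
    exact hX'
  | insert s S hs ih =>
    intro hSC hcst
    have hsC : s ∈ C := hSC (Finset.mem_insert_self _ _)
    have h1 := ih ((Finset.subset_insert _ _).trans hSC) (fun c hc => hcst c (Finset.mem_insert_of_mem hc))
    have h2 := hcst s (Finset.mem_insert_self _ _)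
    have h4 := h.hr.sub ((C \ S) ∪ X) (C.erase s ∪ X)
    have h5 : r (C ∪ X) ≤ r (((C \ S) ∪ X) ∪ (C.erase s ∪ X)) := h.hr.mono _ _ (by
      intro w hw
      by_cases hws : w = s
      · subst hws
        exact Finset.mem_union_left _ (Finset.mem_union_left _ (Finset.mem_sdiff.2 ⟨hsC, hs⟩))
      · simp only [Finset.mem_union, Finset.mem_erase] at hw ⊢
        tauto)
    have h6 : r ((C \ insert s S) ∪ X) ≤ r (((C \ S) ∪ X) ∩ (C.erase s ∪ X)) := h.hr.mono _ _ (by
      intro w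
      simp only [Finset.mem_union, Finset.mem_erase, Finset.mem_inter, Finset.mem_sdiff, Finset.mem_insert]
      tauto)
    have h7 : ((C \ insert s S).card : ℤ) = (C \ S).card - 1 := by
      have e : C \ insert s S = (C \ S).erase s := by
        ext w
        simp only [Finset.mem_erase, Finset.mem_sdiff, Finset.mem_insert]
        tauto
      have hm : s ∈ C \ S := Finset.mem_sdiff.2 ⟨hsC, hs⟩
      rw [e, Finset.card_erase_of_mem hm]
      have := Finset.card_pos.2 ⟨s, hm⟩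
      push_cast [this]
      omega
    linarith

/-- supported on a class in both deletions -/
theorem s0 (h : Pn r C P k) (h' : Pn r C P k') (hkk : k ≠ k') {i : Fin 5} (hi : i ≠ k) (hi' : i ≠ k') {c : E} (hc : c ∈ C)
    (h1 : Spp r C (Rr P k) c (P i)) (h2 : Spp r C (Rr P k') c (P i)) : r (C.erase c ∪ (Rf P \ P i)) ≤ C.card + 1 := by
  obtain ⟨l, m, t, t', q1, q2, q3, q4, q5, q6, q7, q8, q9⟩ := h.mt i k'
  have ht : ∀ {l : Fin 5} {s : E}, s ∈ P l → l ≠ i → l ≠ k' → l ≠ k → s ∈ (Rr P k \ P i) ∩ (Rr P k' \ P i) := by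
    intro l s hs hli hlk' hlk
    have e : s ∉ P i := fun hh => Finset.disjoint_left.1 (h.dP l i hli) hs hh
    exact Finset.mem_inter.2 ⟨Finset.mem_sdiff.2 ⟨sub_Rr hlk hs, e⟩, Finset.mem_sdiff.2 ⟨sub_Rr hlk' hs, e⟩⟩
  have g2 := h.lo2 hc q1 q2 q3 (ht q2 q4 q5 q6) (ht q3 q7 q8 q9)
  have g1 := h.hr.sub (C.erase c ∪ (Rr P k \ P i)) (C.erase c ∪ (Rr P k' \ P i))
  have g3 : r (C.erase c ∪ (Rf P \ P i)) ≤ r ((C.erase c ∪ (Rr P k \ P i)) ∪ (C.erase c ∪ (Rr P k' \ P i))) := h.hr.mono _ _ (by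
    intro w hw
    rcases Finset.mem_union.1 hw with hw | hw
    · exact Finset.mem_union_left _ (Finset.mem_union_left _ hw)
    · obtain ⟨a, b⟩ := Finset.mem_sdiff.1 hw
      obtain ⟨j, hj⟩ := mem_Rf.1 a
      by_cases hjk : j = k
      · refine Finset.mem_union_right _ (Finset.mem_union_right _ (Finset.mem_sdiff.2 ⟨sub_Rr ?_ hj, b⟩))
        rw [hjk]; exact hkk
      · exact Finset.mem_union_left _ (Finset.mem_union_right _ (Finset.mem_sdiff.2 ⟨sub_Rr hjk hj, b⟩)))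
  have g4 : r (C.erase c ∪ ((Rr P k \ P i) ∩ (Rr P k' \ P i))) ≤ r ((C.erase c ∪ (Rr P k \ P i)) ∩ (C.erase c ∪ (Rr P k' \ P i))) := h.hr.mono _ _ (by
    intro w; simp only [Finset.mem_union, Finset.mem_inter, Finset.mem_sdiff]; tauto)
  unfold Spp at h1 h2
  linarith

/-- case N -/
def CN (r : Finset E → ℤ) (C : Finset E) (P : Fin 5 → Finset E) (k : Fin 5) (g : E) : Prop :=
  ∃ i, i ≠ k ∧ (∀ j, j ≠ i → j ≠ k → (P j).card = 1) ∧ ∀ c ∈ C, c ≠ g → Spp r C (Rr P k) c (P i)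

/-- case D -/
def CD (r : Finset E → ℤ) (C : Finset E) (P : Fin 5 → Finset E) (k : Fin 5) (c1 c2 g : E) : Prop :=
  ∃ i1 i2, i1 ≠ k ∧ i2 ≠ k ∧ i1 ≠ i2 ∧ C = {c1, c2, g} ∧ c1 ≠ c2 ∧ Spp r C (Rr P k) c1 (P i1) ∧ Spp r C (Rr P k) c2 (P i2) ∧
    (∀ j, j ≠ i1 → j ≠ i2 → j ≠ k → (P j).card = 1) ∧ ¬ Cst r C g (P i1) ∧ ¬ Cst r C g (P i2) ∧ ¬ Cst r C c1 (P i1) ∧ ¬ Cst r C c2 (P i2)

/-- contraction of an element of `C` is three-connected -/
def Tg (r : Finset E → ℤ) (C : Finset E) (P : Fin 5 → Finset E) : Prop :=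
  ∀ g ∈ C, ∀ A ⊆ (C ∪ Rf P).erase g, 2 ≤ A.card → 2 ≤ ((C ∪ Rf P).erase g \ A).card →
    (C.card : ℤ) + 5 ≤ r (insert g A) + r (insert g ((C ∪ Rf P).erase g \ A))

theorem card_spp (h : Pn r C P k) {c : E} (hc : c ∈ C) {i : Fin 5} (hi : i ≠ k) (hs : Spp r C (Rr P k) c (P i)) : 2 ≤ (P i).card :=
  h.s2 hc (sub_Rr hi) hs

/-- two points of type D -/
theorem dd (h : Pn r C P k) (h' : Pn r C P k') (hkk : k ≠ k') (hT : Tg r C P) (c1k : (P k).card = 1) (c1k' : (P k').card = 1) {c1 c2 g c1' c2' g' : E}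
    (hg : g ∈ C) (hg' : g' ∈ C) (gc1 : g ≠ c1) (gc2 : g ≠ c2) (D : CD r C P k c1 c2 g) (D' : CD r C P k' c1' c2' g') : False := by
  obtain ⟨i1, i2, a1, a2, a3, a4, a5, a6, a7, a8, a9, a10, a11, a12⟩ := D
  obtain ⟨j1, j2, b1, b2, b3, b4, b5, b6, b7, b8, b9, b10, b11, b12⟩ := D'
  have m1 : c1 ∈ C := by rw [a4]; simp
  have m2 : c2 ∈ C := by rw [a4]; simp
  have m1' : c1' ∈ C := by rw [b4]; simp
  have m2' : c2' ∈ C := by rw [b4]; simp
  -- the big classes
  have big : ∀ {j : Fin 5} {c : E}, c ∈ C → j ≠ k' → Spp r C (Rr P k') c (P j) → j = i1 ∨ j = i2 := by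
    intro j c hc hj hs
    have h2 := card_spp h' hc hj hs
    by_contra hcon
    push Not at hcon
    have hjk : j ≠ k := by
      rintro rfl
      omega
    have := a8 j hcon.1 hcon.2 hjk
    omega
  have hj1 := big m1' b1 b6
  have hj2 := big m2' b2 b7
  -- the same top
  have hno : ∀ j, (j = i1 ∨ j = i2) → ¬ Cst r C g (P j) := by
    rintro j (rfl | rfl)
    · exact a9
    · exact a10
  have hgg : g ≠ c1' ∧ g ≠ c2' := by
    constructor
    · rintro rfl
      exact hno j2 hj2 (h'.sx hg Finset.Subset.rfl Finset.Subset.rfl b2 (h.dP j1 j2 b3) b6)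
    · rintro rfl
      exact hno j1 hj1 (h'.sx hg Finset.Subset.rfl Finset.Subset.rfl b1 (h.dP j2 j1 b3.symm) b7)
  have hge : g = g' := by
    have := hg
    rw [b4] at this
    simp only [Finset.mem_insert, Finset.mem_singleton] at this
    tauto
  -- the row `c1`
  have hs1 : Spp r C (Rr P k') c1 (P i1) := by
    have : c1 = c1' ∨ c1 = c2' := by
      have := m1
      rw [b4] at this
      simp only [Finset.mem_insert, Finset.mem_singleton] at this
      rcases this with h1 | h1 | h1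
      · exact Or.inl h1
      · exact Or.inr h1
      · exact absurd (hge.trans h1.symm) gc1
    have key : ∀ j, (j = i1 ∨ j = i2) → Spp r C (Rr P k') c1 (P j) → Spp r C (Rr P k') c1 (P i1) := by
      rintro j (rfl | rfl) hs
      · exact hs
      · by_cases e : i1 = k'
        · exfalso
          have := card_spp h m1 a1 a6
          rw [e, c1k'] at this
          omega
        · exact absurd (h'.sx m1 Finset.Subset.rfl Finset.Subset.rfl e (h.dP j i1 a3.symm) hs) a11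
    rcases this with h1 | h1
    · exact key j1 hj1 (h1 ▸ b6)
    · exact key j2 hj2 (h1 ▸ b7)
  have hik' : i1 ≠ k' := by
    intro e
    have := card_spp h m1 a1 a6
    rw [e, c1k'] at this
    omega
  have g1 := s0 h h' hkk a1 hik' m1 a6 hs1
  -- the side
  have hc2 : Cst r C c2 (P i1) := h.sx m2 Finset.Subset.rfl Finset.Subset.rfl a1 (h.dP i2 i1 a3.symm) a7
  have g2 := h.i1 (a := P i1) Finset.Subset.rfl (h.ne i1) {c2} (Finset.singleton_subset_iff.2 m2) (by
    intro c hc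
    rw [Finset.mem_singleton.1 hc]
    exact hc2)
  have hcard3 : C.card = 3 := by
    rw [a4]
    exact Finset.card_eq_three.2 ⟨c1, c2, g, a5, gc1.symm, gc2.symm, rfl⟩
  have hcd : (C \ {c2}).card = 2 := by
    rw [Finset.sdiff_singleton_eq_erase, Finset.card_erase_of_mem m2, hcard3]
  rw [hcd] at g2
  have hPC : ∀ {w}, w ∈ P i1 → w ∉ C := fun hw => Finset.disjoint_left.1 (h.dC i1) hw
  have hA : insert c1 (P i1) ⊆ (C ∪ Rf P).erase g := by
    intro w hw
    rcases Finset.mem_insert.1 hw with rfl | hw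
    · exact Finset.mem_erase.2 ⟨gc1.symm, Finset.mem_union_left _ m1⟩
    · exact Finset.mem_erase.2 ⟨fun e => hPC hw (e ▸ hg), Finset.mem_union_right _ (mem_Rf.2 ⟨i1, hw⟩)⟩
  obtain ⟨l, m, t, t', q1, q2, q3, q4, q5, q6, q7, q8, q9⟩ := h.mt i1 i1
  have ht : ∀ {l : Fin 5} {s : E}, s ∈ P l → l ≠ i1 → s ∈ (C ∪ Rf P).erase g \ insert c1 (P i1) := by
    intro l s hs hl
    refine Finset.mem_sdiff.2 ⟨Finset.mem_erase.2 ⟨fun e => Finset.disjoint_left.1 (h.dC l) hs (e ▸ hg), Finset.mem_union_right _ (mem_Rf.2 ⟨l, hs⟩)⟩, fun hh => ?_⟩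
    rcases Finset.mem_insert.1 hh with e | hh
    · exact Finset.disjoint_left.1 (h.dC l) hs (e ▸ m1)
    · exact Finset.disjoint_left.1 (h.dP l i1 hl) hs hh
  have htt : t ≠ t' := fun e => Finset.disjoint_left.1 (h.dP l m q1) q2 (e ▸ q3)
  have g3 := hT g hg _ hA (by
    rw [Finset.card_insert_of_notMem fun hh => hPC hh m1]
    have := Finset.card_pos.2 (h.ne i1)
    omega) (by
    have h1 : ({t, t'} : Finset E) ⊆ (C ∪ Rf P).erase g \ insert c1 (P i1) := by
      intro w hw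
      rcases Finset.mem_insert.1 hw with rfl | hw
      · exact ht q2 q4
      · rw [Finset.mem_singleton.1 hw]; exact ht q3 q7
    have := Finset.card_le_card h1
    rwa [Finset.card_pair htt] at this)
  have g4 : r (insert g (insert c1 (P i1))) ≤ r (C \ {c2} ∪ P i1) := h.hr.mono _ _ (by
    intro w hw
    rcases Finset.mem_insert.1 hw with rfl | hw
    · exact Finset.mem_union_left _ (Finset.mem_sdiff.2 ⟨hg, fun hh => gc2 (Finset.mem_singleton.1 hh)⟩)
    · rcases Finset.mem_insert.1 hw with rfl | hw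
      · exact Finset.mem_union_left _ (Finset.mem_sdiff.2 ⟨m1, fun hh => a5 (Finset.mem_singleton.1 hh)⟩)
      · exact Finset.mem_union_right _ hw)
  have g5 : r (insert g ((C ∪ Rf P).erase g \ insert c1 (P i1))) ≤ r (C.erase c1 ∪ (Rf P \ P i1)) := h.hr.mono _ _ (by
    intro w hw
    rcases Finset.mem_insert.1 hw with rfl | hw
    · exact Finset.mem_union_left _ (Finset.mem_erase.2 ⟨gc1, hg⟩)
    · obtain ⟨a, b⟩ := Finset.mem_sdiff.1 hw
      rcases Finset.mem_union.1 (Finset.mem_erase.1 a).2 with a | a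
      · exact Finset.mem_union_left _ (Finset.mem_erase.2 ⟨fun e => b (Finset.mem_insert.2 (Or.inl e)), a⟩)
      · exact Finset.mem_union_right _ (Finset.mem_sdiff.2 ⟨a, fun e => b (Finset.mem_insert_of_mem e)⟩))
  push_cast at g2
  linarith

/-- two points of type N: the same class -/
theorem nn_cls (h : Pn r C P k) (h' : Pn r C P k') (c1k : (P k).card = 1) {i j : Fin 5} {g g' : E} (h3 : 3 ≤ C.card)
    (hi1 : ∀ j, j ≠ i → j ≠ k → (P j).card = 1) (hj : j ≠ k') (hj2 : ∀ c ∈ C, c ≠ g' → Spp r C (Rr P k') c (P j)) : j = i := by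
  obtain ⟨c, hc, hcg⟩ : ∃ c ∈ C, c ≠ g' := by
    by_contra hcon
    push Not at hcon
    have : C ⊆ {g'} := fun w hw => Finset.mem_singleton.2 (hcon w hw)
    have := Finset.card_le_card this
    rw [Finset.card_singleton] at this
    omega
  have h2 := card_spp h' hc hj (hj2 c hc hcg)
  by_contra hcon
  by_cases hjk : j = k
  · rw [hjk] at h2
    omega
  · have := hi1 j hcon hjk
    omega

/-- two points of type N: rank of the four points with the two tops -/
theorem nn_rk (h : Pn r C P k) (h' : Pn r C P k') (hkk : k ≠ k') (hful : r (C ∪ Rf P) ≤ C.card + 2) {i : Fin 5} {g g' : E} (hi : i ≠ k) (hi' : i ≠ k')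
    (hg : g ∈ C) (hg' : g' ∈ C) (h1 : ∀ c ∈ C, c ≠ g → Spp r C (Rr P k) c (P i)) (h2 : ∀ c ∈ C, c ≠ g' → Spp r C (Rr P k') c (P i)) :
    r ({g, g'} ∪ (Rf P \ P i)) ≤ ({g, g'} : Finset E).card + 2 := by
  obtain ⟨l, m, t, t', q1, q2, q3, q4, q5, q6, q7, q8, q9⟩ := h.mt i i
  have ht : ∀ {l : Fin 5} {s : E}, s ∈ P l → l ≠ i → s ∈ Rf P \ P i := by
    intro l s hs hl
    exact Finset.mem_sdiff.2 ⟨mem_Rf.2 ⟨l, hs⟩, fun hh => Finset.disjoint_left.1 (h.dP l i hl) hs hh⟩
  have e0 : C \ (C \ {g, g'}) = {g, g'} := Finset.sdiff_sdiff_eq_self (by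
    intro w hw
    rcases Finset.mem_insert.1 hw with rfl | hw
    · exact hg
    · rw [Finset.mem_singleton.1 hw]; exact hg')
  have g1 := h.ix (X := Rf P \ P i) (h.lo2' q1 q2 q3 (ht q2 q4) (ht q3 q7))
    ((h.hr.mono _ _ (Finset.union_subset_union_right Finset.sdiff_subset)).trans hful) (C \ {g, g'}) Finset.sdiff_subset (by
      intro c hc
      obtain ⟨a, b⟩ := Finset.mem_sdiff.1 hc
      simp only [Finset.mem_insert, Finset.mem_singleton, not_or] at b
      exact s0 h h' hkk hi hi' a (h1 c a b.1) (h2 c a b.2))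
  rwa [e0] at g1

/-- the tops are different -/
theorem nn_ne (h : Pn r C P k) (h' : Pn r C P k') (hkk : k ≠ k') (hT : Tg r C P) (hful : r (C ∪ Rf P) ≤ C.card + 2) (h3 : 3 ≤ C.card) {i : Fin 5} {g g' : E}
    (hi : i ≠ k) (hi' : i ≠ k') (hg : g ∈ C) (hg' : g' ∈ C) (h1 : ∀ c ∈ C, c ≠ g → Spp r C (Rr P k) c (P i))
    (h2 : ∀ c ∈ C, c ≠ g' → Spp r C (Rr P k') c (P i)) : g ≠ g' := by
  rintro rfl
  have g1 := nn_rk h h' hkk hful hi hi' hg hg h1 h2
  have e1 : ({g, g} : Finset E) = {g} := by simp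
  rw [e1, Finset.card_singleton] at g1
  obtain ⟨l, m, t, t', q1, q2, q3, q4, q5, q6, q7, q8, q9⟩ := h.mt i i
  have htt : t ≠ t' := fun e => Finset.disjoint_left.1 (h.dP l m q1) q2 (e ▸ q3)
  have hK : Rf P \ P i ⊆ (C ∪ Rf P).erase g := by
    intro w hw
    obtain ⟨a, b⟩ := Finset.mem_sdiff.1 hw
    obtain ⟨j, hj⟩ := mem_Rf.1 a
    exact Finset.mem_erase.2 ⟨fun e => Finset.disjoint_left.1 (h.dC j) hj (e ▸ hg), Finset.mem_union_right _ a⟩
  have e2 : (C ∪ Rf P).erase g \ (Rf P \ P i) = C.erase g ∪ P i := by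
    ext w
    have a1 : w ∈ P i → w ∈ Rf P := fun hw => mem_Rf.2 ⟨i, hw⟩
    have a2 : w ∈ P i → w ∉ C := fun hw => Finset.disjoint_left.1 (h.dC i) hw
    have a3 : w ∈ Rf P → w ∉ C := fun hw => by
      obtain ⟨j, hj⟩ := mem_Rf.1 hw
      exact Finset.disjoint_left.1 (h.dC j) hj
    have a4 : w = g → w ∈ C := fun e => e ▸ hg
    simp only [Finset.mem_union, Finset.mem_sdiff, Finset.mem_erase]
    tauto
  have g3 := hT g hg _ hK (by
    have h1 : ({t, t'} : Finset E) ⊆ Rf P \ P i := by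
      intro w hw
      rcases Finset.mem_insert.1 hw with rfl | hw
      · exact Finset.mem_sdiff.2 ⟨mem_Rf.2 ⟨l, q2⟩, fun hh => Finset.disjoint_left.1 (h.dP l i q4) q2 hh⟩
      · rw [Finset.mem_singleton.1 hw]
        exact Finset.mem_sdiff.2 ⟨mem_Rf.2 ⟨m, q3⟩, fun hh => Finset.disjoint_left.1 (h.dP m i q7) q3 hh⟩
    have := Finset.card_le_card h1
    rwa [Finset.card_pair htt] at this) (by
    rw [e2]
    have := Finset.card_le_card (Finset.subset_union_left (s₁ := C.erase g) (s₂ := P i))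
    rw [Finset.card_erase_of_mem hg] at this
    omega)
  rw [e2] at g3
  have g4 : r (insert g (Rf P \ P i)) ≤ r ({g} ∪ (Rf P \ P i)) := h.hr.mono _ _ (by
    intro w; simp only [Finset.mem_insert, Finset.mem_union, Finset.mem_singleton]; tauto)
  have g5 : r (insert g (C.erase g ∪ P i)) ≤ r (C ∪ P i) := h.hr.mono _ _ (by
    intro w hw
    have a4 : w = g → w ∈ C := fun e => e ▸ hg
    simp only [Finset.mem_insert, Finset.mem_union, Finset.mem_erase] at hw ⊢
    tauto)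
  have g6 := h.one i
  push_cast at g1
  linarith

/-- D and N do not occur together -/
theorem dn (h : Pn r C P k) (h' : Pn r C P k') (c1k' : (P k').card = 1) {c1 c2 g : E} (D : CD r C P k c1 c2 g) {g' : E} (N : CN r C P k' g') : False := by
  obtain ⟨i1, i2, a1, a2, a3, a4, a5, a6, a7, a8, a9, a10, a11, a12⟩ := D
  obtain ⟨i, b1, b2, b3⟩ := N
  have m1 : c1 ∈ C := by rw [a4]; simp
  have m2 : c2 ∈ C := by rw [a4]; simp
  have k1 := card_spp h m1 a1 a6
  have k2 := card_spp h m2 a2 a7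
  have e1 : i1 = i := by
    by_contra hcon
    by_cases e : i1 = k'
    · rw [e] at k1; omega
    · have := b2 i1 hcon e; omega
  have e2 : i2 = i := by
    by_contra hcon
    by_cases e : i2 = k'
    · rw [e] at k2; omega
    · have := b2 i2 hcon e; omega
  exact a3 (e1.trans e2.symm)

end Pool.Agent.QU.Exc
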