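import Pool.Agent.QUP.ExcD
import Pool.Agent.QUP.ExcE
import Pool.Agent.QUR.Cft

/-!
# QUP/ExcF: at most one exceptional point
-/

set_option autoImplicit false
set_option linter.all false

open QUB

namespace Pool.Agent.QU.Exc

open Pool.Agent.FRM

section main

variable {E : Type} [Fintype E] [DecidableEq E] {S : TP F4 E} {p : Itv E} {W : Finset E} {P : Fin 5 → Finset E}

/-- fewer than three `Lv2` hubs -/
def E1 (S : TP F4 E) (p : Itv E) (C : Finset E) (x : E) : Prop :=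
  ¬ ∃ k1 ∈ C, ∃ k2 ∈ C, ∃ k3 ∈ C, k1 ≠ k2 ∧ k1 ≠ k3 ∧ k2 ≠ k3 ∧ Lv2 S (rm false k1 (rm true x p)) ∧ Lv2 S (rm false k2 (rm true x p)) ∧
    Lv2 S (rm false k3 (rm true x p))

/-- fewer than two `Ok` hubs -/
def E2 (S : TP F4 E) (p : Itv E) (C : Finset E) (x : E) : Prop :=
  ¬ ∃ k1 ∈ C, ∃ k2 ∈ C, k1 ≠ k2 ∧ Ok S.r (rm false k1 (rm true x p)) ∧ Ok S.r (rm false k2 (rm true x p))

theorem pk_g (hF : Fan S.r p W P) (i : Fin 5) : P i ⊆ gs p := fun w hw => by
  have h1 : w ∈ p.2 := by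
    rw [← hF.hU]
    exact Finset.mem_union_right _ (Finset.mem_biUnion.2 ⟨i, Finset.mem_univ i, hw⟩)
  exact Finset.mem_sdiff.2 ⟨h1, fun h' => Finset.disjoint_left.1 (hF.dW i) hw (hF.h1 h')⟩

theorem ok_lv (h : Cu S p) {g x : E} (hgg : g ∈ gs p) (hxg : x ∈ gs p) (hgx : g ≠ x) (ho : Ok S.r (rm false g (rm true x p))) :
    Lv2 S (rm false g (rm true x p)) := by
  have cq : Cn S.r (rm false g (rm true x p)) := h.cn2 hgg hxg hgx false true
  have wx : (rm true x p).1 ⊆ (rm true x p).2 := QUB.wf_rm h.hp hxg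
  have gx : g ∈ gs (rm true x p) := by rw [gs_rm]; exact Finset.mem_erase.2 ⟨hgx, hgg⟩
  have wq : (rm false g (rm true x p)).1 ⊆ (rm false g (rm true x p)).2 := QUB.wf_rm wx gx
  have hex : ∃ T, InVs S (rm false g (rm true x p)) T := by
    refine h.ih _ wq ((rm_sub true x p).trans (rm_sub false g (rm true x p))) ?_
    rw [gs_rm, gs_rm, Finset.card_erase_of_mem (by rw [gs_rm] at gx; exact gx), Finset.card_erase_of_mem hxg]
    have := h.hn
    omega
  rcases lemJ S h.nu wq cq hex with h1 | ⟨X, hX, hl, hv1, hv2, -⟩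
  · exact h1
  · exact absurd ⟨hv1, hv2⟩ (ho X hX hl)

/-- a class with two elements -/
theorem big_cls (h : Cu S p) (hn : 2 * (S.r p.2 - S.r p.1) ≤ (gs p).card) (hF : Fan S.r p W P) (hI : S.r W = S.r p.1 + (W \ p.1).card)
    (hr5 : 5 ≤ S.r p.2 - S.r p.1) {k : Fin 5} {x : E} (hk : P k = {x}) : ∃ i, i ≠ k ∧ 2 ≤ (P i).card := by
  by_contra hcon
  push Not at hcon
  have h1 : (Rr P k).card ≤ 4 := by
    have e : (Rr P k).card ≤ ∑ i ∈ Finset.univ.erase k, (P i).card := Finset.card_biUnion_le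
    have e2 : ∑ i ∈ Finset.univ.erase k, (P i).card ≤ ∑ i ∈ Finset.univ.erase k, 1 := Finset.sum_le_sum fun i hi => by
      have := hcon i (Finset.mem_erase.1 hi).1
      omega
    have e3 : ∑ i ∈ Finset.univ.erase k, 1 = 4 := by
      rw [Finset.sum_const, Finset.card_erase_of_mem (Finset.mem_univ k), Finset.card_univ, Fintype.card_fin]
      rfl
    omega
  have hxg : x ∈ gs p := pk_g hF k (by rw [hk]; simp)
  have h2 := gz hF hk
  have h3 := Finset.card_union_le (W \ p.1) (Rr P k)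
  rw [h2, Finset.card_erase_of_mem hxg] at h3
  have h4 := hF.rW
  have h5 := h.hn
  omega

theorem card_C (hF : Fan S.r p W P) (hI : S.r W = S.r p.1 + (W \ p.1).card) (hr5 : 5 ≤ S.r p.2 - S.r p.1) : 3 ≤ (W \ p.1).card := by
  have h4 := hF.rW
  omega

/-- exceptional of type E1 -/
theorem e1_nd (h : Cu S p) (hn : 2 * (S.r p.2 - S.r p.1) ≤ (gs p).card) (hF : Fan S.r p W P) (hI : S.r W = S.r p.1 + (W \ p.1).card)
    (hr5 : 5 ≤ S.r p.2 - S.r p.1) {k : Fin 5} {x : E} (hk : P k = {x}) (hE : E1 S p (W \ p.1) x) :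
    ∃ g ∈ W \ p.1, ¬ Lv2 S (rm false g (rm true x p)) ∧ (CN (con S.r p.1) (W \ p.1) P k g ∨ ∃ c1 c2, g ≠ c1 ∧ g ≠ c2 ∧ CD (con S.r p.1) (W \ p.1) P k c1 c2 g) := by
  have hPn := pn_of h hF hI hk
  have h3 := card_C hF hI hr5
  have hxk : x ∈ P k := by rw [hk]; simp
  have hxg : x ∈ gs p := pk_g hF k hxk
  have hxW : x ∉ W := Finset.disjoint_left.1 (hF.dW k) hxk
  have mg : ∀ {g : E}, g ∈ W \ p.1 → g ∈ gs p ∧ g ≠ x := fun hg =>
    ⟨Finset.mem_sdiff.2 ⟨hF.hW2 (Finset.mem_sdiff.1 hg).1, (Finset.mem_sdiff.1 hg).2⟩, fun e => hxW (e ▸ (Finset.mem_sdiff.1 hg).1)⟩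
  obtain ⟨c1, c2, hx, h12, hbad⟩ := hPn.e1 (Lv := fun g => Lv2 S (rm false g (rm true x p))) h3
    (fun c hc hno => by
      rcases ok_or h hF hI hk hc with ho | ⟨i, a, hs⟩
      · exact ok_lv h (mg hc).1 hxg (mg hc).2 ho
      · exact absurd hs (hno i a))
    (fun c hc hl => (lv_or h hF hI hk hc).resolve_left hl) hE
  obtain ⟨i0, hi0, h2⟩ := big_cls h hn hF hI hr5 hk
  obtain ⟨g, hg, g1, g2, hcase⟩ := hPn.nd hx hi0 h2
  refine ⟨g, hg, hbad g hg g1 g2, ?_⟩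
  rcases hcase with hN | hD
  · exact Or.inl hN
  · exact Or.inr ⟨c1, c2, g1, g2, hD⟩

/-- exceptional of type E2 -/
theorem e2_nd (h : Cu S p) (hn : 2 * (S.r p.2 - S.r p.1) ≤ (gs p).card) (hF : Fan S.r p W P) (hI : S.r W = S.r p.1 + (W \ p.1).card)
    (hr5 : 5 ≤ S.r p.2 - S.r p.1) {k : Fin 5} {x : E} (hk : P k = {x}) (hE : E2 S p (W \ p.1) x) :
    ∃ g ∈ W \ p.1, CN (con S.r p.1) (W \ p.1) P k g := by
  have hPn := pn_of h hF hI hk
  have h3 := card_C hF hI hr5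
  obtain ⟨c1, hx⟩ := hPn.e2 (Lv := fun g => Ok S.r (rm false g (rm true x p))) h3
    (fun c hc hno => by
      rcases ok_or h hF hI hk hc with ho | ⟨i, a, hs⟩
      · exact ho
      · exact absurd hs (hno i a))
    (fun c hc hl => (ok_or h hF hI hk hc).resolve_left hl) hE
  obtain ⟨i0, hi0, h2⟩ := big_cls h hn hF hI hr5 hk
  obtain ⟨g, hg, g1, g2, hcase⟩ := hPn.nd hx hi0 h2
  rcases hcase with hN | ⟨i1, i2, -, -, -, -, hD, -⟩
  · exact ⟨g, hg, hN⟩
  · exact absurd rfl hD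

theorem gf (hF : Fan S.r p W P) : (W \ p.1) ∪ Rf P = gs p := by
  have hW2 := hF.hW2
  ext w
  have h1 := @hF.h1 w
  have h2 := @hW2 w
  have h3 : w ∈ p.2 ↔ w ∈ W ∨ ∃ i, w ∈ P i := by
    rw [← hF.hU]; simp
  have h4 : (∃ i, w ∈ P i) → w ∉ W := fun ⟨i, hi⟩ => Finset.disjoint_left.1 (hF.dW i) hi
  rw [Finset.mem_union, mem_Rf]
  simp only [gs, Finset.mem_sdiff]
  tauto

theorem tg_of (h : Cu S p) (hF : Fan S.r p W P) (hI : S.r W = S.r p.1 + (W \ p.1).card) : Tg (con S.r p.1) (W \ p.1) P := by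
  intro g hg A hA hA2 hB2
  have hG := gf hF
  have hgW := Finset.mem_sdiff.1 hg
  have hgg : g ∈ gs p := Finset.mem_sdiff.2 ⟨hF.hW2 hgW.1, hgW.2⟩
  rw [hG] at hA hB2 ⊢
  have h1 := h.th g hgg false A (by rw [gs_rm]; exact hA) hA2 (by rw [gs_rm]; exact hB2)
  have h2 : Pool.Agent.QU.lam S.r (rm false g p) A = S.r (insert g p.1 ∪ A) + S.r (p.2 \ A) - S.r p.2 - S.r (insert g p.1) := rfl
  have h4 : S.r (insert g p.1) = S.r p.1 + 1 := by
    have := Nt.le3 S.rk h.nt (by have := h.hn; omega) (Z := {g}) (Finset.singleton_subset_iff.2 hgg) (by simp)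
    rw [Finset.card_singleton] at this
    have e : p.1 ∪ {g} = insert g p.1 := by
      ext w; simp only [Finset.mem_union, Finset.mem_insert, Finset.mem_singleton]; tauto
    rw [e] at this
    simpa using this
  have h5 : p.2 \ A = p.1 ∪ insert g ((gs p).erase g \ A) := by
    have hp := h.hp
    ext w
    have a1 := @hp w
    have a2 := @hA w
    have a3 : w = g → w ∈ p.2 := fun e => e ▸ (Finset.mem_sdiff.1 hgg).1
    simp only [gs, Finset.mem_sdiff, Finset.mem_union, Finset.mem_insert, Finset.mem_erase] at a1 a2 ⊢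
    tauto
  have h6 : insert g p.1 ∪ A = p.1 ∪ insert g A := by
    ext w; simp only [Finset.mem_union, Finset.mem_insert]; tauto
  have hrW := hF.rW
  rw [h4, h5, h6] at h2
  simp only [con]
  linarith

end main

end Pool.Agent.QU.Exc
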