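import Pool.Agent.QUP.NcM

/-!
# QUP/NcP: connectivity for two deletions and targets without rich minor (public copies of lemmas of `NcM`)
-/

set_option autoImplicit false
set_option linter.all false

open QUB

namespace Pool.Agent.QU

open Pool.Agent.FRM

section main

variable {E : Type} [DecidableEq E] {r : Finset E → ℤ} {p : Itv E} {W : Finset E} {P : Fin 5 → Finset E}

/-- at most `|J|` classes are inside `J` -/
theorem nc_outP (hF : Fan r p W P) {J : Finset E} (k : ℕ) (hJ : J.card ≤ k) (s : Finset (Fin 5)) (hs : k < s.card) : ∃ i ∈ s, ¬ P i ⊆ J := by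
  classical
  by_contra hcon
  push Not at hcon
  choose n hn using fun i => hF.ne i
  have h1 : s.image n ⊆ J := by
    intro w hw
    obtain ⟨i, hi, rfl⟩ := Finset.mem_image.1 hw
    exact hcon i hi (hn i)
  have h2 : (s.image n).card = s.card := by
    refine Finset.card_image_of_injOn fun i _ j _ he => ?_
    by_contra hij
    exact Finset.disjoint_left.1 (hF.dP i j hij) (hn i) (he ▸ hn j)
  have h3 := Finset.card_le_card h1
  omega

/-- three classes outside of `J` -/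
theorem nc_threeP (hF : Fan r p W P) {J : Finset E} (hJ : J.card ≤ 2) : ∃ i j k : Fin 5, i ≠ j ∧ i ≠ k ∧ j ≠ k ∧ ¬ P i ⊆ J ∧ ¬ P j ⊆ J ∧ ¬ P k ⊆ J := by
  obtain ⟨i, -, hi⟩ := nc_outP hF 2 hJ Finset.univ (by rw [Finset.card_univ, Fintype.card_fin]; omega)
  obtain ⟨j, hj, hj'⟩ := nc_outP hF 2 hJ (Finset.univ.erase i) (by
    rw [Finset.card_erase_of_mem (Finset.mem_univ i), Finset.card_univ, Fintype.card_fin]; omega)
  obtain ⟨k, hk, hk'⟩ := nc_outP hF 2 hJ ((Finset.univ.erase i).erase j) (by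
    rw [Finset.card_erase_of_mem hj, Finset.card_erase_of_mem (Finset.mem_univ i), Finset.card_univ, Fintype.card_fin]; omega)
  have h1 := (Finset.mem_erase.1 hj).1
  obtain ⟨h2, h3⟩ := Finset.mem_erase.1 hk
  exact ⟨i, j, k, h1.symm, (Finset.mem_erase.1 h3).1.symm, h2.symm, hi, hj', hk'⟩

/-- connectivity for at most two deletions -/
theorem nc_cnP (hr : Rk r) (hp : p.1 ⊆ p.2) (h3 : Th3 r p) (hn : 4 ≤ (gs p).card) (hT : NoTd r p) (hF : Fan r p W P)
    (hI : r W = r p.1 + (W \ p.1).card) {C' J : Finset E} (hC : p.1 ∪ C' ⊆ W) (hJW : Disjoint J W) (hJp : J ⊆ p.2) (hJ : J.card ≤ 2) :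
    Cn r (bx p C' J) := by
  obtain ⟨i, j, k, hij, hik, hjk, hi, hj, hk⟩ := nc_threeP hF hJ
  refine nc_cn hr hF hI hC hJW hij hik hjk hi hj hk fun b hb => ?_
  have hbW := (Finset.mem_sdiff.1 hb).1
  have hbC := (Finset.mem_sdiff.1 hb).2
  have hbg : b ∈ gs p := Finset.mem_sdiff.2 ⟨hF.hW2 hbW, fun h => hbC (Finset.mem_union_left _ h)⟩
  have hJg : ∀ x ∈ J, x ∈ gs p ∧ x ≠ b := fun x hx =>
    ⟨Finset.mem_sdiff.2 ⟨hJp hx, fun h => Finset.disjoint_left.1 hJW hx (hC (Finset.mem_union_left _ h))⟩,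
      fun h => Finset.disjoint_left.1 hJW hx (h ▸ hbW)⟩
  have e0 : ∀ x : E, p.2 \ {x} = p.2.erase x := fun x => Finset.sdiff_singleton_eq_erase x p.2
  have c : J.card = 0 ∨ J.card = 1 ∨ J.card = 2 := by omega
  rcases c with c | c | c
  · rw [Finset.card_eq_zero.1 c, Finset.sdiff_empty]
    exact th3_del1 hr hp h3 hn hbg
  · obtain ⟨x, rfl⟩ := Finset.card_eq_one.1 c
    obtain ⟨hx, hxb⟩ := hJg x (Finset.mem_singleton_self x)
    rw [e0, th3_del2 hr hp h3 hn hx hbg hxb, th3_del1 hr hp h3 hn hx]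
  · obtain ⟨x, y, hxy, rfl⟩ := Finset.card_eq_two.1 c
    obtain ⟨hx, hxb⟩ := hJg x (by simp)
    obtain ⟨hy, hyb⟩ := hJg y (by simp)
    have e1 : p.2 \ {x, y} = (p.2.erase x).erase y := by
      ext w
      simp only [Finset.mem_sdiff, Finset.mem_insert, Finset.mem_singleton, Finset.mem_erase]
      tauto
    rw [e1, th3_del2 hr hp h3 hn hx hy hxy]
    exact hT x hx y hy b hbg hxy hxb hyb

end main

section fin

variable {E : Type} [Fintype E] [DecidableEq E]

omit [Fintype E] in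
theorem m_memP {p : Itv E} {a b : E} {s : Bool} (hab : a ≠ b) (ha : a ∈ gs p) : a ∈ gs (rm s b p) := by
  rw [gs_rm]
  exact Finset.mem_erase.2 ⟨hab, ha⟩

/-- a target `y` with `p \ y` not rich -/
theorem tgt_nonP (S : TP F4 E) (hNU : NU S.r) {p : Itv E} (hp : p.1 ⊆ p.2) {k1 k2 x : E} (h12 : k1 ≠ k2) (h1x : k1 ≠ x) (h2x : k2 ≠ x)
    (m1 : k1 ∈ gs p) (m2 : k2 ∈ gs p) (mx : x ∈ gs p) {T : Fm F4 E}
    (i1 : InV S.U S.W (rm false k1 p) T) (i2 : InV S.U S.W (rm false k2 p) T)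
    (c1 : Cn S.r (rm false k1 (rm true x p))) (o1 : Ok S.r (rm false k1 (rm true x p)))
    (c2 : Cn S.r (rm false k2 (rm true x p))) (o2 : Ok S.r (rm false k2 (rm true x p)))
    (c12 : Cn S.r (rm false k1 (rm false k2 (rm true x p)))) (l12 : HasLn S.r (rm false k1 (rm false k2 (rm true x p))))
    (hn : ¬ HasRich S.r (rm true x p)) : InV S.U S.W (rm true x p) T := by
  have wq : (rm true x p).1 ⊆ (rm true x p).2 := QUB.wf_rm hp mx
  have n1 : k1 ∈ gs (rm true x p) := m_memP h1x m1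
  have n2 : k2 ∈ gs (rm true x p) := m_memP h2x m2
  have w1 : (rm false k1 (rm true x p)).1 ⊆ (rm false k1 (rm true x p)).2 := QUB.wf_rm wq n1
  have w2 : (rm false k2 (rm true x p)).1 ⊆ (rm false k2 (rm true x p)).2 := QUB.wf_rm wq n2
  have j1 : InV S.U S.W (rm false k1 (rm true x p)) T := i1.mono ((rm_sub true x p).rm false k1)
  have j2 : InV S.U S.W (rm false k2 (rm true x p)) T := i2.mono ((rm_sub true x p).rm false k2)
  have r1 : ¬ HasRich S.r (rm false k1 (rm true x p)) := fun ⟨N, a, b⟩ => hn ⟨N, (rm_sub false k1 _).trans a, b⟩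
  have r2 : ¬ HasRich S.r (rm false k2 (rm true x p)) := fun ⟨N, a, b⟩ => hn ⟨N, (rm_sub false k2 _).trans a, b⟩
  have z1 := thmU S hNU _ w1 c1 o1 j1 (Or.inr r1)
  have z2 := thmU S hNU _ w2 c2 o2 j2 (Or.inr r2)
  have w12 : (rm false k1 (rm false k2 (rm true x p))).1 ⊆ (rm false k1 (rm false k2 (rm true x p))).2 := QUB.wf_rm w2 (m_memP h12 n1)
  have card3 : 3 ≤ (gs (rm true x p)).card := by
    obtain ⟨N, hN⟩ := l12
    have h1 := Finset.card_le_card hN.sub
    have h2 : N.card = 4 := hN.1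
    have h3 : gs (rm false k1 (rm false k2 (rm true x p))) ⊆ gs (rm true x p) := by
      rw [gs_rm, gs_rm]
      exact (Finset.erase_subset _ _).trans (Finset.erase_subset _ _)
    have h4 := Finset.card_le_card h3
    have e : (QUB.gs (rm false k1 (rm false k2 (rm true x p)))).card = (gs (rm false k1 (rm false k2 (rm true x p)))).card := rfl
    omega
  exact (pair_w S h12 h1x.symm h2x.symm m1 m2 (Tw := 0) InV.zero z1 z2 (fun l hl => hom_cn S w12 c12 l12 hl)
    (nd_of_cn S.rk h12 n1 n2 card3 c1 c2)).1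

end fin

end Pool.Agent.QU
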