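import Pool.Agent.QUP.ExcF
import Pool.Agent.QUP.NcP

/-!
# QUP/ExcG: two exceptional points give a real conflict between the two top hubs
-/

set_option autoImplicit false
set_option linter.all false

open QUB

namespace Pool.Agent.QU.Exc

open Pool.Agent.FRM

section aux

variable {E : Type} [DecidableEq E]

/-- an element of a connected box is neither a loop nor a coloop -/
theorem cn_el {r : Finset E → ℤ} (hr : Rk r) {q : Itv E} (hc : Cn r q) {y : E} (hy : y ∈ gs q) (h2 : 2 ≤ (gs q).card) :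
    r q.1 + 1 ≤ r (insert y q.1) ∧ r q.2 ≤ r (q.2.erase y) := by
  have h := hc {y} (Finset.singleton_subset_iff.2 hy) (Finset.singleton_nonempty y) (by
    rw [← Finset.card_pos]
    have e : (QUB.gs q \ {y}).card = (gs q).card - 1 := by
      rw [Finset.sdiff_singleton_eq_erase]
      exact Finset.card_erase_of_mem hy
    omega)
  unfold QUB.lam at h
  have e1 : q.1 ∪ {y} = insert y q.1 := by
    ext w; simp only [Finset.mem_union, Finset.mem_singleton, Finset.mem_insert]; tauto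
  have e2 : q.2 \ {y} = q.2.erase y := Finset.sdiff_singleton_eq_erase y q.2
  rw [e1, e2] at h
  have h3 := hr.unit q.1 y
  have h4 := hr.mono _ _ (Finset.erase_subset y q.2)
  constructor <;> linarith

end aux

section lyx

variable {E : Type} [DecidableEq E]

private theorem s1 {C X : Finset E} {g g' : E} (hg : g ∈ C) (hg' : g' ∈ C) : insert g (insert g' X) ∪ (C.erase g).erase g' = C ∪ X := by
  ext w
  simp only [Finset.mem_union, Finset.mem_insert, Finset.mem_erase]
  by_cases a : w = g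
  · simp [a, hg]
  · by_cases b : w = g'
    · simp [b, hg']
    · simp [a, b]
      tauto

private theorem s2 {C : Finset E} {g : E} (hg : g ∈ C) : C \ C.erase g = {g} := by
  ext w
  simp only [Finset.mem_sdiff, Finset.mem_erase, Finset.mem_singleton]
  constructor
  · rintro ⟨a, b⟩
    by_contra hne
    exact b ⟨hne, a⟩
  · rintro rfl
    exact ⟨hg, fun hh => hh.1 rfl⟩

private theorem s3 {p1 : Finset E} {g g' y0 : E} : p1 ∪ {g, g', y0} = insert g' (insert y0 (insert g p1)) := by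
  ext w
  simp only [Finset.mem_union, Finset.mem_insert, Finset.mem_singleton]
  tauto

/-- the rank of the half box goes down -/
theorem ly_aux {r : Finset E → ℤ} (hr : Rk r) {p1 C : Finset E} {P : Fin 5 → Finset E} {k : Fin 5} (hPn : Pn (con r p1) C P k) {g g' y0 : E} (hg : g ∈ C)
    (hg' : g' ∈ C) (hgg : g ≠ g') {i : Fin 5} (hi : i ≠ k) (single : ∀ j, j ≠ i → j ≠ k → (P j).card = 1)
    (h1 : ∀ c ∈ C, c ≠ g → Spp (con r p1) C (Rr P k) c (P i)) (hy : y0 ∈ Rr P k \ P i) {D : Finset E} (hD1 : insert g p1 ⊆ D)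
    (hD2 : ∀ w ∈ D, w ∉ insert g p1 → w ∈ Rr P k \ P i) (hyD : y0 ∉ D) (hel : r D + 1 ≤ r (insert y0 D)) :
    r (insert g' D) + 1 ≤ r (insert g' (insert y0 D)) := by
  by_contra hcon
  push Not at hcon
  have hlt : r (insert g' (insert y0 D)) ≤ r (insert g' D) := by linarith
  have hyC : y0 ∉ C := hPn.cR (Finset.mem_sdiff.1 hy).1
  have gy : g ≠ y0 := fun e => hyC (e ▸ hg)
  have gy' : g' ≠ y0 := fun e => hyC (e ▸ hg')
  by_cases hD : ∃ d ∈ D, d ∉ insert g p1
  · obtain ⟨d, hd1, hd2⟩ := hD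
    have hd3 := hD2 d hd1 hd2
    have hdy : d ≠ y0 := fun e => hyD (e ▸ hd1)
    obtain ⟨ya, yb⟩ := Finset.mem_sdiff.1 hy
    obtain ⟨da, db⟩ := Finset.mem_sdiff.1 hd3
    obtain ⟨j, hj, hyj⟩ := mem_Rr.1 ya
    obtain ⟨l, hl, hdl⟩ := mem_Rr.1 da
    have hji : j ≠ i := by rintro rfl; exact yb hyj
    have hli : l ≠ i := by rintro rfl; exact db hdl
    have hjl : l ≠ j := by
      rintro rfl
      have := single l hli hl
      rw [Finset.card_eq_one] at this
      obtain ⟨w, hw⟩ := this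
      rw [hw] at hyj hdl
      exact hdy ((Finset.mem_singleton.1 hdl).trans (Finset.mem_singleton.1 hyj).symm)
    -- lower bound
    have a1 : (C.card : ℤ) + 2 ≤ con r p1 (C ∪ {d, y0}) := hPn.lo2' hjl hdl hyj (by simp) (by simp)
    have a2 := un_card (rk_con hr p1) (insert g (insert g' {d, y0})) ((C.erase g).erase g')
    have e1 : insert g (insert g' ({d, y0} : Finset E)) ∪ (C.erase g).erase g' = C ∪ {d, y0} := s1 hg hg'
    have e2 : (((C.erase g).erase g').card : ℤ) = C.card - 2 := by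
      have c1 := Finset.card_erase_add_one hg
      have c2 := Finset.card_erase_add_one (Finset.mem_erase.2 ⟨hgg.symm, hg'⟩ : g' ∈ C.erase g)
      omega
    rw [e1, e2] at a2
    have a3 : con r p1 (insert g (insert g' {d, y0})) ≤ r (insert g' (insert y0 D)) - r p1 := by
      unfold con
      have : r (p1 ∪ insert g (insert g' {d, y0})) ≤ r (insert g' (insert y0 D)) := hr.mono _ _ (by
        intro w hw
        simp only [Finset.mem_union, Finset.mem_insert, Finset.mem_singleton] at hw ⊢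
        rcases hw with hw | rfl | rfl | rfl | rfl
        · exact Or.inr (Or.inr (hD1 (Finset.mem_insert_of_mem hw)))
        · exact Or.inr (Or.inr (hD1 (Finset.mem_insert_self _ _)))
        · exact Or.inl rfl
        · exact Or.inr (Or.inr hd1)
        · exact Or.inr (Or.inl rfl))
      linarith
    have a4 := hr.unit D g'
    -- upper bound
    have g2 := hPn.i2 (a := P i) Finset.Subset.rfl (C.erase g) (Finset.erase_subset _ _) (fun c hc => h1 c (Finset.mem_erase.1 hc).2 (Finset.mem_erase.1 hc).1)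
    have e3 : C \ C.erase g = {g} := s2 hg
    rw [e3, Finset.card_singleton] at g2
    have a5 : r (insert y0 D) ≤ con r p1 ({g} ∪ (Rr P k \ P i)) + r p1 := by
      unfold con
      have : r (insert y0 D) ≤ r (p1 ∪ ({g} ∪ (Rr P k \ P i))) := hr.mono _ _ (by
        intro w hw
        rcases Finset.mem_insert.1 hw with rfl | hw
        · exact Finset.mem_union_right _ (Finset.mem_union_right _ hy)
        · by_cases hwg : w ∈ insert g p1
          · rcases Finset.mem_insert.1 hwg with rfl | hwg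
            · exact Finset.mem_union_right _ (Finset.mem_union_left _ (Finset.mem_singleton_self _))
            · exact Finset.mem_union_left _ hwg
          · exact Finset.mem_union_right _ (Finset.mem_union_right _ (hD2 w hw hwg)))
      linarith
    push_cast at g2
    linarith
  · push Not at hD
    have e5 : D = insert g p1 := Finset.Subset.antisymm hD hD1
    rw [e5] at hlt
    have a1 := hPn.t3 {g, g', y0} (by
      intro w hw
      simp only [Finset.mem_insert, Finset.mem_singleton] at hw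
      rcases hw with rfl | rfl | rfl
      · exact Finset.mem_union_left _ hg
      · exact Finset.mem_union_left _ hg'
      · exact Finset.mem_union_right _ (Finset.mem_sdiff.1 hy).1) (Finset.card_eq_three.2 ⟨g, g', y0, hgg, gy, gy', rfl⟩)
    unfold con at a1
    have e6 : p1 ∪ {g, g', y0} = insert g' (insert y0 (insert g p1)) := s3
    rw [e6] at a1
    have a2 := hr.unit (insert g p1) g'
    have a3 := hr.unit p1 g
    linarith

end lyx

section cax

variable {E : Type} [DecidableEq E]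

private theorem t1 {qA : Itv E} {A0 : Finset E} {y0 g' : E} (memA : ∀ w, w ∈ qA.2 ↔ w ∈ qA.1 ∨ w = y0 ∨ w ∈ A0) (hy1 : y0 ∉ qA.1) (hyA : y0 ∉ A0)
    (hg'A : g' ∈ A0) : insert g' qA.1 ∪ A0.erase g' = qA.2.erase y0 := by
  ext w
  rw [Finset.mem_erase, memA w]
  simp only [Finset.mem_union, Finset.mem_insert, Finset.mem_erase]
  by_cases a : w = g'
  · subst a
    simp only [true_or, true_iff]
    exact ⟨fun e => hyA (e ▸ hg'A), Or.inr (Or.inr hg'A)⟩
  · by_cases b : w = y0
    · subst b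
      simp [a, hy1, hyA]
    · simp [a, b]

private theorem t2 {qA : Itv E} {A0 : Finset E} {y0 g' : E} (memA : ∀ w, w ∈ qA.2 ↔ w ∈ qA.1 ∨ w = y0 ∨ w ∈ A0) (hd : ∀ w ∈ A0, w ∉ qA.1) (hyA : y0 ∉ A0)
    (hg'A : g' ∈ A0) : qA.2 \ A0.erase g' = insert g' (insert y0 qA.1) := by
  ext w
  rw [Finset.mem_sdiff, memA w]
  simp only [Finset.mem_insert, Finset.mem_erase]
  by_cases a : w = g'
  · subst a
    simp only [ne_eq, not_true_eq_false, false_and, not_false_eq_true, and_true, true_or, iff_true]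
    exact Or.inr (Or.inr hg'A)
  · by_cases b : w = y0
    · subst b
      simp [a, hyA]
    · by_cases c : w ∈ A0
      · simp [a, b, c, hd w c]
      · simp [a, b, c]

/-- the value of the line side -/
theorem ly_lam {r : Finset E → ℤ} (hr : Rk r) {qA : Itv E} (wA : qA.1 ⊆ qA.2) {A0 : Finset E} {y0 g' : E} (gA : gs qA = insert y0 A0) (hyA : y0 ∉ A0)
    (hg'A : g' ∈ A0) (h1 : r qA.2 ≤ r (qA.2.erase y0)) (h2 : r (insert g' qA.1) + 1 ≤ r (insert g' (insert y0 qA.1))) :
    1 ≤ QUB.lam r (rm false g' qA) (A0.erase g') := by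
  have hyg : y0 ∈ gs qA := by rw [gA]; exact Finset.mem_insert_self _ _
  have memA : ∀ w, w ∈ qA.2 ↔ w ∈ qA.1 ∨ w = y0 ∨ w ∈ A0 := by
    intro w
    have e : w ∈ gs qA ↔ w = y0 ∨ w ∈ A0 := by rw [gA, Finset.mem_insert]
    have e2 : w ∈ gs qA ↔ w ∈ qA.2 ∧ w ∉ qA.1 := Finset.mem_sdiff
    have e3 := @wA w
    tauto
  have e1 : (rm false g' qA).1 ∪ A0.erase g' = qA.2.erase y0 := t1 memA (Finset.mem_sdiff.1 hyg).2 hyA hg'A
  have e2 : (rm false g' qA).2 \ A0.erase g' = insert g' (insert y0 qA.1) :=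
    t2 memA (fun w hw => (Finset.mem_sdiff.1 (by rw [gA]; exact Finset.mem_insert_of_mem hw : w ∈ gs qA)).2) hyA hg'A
  unfold QUB.lam
  rw [e1, e2]
  have e3 : (rm false g' qA).1 = insert g' qA.1 := rfl
  have e4 : (rm false g' qA).2 = qA.2 := rfl
  rw [e3, e4]
  linarith

/-- the half box stays connected -/
theorem cA_aux {r : Finset E → ℤ} (hr : Rk r) {q qA : Itv E} (wq : q.1 ⊆ q.2) (wA : qA.1 ⊆ qA.2) (sA : Sub qA q) {A0 : Finset E} {y0 g' : E}
    (hA0q : A0 ⊆ gs q) (gA : gs qA = insert y0 A0) (hy0 : y0 ∈ gs q \ A0) (hg'A : g' ∈ A0) (lA : QUB.lam r q A0 ≤ 1) (cq' : Cn r (rm false g' q))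
    (ly : 1 ≤ QUB.lam r (rm false g' qA) (A0.erase g')) : Cn r (rm false g' qA) := by
  obtain ⟨hy1, hy2⟩ := Finset.mem_sdiff.1 hy0
  have hyg : y0 ≠ g' := fun e => hy2 (e ▸ hg'A)
  have hgq : g' ∈ gs q := hA0q hg'A
  have hgqA : g' ∈ gs qA := by rw [gA]; exact Finset.mem_insert_of_mem hg'A
  have wq' : (rm false g' q).1 ⊆ (rm false g' q).2 := QUB.wf_rm wq hgq
  have wA' : (rm false g' qA).1 ⊆ (rm false g' qA).2 := QUB.wf_rm wA hgqA
  have gq' : gs (rm false g' q) = (gs q).erase g' := gs_rm false g' q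
  have gA' : gs (rm false g' qA) = insert y0 (A0.erase g') := by
    have e : gs (rm false g' qA) = (gs qA).erase g' := gs_rm false g' qA
    rw [e, gA]
    ext w
    simp only [Finset.mem_erase, Finset.mem_insert]
    constructor
    · rintro ⟨a, rfl | b⟩
      · exact Or.inl rfl
      · exact Or.inr ⟨a, b⟩
    · rintro (rfl | ⟨a, b⟩)
      · exact ⟨hyg, Or.inl rfl⟩
      · exact ⟨a, Or.inr b⟩
  -- the value of the line side before
  have hYq : A0.erase g' ⊆ gs (rm false g' q) := by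
    rw [gq']
    exact fun w hw => Finset.mem_erase.2 ⟨(Finset.mem_erase.1 hw).1, hA0q (Finset.mem_erase.1 hw).2⟩
  have hYA : A0.erase g' ⊆ gs (rm false g' qA) := by rw [gA']; exact Finset.subset_insert _ _
  have eL : gs (rm false g' q) \ A0.erase g' = gs q \ A0 := by
    rw [gq']
    ext w
    simp only [Finset.mem_sdiff, Finset.mem_erase]
    constructor
    · rintro ⟨⟨a, b⟩, c⟩
      exact ⟨b, fun hh => c ⟨a, hh⟩⟩
    · rintro ⟨a, b⟩
      exact ⟨⟨fun e => b (e ▸ hg'A), a⟩, fun hh => b hh.2⟩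
  have l1 : QUB.lam r (rm false g' q) (A0.erase g') ≤ 1 := by
    have a1 := lam_compl r wq' hYq
    have a2 := lam_sub_le hr (rm_sub false g' q) (T := gs q \ A0) (by rw [← eL]; exact Finset.sdiff_subset)
    have a3 := lam_compl r wq hA0q
    have a4 : QUB.lam r (rm false g' q) (gs (rm false g' q) \ A0.erase g') = QUB.lam r (rm false g' q) (A0.erase g') := a1
    have a5 : QUB.lam r q (gs q \ A0) = QUB.lam r q A0 := a3
    rw [eL] at a4
    linarith
  have sq : Sub (rm false g' qA) (rm false g' q) := sA.rm false g'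
  have key : ∀ T ⊆ A0.erase g', T.Nonempty → 1 ≤ QUB.lam r (rm false g' qA) T := by
    intro T hT hne
    have a1 := lam_sub_eq hr sq hYA (l1.trans ly) hT
    have a2 := cq' T (hT.trans hYq) hne ⟨y0, Finset.mem_sdiff.2 ⟨by
      have : y0 ∈ gs (rm false g' q) := by rw [gq']; exact Finset.mem_erase.2 ⟨hyg, hy1⟩
      exact this, fun hh => hy2 (Finset.mem_erase.1 (hT hh)).2⟩⟩
    exact a2.trans a1
  intro T hT hne hne'
  have hT' : T ⊆ gs (rm false g' qA) := hT
  rw [gA'] at hT'
  by_cases hyT : y0 ∈ T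
  · have a1 : QUB.lam r (rm false g' qA) (gs (rm false g' qA) \ T) = QUB.lam r (rm false g' qA) T := lam_compl r wA' hT
    rw [← a1]
    refine key _ ?_ hne'
    intro w hw
    obtain ⟨b1, b2⟩ := Finset.mem_sdiff.1 hw
    rw [gA'] at b1
    rcases Finset.mem_insert.1 b1 with rfl | b1
    · exact absurd hyT b2
    · exact b1
  · refine key T (fun w hw => ?_) hne
    rcases Finset.mem_insert.1 (hT' hw) with rfl | b1
    · exact absurd hw hyT
    · exact b1

end cax

section aux2

variable {E : Type} [Fintype E] [DecidableEq E] {S : TP F4 E} {p : Itv E} {W : Finset E} {P : Fin 5 → Finset E}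

theorem notd_of (h : Cu S p) : NoTd S.r p := by
  intro x hx y hy z hz hxy hxz hyz
  have e : ((p.2.erase x).erase y).erase z = p.2 \ {x, y, z} := by
    ext w
    simp only [Finset.mem_erase, Finset.mem_sdiff, Finset.mem_insert, Finset.mem_singleton]
    tauto
  rw [e]
  refine h.nt.d3 _ ?_ (Finset.card_eq_three.2 ⟨x, y, z, hxy, hxz, hyz, rfl⟩)
  intro w hw
  simp only [Finset.mem_insert, Finset.mem_singleton] at hw
  rcases hw with rfl | rfl | rfl
  · exact hx
  · exact hy
  · exact hz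

/-- connectivity of `M / C' \ J` for at most two deletions -/
theorem cnJ (h : Cu S p) (hF : Fan S.r p W P) (hI : S.r W = S.r p.1 + (W \ p.1).card) {C' J : Finset E} (hC : C' ⊆ W \ p.1)
    (hJ : J ⊆ gs p) (hJW : Disjoint J W) (hJ2 : J.card ≤ 2) : Cn S.r (bx p C' J) :=
  nc_cnP S.rk h.hp h.h3 (by have := h.hn; omega) (notd_of h) hF hI (Finset.union_subset hF.h1 (hC.trans Finset.sdiff_subset)) hJW
    (fun x hx => (Finset.mem_sdiff.1 (hJ hx)).1) hJ2

end aux2

section main

variable {E : Type} [Fintype E] [DecidableEq E] {S : TP F4 E} {p : Itv E} {W : Finset E} {P : Fin 5 → Finset E}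

theorem ln_up {r : Finset E → ℤ} {q' q : Itv E} (hs : Sub q' q) {N : Finset E} (h : QUB.Ln r q' N) : QUB.Ln r q N := by
  obtain ⟨h4, Y, h1, h2, h3⟩ := h
  exact ⟨h4, Y, hs.1.trans h1, h2.trans hs.2, h3⟩

/-- a heavy side of the half box survives the contraction of `g'` -/
theorem hv_fin (h : Cu S p) (hF : Fan S.r p W P) (hI : S.r W = S.r p.1 + (W \ p.1).card) {k : Fin 5} {x : E} (hk : P k = {x}) {g g' : E}
    (hg : g ∈ W \ p.1) (hg' : g' ∈ W \ p.1) (hgg : g ≠ g') {i : Fin 5} (hi : i ≠ k)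
    (single : ∀ j, j ≠ i → j ≠ k → (P j).card = 1) (h1 : ∀ c ∈ W \ p.1, c ≠ g → Spp (con S.r p.1) (W \ p.1) (Rr P k) c (P i))
    (hl : ¬ Lv2 S (rm false g (rm true x p))) : ∃ N, QUB.Ln S.r (rm false g (rm false g' p)) N ∧ 3 ≤ (N ∩ ((W \ p.1).erase g ∪ P i)).card := by
  have hr := S.rk
  have hxk : x ∈ P k := by rw [hk]; simp
  have hxg : x ∈ gs p := pk_g hF k hxk
  have hxW : x ∉ W := Finset.disjoint_left.1 (hF.dW k) hxk
  have mg : ∀ {g : E}, g ∈ W \ p.1 → g ∈ gs p ∧ g ≠ x := fun hg =>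
    ⟨Finset.mem_sdiff.2 ⟨hF.hW2 (Finset.mem_sdiff.1 hg).1, (Finset.mem_sdiff.1 hg).2⟩, fun e => hxW (e ▸ (Finset.mem_sdiff.1 hg).1)⟩
  have hPn := pn_of h hF hI hk
  have hgs := gq hF hk g
  have cq : Cn S.r (rm false g (rm true x p)) := h.cn2 (mg hg).1 hxg (mg hg).2 false true
  have wx : (rm true x p).1 ⊆ (rm true x p).2 := QUB.wf_rm h.hp hxg
  have gx : g ∈ gs (rm true x p) := by rw [gs_rm]; exact Finset.mem_erase.2 ⟨(mg hg).2, (mg hg).1⟩
  have wq : (rm false g (rm true x p)).1 ⊆ (rm false g (rm true x p)).2 := QUB.wf_rm wx gx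
  have hPC : ∀ {j : Fin 5} {w : E}, w ∈ P j → w ∉ W \ p.1 := fun {j w} hw => Finset.disjoint_left.1 (hPn.dC j) hw
  set q := rm false g (rm true x p) with hq
  set C := W \ p.1 with hC
  set A0 := C.erase g ∪ P i with hA0
  have hA0q : A0 ⊆ gs q := by
    rw [hgs]
    intro w hw
    rcases Finset.mem_union.1 hw with hw | hw
    · exact Finset.mem_erase.2 ⟨(Finset.mem_erase.1 hw).1, Finset.mem_union_left _ (Finset.mem_erase.1 hw).2⟩
    · exact Finset.mem_erase.2 ⟨fun e => hPC hw (e ▸ hg), Finset.mem_union_right _ (sub_Rr hi hw)⟩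
  have hL : gs q \ A0 = Rr P k \ P i := by
    rw [hgs]
    ext w
    have a1 : w ∈ P i → w ∈ Rr P k := fun hw => sub_Rr hi hw
    have a3 : w ∈ Rr P k → w ∉ C := fun hw => hPn.cR hw
    have a4 : w = g → w ∈ C := fun e => e ▸ hg
    simp only [hA0, Finset.mem_union, Finset.mem_sdiff, Finset.mem_erase]
    tauto
  obtain ⟨l, m, t, t', q1, q2, q3, q4, q5, q6, q7, q8, q9⟩ := hPn.mt i i
  have ht : ∀ {l : Fin 5} {s : E}, s ∈ P l → l ≠ i → l ≠ k → s ∈ gs q \ A0 := by
    intro l s hs hli hlk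
    rw [hL]
    exact Finset.mem_sdiff.2 ⟨sub_Rr hlk hs, fun hh => Finset.disjoint_left.1 (hF.dP l i hli) hs hh⟩
  have htL := ht q2 q4 q6
  -- rank of the line side
  have lA : QUB.lam S.r q A0 ≤ 1 := by
    have e := lamq h hF hI hk hg hA0q
    have g2 := hPn.i2 (a := P i) Finset.Subset.rfl (C.erase g) (Finset.erase_subset _ _) (fun c hc => h1 c (Finset.mem_erase.1 hc).2 (Finset.mem_erase.1 hc).1)
    have e1 : C \ C.erase g = {g} := by
      ext w
      simp only [Finset.mem_sdiff, Finset.mem_erase, Finset.mem_singleton]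
      constructor
      · rintro ⟨a, b⟩
        by_contra hne
        exact b ⟨hne, a⟩
      · rintro rfl
        exact ⟨hg, fun hh => hh.1 rfl⟩
    rw [e1, Finset.card_singleton] at g2
    have e2 : insert g (gs q \ A0) = {g} ∪ (Rr P k \ P i) := by
      rw [hL]; rfl
    have e3 : insert g A0 = C ∪ P i := by
      ext w
      have a4 : w = g → w ∈ C := fun e => e ▸ hg
      simp only [hA0, Finset.mem_insert, Finset.mem_union, Finset.mem_erase]
      by_cases hwg : w = g
      · simp [hwg, hg]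
      · simp [hwg]
    have e4 := hPn.one i
    rw [e2, e3, e4] at e
    push_cast at g2
    linarith
  have hg'A : g' ∈ A0 := Finset.mem_union_left _ (Finset.mem_erase.2 ⟨hgg.symm, hg'⟩)
  have nL : (gs q \ A0).Nonempty := ⟨t, htL⟩
  have cL : (gs q \ A0).card ≤ 3 := by
    rw [hL]
    have hsub : Rr P k \ P i ⊆ ((Finset.univ.erase k).erase i).biUnion P := by
      intro w hw
      obtain ⟨a, b⟩ := Finset.mem_sdiff.1 hw
      obtain ⟨j, hj, hw'⟩ := mem_Rr.1 a
      refine Finset.mem_biUnion.2 ⟨j, Finset.mem_erase.2 ⟨?_, Finset.mem_erase.2 ⟨hj, Finset.mem_univ j⟩⟩, hw'⟩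
      rintro rfl
      exact b hw'
    refine (Finset.card_le_card hsub).trans (Finset.card_biUnion_le.trans ?_)
    have e2 : ∑ j ∈ (Finset.univ.erase k).erase i, (P j).card = ∑ j ∈ (Finset.univ.erase k).erase i, 1 := Finset.sum_congr rfl fun j hj => by
      obtain ⟨a, b⟩ := Finset.mem_erase.1 hj
      exact single j a (Finset.mem_erase.1 b).1
    rw [e2, Finset.sum_const, Finset.card_erase_of_mem (Finset.mem_erase.2 ⟨hi, Finset.mem_univ i⟩), Finset.card_erase_of_mem (Finset.mem_univ k), Finset.card_univ,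
      Fintype.card_fin]
    rfl
  have eL : gs q \ (gs q \ A0) = A0 := Finset.sdiff_sdiff_eq_self hA0q
  have cpL := Finset.card_pos.2 nL
  have cpA := Finset.card_pos.2 ⟨g', hg'A⟩
  obtain ⟨qA, sA, wA, cA, y0, hy0, gA⟩ := half hr ((gs q \ A0).card - 1) wq cq hA0q (by omega)
  obtain ⟨qB, sB, wB, cB, x0, hx0, gB⟩ := half hr ((gs q \ (gs q \ A0)).card - 1) wq cq (A := gs q \ A0) Finset.sdiff_subset (by rw [eL]; omega)
  rw [eL] at hx0
  have DD : ∀ {q' : Itv E}, q'.1 ⊆ q'.2 → Cn S.r q' → ¬ HasRich S.r q' ∧ Ok S.r q' → ∀ T, InV S.U S.W q' T → EqD S.U S.W q' T 0 := by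
    intro q' w' c' h T hT
    obtain ⟨k, hk⟩ := uniq_f4 S ‹Cu S p›.nu w' c' h.2 hT (Ts := 0) ⟨InV.zero, fun q1 s1 h1 => absurd ⟨q1, s1, h1⟩ h.1⟩
    rw [smul_zero] at hk
    exact hk
  have hnok : ¬ Ok S.r qA := by
    intro hokA
    by_cases hR : HasRich S.r qA
    · obtain ⟨N, a, b⟩ := hR
      exact hl (ok_lv h (mg hg).1 hxg (mg hg).2 (h.ok g (mg hg).1 x hxg (mg hg).2 false true ⟨N, sA.trans a, b⟩))
    · apply hl
      intro T T' hT hT'
      have cB4 : (gs qB).card ≤ 4 := by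
        rw [gB]
        exact (Finset.card_insert_le _ _).trans (by omega)
      refine lv_sum S wq hA0q lA sA wA hy0 gA ?_ (DD wA cA ⟨hR, hokA⟩) sB wB hx0 gB ?_ (DD wB cB ⟨?_, ?_⟩) hT hT'
      · refine cA A0 (by rw [show QUB.gs qA = insert y0 A0 from gA]; exact Finset.subset_insert _ _) ⟨g', hg'A⟩ ⟨y0, ?_⟩
        rw [show QUB.gs qA = insert y0 A0 from gA]
        exact Finset.mem_sdiff.2 ⟨Finset.mem_insert_self _ _, (Finset.mem_sdiff.1 hy0).2⟩
      · refine cB (gs q \ A0) (by rw [show QUB.gs qB = insert x0 (gs q \ A0) from gB]; exact Finset.subset_insert _ _) nL ⟨x0, ?_⟩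
        rw [show QUB.gs qB = insert x0 (gs q \ A0) from gB]
        exact Finset.mem_sdiff.2 ⟨Finset.mem_insert_self _ _, fun hh => (Finset.mem_sdiff.1 hh).2 hx0⟩
      · rintro ⟨N, a, b⟩
        have h5 := b.2.1
        have h6 : gs N ⊆ gs qB := fun w hw => by
          obtain ⟨c, d⟩ := Finset.mem_sdiff.1 hw
          exact Finset.mem_sdiff.2 ⟨a.2 c, fun hh => d (a.1 hh)⟩
        have := Finset.card_le_card h6
        omega
      · exact ok_small (by
          have e : (QUB.gs qB).card = (gs qB).card := rfl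
          omega)
  -- connectivity of the contraction
  have hg'q : g' ∈ gs q := hA0q hg'A
  have hy0A : y0 ∉ A0 := (Finset.mem_sdiff.1 hy0).2
  have hg'qA : g' ∈ gs qA := by rw [gA]; exact Finset.mem_insert_of_mem hg'A
  have hg'y : g' ≠ y0 := fun e => hy0A (e ▸ hg'A)
  have wA' : (rm false g' qA).1 ⊆ (rm false g' qA).2 := QUB.wf_rm wA hg'qA
  have wq' : (rm false g' q).1 ⊆ (rm false g' q).2 := QUB.wf_rm wq hg'q
  have cq' : Cn S.r (rm false g' q) := by
    rw [hq, bx_2]
    exact cnJ h hF hI (Finset.insert_subset hg' (Finset.singleton_subset_iff.2 hg)) (Finset.singleton_subset_iff.2 hxg)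
      (Finset.disjoint_singleton_left.2 hxW) (by simp)
  have hL' : y0 ∈ Rr P k \ P i := hL ▸ hy0
  have hyq := (Finset.mem_sdiff.1 hy0).1
  have hyqA : y0 ∈ gs qA := by rw [gA]; exact Finset.mem_insert_self _ _
  obtain ⟨el1, el2⟩ := cn_el hr cA hyqA (by
    rw [gA, Finset.card_insert_of_notMem hy0A]; omega)
  have q1e : q.1 = insert g p.1 := by rw [hq]; rfl
  have ly : 1 ≤ QUB.lam S.r (rm false g' qA) (A0.erase g') := by
    refine ly_lam hr wA gA hy0A hg'A el2 (ly_aux hr hPn hg hg' hgg hi single h1 hL' (q1e ▸ sA.1) ?_ (Finset.mem_sdiff.1 hyqA).2 el1)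
    intro w hw hwq
    rw [← hL]
    have a1 : w ∈ q.2 := sA.2 (wA hw)
    refine Finset.mem_sdiff.2 ⟨Finset.mem_sdiff.2 ⟨a1, by rw [q1e]; exact hwq⟩, fun b => ?_⟩
    exact (Finset.mem_sdiff.1 (by rw [gA]; exact Finset.mem_insert_of_mem b : w ∈ gs qA)).2 hw
  have cA' : Cn S.r (rm false g' qA) := cA_aux hr wq wA sA hA0q gA hy0 hg'A lA cq' ly
  unfold QUB.Ok at hnok
  push Not at hnok
  obtain ⟨Z0, hZ0, lZ0, vZ0, vZ0'⟩ := hnok
  have hZ0' : Z0 ⊆ gs qA := hZ0
  obtain ⟨Z, hZ, hgZ, lZ, vZ, vZ'⟩ : ∃ Z ⊆ gs qA, g' ∉ Z ∧ QUB.lam S.r qA Z ≤ 1 ∧ Hv S.r qA Z ∧ Hv S.r qA (gs qA \ Z) := by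
    by_cases hgZ : g' ∈ Z0
    · refine ⟨gs qA \ Z0, Finset.sdiff_subset, fun hh => (Finset.mem_sdiff.1 hh).2 hgZ, ?_, vZ0', ?_⟩
      · exact (QUB.lam_compl S.r (p := qA) wA hZ0).trans_le lZ0
      · have : gs qA \ (gs qA \ Z0) = Z0 := Finset.sdiff_sdiff_eq_self hZ0
        rw [this]; exact vZ0
    · exact ⟨Z0, hZ0, hgZ, lZ0, vZ0, vZ0'⟩
  have hZe : Z ⊆ (gs qA).erase g' := fun w hw => Finset.mem_erase.2 ⟨fun e => hgZ (e ▸ hw), hZ hw⟩
  have cZ := vZ.card
  have cZ' := vZ'.card
  have hv : Hv S.r (rm false g' qA) Z := by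
    refine hv_keep hr wA hZe hg'qA lZ (cA' Z (by rw [gs_rm]; exact hZe) (Finset.card_pos.1 (by omega)) ?_) vZ
    rw [gs_rm]
    have e : (gs qA).erase g' \ Z = (gs qA \ Z).erase g' := by
      ext w; simp only [Finset.mem_sdiff, Finset.mem_erase]; tauto
    have e' : (QUB.gs qA).erase g' \ Z = (gs qA).erase g' \ Z := rfl
    rw [e', e, ← Finset.card_pos]
    have h2 := Finset.pred_card_le_card_erase (s := gs qA \ Z) (a := g')
    have e'' : (QUB.gs qA \ Z).card = (gs qA \ Z).card := rfl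
    omega
  obtain ⟨N, hN, hNc⟩ := hv
  have hNs : N ⊆ (gs qA).erase g' := by
    have := hN.sub
    have e : QUB.gs (rm false g' qA) = (gs qA).erase g' := QUB.gs_rm false g' qA
    rw [e] at this
    exact this
  have hN4 : N.card = 4 := hN.1
  refine ⟨N, ln_up ?_ hN, ?_⟩
  · have s1 : Sub (rm false g' qA) (rm false g' q) := sA.rm false g'
    have s2 : Sub (rm false g' q) (rm false g (rm false g' p)) := by
      rw [hq, rm_comm false false g' g]
      exact ((rm_sub true x p).rm false g').rm false g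
    exact s2.trans s1
  · have h2 : N.erase y0 ⊆ N ∩ A0 := by
      intro w hw
      obtain ⟨a, b⟩ := Finset.mem_erase.1 hw
      refine Finset.mem_inter.2 ⟨b, ?_⟩
      have := (Finset.mem_erase.1 (hNs b)).2
      rw [gA] at this
      exact (Finset.mem_insert.1 this).resolve_left a
    have h3 := Finset.card_le_card h2
    have h4 := Finset.pred_card_le_card_erase (s := N) (a := y0)
    omega

end main

end Pool.Agent.QU.Exc
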