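import Pool.Agent.QUP.ExcG

/-!
# QUP/ExcH: there are no two exceptional points
-/

set_option autoImplicit false
set_option linter.all false

open QUB

namespace Pool.Agent.QU.Exc

open Pool.Agent.FRM

section main

variable {E : Type} [Fintype E] [DecidableEq E] {S : TP F4 E} {p : Itv E} {W : Finset E} {P : Fin 5 → Finset E}

private theorem np (hF : Fan S.r p W P) : ∀ l, ¬ P l ⊆ (∅ : Finset E) := fun l h =>
  (Finset.nonempty_iff_ne_empty.1 (hF.ne l)) (Finset.subset_empty.1 h)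

private theorem u1 {p1 p2 W K R Pi : Finset E} {g g' : E} (hg : g ∈ W \ p1) (hg' : g' ∈ W \ p1) (h1 : p1 ⊆ W) (hG : (W \ p1) ∪ R = p2 \ p1)
    (hp : p1 ⊆ p2) (hPR : Pi ⊆ R) (hK : K = R \ Pi) (hRW : ∀ w ∈ R, w ∉ W) : p2 \ K = p1 ∪ ((W \ p1) ∪ Pi) := by
  subst hK
  ext w
  have a1 := @hp w
  have a2 := @hPR w
  have a3 := hRW w
  have a4 : w ∈ (W \ p1) ∪ R ↔ w ∈ p2 \ p1 := by rw [hG]
  simp only [Finset.mem_sdiff, Finset.mem_union] at a4 ⊢
  clear hG hRW hPR hp h1 hg hg'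
  tauto

/-- the line of the single classes -/
private theorem ln_K (hF : Fan S.r p W P) {k i : Fin 5} (hi : i ≠ k) (one : ∀ j, j ≠ i → (P j).card = 1) {q : Itv E} (hq1 : q.1 ⊆ W) (hq2 : q.2 = p.2) :
    QUB.Ln S.r q (Rf P \ P i) := by
  have hr := S.rk
  have e0 : Rf P \ P i = (Finset.univ.erase i).biUnion P := by
    ext w
    rw [Finset.mem_sdiff, mem_Rf]
    simp only [Finset.mem_biUnion, Finset.mem_erase, Finset.mem_univ, and_true]
    constructor
    · rintro ⟨⟨j, hj⟩, hn⟩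
      exact ⟨j, fun e => hn (e ▸ hj), hj⟩
    · rintro ⟨j, hj, hw⟩
      exact ⟨⟨j, hw⟩, fun hh => Finset.disjoint_left.1 (hF.dP j i hj) hw hh⟩
  have hKp : Rf P \ P i ⊆ p.2 := by
    intro w hw
    obtain ⟨j, hj⟩ := mem_Rf.1 (Finset.mem_sdiff.1 hw).1
    exact (Finset.mem_sdiff.1 (pk_g hF j hj)).1
  have hKW : ∀ w ∈ Rf P \ P i, w ∉ W := by
    intro w hw
    obtain ⟨j, hj⟩ := mem_Rf.1 (Finset.mem_sdiff.1 hw).1
    exact Finset.disjoint_left.1 (hF.dW j) hj
  have pr : ∀ a ∈ Rf P \ P i, ∀ b ∈ Rf P \ P i, a ≠ b → S.r (insert a (insert b W)) = S.r W + 2 := by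
    intro a ha b hb hab
    rw [e0] at ha hb
    obtain ⟨j, hj, hja⟩ := Finset.mem_biUnion.1 ha
    obtain ⟨l, hl, hlb⟩ := Finset.mem_biUnion.1 hb
    have hjl : j ≠ l := by
      rintro rfl
      obtain ⟨z, hz⟩ := Finset.card_eq_one.1 (one j (Finset.mem_erase.1 hj).1)
      rw [hz] at hja hlb
      exact hab ((Finset.mem_singleton.1 hja).trans (Finset.mem_singleton.1 hlb).symm)
    exact hF.two j l hjl a hja b hlb
  have hcard : (Rf P \ P i).card = 4 := by
    rw [e0, Finset.card_biUnion]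
    · have e2 : ∑ j ∈ Finset.univ.erase i, (P j).card = ∑ j ∈ Finset.univ.erase i, 1 := Finset.sum_congr rfl fun j hj => one j (Finset.mem_erase.1 hj).1
      rw [e2, Finset.sum_const, Finset.card_erase_of_mem (Finset.mem_univ i), Finset.card_univ, Fintype.card_fin]
      rfl
    · intro j _ l _ hjl
      exact hF.dP j l hjl
  refine ⟨hcard, W, hq1, ?_, ?_, ?_, pr⟩
  · rw [hq2]
    exact Finset.union_subset hF.hW2 hKp
  · rw [Finset.disjoint_left]
    exact hKW
  · obtain ⟨a, ha, b, hb, hab⟩ := Finset.one_lt_card.1 (by rw [hcard]; omega : 1 < (Rf P \ P i).card)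
    have h1 := pr a ha b hb hab
    have h2 : S.r (insert a (insert b W)) ≤ S.r (W ∪ (Rf P \ P i)) := hr.mono _ _ (by
      intro w hw
      rcases Finset.mem_insert.1 hw with rfl | hw
      · exact Finset.mem_union_right _ ha
      rcases Finset.mem_insert.1 hw with rfl | hw
      · exact Finset.mem_union_right _ hb
      · exact Finset.mem_union_left _ hw)
    have h3 : S.r (W ∪ (Rf P \ P i)) ≤ S.r p.2 := hr.mono _ _ (Finset.union_subset hF.hW2 hKp)
    have h4 := hF.rW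
    linarith

/-- two exceptional points of type N: the contraction of the two tops has a real conflict -/
theorem nn_fin (h : Cu S p) (hF : Fan S.r p W P) (hI : S.r W = S.r p.1 + (W \ p.1).card) {k k' : Fin 5} {x x' : E} (hk : P k = {x}) (hk' : P k' = {x'})
    (hkk : k ≠ k') {g g' : E} (hg : g ∈ W \ p.1) (hg' : g' ∈ W \ p.1) (hgg : g ≠ g') {i : Fin 5} (hi : i ≠ k) (hi' : i ≠ k')
    (single : ∀ j, j ≠ i → j ≠ k → (P j).card = 1) (h1 : ∀ c ∈ W \ p.1, c ≠ g → Spp (con S.r p.1) (W \ p.1) (Rr P k) c (P i))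
    (h2 : ∀ c ∈ W \ p.1, c ≠ g' → Spp (con S.r p.1) (W \ p.1) (Rr P k') c (P i)) (hl : ¬ Lv2 S (rm false g (rm true x p))) : False := by
  have hr := S.rk
  have hPn := pn_of h hF hI hk
  have hPn' := pn_of h hF hI hk'
  have mg : ∀ {g : E}, g ∈ W \ p.1 → g ∈ gs p := fun hg =>
    Finset.mem_sdiff.2 ⟨hF.hW2 (Finset.mem_sdiff.1 hg).1, (Finset.mem_sdiff.1 hg).2⟩
  have hG := gf hF
  have hful : con S.r p.1 ((W \ p.1) ∪ Rf P) ≤ (W \ p.1).card + 2 := by
    unfold con
    rw [hG]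
    have e : p.1 ∪ gs p = p.2 := Finset.union_sdiff_of_subset h.hp
    rw [e]
    have := hF.rW
    linarith
  obtain ⟨N, hN, hN3⟩ := hv_fin h hF hI hk hg hg' hgg hi single h1 hl
  have hrich : HasRich S.r (rm false g (rm false g' p)) := by
    rw [bx_20]
    exact nc_rich hF hr (Finset.union_subset hF.h1 (by
      intro w hw
      rcases Finset.mem_insert.1 hw with rfl | hw
      · exact (Finset.mem_sdiff.1 hg).1
      · rw [Finset.mem_singleton.1 hw]; exact (Finset.mem_sdiff.1 hg').1)) (Finset.disjoint_empty_left _) (np hF)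
  have hok := h.ok g (mg hg) g' (mg hg') hgg false false hrich
  have gg : gs (rm false g (rm false g' p)) = ((gs p).erase g').erase g := by rw [gs_rm, gs_rm]
  have hRC : ∀ w ∈ Rf P, w ∉ W := by
    intro w hw
    obtain ⟨j, hj⟩ := mem_Rf.1 hw
    exact Finset.disjoint_left.1 (hF.dW j) hj
  have hRg : ∀ w ∈ Rf P, w ∈ gs (rm false g (rm false g' p)) := by
    intro w hw
    rw [gg]
    have hwW := hRC w hw
    obtain ⟨j, hj⟩ := mem_Rf.1 hw
    exact Finset.mem_erase.2 ⟨fun e => hwW (e ▸ (Finset.mem_sdiff.1 hg).1), Finset.mem_erase.2 ⟨fun e => hwW (e ▸ (Finset.mem_sdiff.1 hg').1), pk_g hF j hj⟩⟩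
  have hKg : Rf P \ P i ⊆ gs (rm false g (rm false g' p)) := fun w hw => hRg w (Finset.mem_sdiff.1 hw).1
  have hlam : QUB.lam S.r (rm false g (rm false g' p)) (Rf P \ P i) ≤ 1 := by
    have a1 := nn_rk hPn hPn' hkk hful hi hi' hg hg' h1 h2
    rw [Finset.card_pair hgg] at a1
    have a2 := hPn.one i
    have a3 := Nt.le3 hr h.nt (by have := h.hn; omega) (Z := {g, g'}) (by
      intro w hw
      rcases Finset.mem_insert.1 hw with rfl | hw
      · exact mg hg
      · rw [Finset.mem_singleton.1 hw]; exact mg hg') (by rw [Finset.card_pair hgg]; omega)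
    rw [Finset.card_pair hgg] at a3
    have a4 := hF.rW
    have e1 : (rm false g (rm false g' p)).1 ∪ (Rf P \ P i) = p.1 ∪ ({g, g'} ∪ (Rf P \ P i)) := by
      ext w
      simp only [rm, Finset.mem_union, Finset.mem_insert, Finset.mem_singleton]
      tauto
    have e2 : (rm false g (rm false g' p)).2 \ (Rf P \ P i) = p.1 ∪ ((W \ p.1) ∪ P i) :=
      u1 (p1 := p.1) (p2 := p.2) (R := Rf P) (Pi := P i) hg hg' hF.h1 hG h.hp (fun w hw => mem_Rf.2 ⟨i, hw⟩) rfl hRC
    have e3 : (rm false g (rm false g' p)).1 = p.1 ∪ {g, g'} := by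
      ext w
      simp only [rm, Finset.mem_union, Finset.mem_insert, Finset.mem_singleton]
      tauto
    have e4 : (rm false g (rm false g' p)).2 = p.2 := rfl
    unfold QUB.lam
    rw [e1, e2, e3, e4]
    unfold con at a1 a2
    push_cast at a1 a3
    linarith
  have one : ∀ j, j ≠ i → (P j).card = 1 := by
    intro j hj
    by_cases e : j = k
    · rw [e, hk, Finset.card_singleton]
    · exact single j hj e
  have hLn : QUB.Ln S.r (rm false g (rm false g' p)) (Rf P \ P i) := by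
    refine ln_K hF hi one ?_ rfl
    intro w hw
    have hw' : w = g ∨ w = g' ∨ w ∈ p.1 := by
      have : w ∈ insert g (insert g' p.1) := hw
      simpa [Finset.mem_insert] using this
    rcases hw' with rfl | rfl | hw'
    · exact (Finset.mem_sdiff.1 hg).1
    · exact (Finset.mem_sdiff.1 hg').1
    · exact hF.h1 hw'
  refine hok (Rf P \ P i) hKg hlam ⟨⟨Rf P \ P i, hLn, ?_⟩, ⟨N, hN, ?_⟩⟩
  · rw [Finset.inter_self, hLn.1]
    omega
  · refine hN3.trans (Finset.card_le_card ?_)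
    intro w hw
    obtain ⟨a, b⟩ := Finset.mem_inter.1 hw
    refine Finset.mem_inter.2 ⟨a, Finset.mem_sdiff.2 ⟨hN.sub a, fun hh => ?_⟩⟩
    obtain ⟨c, d⟩ := Finset.mem_sdiff.1 hh
    rcases Finset.mem_union.1 b with b | b
    · exact hRC w c (Finset.mem_sdiff.1 (Finset.mem_erase.1 b).2).1
    · exact d b

/-- at most one exceptional point -/
theorem two_exc (h : Cu S p) (hn : 2 * (S.r p.2 - S.r p.1) ≤ (gs p).card) (hF : Fan S.r p W P) (hI : S.r W = S.r p.1 + (W \ p.1).card)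
    (hr5 : 5 ≤ S.r p.2 - S.r p.1) {k k' : Fin 5} {x x' : E} (hk : P k = {x}) (hk' : P k' = {x'}) (hkk : k ≠ k') (hE : E1 S p (W \ p.1) x)
    (hE' : E1 S p (W \ p.1) x' ∨ E2 S p (W \ p.1) x') : False := by
  have hPn := pn_of h hF hI hk
  have hPn' := pn_of h hF hI hk'
  have h3 := card_C hF hI hr5
  have hT := tg_of h hF hI
  have c1k : (P k).card = 1 := by rw [hk, Finset.card_singleton]
  have c1k' : (P k').card = 1 := by rw [hk', Finset.card_singleton]
  have hful : con S.r p.1 ((W \ p.1) ∪ Rf P) ≤ (W \ p.1).card + 2 := by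
    unfold con
    rw [gf hF]
    have e : p.1 ∪ gs p = p.2 := Finset.union_sdiff_of_subset h.hp
    rw [e]
    have := hF.rW
    linarith
  obtain ⟨g, hg, hl, hcase⟩ := e1_nd h hn hF hI hr5 hk hE
  have hcase' : ∃ g' ∈ W \ p.1, (CN (con S.r p.1) (W \ p.1) P k' g' ∨ ∃ c1 c2, g' ≠ c1 ∧ g' ≠ c2 ∧ CD (con S.r p.1) (W \ p.1) P k' c1 c2 g') := by
    rcases hE' with hE' | hE'
    · obtain ⟨g', hg', -, hc⟩ := e1_nd h hn hF hI hr5 hk' hE'
      exact ⟨g', hg', hc⟩
    · obtain ⟨g', hg', hc⟩ := e2_nd h hn hF hI hr5 hk' hE'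
      exact ⟨g', hg', Or.inl hc⟩
  obtain ⟨g', hg', hc'⟩ := hcase'
  rcases hcase with N | ⟨c1, c2, q1, q2, D⟩
  · rcases hc' with N' | ⟨c1', c2', q1', q2', D'⟩
    · obtain ⟨i, a1, a2, a3⟩ := N
      obtain ⟨j, b1, b2, b3⟩ := N'
      have hji : j = i := nn_cls (g := g) hPn hPn' c1k h3 a2 b1 b3
      subst hji
      have hne := nn_ne hPn hPn' hkk hT hful h3 a1 b1 hg hg' a3
      by_cases e : g = g'
      · subst e
        exact hne b3 rfl
      · exact nn_fin h hF hI hk hk' hkk hg hg' e a1 b1 a2 a3 b3 hl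
    · exact dn hPn' hPn c1k D' N
  · rcases hc' with N' | ⟨c1', c2', q1', q2', D'⟩
    · exact dn hPn hPn' c1k' D N'
    · exact dd hPn hPn' hkk hT c1k c1k' hg hg' q1 q2 D D'

/-- an exceptional point is alone in its class -/
theorem sing (h : Cu S p) (hF : Fan S.r p W P) (hI : S.r W = S.r p.1 + (W \ p.1).card) (hr5 : 5 ≤ S.r p.2 - S.r p.1) {x : E} (hx : x ∈ gs p) (hxW : x ∉ W)
    (hE : E1 S p (W \ p.1) x ∨ E2 S p (W \ p.1) x) : ∃ k, P k = {x} := by
  have hr := S.rk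
  have h1 : x ∈ Finset.univ.biUnion P := by
    have : x ∈ W ∪ Finset.univ.biUnion P := by rw [hF.hU]; exact (Finset.mem_sdiff.1 hx).1
    exact (Finset.mem_union.1 this).resolve_left hxW
  obtain ⟨k, -, hk⟩ := Finset.mem_biUnion.1 h1
  by_contra hcon
  push Not at hcon
  have hout : ∀ l, ¬ P l ⊆ ({x} : Finset E) := by
    intro l hl
    exact hcon l (Finset.Subset.antisymm hl (by
      obtain ⟨y, hy⟩ := hF.ne l
      have := Finset.mem_singleton.1 (hl hy)
      intro w hw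
      rw [Finset.mem_singleton.1 hw, ← this]
      exact hy))
  have mg : ∀ {g : E}, g ∈ W \ p.1 → g ∈ gs p ∧ g ≠ x := fun hg =>
    ⟨Finset.mem_sdiff.2 ⟨hF.hW2 (Finset.mem_sdiff.1 hg).1, (Finset.mem_sdiff.1 hg).2⟩, fun e => hxW (e ▸ (Finset.mem_sdiff.1 hg).1)⟩
  have ok : ∀ g ∈ W \ p.1, Ok S.r (rm false g (rm true x p)) := by
    intro g hg
    refine h.ok g (mg hg).1 x hx (mg hg).2 false true ?_
    rw [bx_1]
    exact nc_rich hF hr (Finset.union_subset hF.h1 (Finset.singleton_subset_iff.2 (Finset.mem_sdiff.1 hg).1)) (Finset.disjoint_singleton_left.2 hxW) hout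
  have h3 := card_C hF hI hr5
  obtain ⟨Z, hZ, hZ3⟩ := Finset.exists_subset_card_eq h3
  obtain ⟨a, b, c, hab, hac, hbc, rfl⟩ := Finset.card_eq_three.1 hZ3
  have ha := hZ (show a ∈ ({a, b, c} : Finset E) by simp)
  have hb := hZ (show b ∈ ({a, b, c} : Finset E) by simp)
  have hc := hZ (show c ∈ ({a, b, c} : Finset E) by simp)
  rcases hE with hE | hE
  · exact hE ⟨a, ha, b, hb, c, hc, hab, hac, hbc, ok_lv h (mg ha).1 hx (mg ha).2 (ok a ha), ok_lv h (mg hb).1 hx (mg hb).2 (ok b hb),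
      ok_lv h (mg hc).1 hx (mg hc).2 (ok c hc)⟩
  · exact hE ⟨a, ha, b, hb, hab, ok a ha, ok b hb⟩

end main

end Pool.Agent.QU.Exc
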