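import Pool.Agent.QUT.Rcf
import Pool.Agent.QUP.Ch

/-!
# QUP/Md: the class of 2-sides over which the minimum is taken

`Md r p s a t b Z`: `Z` is a 2-side of the pair `a^s, b^t`, a rich minor lies on the other side, `|Z| ≥ 2`; if the types agree, `Z` is heavy.
-/

set_option autoImplicit false

open QUB

namespace Pool.Agent.QU

open Pool.Agent.FRM

variable {E : Type} [DecidableEq E]

/-- a 2-side of a pair of removals opposite to a rich minor (heavy, if the types agree) -/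
structure Md (r : Finset E → ℤ) (p : Itv E) (s : Bool) (a : E) (t : Bool) (b : E) (Z : Finset E) : Prop where
  ma : a ∈ gs p
  mb : b ∈ gs p
  ab : a ≠ b
  sub : Z ⊆ gs (rm s a (rm t b p))
  lam : QUB.lam r (rm s a (rm t b p)) Z ≤ 1
  rich : ∃ q', Sub q' (rm s a (rm t b p)) ∧ Rich r q' ∧ (Z ∩ gs q').card ≤ 1
  two : 2 ≤ Z.card
  hv : s = t → Hv r (rm s a (rm t b p)) Z

/-- no member of the class has less than `m` elements -/
def MdMin (r : Finset E → ℤ) (p : Itv E) (m : ℕ) : Prop := ∀ s a t b Z, Md r p s a t b Z → m ≤ Z.card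

variable {r : Finset E → ℤ} {p : Itv E}

theorem Md.symm {s t : Bool} {a b : E} {Z : Finset E} (h : Md r p s a t b Z) : Md r p t b s a Z := by
  have e : rm t b (rm s a p) = rm s a (rm t b p) := rm_comm t s b a p
  exact ⟨h.mb, h.ma, h.ab.symm, e ▸ h.sub, e ▸ h.lam, e ▸ h.rich, h.two, fun h1 => e ▸ h.hv h1.symm⟩

theorem Md.wf (hp : p.1 ⊆ p.2) {s t : Bool} {a b : E} {Z : Finset E} (h : Md r p s a t b Z) :
    (rm s a (rm t b p)).1 ⊆ (rm s a (rm t b p)).2 := by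
  refine QUB.wf_rm (QUB.wf_rm hp h.mb) ?_
  rw [show gs (rm t b p) = (gs p).erase b from QUB.gs_rm t b p]
  exact Finset.mem_erase.2 ⟨h.ab, h.ma⟩

/-- a smallest member -/
theorem md_min {s t : Bool} {a b : E} {Z : Finset E} (h : Md r p s a t b Z) :
    ∃ s' a' t' b' Z', Md r p s' a' t' b' Z' ∧ MdMin r p Z'.card := by
  have hex : ∃ n : ℕ, ∃ s' a' t' b' Z', Md r p s' a' t' b' Z' ∧ Z'.card = n := ⟨_, s, a, t, b, Z, h, rfl⟩
  classical
  obtain ⟨s', a', t', b', Z', hZ, hc⟩ := Nat.find_spec hex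
  refine ⟨s', a', t', b', Z', hZ, fun s a t b Z h => ?_⟩
  rw [hc]
  exact Nat.find_min' hex ⟨s, a, t, b, Z, h, rfl⟩

variable [Fintype E] {S : TP F4 E}

theorem Rcf.md {s t : Bool} {a b : E} {X : Finset E} (h : Rcf S p a s b t X) : Md S.r p s a t b X :=
  ⟨h.mu, h.mv, h.uv, h.sub, h.lam, h.rich, le_trans (by norm_num) h.hv.card, fun _ => h.hv⟩

theorem Md.rcf {s t : Bool} {a b : E} {X : Finset E} (h : Md S.r p s a t b X) (hv : Hv S.r (rm s a (rm t b p)) X) : Rcf S p a s b t X :=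
  ⟨h.ma, h.mb, h.ab, h.sub, h.lam, hv, h.rich⟩

theorem MdMin.rc {X : Finset E} (h : MdMin S.r p X.card) : RcMin S p X := fun _ _ _ _ _ h' => h _ _ _ _ _ h'.md

private theorem md_rm2 (s t : Bool) (u v : E) (p : Itv E) :
    rm (!s) u (rm (!t) v (QUB.dp p)) = QUB.dp (rm s u (rm t v p)) := by
  have h1 : QUB.rm (!t) v (QUB.dp p) = QUB.dp (QUB.rm t v p) := by
    have := QUB.rm_dp (!t) v p
    rwa [Bool.not_not] at this
  have h2 : QUB.rm (!s) u (QUB.dp (QUB.rm t v p)) = QUB.dp (QUB.rm s u (QUB.rm t v p)) := by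
    have := QUB.rm_dp (!s) u (QUB.rm t v p)
    rwa [Bool.not_not] at this
  show QUB.rm (!s) u (QUB.rm (!t) v (QUB.dp p)) = QUB.dp (QUB.rm s u (QUB.rm t v p))
  rw [h1, h2]

theorem Md.dual (hp : p.1 ⊆ p.2) {s t : Bool} {a b : E} {X : Finset E} (h : Md S.r p s a t b X) :
    Md S.dual.r (QUB.dp p) (!s) a (!t) b X := by
  have hw := h.wf hp
  have e := md_rm2 s t a b p
  have hg : gs (QUB.dp (rm s a (rm t b p))) = gs (rm s a (rm t b p)) := QUB.gs_dp _
  have hgp : gs (QUB.dp p) = gs p := QUB.gs_dp _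
  refine ⟨hgp ▸ h.ma, hgp ▸ h.mb, h.ab, ?_, ?_, ?_, h.two, ?_⟩
  · rw [e, hg]
    exact h.sub
  · rw [e]
    exact (QUB.lam_dp hw h.sub).trans_le h.lam
  · rw [e]
    obtain ⟨q', h1, h2, h3⟩ := h.rich
    refine ⟨QUB.dp q', ⟨Finset.compl_subset_compl.2 h1.2, Finset.compl_subset_compl.2 h1.1⟩, rich_dual S h2, ?_⟩
    rw [show gs (QUB.dp q') = gs q' from QUB.gs_dp q']
    exact h3
  · intro h1
    rw [e]
    exact (QUB.hv_dp S.rk hw X).2 (h.hv (by cases s <;> cases t <;> simp_all))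

/-- the minimum is the same in the dual -/
theorem MdMin.dual (hp : p.1 ⊆ p.2) {m : ℕ} (h : MdMin S.r p m) : MdMin S.dual.r (QUB.dp p) m := by
  intro s a t b Z hZ
  have h1 := Md.dual (S := S.dual) (QUB.wf_dp hp) hZ
  have e1 : S.dual.dual.r = S.r := QUB.rd_rd S.rk
  have e2 : QUB.dp (QUB.dp p) = p := QUB.dp_dp p
  rw [e1, e2] at h1
  exact h _ _ _ _ _ h1

end Pool.Agent.QU
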