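import Pool.Agent.QUP.MxC
import Pool.Agent.QUT.Lfe

/-!
# QUP/Mx: a smallest mixed 2-side has at most three elements, or there is a form
-/

set_option autoImplicit false

open QUB

namespace Pool.Agent.QU

open Pool.Agent.FRM

variable {E : Type} [Fintype E] [DecidableEq E] {S : TP F4 E} {p : Itv E} {s : Bool} {k j : E} {X : Finset E}

/-- two bad elements of different types coincide -/
theorem Mxs.badd (h : Mxs S p s k j X) {x z : E} (hx : x ∈ X) (hz : z ∈ X) (hxz : x ≠ z) {σ : Bool} (b1 : Bad S.r p X σ x)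
    (b2 : Bad S.r p X (!σ) z) : False := by
  have h4 := h.h4
  have hy4 := h.y4
  obtain ⟨m1, m2, m3⟩ := h.mq hx
  obtain ⟨n1, n2, n3⟩ := h.mq hz
  have hXp : X ⊆ gs p := fun y hy => (h.mq hy).1
  have hgP := gs_rm2 σ (!σ) x z p
  have xz : x ∈ gs (rm (!σ) z p) := by rw [gs_rm]; exact Finset.mem_erase.2 ⟨hxz, m1⟩
  have hwP : (rm σ x (rm (!σ) z p)).1 ⊆ (rm σ x (rm (!σ) z p)).2 := QUB.wf_rm (QUB.wf_rm h.cw.hp n1) xz
  -- the order of the complement of `X`
  have l1 : 3 ≤ QUB.lam S.r p (gs p \ X) := by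
    rw [lam_compl S.r h.cw.hp hXp]
    have h5 := h.old (T := X) h.md.sub (by omega) (by omega)
    have h6 := lam_mix S.r p s k j X
    have h7 := h.md.lam
    omega
  have l2 := (h.bad_iff hx σ).1 b1
  have l3 := (h.bad_iff hz (!σ)).1 b2
  have l4 := lam_mix S.r p σ x z (gs p \ X)
  have hX2 : (X.erase z).erase x ⊆ gs (rm σ x (rm (!σ) z p)) := by
    rw [hgP]
    exact Finset.erase_subset_erase _ (Finset.erase_subset_erase _ hXp)
  have eU : gs (rm σ x (rm (!σ) z p)) \ (X.erase z).erase x = gs p \ X := by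
    ext y
    rw [hgP, Finset.mem_sdiff, Finset.mem_sdiff, Finset.mem_erase, Finset.mem_erase, Finset.mem_erase, Finset.mem_erase]
    constructor
    · rintro ⟨⟨a, b, c⟩, d⟩
      exact ⟨c, fun h8 => d ⟨a, b, h8⟩⟩
    · rintro ⟨c, d⟩
      exact ⟨⟨fun h8 => d (by rw [h8]; exact hx), fun h8 => d (by rw [h8]; exact hz), c⟩, fun h8 => d h8.2.2⟩
  have l5 : QUB.lam S.r (rm σ x (rm (!σ) z p)) ((X.erase z).erase x) ≤ 1 := by
    rw [← lam_compl S.r hwP hX2, eU]
    omega
  -- the rich minor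
  have l6 := lam_mix S.r (rm s k (rm (!s) j p)) σ x z (gs (rm s k (rm (!s) j p)) \ X)
  have l7 := h.l1 hx σ
  have l8 := h.l1 hz (!σ)
  have l9 := h.lY
  obtain ⟨q', s1, s2, s3⟩ := h.rk2 hx hz hxz (σ := σ) (τ := !σ) (by omega)
  have eN : rm σ x (rm (!σ) z (rm s k (rm (!s) j p))) = rm s k (rm (!s) j (rm σ x (rm (!σ) z p))) := by
    rw [rm_comm (!σ) s z k, rm_comm (!σ) (!s) z j, rm_comm σ s x k, rm_comm σ (!s) x j]
  have hs : Sub q' (rm σ x (rm (!σ) z p)) := by
    rw [eN] at s1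
    exact ((rm_sub (!s) j _).trans (rm_sub s k _)).trans s1
  have c2 : ((X.erase z).erase x).card = X.card - 2 := by
    rw [Finset.card_erase_of_mem (Finset.mem_erase.2 ⟨hxz, hx⟩), Finset.card_erase_of_mem hz]
    omega
  have h10 := h.mn _ _ _ _ _ (⟨m1, n1, hxz, hX2, l5, ⟨q', hs, s2, s3⟩, by omega, fun h => by cases σ <;> simp at h⟩ :
    Md S.r p σ x (!σ) z ((X.erase z).erase x))
  omega

theorem Cw.cv (h : Cw S p) : Cv S p := ⟨h.nu, h.hp, h.hC, h.h3, h.nt, h.hn, h.th, h.ih⟩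

theorem Mxs.bs (h : Mxs S p s k j X) : Bs S p k s j (!s) X := by
  refine ⟨h.md.ma, h.md.mb, h.md.ab, h.leaf, h.h4, by have := h.y4; omega, ?_⟩
  intro x hx z hz hxz σ ρ hc
  obtain ⟨q', s1, s2, -⟩ := h.rk2 hx hz hxz (h.l2 hx hz hc)
  exact ⟨q', s1, s2⟩

theorem Mxs.one (h : Mxs S p s k j X) (hb : ∀ x ∈ X, ¬ Bad S.r p X s x) : ∃ T : Fm F4 E, InV S.U S.W p T ∧ ¬ EqD S.U S.W p T 0 :=
  leaf_done h.cw.cv h.bs (fun x hx σ => h.ok1 hx σ fun _ => hb x hx) fun x hx _ hz hxz _ hc => h.ok2 hx hz hxz hc fun h' => hb x hx h'.1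

theorem Mxs.done (h : Mxs S p s k j X) : ∃ T : Fm F4 E, InV S.U S.W p T ∧ ¬ EqD S.U S.W p T 0 := by
  by_cases h1 : ∀ x ∈ X, ¬ Bad S.r p X s x
  · exact h.one h1
  by_cases h2 : ∀ x ∈ X, ¬ Bad S.r p X (!s) x
  · exact h.symm.one h2
  push Not at h1 h2
  obtain ⟨a, ha, ba⟩ := h1
  obtain ⟨b, hb, bb⟩ := h2
  have hab : a = b := by
    by_contra hne
    exact h.badd ha hb hne ba bb
  subst hab
  have nb : ∀ x ∈ X, x ≠ a → ¬ Bad S.r p X s x := fun x hx hne hbx => h.badd hx ha hne hbx bb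
  refine leaf_done0 h.cw.cv h.bs ha ?_ ?_ ?_
  · intro x hx σ hσ
    refine h.ok1 hx σ fun h3 => ?_
    rcases hσ with h4 | h4
    · exact nb x hx h4
    · rw [h3] at h4
      cases s <;> simp at h4
  · intro x hx _
    exact h.symm.ok1 hx s fun h3 => by cases s <;> simp at h3
  · intro x hx z hz hxz hne σ _ hc
    exact h.ok2 hx hz hxz hc fun h' => nb x hx hne h'.1

/-- **a smallest side of a mixed pair with at least four elements** -/
theorem n_mix (h : Cw S p) {u v : E} {X : Finset E} (hX : Md S.r p true u false v X) (hm : MdMin S.r p X.card) (h4 : 4 ≤ X.card) :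
    ∃ T : Fm F4 E, InV S.U S.W p T ∧ ¬ EqD S.U S.W p T 0 :=
  (⟨h, hX, hm, h4⟩ : Mxs S p true u v X).done

/-- a side of a mixed pair has at least three elements -/
theorem md_three (h : Cw S p) {X : Finset E} (hX : Md S.r p s k (!s) j X) : 3 ≤ X.card := by
  by_contra hcon
  have h2 := hX.two
  have hc : X.card = 2 := by omega
  obtain ⟨a, b, hab, rfl⟩ := Finset.card_eq_two.1 hc
  have hn := h.hn
  have hg := gs_rm2 s (!s) k j p
  have hsub := hX.sub
  have c0 : (gs (rm s k (rm (!s) j p))).card = (gs p).card - 2 := by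
    rw [hg, Finset.card_erase_of_mem (Finset.mem_erase.2 ⟨hX.ab, hX.ma⟩), Finset.card_erase_of_mem hX.mb]
    omega
  have c1 := Finset.card_sdiff_of_subset hsub
  have hsub' : ({a, b} : Finset E) ⊆ ((gs p).erase j).erase k := hg ▸ hsub
  have k1 : 2 ≤ QUB.lam S.r (rm s k p) {a, b} := by
    refine h.th k hX.ma s _ ?_ h2 (le_trans (by omega) (Finset.card_le_card (?_ : gs (rm s k (rm (!s) j p)) \ {a, b} ⊆ _)))
    · rw [gs_rm]
      exact hsub'.trans (Finset.erase_subset_erase _ (Finset.erase_subset _ _))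
    · rw [hg, gs_rm]
      exact Finset.sdiff_subset_sdiff (Finset.erase_subset_erase _ (Finset.erase_subset _ _)) (Finset.Subset.refl _)
  have k2 : 2 ≤ QUB.lam S.r (rm (!s) j p) {a, b} := by
    refine h.th j hX.mb (!s) _ ?_ h2 (le_trans (by omega) (Finset.card_le_card (?_ : gs (rm s k (rm (!s) j p)) \ {a, b} ⊆ _)))
    · rw [gs_rm]
      exact hsub'.trans (Finset.erase_subset _ _)
    · rw [hg, gs_rm]
      exact Finset.sdiff_subset_sdiff (Finset.erase_subset _ _) (Finset.Subset.refl _)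
  have k3 := lam_mix S.r p s k j {a, b}
  have k4 := hX.lam
  have ma : a ∈ gs p := Finset.mem_of_mem_erase (Finset.mem_of_mem_erase (hsub' (by simp)))
  have mb : b ∈ gs p := Finset.mem_of_mem_erase (Finset.mem_of_mem_erase (hsub' (by simp)))
  have k5 := lam_single_le S.rk ma
  have k6 := lam_single_le S.rk mb
  have k7 := lam_sub (p := p) S.rk {a} {b}
  rw [Finset.singleton_inter_of_notMem (by simpa using hab), lam_empty] at k7
  have e : ({a} : Finset E) ∪ {b} = {a, b} := rfl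
  rw [e] at k7
  omega

end Pool.Agent.QU
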