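import Pool.Agent.QUP.RaF

set_option autoImplicit false

/-!
# QUP/RaC: rank part of `RR without connectivity`

`q` is a connected box without small circuits.  `ra_min`: a set `A` of order `≤ 1` with at least two elements contains a series pair, or a set
all elements of which can be deleted and contracted without losing connectivity.
-/

namespace Pool.Agent.QU

variable {E : Type} [DecidableEq E]

private theorem rac_half {r : Finset E → ℤ} (hr : QUB.Rk r) {q : Itv E} (hq : q.1 ⊆ q.2) (hc : QUB.Cn r q)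
    {X : Finset E} (hX : X ⊆ gs q) (hl : QUB.lam r q X ≤ 1) (hmin : ∀ Z ⊆ X, Z ≠ X → 2 ≤ Z.card → 2 ≤ QUB.lam r q Z) {x : E} (hx : x ∈ X)
    {A B : Finset E} (hA : A ⊆ gs q) (hB : B ⊆ gs q) (hxA : x ∉ A) (hxB : x ∉ B) (hcov : ∀ y ∈ gs q, y ≠ x → y ∉ A → y ∈ B)
    (hdis : ∀ y ∈ A, y ∉ B) (hBn : B.Nonempty) (hlA : QUB.lam r q A ≤ 1) : (A ∩ X).card ≤ 1 := by
  by_contra hcon
  push Not at hcon
  have h1 : A ∩ X ≠ X := fun h => hxA (Finset.mem_inter.1 (h.symm ▸ hx : x ∈ A ∩ X)).1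
  have h2 := hmin (A ∩ X) Finset.inter_subset_right h1 hcon
  have h3 := QUB.lam_sub (p := q) hr A X
  have h4 : QUB.lam r q (A ∪ X) ≤ 0 := by linarith
  have h5 : gs q \ (A ∪ X) = ∅ := by
    by_contra hne
    have h6 := hc (A ∪ X) (Finset.union_subset hA hX) ⟨x, Finset.mem_union_right _ hx⟩ (Finset.nonempty_iff_ne_empty.2 hne)
    linarith
  have h6 : B ⊆ X := by
    intro y hy
    by_contra hyX
    have h7 : y ∈ gs q \ (A ∪ X) := Finset.mem_sdiff.2 ⟨hB hy, fun h => (Finset.mem_union.1 h).elim (fun h' => hdis y h' hy) hyX⟩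
    rw [h5] at h7
    exact absurd h7 (Finset.notMem_empty y)
  have e1 : gs q \ A = insert x B := by
    ext y
    rw [Finset.mem_sdiff, Finset.mem_insert]
    constructor
    · rintro ⟨h7, h8⟩
      by_cases hyx : y = x
      · exact Or.inl hyx
      · exact Or.inr (hcov y h7 hyx h8)
    · rintro (rfl | h7)
      · exact ⟨hX hx, hxA⟩
      · exact ⟨hB h7, fun h8 => hdis y h8 h7⟩
  have h7 : QUB.lam r q (insert x B) ≤ 1 := by
    rw [← e1, QUB.lam_compl r hq hA]
    exact hlA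
  obtain ⟨a, ha⟩ := Finset.card_pos.1 (lt_of_lt_of_le Nat.zero_lt_one hcon.le)
  have ha' := Finset.mem_inter.1 ha
  have h8 : insert x B ≠ X := by
    intro h
    have h9 : a ∈ insert x B := h ▸ ha'.2
    rcases Finset.mem_insert.1 h9 with h10 | h10
    · exact hxA (h10 ▸ ha'.1)
    · exact hdis a ha'.1 h10
  have h9 : 2 ≤ (insert x B).card := by
    rw [Finset.card_insert_of_notMem hxB]
    have := Finset.card_pos.2 hBn
    omega
  have h10 := hmin (insert x B) (Finset.insert_subset hx h6) h8 h9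
  linarith

private theorem rac_split {r : Finset E → ℤ} (hr : QUB.Rk r) {q : Itv E} (hq : q.1 ⊆ q.2) (hc : QUB.Cn r q)
    (hT : ∀ Z ⊆ gs q, Z.card = 3 → r (q.1 ∪ Z) = r q.1 + 3) {X : Finset E} (hX : X ⊆ gs q) (hX3 : 3 ≤ X.card)
    (hl : QUB.lam r q X ≤ 1) (hmin : ∀ Z ⊆ X, Z ≠ X → 2 ≤ Z.card → 2 ≤ QUB.lam r q Z) {x : E} (hx : x ∈ X)
    {A B : Finset E} (hA : A ⊆ (gs q).erase x) (hB : B = (gs q).erase x \ A) (hAn : A.Nonempty) (hBn : B.Nonempty)
    (hlA : QUB.lam r q A ≤ 1) (hlB : QUB.lam r q B ≤ 1) : False := by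
  have hBs : B ⊆ (gs q).erase x := hB ▸ Finset.sdiff_subset
  have hA' : A ⊆ gs q := hA.trans (Finset.erase_subset _ _)
  have hB' : B ⊆ gs q := hBs.trans (Finset.erase_subset _ _)
  have hxA : x ∉ A := fun h => (Finset.mem_erase.1 (hA h)).1 rfl
  have hxB : x ∉ B := fun h => (Finset.mem_erase.1 (hBs h)).1 rfl
  have hd : ∀ y ∈ A, y ∉ B := fun y hy hyB => (Finset.mem_sdiff.1 (hB ▸ hyB : y ∈ (gs q).erase x \ A)).2 hy
  have hcv : ∀ y ∈ gs q, y ≠ x → y ∉ A → y ∈ B := fun y h1 h2 h3 => hB ▸ Finset.mem_sdiff.2 ⟨Finset.mem_erase.2 ⟨h2, h1⟩, h3⟩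
  have kA := rac_half hr hq hc hX hl hmin hx hA' hB' hxA hxB hcv hd hBn hlA
  have kB := rac_half hr hq hc hX hl hmin hx hB' hA' hxB hxA
    (fun y h1 h2 h3 => by by_contra h4; exact h3 (hcv y h1 h2 h4)) (fun y h1 h2 => hd y h2 h1) hAn hlB
  have eX : X ⊆ insert x ((A ∩ X) ∪ (B ∩ X)) := by
    intro y hy
    rw [Finset.mem_insert, Finset.mem_union, Finset.mem_inter, Finset.mem_inter]
    by_cases h1 : y = x
    · exact Or.inl h1
    · by_cases h2 : y ∈ A
      · exact Or.inr (Or.inl ⟨h2, hy⟩)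
      · exact Or.inr (Or.inr ⟨hcv y (hX hy) h1 h2, hy⟩)
  have c1 := Finset.card_le_card eX
  have c2 := Finset.card_insert_le x ((A ∩ X) ∪ (B ∩ X))
  have c3 := Finset.card_union_le (A ∩ X) (B ∩ X)
  have hA1 : (A ∩ X).card = 1 := by omega
  have hB1 : (B ∩ X).card = 1 := by omega
  have hXc : X.card = 3 := by omega
  obtain ⟨a, ha⟩ := Finset.card_eq_one.1 hA1
  obtain ⟨b, hb⟩ := Finset.card_eq_one.1 hB1
  have ha' := Finset.mem_inter.1 (ha ▸ Finset.mem_singleton_self a : a ∈ A ∩ X)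
  have hb' := Finset.mem_inter.1 (hb ▸ Finset.mem_singleton_self b : b ∈ B ∩ X)
  have hax : a ≠ x := fun h => hxA (h ▸ ha'.1)
  have hbx : b ≠ x := fun h => hxB (h ▸ hb'.1)
  have hab : a ≠ b := fun h => hd a ha'.1 (h ▸ hb'.1)
  have r1 := hT X hX hXc
  have hl' : r (q.1 ∪ X) + r (q.2 \ X) - r q.2 - r q.1 ≤ 1 := hl
  have hP : ({a, x} : Finset E) ⊆ X := by
    intro y hy
    rcases Finset.mem_insert.1 hy with rfl | hy
    · exact ha'.2
    · rw [Finset.mem_singleton.1 hy]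
      exact hx
  have hPc : ({a, x} : Finset E).card = 2 := Finset.card_pair hax
  have hPX : ({a, x} : Finset E) ≠ X := fun h => by rw [h] at hPc; omega
  have hPl : 2 ≤ r (q.1 ∪ {a, x}) + r (q.2 \ {a, x}) - r q.2 - r q.1 := hmin {a, x} hP hPX hPc.ge
  have u1 : r (q.1 ∪ {a, x}) ≤ r q.1 + 2 := by
    have e1 : q.1 ∪ {a, x} = insert a (insert x q.1) := by
      ext y
      simp only [Finset.mem_union, Finset.mem_insert, Finset.mem_singleton]
      tauto
    rw [e1]
    have h1 := hr.unit (insert x q.1) a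
    have h2 := hr.unit q.1 x
    linarith
  have e2 : q.2 \ {a, x} ⊆ insert b (q.2 \ X) := by
    intro y hy
    rw [Finset.mem_sdiff, Finset.mem_insert, Finset.mem_singleton] at hy
    rw [Finset.mem_insert, Finset.mem_sdiff]
    by_cases hyX : y ∈ X
    · left
      have h1 := Finset.mem_insert.1 (eX hyX)
      rcases h1 with h1 | h1
      · exact absurd (Or.inr h1) hy.2
      · rcases Finset.mem_union.1 h1 with h2 | h2
        · rw [ha] at h2
          exact absurd (Or.inl (Finset.mem_singleton.1 h2)) hy.2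
        · rw [hb] at h2
          exact Finset.mem_singleton.1 h2
    · exact Or.inr ⟨hy.1, hyX⟩
  have u2 := hr.mono _ _ e2
  have u3 := hr.unit (q.2 \ X) b
  linarith

/-- a set of order `≤ 1` with two elements contains a pair of order `≤ 1` or a set the elements of which can be deleted and contracted -/
theorem ra_min {r : Finset E → ℤ} (hr : QUB.Rk r) {q : Itv E} (hq : q.1 ⊆ q.2) (hc : QUB.Cn r q)
    (hT : ∀ Z ⊆ gs q, Z.card = 3 → r (q.1 ∪ Z) = r q.1 + 3) {A : Finset E} (hA : A ⊆ gs q) (hA2 : 2 ≤ A.card)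
    (hl : QUB.lam r q A ≤ 1) :
    (∃ X ⊆ A, X.card = 2 ∧ QUB.lam r q X ≤ 1) ∨ ∃ x ∈ A, ∀ s, QUB.Cn r (QUB.rm s x q) := by
  by_cases h2 : ∃ X ⊆ A, X.card = 2 ∧ QUB.lam r q X ≤ 1
  · exact Or.inl h2
  right
  -- a minimal set
  have hex : ∃ n : ℕ, ∃ X ⊆ A, X.card = n ∧ 2 ≤ X.card ∧ QUB.lam r q X ≤ 1 := ⟨A.card, A, Finset.Subset.refl A, rfl, hA2, hl⟩
  classical
  obtain ⟨X, hXA, hXn, hX2, hXl⟩ := Nat.find_spec hex
  have hmin : ∀ Z ⊆ X, Z ≠ X → 2 ≤ Z.card → 2 ≤ QUB.lam r q Z := by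
    intro Z hZ hne hZ2
    by_contra hcon
    push Not at hcon
    have h3 : Z.card < X.card := Finset.card_lt_card (Finset.ssubset_iff_subset_ne.2 ⟨hZ, hne⟩)
    rw [hXn] at h3
    exact Nat.find_min hex h3 ⟨Z, hZ.trans hXA, rfl, hZ2, by linarith⟩
  have hX3 : 3 ≤ X.card := by
    by_contra hcon
    exact h2 ⟨X, hXA, by omega, hXl⟩
  obtain ⟨x, hx⟩ := Finset.card_pos.1 (by omega : 0 < X.card)
  refine ⟨x, hXA hx, fun s B hB hBn hBn' => ?_⟩
  rw [QUB.gs_rm] at hB hBn'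
  by_contra hcon
  push Not at hcon
  have hxq : x ∈ gs q := hA (hXA hx)
  have hB' : (gs q).erase x \ B ⊆ (gs q).erase x := Finset.sdiff_subset
  have l1 := QUB.lam_le_rm hr (t := s) hxq hB
  have l2 := QUB.lam_le_rm hr (t := s) hxq hB'
  have e1 : QUB.lam r (QUB.rm s x q) ((gs q).erase x \ B) = QUB.lam r (QUB.rm s x q) B := by
    have h4 := QUB.lam_compl (p := QUB.rm s x q) r (QUB.wf_rm hq hxq) (A := B) (by rw [QUB.gs_rm]; exact hB)
    rwa [QUB.gs_rm] at h4
  exact rac_split hr hq hc hT (hXA.trans hA) hX3 hXl hmin hx hB rfl hBn hBn' (by linarith) (by linarith)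

/-! ### separations and minors -/

private theorem rac_rect {r : Finset E → ℤ} (hr : QUB.Rk r) {a a' b b' : Finset E} (ha : a ⊆ a') (hb : b ⊆ b') (h : a' ∩ b' ⊆ a ∪ b) :
    r (a' ∪ b') + r (a ∪ b) ≤ r (a' ∪ b) + r (a ∪ b') := by
  have h1 := hr.sub (a' ∪ b) (a ∪ b')
  have e1 : (a' ∪ b) ∪ (a ∪ b') = a' ∪ b' := by
    ext y
    have k1 : y ∈ a → y ∈ a' := fun h => ha h
    have k2 : y ∈ b → y ∈ b' := fun h => hb h
    simp only [Finset.mem_union]
    tauto
  have e2 : (a' ∪ b) ∩ (a ∪ b') = a ∪ b := by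
    ext y
    have k1 : y ∈ a → y ∈ a' := fun h => ha h
    have k2 : y ∈ b → y ∈ b' := fun h => hb h
    have k3 : y ∈ a' → y ∈ b' → y ∈ a ∨ y ∈ b := fun h1 h2 => Finset.mem_union.1 (h (Finset.mem_inter.2 ⟨h1, h2⟩))
    simp only [Finset.mem_union, Finset.mem_inter]
    tauto
  rw [e1, e2] at h1
  linarith

/-- the order of a separation does not grow in a minor -/
theorem lam_sub_le {r : Finset E → ℤ} (hr : QUB.Rk r) {q N : Itv E} (hN : Sub N q) (hN' : N.1 ⊆ N.2) {A : Finset E} (hA : A ⊆ gs q) :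
    QUB.lam r N (A ∩ gs N) ≤ QUB.lam r q A := by
  have hA' : ∀ y ∈ A, y ∈ q.2 ∧ y ∉ q.1 := fun y hy => Finset.mem_sdiff.1 (hA hy)
  -- chains on the two sides
  set a0 := q.1 with ha0
  set a1 := q.1 ∪ (N.1 ∩ A) with ha1
  set a2 := q.1 ∪ (N.2 ∩ A) with ha2
  set a3 := q.1 ∪ A with ha3
  set b1 := q.1 ∪ (N.1 \ A) with hb1
  set b2 := q.1 ∪ (N.2 \ A) with hb2
  set b3 := q.2 \ A with hb3
  have s01 : a0 ⊆ a1 := Finset.subset_union_left
  have s12 : a1 ⊆ a2 := Finset.union_subset_union (Finset.Subset.refl _) (Finset.inter_subset_inter_right hN')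
  have s23 : a2 ⊆ a3 := Finset.union_subset_union (Finset.Subset.refl _) Finset.inter_subset_right
  have t01 : a0 ⊆ b1 := Finset.subset_union_left
  have t12 : b1 ⊆ b2 := Finset.union_subset_union (Finset.Subset.refl _) (Finset.sdiff_subset_sdiff hN' (Finset.Subset.refl _))
  have n1 : ∀ y, y ∈ N.1 → y ∈ N.2 := fun y h => hN' h
  have n2 : ∀ y, y ∈ N.2 → y ∈ q.2 := fun y h => hN.2 h
  have n3 : ∀ y, y ∈ q.1 → y ∈ N.1 := fun y h => hN.1 h
  have n4 : ∀ y, y ∈ q.1 → y ∈ q.2 := fun y h => n2 y (n1 y (n3 y h))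
  have t23 : b2 ⊆ b3 := by
    intro y hy
    rw [hb2, Finset.mem_union, Finset.mem_sdiff] at hy
    rw [hb3, Finset.mem_sdiff]
    rcases hy with hy | hy
    · exact ⟨n4 y hy, fun h => (hA' y h).2 hy⟩
    · exact ⟨n2 y hy.1, hy.2⟩
  have hin : ∀ a b : Finset E, a ⊆ a3 → b ⊆ b3 → a ∩ b ⊆ a0 := by
    intro a b h1 h2 y hy
    have h3 := Finset.mem_inter.1 hy
    have h4 := Finset.mem_union.1 (h1 h3.1)
    have h5 := Finset.mem_sdiff.1 (h2 h3.2)
    rcases h4 with h4 | h4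
    · exact h4
    · exact absurd h4 h5.2
  have rc : ∀ a a' b b' : Finset E, a0 ⊆ a → a ⊆ a' → a' ⊆ a3 → b ⊆ b' → b' ⊆ b3 →
      r (a' ∪ b') + r (a ∪ b) ≤ r (a' ∪ b) + r (a ∪ b') := by
    intro a a' b b' h0 h1 h2 h3 h4
    exact rac_rect hr h1 h3 ((hin a' b' h2 h4).trans (h0.trans Finset.subset_union_left))
  have s13 := s12.trans s23
  have s02 := s01.trans s12
  have s03 := s01.trans s13
  have t13 := t12.trans t23
  have t02 := t01.trans t12
  have t03 := t01.trans t13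
  -- the four rectangles
  have r1 := rc a0 a1 a0 b3 (Finset.Subset.refl _) s01 s13 t03 (Finset.Subset.refl _)
  have r2 := rc a2 a3 a0 b3 s02 s23 (Finset.Subset.refl _) t03 (Finset.Subset.refl _)
  have r3 := rc a1 a2 a0 b1 s01 s12 s23 t01 t13
  have r4 := rc a1 a2 b2 b3 s01 s12 s23 t23 (Finset.Subset.refl _)
  have z : ∀ a : Finset E, a0 ⊆ a → a ∪ a0 = a := fun a h => Finset.union_eq_left.2 h
  rw [z a1 s01, Finset.union_self] at r1
  rw [z a3 s03, z a2 s02] at r2
  rw [z a2 s02, z a1 s01] at r3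
  have w1 : a0 ∪ b3 = b3 := Finset.union_eq_right.2 t03
  rw [w1] at r1
  -- identification
  have e1 : N.1 ∪ (A ∩ gs N) = a2 ∪ b1 := by
    ext y
    have k1 := n1 y
    have k3 := n3 y
    simp only [ha2, hb1, Finset.mem_union, Finset.mem_inter, Finset.mem_sdiff, QUB.gs]
    tauto
  have e2 : N.2 \ (A ∩ gs N) = a1 ∪ b2 := by
    ext y
    have k1 := n1 y
    have k3 := n3 y
    have k4 := hA' y
    simp only [ha1, hb2, Finset.mem_union, Finset.mem_inter, Finset.mem_sdiff, QUB.gs]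
    tauto
  have e3 : N.2 = a2 ∪ b2 := by
    ext y
    have k1 := n1 y
    have k3 := n3 y
    simp only [ha2, hb2, Finset.mem_union, Finset.mem_inter, Finset.mem_sdiff]
    tauto
  have e4 : N.1 = a1 ∪ b1 := by
    ext y
    have k3 := n3 y
    simp only [ha1, hb1, Finset.mem_union, Finset.mem_inter, Finset.mem_sdiff]
    tauto
  have e5 : q.2 = a3 ∪ b3 := by
    ext y
    have k1 := n4 y
    have k4 := hA' y
    simp only [ha3, hb3, Finset.mem_union, Finset.mem_sdiff]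
    tauto
  have g1 : QUB.lam r N (A ∩ gs N) = r (a2 ∪ b1) + r (a1 ∪ b2) - r (a2 ∪ b2) - r (a1 ∪ b1) := by
    unfold QUB.lam
    rw [e1, e2, ← e3, ← e4]
  have g2 : QUB.lam r q A = r a3 + r b3 - r (a3 ∪ b3) - r a0 := by
    unfold QUB.lam
    rw [← e5]
  rw [g1, g2]
  linarith

/-- a set of order `0` is skew to the rest -/
theorem skew0 {r : Finset E → ℤ} (hr : QUB.Rk r) {q : Itv E} {A : Finset E} (hA : A ⊆ gs q) (hl : QUB.lam r q A ≤ 0)
    {Y A' : Finset E} (hY : q.1 ⊆ Y) (hY' : Y ⊆ q.2 \ A) (hA' : A' ⊆ A) : r (Y ∪ A') + r q.1 = r Y + r (q.1 ∪ A') := by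
  have hs : Sub ((q.1, Y ∪ A') : Itv E) q := by
    refine ⟨Finset.Subset.refl _, Finset.union_subset (hY'.trans Finset.sdiff_subset) (hA'.trans (hA.trans ?_))⟩
    intro y hy
    exact (Finset.mem_sdiff.1 hy).1
  have h1 := lam_sub_le hr hs (hY.trans Finset.subset_union_left) hA
  have e1 : A ∩ gs ((q.1, Y ∪ A') : Itv E) = A' := by
    ext y
    have k1 : y ∈ A → y ∈ q.2 ∧ y ∉ q.1 := fun h => Finset.mem_sdiff.1 (hA h)
    have k2 : y ∈ Y → y ∈ q.2 ∧ y ∉ A := fun h => Finset.mem_sdiff.1 (hY' h)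
    have k3 : y ∈ A' → y ∈ A := fun h => hA' h
    simp only [QUB.gs, Finset.mem_inter, Finset.mem_sdiff, Finset.mem_union]
    tauto
  rw [e1] at h1
  have h2 : QUB.lam r ((q.1, Y ∪ A') : Itv E) A' = r (q.1 ∪ A') + r Y - r (Y ∪ A') - r q.1 := by
    unfold QUB.lam
    have e2 : (Y ∪ A') \ A' = Y := by
      ext y
      have k2 : y ∈ Y → y ∈ q.2 ∧ y ∉ A := fun h => Finset.mem_sdiff.1 (hY' h)
      have k3 : y ∈ A' → y ∈ A := fun h => hA' h
      simp only [Finset.mem_sdiff, Finset.mem_union]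
      tauto
    show r (q.1 ∪ A') + r ((Y ∪ A') \ A') - r (Y ∪ A') - r q.1 = _
    rw [e2]
  have h3 := hr.sub (q.1 ∪ A') Y
  have e3 : (q.1 ∪ A') ∪ Y = Y ∪ A' := by
    ext y
    have k1 : y ∈ q.1 → y ∈ Y := fun h => hY h
    simp only [Finset.mem_union]
    tauto
  have e4 : (q.1 ∪ A') ∩ Y = q.1 := by
    ext y
    have k1 : y ∈ q.1 → y ∈ Y := fun h => hY h
    have k2 : y ∈ Y → y ∈ q.2 ∧ y ∉ A := fun h => Finset.mem_sdiff.1 (hY' h)
    have k3 : y ∈ A' → y ∈ A := fun h => hA' h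
    simp only [Finset.mem_inter, Finset.mem_union]
    tauto
  rw [e3, e4] at h3
  linarith

/-- a rich minor lies on one side of a separation of order `0` -/
theorem sep_rich {r : Finset E → ℤ} (hr : QUB.Rk r) {q N : Itv E} (hN : Sub N q) (hR : Rich r N) {A : Finset E} (hA : A ⊆ gs q)
    (hl : QUB.lam r q A ≤ 0) : A ∩ gs N = ∅ ∨ gs N ⊆ A := by
  by_contra hcon
  rw [not_or] at hcon
  have h1 := rich_cn hr hR (A ∩ gs N) Finset.inter_subset_right (Finset.nonempty_iff_ne_empty.2 hcon.1) (by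
    rw [Finset.sdiff_nonempty]
    intro h
    exact hcon.2 fun y hy => (Finset.mem_inter.1 (h hy)).1)
  have h2 := lam_sub_le hr hN hR.1 hA
  linarith

/-- the elements of the other side can be deleted or contracted -/
theorem sep_move {r : Finset E → ℤ} (hr : QUB.Rk r) {q N : Itv E} (hN : Sub N q) (hR : Rich r N) {A : Finset E} (hA : A ⊆ gs q)
    (hl : QUB.lam r q A ≤ 0) (hd : A ∩ gs N = ∅) {P : Finset E} (hP : P ⊆ A) :
    Rich r ((N.1 \ A ∪ P, N.2 \ A ∪ P) : Itv E) := by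
  have n1 : ∀ y, y ∈ N.1 → y ∈ N.2 := fun y h => hR.1 h
  have n2 : ∀ y, y ∈ N.2 → y ∈ q.2 := fun y h => hN.2 h
  have n3 : ∀ y, y ∈ q.1 → y ∈ N.1 := fun y h => hN.1 h
  have hA' : ∀ y, y ∈ A → y ∈ q.2 ∧ y ∉ q.1 := fun y h => Finset.mem_sdiff.1 (hA h)
  have hd' : ∀ y, y ∈ A → y ∈ N.2 → y ∈ N.1 := by
    intro y h1 h2
    by_contra h3
    have h4 : y ∈ A ∩ gs N := Finset.mem_inter.2 ⟨h1, Finset.mem_sdiff.2 ⟨h2, h3⟩⟩
    rw [hd] at h4
    exact absurd h4 (Finset.notMem_empty y)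
  refine same_rich (r := r) (q := N) (q' := (N.1 \ A ∪ P, N.2 \ A ∪ P))
    (Finset.union_subset_union (Finset.sdiff_subset_sdiff hR.1 (Finset.Subset.refl _)) (Finset.Subset.refl _)) ⟨?_, ?_⟩ hR
  · ext y
    have k1 := hd' y
    have k2 := n1 y
    have k3 : y ∈ P → y ∈ A := fun h => hP h
    simp only [QUB.gs, Finset.mem_sdiff, Finset.mem_union]
    tauto
  · intro Z hZ
    have hZ' : ∀ y, y ∈ Z → y ∈ N.2 ∧ y ∉ N.1 := fun y h => Finset.mem_sdiff.1 (hZ h)
    have key : ∀ Z' ⊆ Z, ∀ P' ⊆ A, r ((N.1 \ A ∪ Z') ∪ P') + r q.1 = r (N.1 \ A ∪ Z') + r (q.1 ∪ P') := by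
      intro Z' hZ1 P' hP'
      refine skew0 hr hA hl ?_ ?_ hP'
      · intro y hy
        exact Finset.mem_union_left _ (Finset.mem_sdiff.2 ⟨n3 y hy, fun h => (hA' y h).2 hy⟩)
      · intro y hy
        rcases Finset.mem_union.1 hy with h1 | h1
        · exact Finset.mem_sdiff.2 ⟨n2 y (n1 y (Finset.mem_sdiff.1 h1).1), (Finset.mem_sdiff.1 h1).2⟩
        · have h2 := hZ' y (hZ1 h1)
          exact Finset.mem_sdiff.2 ⟨n2 y h2.1, fun h3 => h2.2 (hd' y h3 h2.1)⟩
    have k1 := key Z (Finset.Subset.refl _) P hP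
    have k2 := key ∅ (Finset.empty_subset _) P hP
    have k3 := key Z (Finset.Subset.refl _) (N.1 ∩ A) Finset.inter_subset_right
    have k4 := key ∅ (Finset.empty_subset _) (N.1 ∩ A) Finset.inter_subset_right
    rw [Finset.union_empty] at k2 k4
    have e1 : (N.1 \ A ∪ Z) ∪ (N.1 ∩ A) = N.1 ∪ Z := by
      ext y
      simp only [Finset.mem_sdiff, Finset.mem_union, Finset.mem_inter]
      tauto
    have e2 : (N.1 \ A) ∪ (N.1 ∩ A) = N.1 := by
      ext y
      simp only [Finset.mem_sdiff, Finset.mem_union, Finset.mem_inter]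
      tauto
    have e3 : (N.1 \ A ∪ P) ∪ Z = (N.1 \ A ∪ Z) ∪ P := Finset.union_right_comm _ _ _
    rw [e1] at k3
    rw [e2] at k4
    show r ((N.1 \ A ∪ P) ∪ Z) - r (N.1 \ A ∪ P) = r (N.1 ∪ Z) - r N.1
    rw [e3]
    linarith

/-- two elements outside a hyperplane can be added to a connected box -/
theorem cn_up2 {r : Finset E → ℤ} (hr : QUB.Rk r) {Q : Itv E} (hQ : Q.1 ⊆ Q.2) {c d : E} (hc : c ∈ gs Q) (hd : d ∈ gs Q) (hcd : c ≠ d)
    (hC : QUB.Cn r (QUB.rm true c (QUB.rm true d Q))) (hne : (gs (QUB.rm true c (QUB.rm true d Q))).Nonempty)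
    (h1 : r (Q.2.erase c) = r Q.2) (h2 : r (Q.2.erase d) = r Q.2) (h3 : r Q.2 ≤ r ((Q.2.erase d).erase c) + 1)
    (h4 : r (insert c (insert d Q.1)) = r Q.1 + 2) : QUB.Cn r Q := by
  have hsub : Sub (QUB.rm true c (QUB.rm true d Q)) Q := (rm_sub true d Q).trans (rm_sub true c (QUB.rm true d Q))
  have hg : gs (QUB.rm true c (QUB.rm true d Q)) = ((gs Q).erase d).erase c := by rw [QUB.gs_rm, QUB.gs_rm]
  have hwf : (QUB.rm true c (QUB.rm true d Q)).1 ⊆ (QUB.rm true c (QUB.rm true d Q)).2 :=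
    QUB.wf_rm (QUB.wf_rm hQ hd) (by rw [QUB.gs_rm]; exact Finset.mem_erase.2 ⟨hcd, hc⟩)
  have u1 := hr.unit Q.1 d
  have u2 := hr.unit (insert d Q.1) c
  have u3 := hr.unit Q.1 c
  have u4 := hr.unit (insert c Q.1) d
  rw [Finset.insert_comm] at u4
  -- small sets
  have small : ∀ A ⊆ gs Q, A.Nonempty → A ∩ gs (QUB.rm true c (QUB.rm true d Q)) = ∅ → 1 ≤ QUB.lam r Q A := by
    intro A hA hn h0
    have hA2 : A ⊆ {c, d} := by
      intro y hy
      by_contra hy2
      rw [Finset.mem_insert, Finset.mem_singleton, not_or] at hy2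
      have h5 : y ∈ A ∩ gs (QUB.rm true c (QUB.rm true d Q)) := by
        rw [hg]
        exact Finset.mem_inter.2 ⟨hy, Finset.mem_erase.2 ⟨hy2.1, Finset.mem_erase.2 ⟨hy2.2, hA hy⟩⟩⟩
      rw [h0] at h5
      exact absurd h5 (Finset.notMem_empty y)
    have hcases : A = {c} ∨ A = {d} ∨ A = {c, d} := by
      by_cases hcA : c ∈ A
      · by_cases hdA : d ∈ A
        · right; right
          refine Finset.Subset.antisymm hA2 ?_
          intro y hy
          rcases Finset.mem_insert.1 hy with rfl | hy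
          · exact hcA
          · rw [Finset.mem_singleton.1 hy]
            exact hdA
        · left
          ext y
          rw [Finset.mem_singleton]
          constructor
          · intro hy
            have h6 := hA2 hy
            rw [Finset.mem_insert, Finset.mem_singleton] at h6
            rcases h6 with h6 | h6
            · exact h6
            · exact absurd (h6 ▸ hy) hdA
          · rintro rfl
            exact hcA
      · right; left
        obtain ⟨z, hz⟩ := hn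
        have hzd : z = d := by
          have h6 := hA2 hz
          rw [Finset.mem_insert, Finset.mem_singleton] at h6
          rcases h6 with h6 | h6
          · exact absurd (h6 ▸ hz) hcA
          · exact h6
        subst hzd
        ext y
        rw [Finset.mem_singleton]
        constructor
        · intro hy
          have h6 := hA2 hy
          rw [Finset.mem_insert, Finset.mem_singleton] at h6
          rcases h6 with h6 | h6
          · exact absurd (h6 ▸ hy) hcA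
          · exact h6
        · rintro rfl
          exact hz
    rcases hcases with rfl | rfl | rfl
    · show 1 ≤ r (Q.1 ∪ {c}) + r (Q.2 \ {c}) - r Q.2 - r Q.1
      rw [Finset.union_comm, ← Finset.insert_eq, Finset.sdiff_singleton_eq_erase, h1]
      linarith
    · show 1 ≤ r (Q.1 ∪ {d}) + r (Q.2 \ {d}) - r Q.2 - r Q.1
      rw [Finset.union_comm, ← Finset.insert_eq, Finset.sdiff_singleton_eq_erase, h2]
      linarith
    · show 1 ≤ r (Q.1 ∪ {c, d}) + r (Q.2 \ {c, d}) - r Q.2 - r Q.1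
      have e1 : Q.1 ∪ {c, d} = insert c (insert d Q.1) := by
        ext y
        simp only [Finset.mem_union, Finset.mem_insert, Finset.mem_singleton]
        tauto
      have e2 : Q.2 \ {c, d} = (Q.2.erase d).erase c := by
        ext y
        simp only [Finset.mem_sdiff, Finset.mem_insert, Finset.mem_singleton, Finset.mem_erase]
        tauto
      rw [e1, e2, h4]
      linarith
  intro A hA hn hn'
  by_cases hA0 : A ∩ gs (QUB.rm true c (QUB.rm true d Q)) = ∅
  · exact small A hA hn hA0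
  by_cases hA1 : gs (QUB.rm true c (QUB.rm true d Q)) ⊆ A
  · rw [← QUB.lam_compl r hQ hA]
    refine small _ Finset.sdiff_subset hn' ?_
    rw [Finset.eq_empty_iff_forall_notMem]
    intro y hy
    have h5 := Finset.mem_inter.1 hy
    exact (Finset.mem_sdiff.1 h5.1).2 (hA1 h5.2)
  · have h5 := hC (A ∩ gs (QUB.rm true c (QUB.rm true d Q))) Finset.inter_subset_right (Finset.nonempty_iff_ne_empty.2 hA0) (by
      rw [Finset.sdiff_nonempty]
      intro h
      exact hA1 fun y hy => (Finset.mem_inter.1 (h hy)).1)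
    exact h5.trans (lam_sub_le hr hsub hwf hA)

end Pool.Agent.QU
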