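import Pool.Agent.QUP.Md
import Pool.Agent.QUP.RaC
import Pool.Agent.QUT.Lfc

/-!
# QUP/MxA: a smallest mixed 2-side, pairs inside the side are `Ok`

`mx_core`: the rank argument.  `Mxs.ok1`, `Mxs.ok2`: the pairs `k^s, x^σ` and `x^σ, z^τ` for `x`, `z` in the side `X`; `Bad`: the exceptions.
-/

set_option autoImplicit false

open QUB

namespace Pool.Agent.QU

open Pool.Agent.FRM

section core

variable {E : Type} [DecidableEq E] {r : Finset E → ℤ}

theorem mx_pull (hr : Rk r) {P N : Itv E} {j : E} {τ : Bool} (hj : j ∈ gs P) (hN : Sub N (rm τ j P)) (hN' : N.1 ⊆ N.2) (hC : Cn r N)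
    {S A : Finset E} (hSA : S ⊆ A) (hA : A ⊆ gs P) (hjA : j ∉ A) (hd : QUB.lam r (rm τ j P) S + 1 ≤ QUB.lam r P S)
    (lA : QUB.lam r P A ≤ 1) (n1 : (A ∩ gs N).Nonempty) (n2 : (gs N \ A).Nonempty) : False := by
  have hA' : A ⊆ (gs P).erase j := fun y hy => Finset.mem_erase.2 ⟨fun h => hjA (h ▸ hy), hA hy⟩
  have h1 := lam_L3 hr (t := τ) hj hSA hA'
  have h2 := lam_sub_le hr hN hN' (A := A) (by rw [gs_rm]; exact hA')
  have h3 := hC (A ∩ gs N) Finset.inter_subset_right n1 (by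
    obtain ⟨y, hy⟩ := n2
    rw [Finset.mem_sdiff] at hy
    exact ⟨y, Finset.mem_sdiff.2 ⟨hy.1, fun h => hy.2 (Finset.mem_inter.1 h).1⟩⟩)
  omega

/-- the sides of a bad 2-separation -/
theorem mx_core (hr : Rk r) {P N : Itv E} (hP : P.1 ⊆ P.2) (hs : Sub N P) (hN : N.1 ⊆ N.2) (hC : Cn r N) {W X Y : Finset E}
    (hW : W ⊆ gs P) (hg : gs N = gs P \ W) (hXY : gs N = X ∪ Y) (hd : Disjoint X Y) (nX : X.Nonempty) (lY : QUB.lam r N Y ≤ 1)
    (nW : W.Nonempty) {m : ℕ} (hm : X.card + W.card ≤ m) (h2 : 2 + W.card ≤ m)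
    (pull : ∀ A ⊆ gs P, QUB.lam r P A ≤ 1 → (gs N \ A).Nonempty → ∀ S ⊆ A, S ⊆ Y → 2 ≤ S.card → QUB.lam r N S ≤ 1 → W ⊆ A)
    {A : Finset E} (hA : A ⊆ gs P) (lA : QUB.lam r P A ≤ 1) (cA : m ≤ A.card) (hB : 3 ≤ (Y \ A).card) :
    QUB.lam r P Y ≤ 1 ∨ ∃ C ⊆ gs P, X ⊆ C ∧ Disjoint C W ∧ QUB.lam r P C ≤ 1 ∧ (C ∩ Y).Nonempty ∧ 2 ≤ (Y \ C).card := by
  classical
  have hNP : ∀ y, y ∈ gs N ↔ y ∈ gs P ∧ y ∉ W := fun y => by rw [hg, Finset.mem_sdiff]
  have hNX : ∀ y, y ∈ gs N ↔ y ∈ X ∨ y ∈ Y := fun y => by rw [hXY, Finset.mem_union]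
  have hdj : ∀ y, y ∈ X → y ∉ Y := fun y h1 h2 => Finset.disjoint_left.1 hd h1 h2
  have hW' : ∀ y, y ∈ W → y ∈ gs P := fun y h => hW h
  have hYN : Y ⊆ gs N := fun y hy => (hNX y).2 (Or.inr hy)
  have lc : QUB.lam r P (gs P \ A) = QUB.lam r P A := lam_compl r hP hA
  have mono : ∀ D ⊆ gs P, QUB.lam r P D ≤ 1 → QUB.lam r N (D ∩ gs N) ≤ 1 := fun D hD h => (lam_sub_le hr hs hN hD).trans h
  by_cases hAY : (A ∩ Y).Nonempty
  swap
  · left
    have h1 : A ⊆ X ∪ W := by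
      intro y hy
      have h3 : y ∉ Y := fun h => hAY ⟨y, Finset.mem_inter.2 ⟨hy, h⟩⟩
      have h4 := hNP y
      have h5 := hNX y
      have h6 := hA hy
      rw [Finset.mem_union]
      tauto
    have h2' := Finset.card_union_le X W
    have h3 : A = X ∪ W := Finset.eq_of_subset_of_card_le h1 (by omega)
    have h4 : gs P \ A = Y := by
      ext y
      have h5 := hNP y
      have h6 := hNX y
      have h7 := hdj y
      have h8 := hW' y
      rw [h3, Finset.mem_sdiff, Finset.mem_union]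
      tauto
    rw [h4] at lc
    omega
  right
  by_cases c1 : (A ∩ X).Nonempty
  swap
  · -- `A` misses `X`
    have k1 : ∀ y, y ∈ A → y ∉ X := fun y h1 h2 => c1 ⟨y, Finset.mem_inter.2 ⟨h1, h2⟩⟩
    have e1 : A \ W = A ∩ gs N := by
      ext y
      have h5 := hNP y
      have h6 := @hA y
      rw [Finset.mem_sdiff, Finset.mem_inter]
      tauto
    have hSY : A \ W ⊆ Y := by
      intro y hy
      rw [e1, Finset.mem_inter] at hy
      have h6 := hNX y
      have h7 := k1 y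
      tauto
    have hS2 : 2 ≤ (A \ W).card := by
      have := Finset.le_card_sdiff W A
      omega
    have n2 : (gs N \ A).Nonempty := by
      obtain ⟨y, hy⟩ := Finset.card_pos.1 (by omega : 0 < (Y \ A).card)
      rw [Finset.mem_sdiff] at hy
      exact ⟨y, Finset.mem_sdiff.2 ⟨hYN hy.1, hy.2⟩⟩
    have hWA := pull A hA lA n2 (A \ W) Finset.sdiff_subset hSY hS2 (by rw [e1]; exact mono A hA lA)
    refine ⟨gs P \ A, Finset.sdiff_subset, ?_, ?_, by omega, ?_, ?_⟩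
    · intro y hy
      have h5 := hNP y
      have h6 := hNX y
      have h7 := k1 y
      rw [Finset.mem_sdiff]
      tauto
    · rw [Finset.disjoint_left]
      intro y h3 h4
      exact (Finset.mem_sdiff.1 h3).2 (hWA h4)
    · obtain ⟨y, hy⟩ := Finset.card_pos.1 (by omega : 0 < (Y \ A).card)
      rw [Finset.mem_sdiff] at hy
      refine ⟨y, Finset.mem_inter.2 ⟨Finset.mem_sdiff.2 ⟨?_, hy.2⟩, hy.1⟩⟩
      exact ((hNP y).1 (hYN hy.1)).1
    · refine hS2.trans (Finset.card_le_card ?_)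
      intro y hy
      have h3 := hSY hy
      rw [Finset.mem_sdiff] at hy
      rw [Finset.mem_sdiff, Finset.mem_sdiff]
      tauto
  by_cases c2 : (X \ A).Nonempty
  swap
  · -- `A` contains `X`
    have k1 : ∀ y, y ∈ X → y ∈ A := by
      intro y h1
      by_contra h2
      exact c2 ⟨y, Finset.mem_sdiff.2 ⟨h1, h2⟩⟩
    have e1 : (gs P \ A) \ W = (gs P \ A) ∩ gs N := by
      ext y
      have h5 := hNP y
      rw [Finset.mem_sdiff, Finset.mem_sdiff, Finset.mem_inter, Finset.mem_sdiff]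
      tauto
    have hSY : (gs P \ A) \ W ⊆ Y := by
      intro y hy
      rw [e1, Finset.mem_inter, Finset.mem_sdiff] at hy
      have h6 := hNX y
      have h7 := k1 y
      tauto
    have hYS : Y \ A ⊆ (gs P \ A) \ W := by
      intro y hy
      rw [Finset.mem_sdiff] at hy
      have h5 := hNP y
      have h6 := hYN hy.1
      rw [Finset.mem_sdiff, Finset.mem_sdiff]
      tauto
    have hS2 : 2 ≤ ((gs P \ A) \ W).card := le_trans (by omega) (Finset.card_le_card hYS)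
    have n2 : (gs N \ (gs P \ A)).Nonempty := by
      obtain ⟨y, hy⟩ := nX
      refine ⟨y, ?_⟩
      have h6 := k1 y hy
      rw [Finset.mem_sdiff, Finset.mem_sdiff]
      have h7 := (hNX y).2 (Or.inl hy)
      tauto
    have hWB := pull (gs P \ A) Finset.sdiff_subset (by omega) n2 ((gs P \ A) \ W) Finset.sdiff_subset hSY hS2
      (by rw [e1]; exact mono _ Finset.sdiff_subset (by omega))
    refine ⟨A, hA, k1, ?_, lA, hAY, by omega⟩
    rw [Finset.disjoint_left]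
    intro y h3 h4
    exact (Finset.mem_sdiff.1 (hWB h4)).2 h3
  · -- four cells
    exfalso
    obtain ⟨a, ha⟩ := c1
    obtain ⟨b, hb⟩ := c2
    rw [Finset.mem_inter] at ha
    rw [Finset.mem_sdiff] at hb
    have nY : Y.Nonempty := by
      obtain ⟨y, hy⟩ := hAY
      exact ⟨y, (Finset.mem_inter.1 hy).2⟩
    have u1 := unc1 hr hC hYN lY (Finset.inter_subset_right (s₁ := gs P \ A) (s₂ := gs N)) (mono _ Finset.sdiff_subset (by omega)) nY (by
      refine ⟨a, ?_⟩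
      have h6 := hdj a ha.2
      have h7 := (hNX a).2 (Or.inl ha.2)
      rw [Finset.mem_sdiff, Finset.mem_union, Finset.mem_inter, Finset.mem_sdiff]
      tauto)
    have e2 : Y ∩ ((gs P \ A) ∩ gs N) = Y \ A := by
      ext y
      have h5 := hNP y
      have h6 := @hYN y
      rw [Finset.mem_inter, Finset.mem_inter, Finset.mem_sdiff, Finset.mem_sdiff]
      tauto
    rw [e2] at u1
    have hWB := pull (gs P \ A) Finset.sdiff_subset (by omega) (by
      refine ⟨a, ?_⟩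
      have h7 := (hNX a).2 (Or.inl ha.2)
      rw [Finset.mem_sdiff, Finset.mem_sdiff]
      tauto) (Y \ A) (by
      intro y hy
      rw [Finset.mem_sdiff] at hy
      have h5 := (hNP y).1 (hYN hy.1)
      rw [Finset.mem_sdiff]
      exact ⟨h5.1, hy.2⟩) Finset.sdiff_subset (by omega) u1
    have hAW : ∀ y, y ∈ A → y ∉ W := fun y h3 h4 => (Finset.mem_sdiff.1 (hWB h4)).2 h3
    have c3 : (Y ∩ A).card ≤ 1 := by
      by_contra hcon
      push Not at hcon
      have u2 := unc1 hr hC hYN lY (Finset.inter_subset_right (s₁ := A) (s₂ := gs N)) (mono _ hA lA) nY (by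
        refine ⟨b, ?_⟩
        have h6 := hdj b hb.1
        have h7 := (hNX b).2 (Or.inl hb.1)
        rw [Finset.mem_sdiff, Finset.mem_union, Finset.mem_inter]
        tauto)
      have e3 : Y ∩ (A ∩ gs N) = Y ∩ A := by
        ext y
        have h6 := @hYN y
        rw [Finset.mem_inter, Finset.mem_inter, Finset.mem_inter]
        tauto
      rw [e3] at u2
      have hWA := pull A hA lA ⟨b, Finset.mem_sdiff.2 ⟨(hNX b).2 (Or.inl hb.1), hb.2⟩⟩ (Y ∩ A) Finset.inter_subset_right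
        Finset.inter_subset_left (by omega) u2
      obtain ⟨w, hw⟩ := nW
      exact hAW w (hWA hw) hw
    have h1 : A ⊆ (Y ∩ A) ∪ X.erase b := by
      intro y hy
      have h3 := hAW y hy
      have h4 := hNP y
      have h5 := hNX y
      have h6 := hA hy
      rw [Finset.mem_union, Finset.mem_inter, Finset.mem_erase]
      by_cases h7 : y ∈ Y
      · exact Or.inl ⟨h7, hy⟩
      · refine Or.inr ⟨fun h => hb.2 (h ▸ hy), ?_⟩
        tauto
    have h3 := Finset.card_le_card h1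
    have h4 := Finset.card_union_le (Y ∩ A) (X.erase b)
    rw [Finset.card_erase_of_mem hb.1] at h4
    have h5 := Finset.card_pos.2 nW
    have h6 := Finset.card_pos.2 nX
    omega

/-- the order of a side of a mixed pair -/
theorem lam_mix (r : Finset E → ℤ) (p : Itv E) (s : Bool) (a b : E) (A : Finset E) :
    QUB.lam r p A + QUB.lam r (rm s a (rm (!s) b p)) A = QUB.lam r (rm s a p) A + QUB.lam r (rm (!s) b p) A := by
  cases s
  · show r (p.1 ∪ A) + r (p.2 \ A) - r p.2 - r p.1 + (r (insert a p.1 ∪ A) + r (p.2.erase b \ A) - r (p.2.erase b) - r (insert a p.1)) =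
      r (insert a p.1 ∪ A) + r (p.2 \ A) - r p.2 - r (insert a p.1) + (r (p.1 ∪ A) + r (p.2.erase b \ A) - r (p.2.erase b) - r p.1)
    ring
  · show r (p.1 ∪ A) + r (p.2 \ A) - r p.2 - r p.1 + (r (insert b p.1 ∪ A) + r (p.2.erase a \ A) - r (p.2.erase a) - r (insert b p.1)) =
      r (p.1 ∪ A) + r (p.2.erase a \ A) - r (p.2.erase a) - r p.1 + (r (insert b p.1 ∪ A) + r (p.2 \ A) - r p.2 - r (insert b p.1))
    ring

/-- an element which lowers the order does so after another removal -/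
theorem dl_rm (hr : Rk r) {P : Itv E} (hP : P.1 ⊆ P.2) {w e : E} {σ τ : Bool} {T : Finset E} (hw : w ∈ gs P) (he : e ∈ gs P)
    (hew : e ≠ w) (hT : T ⊆ gs P) (h1 : w ∉ T) (h2 : e ∉ T) (hc : Cn r (rm σ w P))
    (hd : QUB.lam r (rm τ e P) T + 1 ≤ QUB.lam r P T) : QUB.lam r (rm τ e (rm σ w P)) T + 1 ≤ QUB.lam r (rm σ w P) T := by
  have nT : T.Nonempty := by
    rw [Finset.nonempty_iff_ne_empty]
    rintro rfl
    rw [lam_empty, lam_empty] at hd
    omega
  obtain ⟨t, ht⟩ := nT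
  have h3 : 1 ≤ QUB.lam r (rm σ w P) {e} := by
    refine hc {e} ?_ ⟨e, Finset.mem_singleton_self e⟩ ⟨t, ?_⟩
    · rw [gs_rm, Finset.singleton_subset_iff]
      exact Finset.mem_erase.2 ⟨hew, he⟩
    · rw [gs_rm, Finset.mem_sdiff, Finset.mem_erase, Finset.mem_singleton]
      exact ⟨⟨fun h => h1 (h ▸ ht), hT ht⟩, fun h => h2 (h ▸ ht)⟩
  have h4 := lam_L4 hr hP (s := σ) (t := τ) (A := T) hw he hew (fun y hy => Finset.mem_erase.2
    ⟨fun h => h2 (h ▸ hy), Finset.mem_erase.2 ⟨fun h => h1 (h ▸ hy), hT hy⟩⟩) h3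
  omega

/-- `x^σ` can be pulled out of the side `X` -/
def Bad (r : Finset E → ℤ) (p : Itv E) (X : Finset E) (σ : Bool) (x : E) : Prop := QUB.lam r (rm σ x p) (X.erase x) ≤ 2

end core

section mix

variable {E : Type} [Fintype E] [DecidableEq E] {S : TP F4 E} {p : Itv E}

/-- a smallest mixed side with at least four elements -/
structure Mxs (S : TP F4 E) (p : Itv E) (s : Bool) (k j : E) (X : Finset E) : Prop where
  cw : Cw S p
  md : Md S.r p s k (!s) j X
  mn : MdMin S.r p X.card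
  h4 : 4 ≤ X.card

variable {s : Bool} {k j : E} {X : Finset E}

theorem Mxs.symm (h : Mxs S p s k j X) : Mxs S p (!s) j k X := by
  refine ⟨h.cw, ?_, h.mn, h.h4⟩
  rw [Bool.not_not]
  exact h.md.symm

/-- a 2-side of the pair -/
theorem Mxs.old (h : Mxs S p s k j X) {T : Finset E} (hT : T ⊆ gs (rm s k (rm (!s) j p))) (h2 : 2 ≤ T.card)
    (h3 : 2 ≤ (gs (rm s k (rm (!s) j p)) \ T).card) :
    2 ≤ QUB.lam S.r (rm s k p) T ∧ 2 ≤ QUB.lam S.r (rm (!s) j p) T := by
  have hg := gs_rm2 s (!s) k j p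
  rw [hg] at hT h3
  constructor
  · refine h.cw.th k h.md.ma s T ?_ h2 (h3.trans (Finset.card_le_card ?_))
    · rw [gs_rm]
      exact hT.trans (Finset.erase_subset_erase _ (Finset.erase_subset _ _))
    · rw [gs_rm]
      exact Finset.sdiff_subset_sdiff (Finset.erase_subset_erase _ (Finset.erase_subset _ _)) (Finset.Subset.refl _)
  · refine h.cw.th j h.md.mb (!s) T ?_ h2 (h3.trans (Finset.card_le_card ?_))
    · rw [gs_rm]
      exact hT.trans (Finset.erase_subset _ _)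
    · rw [gs_rm]
      exact Finset.sdiff_subset_sdiff (Finset.erase_subset _ _) (Finset.Subset.refl _)

omit [Fintype E] in
private theorem mx_qc (s : Bool) (k j : E) (p : Itv E) : rm s k (rm (!s) j p) = rm (!s) j (rm s k p) := rm_comm s (!s) k j p

theorem Mxs.wf (h : Mxs S p s k j X) : (rm s k (rm (!s) j p)).1 ⊆ (rm s k (rm (!s) j p)).2 := h.md.wf h.cw.hp

theorem Mxs.mq (h : Mxs S p s k j X) {x : E} (hx : x ∈ X) : x ∈ gs p ∧ x ≠ k ∧ x ≠ j := by
  have h1 := h.md.sub hx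
  rw [gs_rm2, Finset.mem_erase, Finset.mem_erase] at h1
  exact ⟨h1.2.2, h1.1, h1.2.1⟩

/-- the other side has at least four elements -/
theorem Mxs.y4 (h : Mxs S p s k j X) : 4 ≤ (gs (rm s k (rm (!s) j p)) \ X).card := by
  obtain ⟨q', h1, h2, h3⟩ := h.md.rich
  have h4 : gs q' ⊆ gs (rm s k (rm (!s) j p)) := Finset.sdiff_subset_sdiff h1.2 h1.1
  have h5 : gs q' \ X ⊆ gs (rm s k (rm (!s) j p)) \ X := Finset.sdiff_subset_sdiff h4 (Finset.Subset.refl _)
  have h6 := Finset.card_le_card h5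
  have h7 := Finset.card_sdiff_add_card_inter (gs q') X
  rw [Finset.inter_comm] at h7
  have h8 := h2.2.1
  omega

/-- the side is a leaf -/
theorem Mxs.leaf (h : Mxs S p s k j X) : Lf S.r (rm s k (rm (!s) j p)) X := by
  refine ⟨h.wf, h.cw.cn2 h.md.ma h.md.mb h.md.ab s (!s), h.md.sub, h.md.lam, ?_, by have := h.h4; omega, ?_⟩
  · exact Finset.card_pos.1 (by have := h.y4; omega)
  · intro Z hZ hne h2
    by_contra hcon
    push Not at hcon
    obtain ⟨q', h1, h2', h3⟩ := h.md.rich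
    have h5 : Md S.r p s k (!s) j Z := ⟨h.md.ma, h.md.mb, h.md.ab, hZ.trans h.md.sub, by omega,
      ⟨q', h1, h2', (Finset.card_le_card (Finset.inter_subset_inter_right hZ)).trans h3⟩, h2, fun h => by cases s <;> simp at h⟩
    have h6 := h.mn _ _ _ _ _ h5
    have h7 : Z.card < X.card := Finset.card_lt_card (Finset.ssubset_iff_subset_ne.2 ⟨hZ, hne⟩)
    omega

/-- the first removal inside the side -/
theorem Mxs.l1 (h : Mxs S p s k j X) {x : E} (hx : x ∈ X) (σ : Bool) :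
    1 ≤ QUB.lam S.r (rm σ x (rm s k (rm (!s) j p))) (gs (rm s k (rm (!s) j p)) \ X) := by
  have h1 := h.leaf.cn1 S.rk hx σ
  have h4 := h.h4
  have h5 := h.y4
  have h6 : 0 < (X.erase x).card := by rw [Finset.card_erase_of_mem hx]; omega
  obtain ⟨a, ha⟩ := Finset.card_pos.1 h6
  rw [Finset.mem_erase] at ha
  refine h1 _ ?_ (Finset.card_pos.1 (by omega)) ⟨a, ?_⟩
  · rw [gs_rm σ x]
    intro y hy
    rw [Finset.mem_sdiff] at hy
    exact Finset.mem_erase.2 ⟨fun h' => hy.2 (by rw [h']; exact hx), hy.1⟩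
  · rw [gs_rm σ x, Finset.mem_sdiff, Finset.mem_erase, Finset.mem_sdiff]
    exact ⟨⟨ha.1, h.md.sub ha.2⟩, fun h => h.2 ha.2⟩

theorem Mxs.lY (h : Mxs S p s k j X) : QUB.lam S.r (rm s k (rm (!s) j p)) (gs (rm s k (rm (!s) j p)) \ X) ≤ 1 := by
  rw [lam_compl S.r h.wf h.md.sub]
  exact h.md.lam

/-- two-sides inside `Y` after the removal of elements of `X` are two-sides -/
theorem Mxs.up1 (h : Mxs S p s k j X) {x : E} (hx : x ∈ X) (σ : Bool) {T : Finset E}
    (hT : T ⊆ gs (rm s k (rm (!s) j p)) \ X) (hl : QUB.lam S.r (rm σ x (rm s k (rm (!s) j p))) T ≤ 1) :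
    QUB.lam S.r (rm s k (rm (!s) j p)) T ≤ 1 := by
  have h1 := lam_L3 S.rk (t := σ) (h.md.sub hx) hT (fun y hy => by
    rw [Finset.mem_sdiff] at hy
    exact Finset.mem_erase.2 ⟨fun h' => hy.2 (by rw [h']; exact hx), hy.1⟩)
  have h2 := h.l1 hx σ
  have h3 := h.lY
  omega

/-- `j` lowers the order of two-sides -/
theorem Mxs.dj (h : Mxs S p s k j X) {T : Finset E} (hT : T ⊆ gs (rm s k (rm (!s) j p))) (h2 : 2 ≤ T.card)
    (h3 : 2 ≤ (gs (rm s k (rm (!s) j p)) \ T).card) (hl : QUB.lam S.r (rm s k (rm (!s) j p)) T ≤ 1) :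
    QUB.lam S.r (rm (!s) j (rm s k p)) T + 1 ≤ QUB.lam S.r (rm s k p) T := by
  have h4 := (h.old hT h2 h3).1
  rw [mx_qc] at hl
  omega

theorem Mxs.djp (h : Mxs S p s k j X) {T : Finset E} (hT : T ⊆ gs (rm s k (rm (!s) j p))) (h2 : 2 ≤ T.card)
    (h3 : 2 ≤ (gs (rm s k (rm (!s) j p)) \ T).card) (hl : QUB.lam S.r (rm s k (rm (!s) j p)) T ≤ 1) :
    QUB.lam S.r (rm (!s) j p) T + 1 ≤ QUB.lam S.r p T ∧ QUB.lam S.r (rm s k p) T + 1 ≤ QUB.lam S.r p T := by
  have h4 := h.old hT h2 h3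
  have h5 := lam_mix S.r p s k j T
  constructor <;> omega

/-- the pair `k^s, x^σ` -/
theorem Mxs.dj1 (h : Mxs S p s k j X) {x : E} (hx : x ∈ X) (σ : Bool) {T : Finset E}
    (hT : T ⊆ gs (rm s k (rm (!s) j p)) \ X) (h2 : 2 ≤ T.card) (hl : QUB.lam S.r (rm s k (rm (!s) j p)) T ≤ 1) :
    QUB.lam S.r (rm (!s) j (rm s k (rm σ x p))) T + 1 ≤ QUB.lam S.r (rm s k (rm σ x p)) T := by
  obtain ⟨m1, m2, m3⟩ := h.mq hx
  have hT' : T ⊆ gs (rm s k (rm (!s) j p)) := hT.trans Finset.sdiff_subset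
  have h4 := h.h4
  have h3 : 2 ≤ (gs (rm s k (rm (!s) j p)) \ T).card := by
    refine le_trans (by omega) (Finset.card_le_card (?_ : X ⊆ _))
    intro y hy
    exact Finset.mem_sdiff.2 ⟨h.md.sub hy, fun h' => (Finset.mem_sdiff.1 (hT h')).2 hy⟩
  have h5 := h.dj hT' h2 h3 hl
  have hg := gs_rm2 s (!s) k j p
  have g1 : ∀ y ∈ T, y ∈ gs p ∧ y ≠ k ∧ y ≠ j := by
    intro y hy
    have := hT' hy
    rw [hg, Finset.mem_erase, Finset.mem_erase] at this
    tauto
  have e1 : rm s k (rm σ x p) = rm σ x (rm s k p) := rm_comm s σ k x p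
  rw [e1]
  refine dl_rm S.rk (QUB.wf_rm h.cw.hp h.md.ma) ?_ ?_ m3.symm ?_ (fun h' => (Finset.mem_sdiff.1 (hT h')).2 hx) (fun h' => (g1 j h').2.2 rfl) ?_ h5
  · rw [gs_rm]
    exact Finset.mem_erase.2 ⟨m2, m1⟩
  · rw [gs_rm]
    exact Finset.mem_erase.2 ⟨h.md.ab.symm, h.md.mb⟩
  · rw [gs_rm]
    intro y hy
    exact Finset.mem_erase.2 ⟨(g1 y hy).2.1, (g1 y hy).1⟩
  · exact h.cw.cn2 m1 h.md.ma m2 σ s

end mix

end Pool.Agent.QU
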