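import Pool.Agent.QUP.MxA
import Pool.Agent.QUR.SmA

/-!
# QUP/MxB: a smallest mixed 2-side, pairs inside the side are `Ok`
-/

set_option autoImplicit false

open QUB

namespace Pool.Agent.QU

open Pool.Agent.FRM


section mix

variable {E : Type} [Fintype E] [DecidableEq E] {S : TP F4 E} {p : Itv E} {s : Bool} {k j : E} {X : Finset E}

private theorem mx_keep {q : Itv E} (hq : q.1 ⊆ q.2) {X : Finset E} (hX : X ⊆ gs q) (hl : QUB.lam S.r q X ≤ 1)
    (hR : ∃ q', Sub q' q ∧ Rich S.r q' ∧ (X ∩ gs q').card ≤ 1) {x : E} (hx : x ∈ X) {s : Bool}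
    (h1 : 1 ≤ QUB.lam S.r (rm s x q) (gs q \ X)) : ∃ q', Sub q' (rm s x q) ∧ Rich S.r q' ∧ (X.erase x ∩ gs q').card ≤ 1 := by
  obtain ⟨q', h2, h3, h4⟩ := rich_keep S hq hX hl hR hx h1
  exact ⟨q', h2, h3, (Finset.card_le_card (Finset.inter_subset_inter_right (Finset.erase_subset x X))).trans h4⟩

theorem Mxs.rk1 (h : Mxs S p s k j X) {x : E} (hx : x ∈ X) (σ : Bool) :
    ∃ q', Sub q' (rm σ x (rm s k (rm (!s) j p))) ∧ Rich S.r q' ∧ (X.erase x ∩ gs q').card ≤ 1 :=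
  mx_keep h.wf h.md.sub h.md.lam h.md.rich hx (h.l1 hx σ)

omit [Fintype E] in
private theorem mx_Y (q : Itv E) {z : E} (hz : z ∈ X) (τ : Bool) : gs (rm τ z q) \ X.erase z = gs q \ X := by
  ext y
  rw [gs_rm, Finset.mem_sdiff, Finset.mem_sdiff, Finset.mem_erase, Finset.mem_erase]
  constructor
  · rintro ⟨⟨h1, h2⟩, h3⟩
    exact ⟨h2, fun h => h3 ⟨h1, h⟩⟩
  · rintro ⟨h1, h2⟩
    exact ⟨⟨fun h => h2 (by rw [h]; exact hz), h1⟩, fun h => h2 h.2⟩

theorem Mxs.rk2 (h : Mxs S p s k j X) {x z : E} (hx : x ∈ X) (hz : z ∈ X) (hxz : x ≠ z) {σ τ : Bool}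
    (h1 : 1 ≤ QUB.lam S.r (rm σ x (rm τ z (rm s k (rm (!s) j p)))) (gs (rm s k (rm (!s) j p)) \ X)) :
    ∃ q', Sub q' (rm σ x (rm τ z (rm s k (rm (!s) j p)))) ∧ Rich S.r q' ∧ ((X.erase z).erase x ∩ gs q').card ≤ 1 := by
  have hz' := h.md.sub hz
  have w1 : (rm τ z (rm s k (rm (!s) j p))).1 ⊆ (rm τ z (rm s k (rm (!s) j p))).2 := QUB.wf_rm h.wf hz'
  have e1 := mx_Y (rm s k (rm (!s) j p)) hz τ
  have hX1 : X.erase z ⊆ gs (rm τ z (rm s k (rm (!s) j p))) := by
    rw [gs_rm τ z]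
    exact Finset.erase_subset_erase _ h.md.sub
  have l1 := lam_rm_le' S.rk h.wf (t := τ) hz' (Finset.erase_subset_erase z h.md.sub)
  rw [Finset.insert_erase hz] at l1
  refine mx_keep w1 hX1 (l1.trans h.md.lam) (h.rk1 hz τ) (Finset.mem_erase.2 ⟨hxz, hx⟩) ?_
  rw [e1]
  exact h1

omit [Fintype E] in
private theorem mx_e1 (G : Finset E) (k j x : E) : ((G.erase j).erase k).erase x = ((G.erase x).erase k) \ {j} := by
  ext y
  simp only [Finset.mem_erase, Finset.mem_sdiff, Finset.mem_singleton]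
  tauto

omit [Fintype E] in
private theorem mx_e2 {Q X : Finset E} {x : E} (hX : X ⊆ Q) (hx : x ∈ X) : Q.erase x = X.erase x ∪ (Q \ X) := by
  ext y
  simp only [Finset.mem_erase, Finset.mem_union, Finset.mem_sdiff]
  constructor
  · rintro ⟨h1, h2⟩
    by_cases h3 : y ∈ X
    · exact Or.inl ⟨h1, h3⟩
    · exact Or.inr ⟨h2, h3⟩
  · rintro (⟨h1, h2⟩ | ⟨h1, h2⟩)
    · exact ⟨h1, hX h2⟩
    · exact ⟨fun h => h2 (by rw [h]; exact hx), h1⟩

/-- the pair `k^s, x^σ` -/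
theorem Mxs.ok1 (h : Mxs S p s k j X) {x : E} (hx : x ∈ X) (σ : Bool) (hb : σ = s → ¬ Bad S.r p X s x) :
    Ok S.r (rm s k (rm σ x p)) := by
  classical
  obtain ⟨m1, m2, m3⟩ := h.mq hx
  have h4 := h.h4
  have hy4 := h.y4
  obtain ⟨q', s1, s2, s3⟩ := h.rk1 hx σ
  have eN : rm σ x (rm s k (rm (!s) j p)) = rm (!s) j (rm s k (rm σ x p)) := by
    rw [rm_comm σ s x k, rm_comm σ (!s) x j, rm_comm s (!s) k j]
  have hcN := h.leaf.cn1 S.rk hx σ
  have hlN := h.l1 hx σ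
  set Y := gs (rm s k (rm (!s) j p)) \ X with hY
  have hg := gs_rm2 s (!s) k j p
  have hgP := gs_rm2 s σ k x p
  have hgN : gs (rm σ x (rm s k (rm (!s) j p))) = (((gs p).erase j).erase k).erase x := by rw [gs_rm σ x, hg]
  have hwP : (rm s k (rm σ x p)).1 ⊆ (rm s k (rm σ x p)).2 := by
    refine QUB.wf_rm (QUB.wf_rm h.cw.hp m1) ?_
    rw [show gs (rm σ x p) = (gs p).erase x from QUB.gs_rm σ x p]
    exact Finset.mem_erase.2 ⟨m2.symm, h.md.ma⟩
  have hwN : (rm σ x (rm s k (rm (!s) j p))).1 ⊆ (rm σ x (rm s k (rm (!s) j p))).2 := QUB.wf_rm h.wf (h.md.sub hx)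
  have hsN : Sub (rm σ x (rm s k (rm (!s) j p))) (rm s k (rm σ x p)) := by
    rw [eN]
    exact rm_sub _ _ _
  have mY : ∀ y, y ∈ Y ↔ y ∈ gs p ∧ y ≠ k ∧ y ≠ j ∧ y ∉ X := by
    intro y
    rw [hY, hg, Finset.mem_sdiff, Finset.mem_erase, Finset.mem_erase]
    tauto
  have mP : ∀ y, y ∈ gs (rm s k (rm σ x p)) ↔ y ∈ gs p ∧ y ≠ k ∧ y ≠ x := by
    intro y
    rw [hgP, Finset.mem_erase, Finset.mem_erase]
    tauto
  have mN : ∀ y, y ∈ gs (rm σ x (rm s k (rm (!s) j p))) ↔ y ∈ gs p ∧ y ≠ k ∧ y ≠ j ∧ y ≠ x := by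
    intro y
    rw [hgN, Finset.mem_erase, Finset.mem_erase, Finset.mem_erase]
    tauto
  have mX : ∀ y, y ∈ X → y ∈ gs p ∧ y ≠ k ∧ y ≠ j := fun y hy => h.mq hy
  have cX : (X.erase x).card = X.card - 1 := Finset.card_erase_of_mem hx
  have lY1 : QUB.lam S.r (rm σ x (rm s k (rm (!s) j p))) Y ≤ 1 := by
    have h5 := lam_rm_le S.rk (t := σ) (h.md.sub hx) (A := Y) (fun y hy => Finset.mem_erase.2 ⟨fun h' => ((mY y).1 hy).2.2.2 (by rw [h']; exact hx),
      (Finset.mem_sdiff.1 hy).1⟩)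
    exact h5.trans h.lY
  have hjP : j ∈ gs (rm s k (rm σ x p)) := (mP j).2 ⟨h.md.mb, h.md.ab.symm, m3.symm⟩
  have main : ∀ A ⊆ gs (rm s k (rm σ x p)), QUB.lam S.r (rm s k (rm σ x p)) A ≤ 1 → Hv S.r (rm s k (rm σ x p)) A →
      (A ∩ gs q').card ≤ 1 → False := by
    intro A hA lA hv hc
    have cA : X.card ≤ A.card := h.mn _ _ _ _ _ (⟨h.md.ma, m1, m2.symm, hA, lA, ⟨q', hsN.trans s1, s2, hc⟩,
      le_trans (by norm_num) hv.card, fun _ => hv⟩ : Md S.r p s k σ x A)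
    have hB : 3 ≤ (Y \ A).card := by
      have k1 : gs q' ⊆ (X.erase x ∩ gs q') ∪ (A ∩ gs q') ∪ (Y \ A) := by
        intro y hy
        have k2 : y ∈ gs (rm σ x (rm s k (rm (!s) j p))) := Finset.sdiff_subset_sdiff s1.2 s1.1 hy
        have k3 := (mN y).1 k2
        simp only [Finset.mem_union, Finset.mem_inter, Finset.mem_erase, Finset.mem_sdiff]
        by_cases k5 : y ∈ A
        · exact Or.inl (Or.inr ⟨k5, hy⟩)
        · by_cases k6 : y ∈ X
          · exact Or.inl (Or.inl ⟨⟨k3.2.2.2, k6⟩, hy⟩)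
          · exact Or.inr ⟨(mY y).2 ⟨k3.1, k3.2.1, k3.2.2.1, k6⟩, k5⟩
      have k2 := Finset.card_le_card k1
      have k3 := Finset.card_union_le ((X.erase x ∩ gs q') ∪ (A ∩ gs q')) (Y \ A)
      have k4 := Finset.card_union_le (X.erase x ∩ gs q') (A ∩ gs q')
      have k5 := s2.2.1
      omega
    have pull : ∀ A ⊆ gs (rm s k (rm σ x p)), QUB.lam S.r (rm s k (rm σ x p)) A ≤ 1 →
        (gs (rm σ x (rm s k (rm (!s) j p))) \ A).Nonempty → ∀ T ⊆ A, T ⊆ Y → 2 ≤ T.card →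
        QUB.lam S.r (rm σ x (rm s k (rm (!s) j p))) T ≤ 1 → ({j} : Finset E) ⊆ A := by
      intro A hA lA hne T hTA hTY h2 hl
      rw [Finset.singleton_subset_iff]
      by_contra hjA
      have h5 := h.dj1 hx σ hTY h2 (h.up1 hx σ hTY hl)
      obtain ⟨t, ht⟩ := Finset.card_pos.1 (by omega : 0 < T.card)
      refine mx_pull S.rk hjP (by rw [eN]; exact ⟨Finset.Subset.refl _, Finset.Subset.refl _⟩) hwN hcN hTA hA hjA h5 lA
        ⟨t, Finset.mem_inter.2 ⟨hTA ht, (mN t).2 ?_⟩⟩ hne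
      have h6 := (mY t).1 (hTY ht)
      exact ⟨h6.1, h6.2.1, h6.2.2.1, fun h' => h6.2.2.2 (by rw [h']; exact hx)⟩
    have core := mx_core S.rk hwP hsN hwN hcN (W := {j}) (X := X.erase x) (Y := Y) (m := X.card)
      (by rw [Finset.singleton_subset_iff]; exact hjP)
      (by rw [hgN, hgP]; exact mx_e1 _ _ _ _)
      (by rw [gs_rm σ x]; exact mx_e2 h.md.sub hx)
      (by
        rw [Finset.disjoint_left]
        intro y h5 h6
        exact ((mY y).1 h6).2.2.2 (Finset.mem_erase.1 h5).2)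
      (Finset.card_pos.1 (by omega)) lY1 ⟨j, Finset.mem_singleton_self j⟩ (by rw [Finset.card_singleton]; omega)
      (by rw [Finset.card_singleton]; omega) pull hA lA cA hB
    rcases core with c1 | ⟨C, c1, c2, c3, c4, c5, c6⟩
    · have h5 := h.dj1 hx σ (T := Y) (Finset.Subset.refl _) (by omega) h.lY
      rw [← eN] at h5
      omega
    · have hjC : j ∉ C := fun h' => Finset.disjoint_left.1 c3 h' (Finset.mem_singleton_self j)
      have hCe : C ⊆ (gs (rm s k (rm σ x p))).erase j := fun y hy => Finset.mem_erase.2 ⟨fun h' => hjC (by rw [← h']; exact hy), c1 hy⟩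
      have h5 := lam_L3 S.rk (t := !s) hjP c2 hCe
      rw [← eN] at h5
      obtain ⟨b, hb'⟩ := Finset.card_pos.1 (by omega : 0 < (Y \ C).card)
      obtain ⟨b', hb''⟩ := c5
      have h6 := hcN C (by
        intro y hy
        have k3 := (mP y).1 (c1 hy)
        have k4 : y ≠ j := fun h' => hjC (by rw [← h']; exact hy)
        exact (mN y).2 ⟨k3.1, k3.2.1, k4, k3.2.2⟩) ⟨b', (Finset.mem_inter.1 hb'').1⟩ ⟨b, by
        rw [Finset.mem_sdiff] at hb' ⊢
        have k2 := (mY b).1 hb'.1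
        exact ⟨(mN b).2 ⟨k2.1, k2.2.1, k2.2.2.1, fun h' => k2.2.2.2 (by rw [h']; exact hx)⟩, hb'.2⟩⟩
      have hXe : X.erase x ⊆ (gs (rm s k (rm (!s) j p))).erase x := Finset.erase_subset_erase x h.md.sub
      have h7 := lam_rm_le' S.rk h.wf (t := σ) (h.md.sub hx) hXe
      rw [Finset.insert_erase hx] at h7
      have h8 := h.md.lam
      by_cases hσ : σ = s
      · subst hσ
        refine hb rfl ?_
        have h9 := lam_le_rm S.rk (t := σ) (p := rm σ x p) (x := k) (A := X.erase x) (by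
          rw [gs_rm]
          exact Finset.mem_erase.2 ⟨m2.symm, h.md.ma⟩) (by
          intro y hy
          have k2 := (mP y).1 (c1 (c2 hy))
          rw [gs_rm, Finset.mem_erase, Finset.mem_erase]
          exact ⟨k2.2.1, k2.2.2, k2.1⟩)
        unfold Bad
        omega
      · have hσ' : σ = !s := by cases s <;> cases σ <;> simp_all
        subst hσ'
        have hwk : (rm s k p).1 ⊆ (rm s k p).2 := QUB.wf_rm h.cw.hp h.md.ma
        have mk : ∀ y, y ∈ gs (rm s k p) ↔ y ∈ gs p ∧ y ≠ k := by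
          intro y
          rw [gs_rm, Finset.mem_erase]
          tauto
        have e2 : rm (!s) x (rm s k p) = rm s k (rm (!s) x p) := rm_comm (!s) s x k p
        have hc2 : 1 ≤ QUB.lam S.r (rm (!s) x (rm s k p)) {j} := by
          rw [e2]
          refine h.cw.cn2 h.md.ma m1 m2.symm s (!s) {j} (by rw [Finset.singleton_subset_iff]; exact hjP) ⟨j, Finset.mem_singleton_self j⟩ ?_
          refine ⟨b, ?_⟩
          have k1 := (mY b).1 (Finset.mem_sdiff.1 hb').1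
          rw [Finset.mem_sdiff, Finset.mem_singleton]
          exact ⟨(mP b).2 ⟨k1.1, k1.2.1, fun h' => k1.2.2.2 (by rw [h']; exact hx)⟩, k1.2.2.1⟩
        have h9 := lam_L6 S.rk hwk (t := !s) (w := j) (e := x) (A := X.erase x) ((mk j).2 ⟨h.md.mb, h.md.ab.symm⟩) ((mk x).2 ⟨m1, m2⟩) m3 (by
          intro y hy
          have k1 := mX y (Finset.mem_erase.1 hy).2
          rw [Finset.mem_erase, Finset.mem_erase]
          exact ⟨(Finset.mem_erase.1 hy).1, k1.2.2, (mk y).2 ⟨k1.1, k1.2.1⟩⟩) hc2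
        rw [Finset.insert_erase hx, e2, ← eN] at h9
        have h10 := (h.old (T := X) h.md.sub (by omega) (le_trans (by norm_num) hy4)).1
        have e3 : rm (!s) j (rm s k p) = rm s k (rm (!s) j p) := rm_comm (!s) s j k p
        rw [e3] at h9
        have h11 : 1 ≤ QUB.lam S.r (rm (!s) x (rm s k (rm (!s) j p))) (X.erase x) := by
          have k1 := mx_Y (rm s k (rm (!s) j p)) hx (!s)
          have k2 := lam_compl S.r hwN (A := X.erase x) (by rw [gs_rm (!s) x]; exact hXe)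
          rw [k1] at k2
          rw [← k2]
          exact hlN
        omega
  intro A hA lA hv
  have hA' : A ⊆ gs (rm s k (rm σ x p)) := hA
  rcases rich_side S.rk hwP hA lA (hsN.trans s1) s2 with c | c
  · exact main A hA lA hv.1 c
  · refine main _ Finset.sdiff_subset ?_ hv.2 c
    rw [lam_compl S.r hwP hA]
    exact lA

end mix

end Pool.Agent.QU
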