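import Pool.Agent.QUP.MxB

/-!
# QUP/MxC: a smallest mixed 2-side, two elements of the side
-/

set_option autoImplicit false

open QUB

namespace Pool.Agent.QU

open Pool.Agent.FRM

section mix

variable {E : Type} [Fintype E] [DecidableEq E] {S : TP F4 E} {p : Itv E} {s : Bool} {k j : E} {X : Finset E}

theorem Mxs.cn2p (h : Mxs S p s k j X) {x z : E} (hx : x ∈ X) (hz : z ∈ X) (hxz : x ≠ z) (σ τ : Bool) : Cn S.r (rm σ x (rm τ z p)) :=
  h.cw.cn2 (h.mq hx).1 (h.mq hz).1 hxz σ τ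

/-- `k` and `j` lower the order of two-sides -/
theorem Mxs.dj2 (h : Mxs S p s k j X) {x z : E} (hx : x ∈ X) (hz : z ∈ X) (hxz : x ≠ z) (σ τ : Bool) {T : Finset E}
    (hT : T ⊆ gs (rm s k (rm (!s) j p)) \ X) (h2 : 2 ≤ T.card) (hl : QUB.lam S.r (rm s k (rm (!s) j p)) T ≤ 1) :
    QUB.lam S.r (rm (!s) j (rm σ x (rm τ z p))) T + 1 ≤ QUB.lam S.r (rm σ x (rm τ z p)) T ∧
      QUB.lam S.r (rm s k (rm σ x (rm τ z p))) T + 1 ≤ QUB.lam S.r (rm σ x (rm τ z p)) T := by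
  obtain ⟨m1, m2, m3⟩ := h.mq hx
  obtain ⟨n1, n2, n3⟩ := h.mq hz
  have h4 := h.h4
  have hT' : T ⊆ gs (rm s k (rm (!s) j p)) := hT.trans Finset.sdiff_subset
  have h3 : 2 ≤ (gs (rm s k (rm (!s) j p)) \ T).card := by
    refine le_trans (by omega) (Finset.card_le_card (?_ : X ⊆ _))
    intro y hy
    exact Finset.mem_sdiff.2 ⟨h.md.sub hy, fun h' => (Finset.mem_sdiff.1 (hT h')).2 hy⟩
  have hg := gs_rm2 s (!s) k j p
  have g1 : ∀ y ∈ T, y ∈ gs p ∧ y ≠ k ∧ y ≠ j := by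
    intro y hy
    have := hT' hy
    rw [hg, Finset.mem_erase, Finset.mem_erase] at this
    exact ⟨this.2.2, this.1, this.2.1⟩
  have xT : x ∉ T := fun h' => (Finset.mem_sdiff.1 (hT h')).2 hx
  have zT : z ∉ T := fun h' => (Finset.mem_sdiff.1 (hT h')).2 hz
  have hTp : T ⊆ gs p := fun y hy => (g1 y hy).1
  have hTz : T ⊆ gs (rm τ z p) := by
    rw [gs_rm]
    intro y hy
    exact Finset.mem_erase.2 ⟨fun h' => zT (by rw [← h']; exact hy), hTp hy⟩
  have wz : (rm τ z p).1 ⊆ (rm τ z p).2 := QUB.wf_rm h.cw.hp n1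
  have xz : x ∈ gs (rm τ z p) := by rw [gs_rm]; exact Finset.mem_erase.2 ⟨hxz, m1⟩
  obtain ⟨d1, d2⟩ := h.djp hT' h2 h3 hl
  constructor
  · refine dl_rm S.rk wz xz ?_ m3.symm hTz xT (fun h' => (g1 j h').2.2 rfl) (h.cn2p hx hz hxz σ τ) ?_
    · rw [gs_rm]; exact Finset.mem_erase.2 ⟨n3.symm, h.md.mb⟩
    · exact dl_rm S.rk h.cw.hp n1 h.md.mb n3.symm hTp zT (fun h' => (g1 j h').2.2 rfl) (h.cw.cn1 n1 τ) d1
  · refine dl_rm S.rk wz xz ?_ m2.symm hTz xT (fun h' => (g1 k h').2.1 rfl) (h.cn2p hx hz hxz σ τ) ?_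
    · rw [gs_rm]; exact Finset.mem_erase.2 ⟨n2.symm, h.md.ma⟩
    · exact dl_rm S.rk h.cw.hp n1 h.md.ma n2.symm hTp zT (fun h' => (g1 k h').2.1 rfl) (h.cw.cn1 n1 τ) d2

/-- the second removal inside the side -/
theorem Mxs.l2 (h : Mxs S p s k j X) {x z : E} (hx : x ∈ X) (hz : z ∈ X) {σ τ : Bool}
    (hc : Cn S.r (rm σ x (rm τ z (rm s k (rm (!s) j p))))) :
    1 ≤ QUB.lam S.r (rm σ x (rm τ z (rm s k (rm (!s) j p)))) (gs (rm s k (rm (!s) j p)) \ X) := by
  have h4 := h.h4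
  have hy4 := h.y4
  have h6 : 0 < ((X.erase z).erase x).card := by
    have := Finset.pred_card_le_card_erase (s := X) (a := z)
    have := Finset.pred_card_le_card_erase (s := X.erase z) (a := x)
    omega
  obtain ⟨a, ha⟩ := Finset.card_pos.1 h6
  rw [Finset.mem_erase, Finset.mem_erase] at ha
  refine hc _ ?_ (Finset.card_pos.1 (by omega)) ⟨a, ?_⟩
  · rw [gs_rm σ x, gs_rm τ z]
    intro y hy
    rw [Finset.mem_sdiff] at hy
    exact Finset.mem_erase.2 ⟨fun h' => hy.2 (by rw [h']; exact hx), Finset.mem_erase.2 ⟨fun h' => hy.2 (by rw [h']; exact hz), hy.1⟩⟩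
  · rw [gs_rm σ x, gs_rm τ z, Finset.mem_sdiff, Finset.mem_erase, Finset.mem_erase, Finset.mem_sdiff]
    exact ⟨⟨ha.1, ha.2.1, h.md.sub ha.2.2⟩, fun h => h.2 ha.2.2⟩

theorem Mxs.up2 (h : Mxs S p s k j X) {x z : E} (hx : x ∈ X) (hz : z ∈ X) (hxz : x ≠ z) {σ τ : Bool} {T : Finset E}
    (h1 : 1 ≤ QUB.lam S.r (rm σ x (rm τ z (rm s k (rm (!s) j p)))) (gs (rm s k (rm (!s) j p)) \ X))
    (hT : T ⊆ gs (rm s k (rm (!s) j p)) \ X) (hl : QUB.lam S.r (rm σ x (rm τ z (rm s k (rm (!s) j p)))) T ≤ 1) :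
    QUB.lam S.r (rm s k (rm (!s) j p)) T ≤ 1 := by
  have e1 : ∀ y ∈ gs (rm s k (rm (!s) j p)) \ X, y ≠ x ∧ y ≠ z ∧ y ∈ gs (rm s k (rm (!s) j p)) := by
    intro y hy
    rw [Finset.mem_sdiff] at hy
    exact ⟨fun h' => hy.2 (by rw [h']; exact hx), fun h' => hy.2 (by rw [h']; exact hz), hy.1⟩
  have h2 := lam_L3 S.rk (t := σ) (p := rm τ z (rm s k (rm (!s) j p))) (x := x) (by
    rw [gs_rm τ z]; exact Finset.mem_erase.2 ⟨hxz, h.md.sub hx⟩) hT (by
    intro y hy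
    rw [gs_rm τ z]
    exact Finset.mem_erase.2 ⟨(e1 y hy).1, Finset.mem_erase.2 ⟨(e1 y hy).2.1, (e1 y hy).2.2⟩⟩)
  have h3 := lam_rm_le S.rk (t := τ) (h.md.sub hz) (A := gs (rm s k (rm (!s) j p)) \ X) (fun y hy => Finset.mem_erase.2 ⟨(e1 y hy).2.1, (e1 y hy).2.2⟩)
  have h4 := h.lY
  exact h.up1 hz τ hT (by omega)

omit [Fintype E] in
private theorem mx_e3 (G : Finset E) (k j x z : E) :
    (((G.erase j).erase k).erase z).erase x = ((G.erase z).erase x) \ {k, j} := by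
  ext y
  simp only [Finset.mem_erase, Finset.mem_sdiff, Finset.mem_insert, Finset.mem_singleton]
  tauto

omit [Fintype E] in
private theorem mx_e4 {Q X : Finset E} {x z : E} (hX : X ⊆ Q) (hx : x ∈ X) (hz : z ∈ X) :
    (Q.erase z).erase x = (X.erase z).erase x ∪ (Q \ X) := by
  ext y
  simp only [Finset.mem_erase, Finset.mem_union, Finset.mem_sdiff]
  constructor
  · rintro ⟨h1, h2, h2'⟩
    by_cases h3 : y ∈ X
    · exact Or.inl ⟨h1, h2, h3⟩
    · exact Or.inr ⟨h2', h3⟩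
  · rintro (⟨h1, h2, h3⟩ | ⟨h1, h2⟩)
    · exact ⟨h1, h2, hX h3⟩
    · exact ⟨fun h => h2 (by rw [h]; exact hx), fun h => h2 (by rw [h]; exact hz), h1⟩

/-- the order of the side in `p` -/
theorem Mxs.lX (h : Mxs S p s k j X) : QUB.lam S.r p X ≤ 3 := by
  have h1 := lam_le_rm S.rk (t := !s) h.md.mb (A := X) (fun y hy => Finset.mem_erase.2 ⟨(h.mq hy).2.2, (h.mq hy).1⟩)
  have h2 := lam_le_rm S.rk (t := s) (p := rm (!s) j p) (x := k) (by rw [gs_rm]; exact Finset.mem_erase.2 ⟨h.md.ab, h.md.ma⟩) (A := X) (by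
    rw [gs_rm]
    intro y hy
    exact Finset.mem_erase.2 ⟨(h.mq hy).2.1, Finset.mem_erase.2 ⟨(h.mq hy).2.2, (h.mq hy).1⟩⟩)
  have h3 := h.md.lam
  omega

theorem Mxs.bad_iff (h : Mxs S p s k j X) {x : E} (hx : x ∈ X) (σ : Bool) :
    Bad S.r p X σ x ↔ QUB.lam S.r (rm σ x p) (gs p \ X) ≤ 2 := by
  have m1 := h.mq hx
  have hX : X.erase x ⊆ gs (rm σ x p) := by
    rw [gs_rm]
    exact Finset.erase_subset_erase _ fun y hy => (h.mq hy).1
  have h1 := lam_compl S.r (QUB.wf_rm h.cw.hp m1.1) hX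
  have h2 : gs (rm σ x p) \ X.erase x = gs p \ X := by
    ext y
    rw [gs_rm, Finset.mem_sdiff, Finset.mem_sdiff, Finset.mem_erase, Finset.mem_erase]
    constructor
    · rintro ⟨⟨h3, h4⟩, h5⟩
      exact ⟨h4, fun h6 => h5 ⟨h3, h6⟩⟩
    · rintro ⟨h3, h4⟩
      exact ⟨⟨fun h5 => h4 (by rw [h5]; exact hx), h3⟩, fun h5 => h4 h5.2⟩
  rw [h2] at h1
  unfold Bad
  rw [← h1]

/-- the pair `x^σ, z^τ` -/
theorem Mxs.ok2 (h : Mxs S p s k j X) {x z : E} (hx : x ∈ X) (hz : z ∈ X) (hxz : x ≠ z) {σ τ : Bool}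
    (hc : Cn S.r (rm σ x (rm τ z (rm s k (rm (!s) j p))))) (hb : ¬ (Bad S.r p X σ x ∧ Bad S.r p X τ z)) :
    Ok S.r (rm σ x (rm τ z p)) := by
  classical
  obtain ⟨m1, m2, m3⟩ := h.mq hx
  obtain ⟨n1, n2, n3⟩ := h.mq hz
  have h4 := h.h4
  have hy4 := h.y4
  have hlN := h.l2 hx hz hc
  obtain ⟨q', s1, s2, s3⟩ := h.rk2 hx hz hxz hlN
  have eN1 : rm σ x (rm τ z (rm s k (rm (!s) j p))) = rm s k (rm (!s) j (rm σ x (rm τ z p))) := by
    rw [rm_comm τ s z k, rm_comm τ (!s) z j, rm_comm σ s x k, rm_comm σ (!s) x j]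
  have eN2 : rm σ x (rm τ z (rm s k (rm (!s) j p))) = rm (!s) j (rm s k (rm σ x (rm τ z p))) := by
    rw [eN1, rm_comm s (!s) k j]
  have lYq := h.lY
  have dd := fun (T : Finset E) (hT : T ⊆ gs (rm s k (rm (!s) j p)) \ X) => h.dj2 hx hz hxz σ τ hT
  have uu := fun (T : Finset E) (hT : T ⊆ gs (rm s k (rm (!s) j p)) \ X) => h.up2 hx hz hxz hlN hT
  set Y := gs (rm s k (rm (!s) j p)) \ X with hY
  have hg := gs_rm2 s (!s) k j p
  have hgP := gs_rm2 σ τ x z p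
  have hgN : gs (rm σ x (rm τ z (rm s k (rm (!s) j p)))) = ((((gs p).erase j).erase k).erase z).erase x := by rw [gs_rm σ x, gs_rm τ z, hg]
  have wz : (rm τ z p).1 ⊆ (rm τ z p).2 := QUB.wf_rm h.cw.hp n1
  have xz : x ∈ gs (rm τ z p) := by rw [gs_rm]; exact Finset.mem_erase.2 ⟨hxz, m1⟩
  have hwP : (rm σ x (rm τ z p)).1 ⊆ (rm σ x (rm τ z p)).2 := QUB.wf_rm wz xz
  have hwN : (rm σ x (rm τ z (rm s k (rm (!s) j p)))).1 ⊆ (rm σ x (rm τ z (rm s k (rm (!s) j p)))).2 := by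
    refine QUB.wf_rm (QUB.wf_rm h.wf (h.md.sub hz)) ?_
    rw [show gs (rm τ z (rm s k (rm (!s) j p))) = (gs (rm s k (rm (!s) j p))).erase z from QUB.gs_rm τ z _]
    exact Finset.mem_erase.2 ⟨hxz, h.md.sub hx⟩
  have sk : Sub (rm σ x (rm τ z (rm s k (rm (!s) j p)))) (rm s k (rm σ x (rm τ z p))) := by
    rw [eN2]
    exact rm_sub _ _ _
  have sj : Sub (rm σ x (rm τ z (rm s k (rm (!s) j p)))) (rm (!s) j (rm σ x (rm τ z p))) := by
    rw [eN1]
    exact rm_sub _ _ _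
  have hsN : Sub (rm σ x (rm τ z (rm s k (rm (!s) j p)))) (rm σ x (rm τ z p)) := (rm_sub s k (rm σ x (rm τ z p))).trans sk
  have mY : ∀ y, y ∈ Y ↔ y ∈ gs p ∧ y ≠ k ∧ y ≠ j ∧ y ∉ X := by
    intro y
    rw [hY, hg, Finset.mem_sdiff, Finset.mem_erase, Finset.mem_erase]
    constructor
    · rintro ⟨⟨a, b, c⟩, d⟩; exact ⟨c, a, b, d⟩
    · rintro ⟨c, a, b, d⟩; exact ⟨⟨a, b, c⟩, d⟩
  have mP : ∀ y, y ∈ gs (rm σ x (rm τ z p)) ↔ y ∈ gs p ∧ y ≠ x ∧ y ≠ z := by
    intro y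
    rw [hgP, Finset.mem_erase, Finset.mem_erase]
    constructor
    · rintro ⟨a, b, c⟩; exact ⟨c, a, b⟩
    · rintro ⟨c, a, b⟩; exact ⟨a, b, c⟩
  have mN : ∀ y, y ∈ gs (rm σ x (rm τ z (rm s k (rm (!s) j p)))) ↔ y ∈ gs p ∧ y ≠ k ∧ y ≠ j ∧ y ≠ x ∧ y ≠ z := by
    intro y
    rw [hgN, Finset.mem_erase, Finset.mem_erase, Finset.mem_erase, Finset.mem_erase]
    constructor
    · rintro ⟨a, b, c, d, e⟩; exact ⟨e, c, d, a, b⟩
    · rintro ⟨e, c, d, a, b⟩; exact ⟨a, b, c, d, e⟩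
  have yx : ∀ y ∈ Y, y ≠ x := fun y hy h' => ((mY y).1 hy).2.2.2 (by rw [h']; exact hx)
  have yz : ∀ y ∈ Y, y ≠ z := fun y hy h' => ((mY y).1 hy).2.2.2 (by rw [h']; exact hz)
  have YN : ∀ y ∈ Y, y ∈ gs (rm σ x (rm τ z (rm s k (rm (!s) j p)))) := by
    intro y hy
    have h6 := (mY y).1 hy
    exact (mN y).2 ⟨h6.1, h6.2.1, h6.2.2.1, yx y hy, yz y hy⟩
  have cX : ((X.erase z).erase x).card = X.card - 2 := by
    rw [Finset.card_erase_of_mem (Finset.mem_erase.2 ⟨hxz, hx⟩), Finset.card_erase_of_mem hz]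
    omega
  have hjP : j ∈ gs (rm σ x (rm τ z p)) := (mP j).2 ⟨h.md.mb, m3.symm, n3.symm⟩
  have hkP : k ∈ gs (rm σ x (rm τ z p)) := (mP k).2 ⟨h.md.ma, m2.symm, n2.symm⟩
  have lY1 : QUB.lam S.r (rm σ x (rm τ z (rm s k (rm (!s) j p)))) Y ≤ 1 := by
    have h5 := lam_rm_le S.rk (t := τ) (h.md.sub hz) (A := Y) (fun y hy => Finset.mem_erase.2 ⟨yz y hy, (Finset.mem_sdiff.1 hy).1⟩)
    have h6 := lam_rm_le S.rk (t := σ) (p := rm τ z (rm s k (rm (!s) j p))) (x := x) (A := Y) (by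
      rw [gs_rm τ z]; exact Finset.mem_erase.2 ⟨hxz, h.md.sub hx⟩) (by
      intro y hy
      rw [gs_rm τ z]
      exact Finset.mem_erase.2 ⟨yx y hy, Finset.mem_erase.2 ⟨yz y hy, (Finset.mem_sdiff.1 hy).1⟩⟩)
    omega
  have kjc : ({k, j} : Finset E).card = 2 := Finset.card_pair h.md.ab
  have main : ∀ A ⊆ gs (rm σ x (rm τ z p)), QUB.lam S.r (rm σ x (rm τ z p)) A ≤ 1 → Hv S.r (rm σ x (rm τ z p)) A →
      (A ∩ gs q').card ≤ 1 → False := by
    intro A hA lA hv hc'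
    have cA : X.card ≤ A.card := h.mn _ _ _ _ _ (⟨m1, n1, hxz, hA, lA, ⟨q', hsN.trans s1, s2, hc'⟩,
      le_trans (by norm_num) hv.card, fun _ => hv⟩ : Md S.r p σ x τ z A)
    have hB : 3 ≤ (Y \ A).card := by
      have k1 : gs q' ⊆ ((X.erase z).erase x ∩ gs q') ∪ (A ∩ gs q') ∪ (Y \ A) := by
        intro y hy
        have k2 : y ∈ gs (rm σ x (rm τ z (rm s k (rm (!s) j p)))) := Finset.sdiff_subset_sdiff s1.2 s1.1 hy
        have k3 := (mN y).1 k2
        simp only [Finset.mem_union, Finset.mem_inter, Finset.mem_erase, Finset.mem_sdiff]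
        by_cases k5 : y ∈ A
        · exact Or.inl (Or.inr ⟨k5, hy⟩)
        · by_cases k6 : y ∈ X
          · exact Or.inl (Or.inl ⟨⟨k3.2.2.2.1, k3.2.2.2.2, k6⟩, hy⟩)
          · exact Or.inr ⟨(mY y).2 ⟨k3.1, k3.2.1, k3.2.2.1, k6⟩, k5⟩
      have k2 := Finset.card_le_card k1
      have k3 := Finset.card_union_le (((X.erase z).erase x ∩ gs q') ∪ (A ∩ gs q')) (Y \ A)
      have k4 := Finset.card_union_le ((X.erase z).erase x ∩ gs q') (A ∩ gs q')
      have k5 := s2.2.1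
      omega
    have pull : ∀ A ⊆ gs (rm σ x (rm τ z p)), QUB.lam S.r (rm σ x (rm τ z p)) A ≤ 1 →
        (gs (rm σ x (rm τ z (rm s k (rm (!s) j p)))) \ A).Nonempty → ∀ T ⊆ A, T ⊆ Y → 2 ≤ T.card →
        QUB.lam S.r (rm σ x (rm τ z (rm s k (rm (!s) j p)))) T ≤ 1 → ({k, j} : Finset E) ⊆ A := by
      intro A hA lA hne T hTA hTY h2 hl
      obtain ⟨d1, d2⟩ := dd T hTY h2 (uu T hTY hl)
      obtain ⟨t, ht⟩ := Finset.card_pos.1 (by omega : 0 < T.card)
      have ne : (A ∩ gs (rm σ x (rm τ z (rm s k (rm (!s) j p))))).Nonempty := ⟨t, Finset.mem_inter.2 ⟨hTA ht, YN t (hTY ht)⟩⟩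
      intro y hy
      rw [Finset.mem_insert, Finset.mem_singleton] at hy
      by_contra hyA
      rcases hy with rfl | rfl
      · exact mx_pull S.rk hkP sk hwN hc hTA hA hyA d2 lA ne hne
      · exact mx_pull S.rk hjP sj hwN hc hTA hA hyA d1 lA ne hne
    have core := mx_core S.rk hwP hsN hwN hc (W := {k, j}) (X := (X.erase z).erase x) (Y := Y) (m := X.card)
      (by
        intro y hy
        rw [Finset.mem_insert, Finset.mem_singleton] at hy
        rcases hy with rfl | rfl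
        · exact hkP
        · exact hjP)
      (by rw [hgN, hgP]; exact mx_e3 _ _ _ _ _)
      (by rw [gs_rm σ x, gs_rm τ z]; exact mx_e4 h.md.sub hx hz)
      (by
        rw [Finset.disjoint_left]
        intro y h5 h6
        exact ((mY y).1 h6).2.2.2 (Finset.mem_erase.1 (Finset.mem_erase.1 h5).2).2)
      (Finset.card_pos.1 (by omega)) lY1 ⟨j, by simp⟩ (by omega) (by omega) pull hA lA cA hB
    rcases core with c1 | ⟨C, c1, c2, c3, c4, c5, c6⟩
    · have h5 := (dd Y (Finset.Subset.refl _) (le_trans (by norm_num) hy4) lYq).1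
      have h6 : QUB.lam S.r (rm σ x (rm τ z (rm s k (rm (!s) j p)))) Y ≤ QUB.lam S.r (rm (!s) j (rm σ x (rm τ z p))) Y := by
        have h7 := lam_sub_le S.rk sj hwN (A := Y) (by
          intro y hy
          rw [gs_rm (!s) j]
          have h8 := (mY y).1 hy
          exact Finset.mem_erase.2 ⟨h8.2.2.1, (mP y).2 ⟨h8.1, yx y hy, yz y hy⟩⟩)
        rwa [Finset.inter_eq_left.2 (fun y hy => YN y hy)] at h7
      omega
    · have hkC : k ∉ C := fun h' => Finset.disjoint_left.1 c3 h' (by simp)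
      have hjC : j ∉ C := fun h' => Finset.disjoint_left.1 c3 h' (by simp)
      -- the set `T`
      have hCN : C ⊆ gs (rm σ x (rm τ z (rm s k (rm (!s) j p)))) := by
        intro y hy
        have k3 := (mP y).1 (c1 hy)
        exact (mN y).2 ⟨k3.1, fun h' => hkC (by rw [← h']; exact hy), fun h' => hjC (by rw [← h']; exact hy), k3.2.1, k3.2.2⟩
      have lC : QUB.lam S.r (rm σ x (rm τ z (rm s k (rm (!s) j p)))) C ≤ 1 := by
        have h7 := lam_sub_le S.rk hsN hwN c1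
        rw [Finset.inter_eq_left.2 hCN] at h7
        omega
      have hYC : gs (rm σ x (rm τ z (rm s k (rm (!s) j p)))) \ C = Y \ C := by
        ext y
        rw [Finset.mem_sdiff, Finset.mem_sdiff]
        constructor
        · rintro ⟨h5, h6⟩
          have h7 := (mN y).1 h5
          refine ⟨(mY y).2 ⟨h7.1, h7.2.1, h7.2.2.1, fun h8 => h6 (c2 ?_)⟩, h6⟩
          exact Finset.mem_erase.2 ⟨h7.2.2.2.1, Finset.mem_erase.2 ⟨h7.2.2.2.2, h8⟩⟩
        · rintro ⟨h5, h6⟩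
          exact ⟨YN y h5, h6⟩
      have lD0 : QUB.lam S.r (rm σ x (rm τ z (rm s k (rm (!s) j p)))) (Y \ C) ≤ 1 := by
        rw [← hYC, lam_compl S.r hwN hCN]
        exact lC
      have lD1 := uu (Y \ C) Finset.sdiff_subset lD0
      have hD0 : Y \ C ⊆ gs (rm s k (rm (!s) j p)) := Finset.sdiff_subset.trans Finset.sdiff_subset
      have lT : QUB.lam S.r (rm s k (rm (!s) j p)) (gs (rm s k (rm (!s) j p)) \ (Y \ C)) ≤ 1 := by
        rw [lam_compl S.r h.wf hD0]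
        exact lD1
      set T := gs (rm s k (rm (!s) j p)) \ (Y \ C) with hTdef
      clear_value T
      have hXT : X ⊆ T := by
        intro y hy
        rw [hTdef, Finset.mem_sdiff, Finset.mem_sdiff]
        exact ⟨h.md.sub hy, fun h5 => ((mY y).1 h5.1).2.2.2 hy⟩
      have cT : 2 ≤ T.card := le_trans (by omega) (Finset.card_le_card hXT)
      have hTq : T ⊆ gs (rm s k (rm (!s) j p)) := by
        rw [hTdef]
        exact Finset.sdiff_subset
      have cT' : 2 ≤ (gs (rm s k (rm (!s) j p)) \ T).card := by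
        rw [hTdef, Finset.sdiff_sdiff_eq_self hD0]
        exact c6
      have l3 : 3 ≤ QUB.lam S.r p T := by
        have h5 := h.old hTq cT cT'
        have h6 := lam_mix S.r p s k j T
        omega
      -- the complement `D` of `T` in `p`
      have hTp : T ⊆ gs p := by
        intro y hy
        have h5 := hTq hy
        rw [hg, Finset.mem_erase, Finset.mem_erase] at h5
        exact h5.2.2
      have mT : ∀ y, y ∈ T ↔ y ∈ gs p ∧ y ≠ k ∧ y ≠ j ∧ (y ∈ X ∨ y ∈ C) := by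
        intro y
        rw [hTdef, hg, Finset.mem_sdiff, Finset.mem_sdiff, Finset.mem_erase, Finset.mem_erase]
        have h5 := mY y
        constructor
        · rintro ⟨⟨a, b, c⟩, d⟩
          refine ⟨c, a, b, ?_⟩
          by_contra hcon
          rw [not_or] at hcon
          exact d ⟨h5.2 ⟨c, a, b, hcon.1⟩, hcon.2⟩
        · rintro ⟨c, a, b, d⟩
          refine ⟨⟨a, b, c⟩, fun h6 => ?_⟩
          rcases d with d | d
          · exact (h5.1 h6.1).2.2.2 d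
          · exact h6.2 d
      have eD : gs p \ T = gs (rm σ x (rm τ z p)) \ C := by
        ext y
        rw [Finset.mem_sdiff, Finset.mem_sdiff]
        have h5 := mT y
        have h6 := mP y
        constructor
        · rintro ⟨a, b⟩
          have k1 : y ≠ x := fun h' => b (hXT (show y ∈ X by rw [h']; exact hx))
          have k2 : y ≠ z := fun h' => b (hXT (show y ∈ X by rw [h']; exact hz))
          refine ⟨h6.2 ⟨a, k1, k2⟩, fun h7 => b (h5.2 ⟨a, fun h' => hkC (by rw [← h']; exact h7), fun h' => hjC (by rw [← h']; exact h7), Or.inr h7⟩)⟩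
        · rintro ⟨a, b⟩
          have k1 := h6.1 a
          refine ⟨k1.1, fun h7 => ?_⟩
          rcases (h5.1 h7).2.2.2 with h8 | h8
          · exact b (c2 (Finset.mem_erase.2 ⟨k1.2.1, Finset.mem_erase.2 ⟨k1.2.2, h8⟩⟩))
          · exact b h8
      have lDp : 3 ≤ QUB.lam S.r p (gs p \ T) := by
        rw [lam_compl S.r h.cw.hp hTp]
        exact l3
      have lD2 : QUB.lam S.r (rm σ x (rm τ z p)) (gs p \ T) ≤ 1 := by
        rw [eD, lam_compl S.r hwP c1]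
        exact c4
      have hDU : gs p \ T ⊆ gs p \ X := Finset.sdiff_subset_sdiff (Finset.Subset.refl _) hXT
      have xU : ∀ y ∈ gs p \ X, y ≠ x := fun y hy h' => (Finset.mem_sdiff.1 hy).2 (by rw [h']; exact hx)
      have zU : ∀ y ∈ gs p \ X, y ≠ z := fun y hy h' => (Finset.mem_sdiff.1 hy).2 (by rw [h']; exact hz)
      have lU : QUB.lam S.r p (gs p \ X) ≤ 3 := by
        rw [lam_compl S.r h.cw.hp (fun y hy => (h.mq hy).1)]
        exact h.lX
      refine hb ⟨(h.bad_iff hx σ).2 ?_, (h.bad_iff hz τ).2 ?_⟩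
      · have k1 := lam_le_rm S.rk (t := τ) (p := rm σ x p) (x := z) (A := gs p \ T) (by
          rw [gs_rm]; exact Finset.mem_erase.2 ⟨hxz.symm, n1⟩) (by
          intro y hy
          rw [gs_rm, Finset.mem_erase, Finset.mem_erase]
          exact ⟨zU y (hDU hy), xU y (hDU hy), (Finset.mem_sdiff.1 hy).1⟩)
        rw [rm_comm τ σ z x] at k1
        have k2 := lam_L3 S.rk (t := σ) m1 hDU (fun y hy => Finset.mem_erase.2 ⟨xU y hy, (Finset.mem_sdiff.1 hy).1⟩)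
        omega
      · have k1 := lam_le_rm S.rk (t := σ) (p := rm τ z p) (x := x) (A := gs p \ T) xz (by
          intro y hy
          rw [gs_rm, Finset.mem_erase, Finset.mem_erase]
          exact ⟨xU y (hDU hy), zU y (hDU hy), (Finset.mem_sdiff.1 hy).1⟩)
        have k2 := lam_L3 S.rk (t := τ) n1 hDU (fun y hy => Finset.mem_erase.2 ⟨zU y hy, (Finset.mem_sdiff.1 hy).1⟩)
        omega
  intro A hA lA hv
  rcases rich_side S.rk hwP hA lA (hsN.trans s1) s2 with c | c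
  · exact main A hA lA hv.1 c
  · refine main _ Finset.sdiff_subset ?_ hv.2 c
    rw [lam_compl S.r hwP hA]
    exact lA

end mix

end Pool.Agent.QU
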