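import Pool.Agent.QUP.Tri
import Pool.Agent.QUO.Fan
import Pool.Agent.QUR.Tut

/-!
# QUP/Nc: hubs inside a flat of corank two

`Fan r p W P`, `W = p.1 ∪ C` with `C` independent over `p.1`: the five classes `P k` of `p / W`. `nc_cn`: the minors `p / C' \ J` are connected;
`nc_ln`, `nc_rich`: they have a line or a rich minor if enough classes are left. `nc_count`: a form which is in `V` of `p \ x` for more than
`rank p` elements `x` is in `V(p)`.
-/

set_option autoImplicit false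

open QUB

namespace Pool.Agent.QU

variable {E : Type} [DecidableEq E] {r : Finset E → ℤ} {p : Itv E} {W : Finset E} {P : Fin 5 → Finset E}

/-- `C'` of `C` contracted, `J` deleted -/
def bx (p : Itv E) (C' J : Finset E) : Itv E := (p.1 ∪ C', p.2 \ J)

theorem gs_bx (p : Itv E) (C' J : Finset E) : gs (bx p C' J) = (gs p \ C') \ J := by
  ext w
  simp only [gs, bx, Finset.mem_sdiff, Finset.mem_union]
  tauto

/-- additivity for a separation -/
theorem sep_add (hr : Rk r) {b : Itv E} (hb : b.1 ⊆ b.2) {A : Finset E} (hA : A ⊆ gs b) (h : QUB.lam r b A ≤ 0) {X Y : Finset E}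
    (hX : X ⊆ A) (hY : Y ⊆ gs b \ A) : r (b.1 ∪ X) + r (b.1 ∪ Y) ≤ r (b.1 ∪ X ∪ Y) + r b.1 := by
  have e1 : b.1 ∪ A ⊆ b.2 := Finset.union_subset hb fun w hw => (Finset.mem_sdiff.1 (hA hw)).1
  -- r (b.1 ∪ A) + r (b.1 ∪ Bc) ≤ r b.2 + r b.1
  have e2 : b.2 \ A = b.1 ∪ (gs b \ A) := by
    ext w
    have h1 := @hb w
    have h2 := @hA w
    simp only [gs, Finset.mem_union, Finset.mem_sdiff] at *
    tauto
  have h0 : r (b.1 ∪ A) + r (b.1 ∪ (gs b \ A)) ≤ r b.2 + r b.1 := by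
    unfold QUB.lam at h
    rw [e2] at h
    linarith
  -- remove from A to X
  have h1 := fn_mg hr (gs b \ A) (Finset.union_subset_union_right (s := b.1) hX : b.1 ∪ X ⊆ b.1 ∪ A)
  have e3 : b.1 ∪ A ∪ (gs b \ A) = b.2 := by
    ext w
    have h1 := @hb w
    have h2 := @hA w
    simp only [gs, Finset.mem_union, Finset.mem_sdiff] at *
    tauto
  rw [e3] at h1
  have h2 := fn_mg hr X (Finset.union_subset_union_right (s := b.1) hY : b.1 ∪ Y ⊆ b.1 ∪ (gs b \ A))
  have e4 : b.1 ∪ (gs b \ A) ∪ X = b.1 ∪ X ∪ (gs b \ A) := by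
    ext w
    simp only [Finset.mem_union]
    tauto
  have e5 : b.1 ∪ Y ∪ X = b.1 ∪ X ∪ Y := by
    ext w
    simp only [Finset.mem_union]
    tauto
  rw [e4, e5] at h2
  linarith

private theorem un_card (hr : Rk r) (X : Finset E) : ∀ Y : Finset E, r (X ∪ Y) ≤ r X + Y.card := by
  intro Y
  induction Y using Finset.induction_on with
  | empty => simp
  | insert y Y hy ih =>
    rw [Finset.union_insert, Finset.card_insert_of_notMem hy]
    have h := hr.unit (X ∪ Y) y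
    push_cast
    linarith

/-- the rank of the sets between `p.1` and `W` -/
theorem ind_rk (hr : Rk r) {C W : Finset E} (hI : r W = r C + (W \ C).card) {Z : Finset E} (h1 : C ⊆ Z) (h2 : Z ⊆ W) :
    r Z = r C + (Z \ C).card := by
  have key : ∀ X Y : Finset E, X ⊆ Y → r Y ≤ r X + (Y \ X).card := by
    intro X Y hXY
    have h := un_card hr X (Y \ X)
    rwa [Finset.union_sdiff_of_subset hXY] at h
  have a := key C Z h1
  have b := key Z W h2
  have c : (W \ C).card = (Z \ C).card + (W \ Z).card := by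
    rw [← Finset.card_union_of_disjoint]
    · congr 1
      ext w
      have e1 := @h1 w
      have e2 := @h2 w
      simp only [Finset.mem_sdiff, Finset.mem_union]
      tauto
    · rw [Finset.disjoint_left]
      intro w hw hw'
      exact (Finset.mem_sdiff.1 hw').2 (Finset.mem_sdiff.1 hw).1
  omega

/-- additivity after the contraction of `W` -/
private theorem nc_add (hr : Rk r) {C W A B : Finset E} (hCW : C ⊆ W) (hW : ∀ w ∈ W, w ∈ C ∨ w ∈ A ∨ w ∈ B)
    (hadd : ∀ X ⊆ A, ∀ Y ⊆ B, r (C ∪ X) + r (C ∪ Y) ≤ r (C ∪ X ∪ Y) + r C) {X Y : Finset E} (hX : X ⊆ A) (hY : Y ⊆ B) :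
    r (W ∪ X) + r (W ∪ Y) ≤ r (W ∪ X ∪ Y) + r W := by
  have a1 := hadd (X ∪ (W ∩ A)) (Finset.union_subset hX Finset.inter_subset_right) (Y ∪ (W ∩ B)) (Finset.union_subset hY Finset.inter_subset_right)
  have e1 : C ∪ (X ∪ (W ∩ A)) ∪ (Y ∪ (W ∩ B)) = W ∪ X ∪ Y := by
    ext w
    have h1 := hW w
    have h2 := @hCW w
    simp only [Finset.mem_union, Finset.mem_inter]
    tauto
  have a2 := fn_mg hr X (Finset.union_subset hCW Finset.inter_subset_left : C ∪ (W ∩ A) ⊆ W)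
  have a3 := fn_mg hr Y (Finset.union_subset hCW Finset.inter_subset_left : C ∪ (W ∩ B) ⊆ W)
  have e2 : C ∪ (W ∩ A) ∪ X = C ∪ (X ∪ (W ∩ A)) := by
    ext w
    simp only [Finset.mem_union, Finset.mem_inter]
    tauto
  have e3 : C ∪ (W ∩ B) ∪ Y = C ∪ (Y ∪ (W ∩ B)) := by
    ext w
    simp only [Finset.mem_union, Finset.mem_inter]
    tauto
  have a4 := hr.sub (C ∪ (W ∩ A)) (C ∪ (W ∩ B))
  have e4 : C ∪ (W ∩ A) ∪ (C ∪ (W ∩ B)) = W := by
    ext w
    have h1 := hW w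
    have h2 := @hCW w
    simp only [Finset.mem_union, Finset.mem_inter]
    tauto
  have a5 := hr.mono C ((C ∪ (W ∩ A)) ∩ (C ∪ (W ∩ B))) (Finset.subset_inter Finset.subset_union_left Finset.subset_union_left)
  rw [e1] at a1
  rw [e2] at a2
  rw [e3] at a3
  rw [e4] at a4
  linarith

/-- three elements of different classes are not separated -/
private theorem nc_three (hr : Rk r) (hF : Fan r p W P) {i j k : Fin 5} (hij : i ≠ j) {s s' t : E} (hs : s ∈ P i) (hs' : s' ∈ P j) (ht : t ∈ P k)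
    (h : r (W ∪ {s, s'}) + r (W ∪ {t}) ≤ r (W ∪ {s, s'} ∪ {t}) + r W) : False := by
  have h1 := hF.two i j hij s hs s' hs'
  have e1 : W ∪ {s, s'} = insert s (insert s' W) := by
    ext w
    simp only [Finset.mem_union, Finset.mem_insert, Finset.mem_singleton]
    tauto
  obtain ⟨l, hl⟩ : ∃ l : Fin 5, k ≠ l := ⟨k + 1, by fin_cases k <;> decide⟩
  obtain ⟨y, hy⟩ := hF.ne l
  have h2 := hF.two k l hl t ht y hy
  have h3 := hr.unit (insert t W) y
  rw [Finset.insert_comm y t W] at h3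
  have e2 : W ∪ {t} = insert t W := by
    ext w
    simp only [Finset.mem_union, Finset.mem_insert, Finset.mem_singleton]
    tauto
  have h4 : W ∪ {s, s'} ∪ {t} ⊆ p.2 := by
    intro w hw
    simp only [Finset.mem_union, Finset.mem_insert, Finset.mem_singleton] at hw
    rcases hw with (hw | rfl | rfl) | rfl
    · exact hF.hW2 hw
    · exact hF.hP2 i hs
    · exact hF.hP2 j hs'
    · exact hF.hP2 k ht
  have h5 := hr.mono _ _ h4
  have h6 := hF.rW
  rw [e2] at h
  rw [e1] at h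
  rw [e1] at h5
  linarith

/-- all three elements on one side -/
private theorem nc_side (hr : Rk r) (hF : Fan r p W P) (hI : r W = r p.1 + (W \ p.1).card) {C' J : Finset E} (hC : p.1 ∪ C' ⊆ W)
    (hJ : Disjoint J W) {A B : Finset E} (hAB : A ∪ B = gs (bx p C' J)) (hd : Disjoint A B)
    (hadd : ∀ X ⊆ A, ∀ Y ⊆ B, r (p.1 ∪ C' ∪ X) + r (p.1 ∪ C' ∪ Y) ≤ r (p.1 ∪ C' ∪ X ∪ Y) + r (p.1 ∪ C'))
    {i j : Fin 5} (hij : i ≠ j) {s1 s2 : E} (h1 : s1 ∈ P i) (h2 : s2 ∈ P j)
    (a1 : s1 ∈ A) (a2 : s2 ∈ A) (hB : B.Nonempty)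
    (hco : ∀ b ∈ W \ (p.1 ∪ C'), r ((p.2 \ J).erase b) = r (p.2 \ J)) : False := by
  have hm : ∀ w, w ∈ A ∨ w ∈ B ↔ (w ∈ p.2 ∧ w ∉ J) ∧ w ∉ p.1 ∧ w ∉ C' := by
    intro w
    rw [← Finset.mem_union, hAB, gs_bx]
    simp only [gs, Finset.mem_sdiff]
    tauto
  have hW : ∀ w ∈ W, w ∈ p.1 ∪ C' ∨ w ∈ A ∨ w ∈ B := by
    intro w hw
    by_cases h : w ∈ p.1 ∪ C'
    · exact Or.inl h
    · right
      rw [Finset.mem_union, not_or] at h
      exact (hm w).2 ⟨⟨hF.hW2 hw, fun h4 => Finset.disjoint_left.1 hJ h4 hw⟩, h⟩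
  have hBW : B ⊆ W := by
    intro t ht
    by_contra htW
    have ht2 := (hm t).1 (Or.inr ht)
    have htP : t ∈ Finset.univ.biUnion P := by
      have h4 : t ∈ W ∪ Finset.univ.biUnion P := by
        rw [hF.hU]
        exact ht2.1.1
      exact (Finset.mem_union.1 h4).resolve_left htW
    obtain ⟨l, -, hl⟩ := Finset.mem_biUnion.1 htP
    have hadd' : ∀ {s s' : E}, s ∈ A → s' ∈ A → r (W ∪ {s, s'}) + r (W ∪ {t}) ≤ r (W ∪ {s, s'} ∪ {t}) + r W := by
      intro s s' hs hs'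
      exact nc_add hr hC hW hadd (Finset.insert_subset hs (Finset.singleton_subset_iff.2 hs')) (Finset.singleton_subset_iff.2 ht)
    exact nc_three hr hF hij h1 h2 hl (hadd' a1 a2)
  obtain ⟨b, hb⟩ := hB
  have hb2 := (hm b).1 (Or.inr hb)
  have hbW := hBW hb
  have hbC : b ∉ p.1 ∪ C' := by
    rw [Finset.mem_union, not_or]
    exact hb2.2
  have k1 := hco b (Finset.mem_sdiff.2 ⟨hbW, hbC⟩)
  have k2 := hadd A (Finset.Subset.refl _) B (Finset.Subset.refl _)
  have hw : (bx p C' J).1 ⊆ (bx p C' J).2 := by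
    intro w hw
    have h1 : w ∈ W := hC hw
    exact Finset.mem_sdiff.2 ⟨hF.hW2 h1, fun h2 => Finset.disjoint_left.1 hJ h2 h1⟩
  have e1 : p.1 ∪ C' ∪ A ∪ B = p.2 \ J := by
    rw [Finset.union_assoc, hAB]
    exact Finset.union_sdiff_of_subset hw
  have e2 : p.1 ∪ C' ∪ A ∪ B.erase b = (p.2 \ J).erase b := by
    have m1 : b ∉ A := fun h => Finset.disjoint_left.1 hd h hb
    have m2 : b ∉ p.1 ∪ C' ∪ A := fun h => (Finset.mem_union.1 h).elim hbC m1
    rw [← e1, Finset.erase_union_distrib, Finset.erase_eq_of_notMem m2]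
  have k3 := hr.sub (p.1 ∪ C' ∪ A) (p.1 ∪ C' ∪ B.erase b)
  have e3 : p.1 ∪ C' ∪ A ∪ (p.1 ∪ C' ∪ B.erase b) = p.1 ∪ C' ∪ A ∪ B.erase b := by
    ext w
    simp only [Finset.mem_union]
    tauto
  have k4 := hr.mono (p.1 ∪ C') ((p.1 ∪ C' ∪ A) ∩ (p.1 ∪ C' ∪ B.erase b)) (Finset.subset_inter Finset.subset_union_left Finset.subset_union_left)
  have k5 := ind_rk hr hI (Z := p.1 ∪ C' ∪ B) (Finset.subset_union_left.trans Finset.subset_union_left) (Finset.union_subset hC hBW)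
  have k6 := ind_rk hr hI (Z := p.1 ∪ C' ∪ B.erase b) (Finset.subset_union_left.trans Finset.subset_union_left)
    (Finset.union_subset hC ((Finset.erase_subset _ _).trans hBW))
  have k7 : ((p.1 ∪ C' ∪ B) \ p.1).card = ((p.1 ∪ C' ∪ B.erase b) \ p.1).card + 1 := by
    have m1 : (p.1 ∪ C' ∪ B) \ p.1 = insert b ((p.1 ∪ C' ∪ B.erase b) \ p.1) := by
      ext w
      simp only [Finset.mem_union, Finset.mem_sdiff, Finset.mem_insert, Finset.mem_erase] at *
      by_cases hw : w = b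
      · rw [hw]
        tauto
      · tauto
    rw [m1, Finset.card_insert_of_notMem]
    simp only [Finset.mem_union, Finset.mem_sdiff, Finset.mem_erase] at *
    tauto
  rw [e1] at k2
  rw [e3, e2, k1] at k3
  rw [k7] at k5
  push_cast at k5
  linarith

/-- connectivity of `p / C' \ J` -/
theorem nc_cn (hr : Rk r) (hF : Fan r p W P) (hI : r W = r p.1 + (W \ p.1).card) {C' J : Finset E} (hC : p.1 ∪ C' ⊆ W)
    (hJ : Disjoint J W) {i j k : Fin 5} (hij : i ≠ j) (hik : i ≠ k) (hjk : j ≠ k) (hi : ¬ P i ⊆ J) (hj : ¬ P j ⊆ J) (hk : ¬ P k ⊆ J)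
    (hco : ∀ b ∈ W \ (p.1 ∪ C'), r ((p.2 \ J).erase b) = r (p.2 \ J)) : Cn r (bx p C' J) := by
  intro A hA hA1 hA2
  by_contra hcon
  have hl : QUB.lam r (bx p C' J) A ≤ 0 := by omega
  have hw : (bx p C' J).1 ⊆ (bx p C' J).2 := by
    intro w hw
    have h1 : w ∈ W := hC hw
    exact Finset.mem_sdiff.2 ⟨hF.hW2 h1, fun h2 => Finset.disjoint_left.1 hJ h2 h1⟩
  set B := gs (bx p C' J) \ A with hBdef
  have hadd : ∀ X ⊆ A, ∀ Y ⊆ B, r (p.1 ∪ C' ∪ X) + r (p.1 ∪ C' ∪ Y) ≤ r (p.1 ∪ C' ∪ X ∪ Y) + r (p.1 ∪ C') :=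
    fun X hX Y hY => sep_add hr hw hA hl hX hY
  have hadd' : ∀ X ⊆ B, ∀ Y ⊆ A, r (p.1 ∪ C' ∪ X) + r (p.1 ∪ C' ∪ Y) ≤ r (p.1 ∪ C' ∪ X ∪ Y) + r (p.1 ∪ C') := by
    intro X hX Y hY
    have h1 := hadd Y hY X hX
    have e : p.1 ∪ C' ∪ Y ∪ X = p.1 ∪ C' ∪ X ∪ Y := by
      ext w
      simp only [Finset.mem_union]
      tauto
    rw [e] at h1
    linarith
  have hAB : A ∪ B = gs (bx p C' J) := Finset.union_sdiff_of_subset hA
  have hd : Disjoint A B := Finset.disjoint_sdiff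
  have hex : ∀ l : Fin 5, ¬ P l ⊆ J → ∃ s ∈ P l, s ∈ A ∨ s ∈ B := by
    intro l hl
    obtain ⟨s, hs, hsJ⟩ := Finset.not_subset.1 hl
    refine ⟨s, hs, ?_⟩
    rw [← Finset.mem_union, hAB, gs_bx]
    have h1 : s ∉ W := fun h => Finset.disjoint_left.1 (hF.dW l) hs h
    have h2 : s ∉ p.1 ∪ C' := fun h => h1 (hC h)
    rw [Finset.mem_union, not_or] at h2
    simp only [gs, Finset.mem_sdiff]
    exact ⟨⟨⟨hF.hP2 l hs, h2.1⟩, h2.2⟩, hsJ⟩
  obtain ⟨s1, h1, m1⟩ := hex i hi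
  obtain ⟨s2, h2, m2⟩ := hex j hj
  obtain ⟨s3, h3, m3⟩ := hex k hk
  have hW : ∀ w ∈ W, w ∈ p.1 ∪ C' ∨ w ∈ A ∨ w ∈ B := by
    intro w hw
    by_cases h : w ∈ p.1 ∪ C'
    · exact Or.inl h
    · right
      rw [Finset.mem_union, not_or] at h
      rw [← Finset.mem_union, hAB, gs_bx]
      simp only [gs, Finset.mem_sdiff]
      exact ⟨⟨⟨hF.hW2 hw, h.1⟩, h.2⟩, fun h4 => Finset.disjoint_left.1 hJ h4 hw⟩
  have hW' : ∀ w ∈ W, w ∈ p.1 ∪ C' ∨ w ∈ B ∨ w ∈ A := fun w hw => (hW w hw).imp_right Or.symm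
  have t1 : ∀ {l m n : Fin 5} {s s' t : E}, l ≠ m → s ∈ P l → s' ∈ P m → t ∈ P n → s ∈ A → s' ∈ A → t ∈ B → False := by
    intro l m n s s' t hlm hs hs' ht a b c
    exact nc_three hr hF hlm hs hs' ht (nc_add hr hC hW hadd (Finset.insert_subset a (Finset.singleton_subset_iff.2 b)) (Finset.singleton_subset_iff.2 c))
  have t2 : ∀ {l m n : Fin 5} {s s' t : E}, l ≠ m → s ∈ P l → s' ∈ P m → t ∈ P n → s ∈ B → s' ∈ B → t ∈ A → False := by
    intro l m n s s' t hlm hs hs' ht a b c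
    exact nc_three hr hF hlm hs hs' ht (nc_add hr hC hW' hadd' (Finset.insert_subset a (Finset.singleton_subset_iff.2 b)) (Finset.singleton_subset_iff.2 c))
  rcases m1 with m1 | m1 <;> rcases m2 with m2 | m2 <;> rcases m3 with m3 | m3
  · exact nc_side hr hF hI hC hJ hAB hd hadd hij h1 h2 m1 m2 hA2 hco
  · exact t1 hij h1 h2 h3 m1 m2 m3
  · exact t1 hik h1 h3 h2 m1 m3 m2
  · exact t2 hjk h2 h3 h1 m2 m3 m1
  · exact t1 hjk h2 h3 h1 m2 m3 m1
  · exact t2 hik h1 h3 h2 m1 m3 m2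
  · exact t2 hij h1 h2 h3 m1 m2 m3
  · exact nc_side hr hF hI hC hJ ((Finset.union_comm B A).trans hAB) hd.symm hadd' hij h1 h2 m1 m2 hA1 hco

/-- a line in `p / C' \ J` if four classes are left -/
theorem nc_ln (hF : Fan r p W P) (hr : Rk r) {C' J : Finset E} (hC : p.1 ∪ C' ⊆ W) (hJ : Disjoint J W) (m : Fin 5)
    (h : ∀ l, l ≠ m → ¬ P l ⊆ J) : ∃ N, QUB.Ln r (bx p C' J) N := by
  classical
  have : Nonempty E := ⟨(hF.ne 0).choose⟩
  choose! s hs hsJ using fun l hl => Finset.not_subset.1 (h l hl)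
  have hne : ∀ k l, k ≠ m → l ≠ m → k ≠ l → s k ≠ s l := by
    intro k l hk hl hkl he
    exact Finset.disjoint_left.1 (hF.dP k l hkl) (hs k hk) (he ▸ hs l hl)
  have hW : ∀ l, l ≠ m → s l ∉ W := fun l hl h => Finset.disjoint_left.1 (hF.dW l) (hs l hl) h
  have hrW : r (W ∪ (Finset.univ.erase m).image s) = r W + 2 := by
    obtain ⟨k, l, hk, hl, hkl⟩ : ∃ k l : Fin 5, k ≠ m ∧ l ≠ m ∧ k ≠ l := by
      fin_cases m
      · exact ⟨1, 2, by decide, by decide, by decide⟩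
      · exact ⟨0, 2, by decide, by decide, by decide⟩
      · exact ⟨0, 1, by decide, by decide, by decide⟩
      · exact ⟨0, 1, by decide, by decide, by decide⟩
      · exact ⟨0, 1, by decide, by decide, by decide⟩
    have h1 := hF.two k l hkl _ (hs k hk) _ (hs l hl)
    have h2 : insert (s k) (insert (s l) W) ⊆ W ∪ (Finset.univ.erase m).image s := by
      intro w hw
      rcases Finset.mem_insert.1 hw with h | h
      · rw [h]
        exact Finset.mem_union_right _ (Finset.mem_image_of_mem s (Finset.mem_erase.2 ⟨hk, Finset.mem_univ _⟩))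
      rcases Finset.mem_insert.1 h with h | h
      · rw [h]
        exact Finset.mem_union_right _ (Finset.mem_image_of_mem s (Finset.mem_erase.2 ⟨hl, Finset.mem_univ _⟩))
      · exact Finset.mem_union_left _ h
    have h3 := hr.mono _ _ h2
    have h4 : W ∪ (Finset.univ.erase m).image s ⊆ p.2 := by
      refine Finset.union_subset hF.hW2 fun w hw => ?_
      obtain ⟨k, hk, rfl⟩ := Finset.mem_image.1 hw
      exact hF.hP2 k (hs k (Finset.mem_erase.1 hk).1)
    have h5 := hr.mono _ _ h4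
    have h6 := hF.rW
    linarith
  refine ⟨(Finset.univ.erase m).image s, ?_, W, hC, ?_, ?_, hrW, ?_⟩
  · rw [Finset.card_image_of_injOn]
    · rw [Finset.card_erase_of_mem (Finset.mem_univ m)]
      rfl
    · intro k hk l hl he
      by_contra hkl
      exact hne k l (Finset.mem_erase.1 (Finset.mem_coe.1 hk)).1 (Finset.mem_erase.1 (Finset.mem_coe.1 hl)).1 hkl he
  · intro w hw
    refine Finset.mem_sdiff.2 ?_
    rcases Finset.mem_union.1 hw with hw | hw
    · exact ⟨hF.hW2 hw, fun h => Finset.disjoint_left.1 hJ h hw⟩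
    · obtain ⟨k, hk, rfl⟩ := Finset.mem_image.1 hw
      exact ⟨hF.hP2 k (hs k (Finset.mem_erase.1 hk).1), hsJ k (Finset.mem_erase.1 hk).1⟩
  · rw [Finset.disjoint_left]
    intro w hw
    obtain ⟨k, hk, rfl⟩ := Finset.mem_image.1 hw
    exact hW k (Finset.mem_erase.1 hk).1
  · intro x hx y hy hxy
    obtain ⟨k, hk, rfl⟩ := Finset.mem_image.1 hx
    obtain ⟨l, hl, rfl⟩ := Finset.mem_image.1 hy
    have hkl : k ≠ l := fun h => hxy (by rw [h])
    exact hF.two k l hkl _ (hs k (Finset.mem_erase.1 hk).1) _ (hs l (Finset.mem_erase.1 hl).1)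

/-- a rich minor in `p / C' \ J` if five classes are left -/
theorem nc_rich (hF : Fan r p W P) (hr : Rk r) {C' J : Finset E} (hC : p.1 ∪ C' ⊆ W) (hJ : Disjoint J W)
    (h : ∀ l, ¬ P l ⊆ J) : HasRich r (bx p C' J) := by
  classical
  choose s hs hsJ using fun l => Finset.not_subset.1 (h l)
  have hne : ∀ k l, k ≠ l → s k ≠ s l := by
    intro k l hkl he
    exact Finset.disjoint_left.1 (hF.dP k l hkl) (hs k) (he ▸ hs l)
  have hW : ∀ l, s l ∉ W := fun l h => Finset.disjoint_left.1 (hF.dW l) (hs l) h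
  have hrW : r (W ∪ Finset.univ.image s) = r W + 2 := by
    have h1 := hF.two 0 1 (by decide) _ (hs 0) _ (hs 1)
    have h2 : insert (s 0) (insert (s 1) W) ⊆ W ∪ Finset.univ.image s := by
      intro w hw
      rcases Finset.mem_insert.1 hw with h | h
      · rw [h]
        exact Finset.mem_union_right _ (Finset.mem_image_of_mem s (Finset.mem_univ _))
      rcases Finset.mem_insert.1 h with h | h
      · rw [h]
        exact Finset.mem_union_right _ (Finset.mem_image_of_mem s (Finset.mem_univ _))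
      · exact Finset.mem_union_left _ h
    have h3 := hr.mono _ _ h2
    have h4 : W ∪ Finset.univ.image s ⊆ p.2 := by
      refine Finset.union_subset hF.hW2 fun w hw => ?_
      obtain ⟨k, hk, rfl⟩ := Finset.mem_image.1 hw
      exact hF.hP2 k (hs k)
    have h5 := hr.mono _ _ h4
    have h6 := hF.rW
    linarith
  have hg : gs ((W, W ∪ Finset.univ.image s) : Itv E) = Finset.univ.image s := by
    ext w
    simp only [gs, Finset.mem_sdiff, Finset.mem_union]
    constructor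
    · rintro ⟨h1 | h1, h2⟩
      · exact absurd h1 h2
      · exact h1
    · intro h1
      refine ⟨Or.inr h1, ?_⟩
      obtain ⟨k, hk, rfl⟩ := Finset.mem_image.1 h1
      exact hW k
  refine ⟨(W, W ∪ Finset.univ.image s), ⟨hC, ?_⟩, Finset.subset_union_left, ?_, Or.inl ⟨hrW, ?_⟩⟩
  · intro w hw
    refine Finset.mem_sdiff.2 ?_
    rcases Finset.mem_union.1 hw with hw | hw
    · exact ⟨hF.hW2 hw, fun h => Finset.disjoint_left.1 hJ h hw⟩
    · obtain ⟨k, hk, rfl⟩ := Finset.mem_image.1 hw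
      exact ⟨hF.hP2 k (hs k), hsJ k⟩
  · rw [hg, Finset.card_image_of_injective]
    · rfl
    · intro k l he
      by_contra hkl
      exact hne k l hkl he
  · rw [hg]
    intro x hx y hy hxy
    obtain ⟨k, hk, rfl⟩ := Finset.mem_image.1 hx
    obtain ⟨l, hl, rfl⟩ := Finset.mem_image.1 hy
    have hkl : k ≠ l := fun h => hxy (by rw [h])
    have e : W ∪ {s k, s l} = insert (s k) (insert (s l) W) := by
      ext w
      simp only [Finset.mem_union, Finset.mem_insert, Finset.mem_singleton]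
      tauto
    show r (W ∪ {s k, s l}) = r W + 2
    rw [e]
    exact hF.two k l hkl _ (hs k) _ (hs l)

section count

open Module

variable {K E' : Type} [Field K] [Fintype E'] [DecidableEq E']

/-- a form in `V(p / c)` and in `V(p \ x)` for more than `rank p` elements `x` is in `V(p)` -/
theorem nc_count (S : TP K E') {p : Itv E'} (hp : p.1 ⊆ p.2) {T : Fm K E'} {c : E'} (hc : c ∈ gs p) (hTc : InV S.U S.W (rm false c p) T)
    {X : Finset E'} (hX : X ⊆ gs p) (hTX : ∀ x ∈ X, InV S.U S.W (rm true x p) T) (hcard : S.r p.2 - S.r p.1 < X.card) : InV S.U S.W p T := by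
  classical
  intro γ hγ δ hδ hd
  by_contra hne
  have hγc : γ c ≠ 0 := by
    intro h0
    refine hne (hTc γ ⟨hγ.1, fun y hy => ?_⟩ δ hδ hd)
    rcases Finset.mem_insert.1 hy with h | h
    · rw [h, h0]
    · exact hγ.2 y h
  set Z : Finset E' := p.2.filter fun x => γ x = 0 with hZ
  have hpZ : p.1 ⊆ Z := fun x hx => Finset.mem_filter.2 ⟨hp hx, hγ.2 x hx⟩
  have hZ2 : Z ⊆ p.2 := Finset.filter_subset _ _
  have hδZ : δ ∈ spt S.W Z := by
    refine ⟨hδ.1, fun x hx => ?_⟩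
    by_cases hxp : x ∈ p.2
    · have h1 : γ x ≠ 0 := fun h => hx (Finset.mem_filter.2 ⟨hxp, h⟩)
      exact (mul_eq_zero.1 (hd x)).resolve_left h1
    · exact hδ.2 x hxp
  have hdis : ∀ d ∈ spt S.W Z, ∀ x, γ x * d x = 0 := by
    intro d hd x
    by_cases hx : x ∈ Z
    · rw [(Finset.mem_filter.1 hx).2, zero_mul]
    · rw [hd.2 x hx, mul_zero]
  have hzero : ∀ d ∈ spt S.W Z, ∀ x ∈ X, d x = 0 → T γ d = 0 := by
    intro d hd x hx h0
    refine hTX x hx γ hγ d ⟨hd.1, fun y hy => ?_⟩ (hdis d hd)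
    by_cases hyx : y = x
    · rw [hyx, h0]
    · exact hd.2 y fun h => hy (Finset.mem_erase.2 ⟨hyx, hZ2 h⟩)
  have hall : ∀ d ∈ spt S.W Z, T γ d = 0 → ∀ x ∈ X, d x = 0 := by
    intro d hd' h0 x hx
    by_contra hdx
    have h1 : δ - (δ x * (d x)⁻¹) • d ∈ spt S.W Z := (spt S.W Z).sub_mem hδZ ((spt S.W Z).smul_mem _ hd')
    have h2 := hzero _ h1 x hx (by
      simp only [Pi.sub_apply, Pi.smul_apply, smul_eq_mul]
      field_simp
      ring)
    rw [map_sub, map_smul, h0, smul_zero, sub_zero] at h2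
    exact hne h2
  have hXZ : X ⊆ Z := by
    intro x hx
    have h1 : δ x ≠ 0 := fun h0 => hne (hzero δ hδZ x hx h0)
    by_contra h2
    exact h1 (hδZ.2 x h2)
  -- dimension
  let φ : spt S.W Z →ₗ[K] K := (T γ).comp (spt S.W Z).subtype
  have h1 := LinearMap.finrank_range_add_finrank_ker φ
  have h2 : finrank K (LinearMap.range φ) ≤ 1 := by
    have := Submodule.finrank_le (LinearMap.range φ)
    rwa [finrank_self] at this
  have h3 : finrank K (LinearMap.ker φ) ≤ finrank K (spt S.W (Z \ X)) := by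
    let ψ : LinearMap.ker φ →ₗ[K] spt S.W (Z \ X) := LinearMap.codRestrict _ ((spt S.W Z).subtype.comp (LinearMap.ker φ).subtype) (by
      rintro ⟨⟨d, hd'⟩, hk⟩
      have hk' : T γ d = 0 := hk
      refine ⟨hd'.1, fun y hy => ?_⟩
      by_cases hyX : y ∈ X
      · exact hall d hd' hk' y hyX
      · exact hd'.2 y fun h => hy (Finset.mem_sdiff.2 ⟨h, hyX⟩))
    refine LinearMap.finrank_le_finrank_of_injective (f := ψ) ?_
    intro a b hab
    have hab' : ((ψ a : spt S.W (Z \ X)) : E' → K) = (ψ b : spt S.W (Z \ X)) := by rw [hab]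
    exact Subtype.ext (Subtype.ext hab')
  have h4 := S.hW Z
  have h5 := S.hW (Z \ X)
  have h6 : ((Z \ X).card : ℤ) = Z.card - X.card := by
    have := Finset.card_sdiff_add_card_eq_card hXZ
    omega
  have h7 : S.r p.1 ≤ S.r (Z \ X) := by
    refine S.rk.mono _ _ fun x hx => Finset.mem_sdiff.2 ⟨hpZ hx, fun h => ?_⟩
    exact (Finset.mem_sdiff.1 (hX h)).2 hx
  have h8 : S.r Z + 1 ≤ S.r p.2 := by
    have g1 : S.r (insert c Z) ≠ S.r Z := by
      intro h
      refine hγc (TP.van_eq_zero S h γ ⟨hγ.1, fun y hy => (Finset.mem_filter.1 hy).2⟩)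
    have g2 := S.rk.mono _ _ (Finset.subset_insert c Z)
    have g3 := S.rk.mono _ _ (Finset.insert_subset (Finset.mem_sdiff.1 hc).1 hZ2)
    omega
  have h9 : (finrank K (spt S.W Z) : ℤ) ≤ finrank K (spt S.W (Z \ X)) + 1 := by
    have : finrank K (spt S.W Z) ≤ finrank K (spt S.W (Z \ X)) + 1 := by omega
    exact_mod_cast this
  rw [h4, h5, h6] at h9
  linarith

end count

end Pool.Agent.QU
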