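import Pool.Agent.QUP.ExcH
import Pool.Agent.QUT.Flw
import Pool.Agent.QUR.LemJ

/-!
# QUP/NcCu: case II, an independent flat of corank two with five classes, real conflicts excluded
-/

set_option autoImplicit false
set_option linter.all false

open QUB

namespace Pool.Agent.QU

open Pool.Agent.FRM

open Exc (E1 E2 ok_lv card_C sing two_exc cnJ)

variable {E : Type} [Fintype E] [DecidableEq E]

/-- two deletions without rich minor: all pair boxes are `Ok` -/
private theorem two_ok {r : Finset E → ℤ} (hr : Rk r) {p : Itv E} (hp : p.1 ⊆ p.2) {g y z : E} (hg : g ∈ gs p) (hy : y ∈ gs p) (hz : z ∈ gs p)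
    (hgy : g ≠ y) (hgz : g ≠ z) (hyz : y ≠ z) (hcz : Cn r (rm true z (rm false g (rm true y p)))) (hno : ¬ HasLn r (rm true y (rm true z p))) :
    Ok r (rm false g (rm true y p)) := by
  have zq : z ∈ gs (rm false g (rm true y p)) := m_memP hgz.symm (m_memP hyz.symm hz)
  have wq : (rm false g (rm true y p)).1 ⊆ (rm false g (rm true y p)).2 := QUB.wf_rm (QUB.wf_rm hp hy) (m_memP hgy hg)
  have key : ∀ A ⊆ gs (rm false g (rm true y p)), QUB.lam r (rm false g (rm true y p)) A ≤ 1 → Hv r (rm false g (rm true y p)) A →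
      3 ≤ (gs (rm false g (rm true y p)) \ A).card → z ∉ A → False := by
    intro A hA hl hv hc hzA
    have hA' : A ⊆ (gs (rm false g (rm true y p))).erase z := fun w hw => Finset.mem_erase.2 ⟨fun h => hzA (h ▸ hw), hA hw⟩
    have h1 : 1 ≤ QUB.lam r (rm true z (rm false g (rm true y p))) A := by
      refine hcz A (by rw [gs_rm]; exact hA') (Finset.card_pos.1 (by have := hv.card; omega)) ?_
      rw [gs_rm]
      have e : (gs (rm false g (rm true y p))).erase z \ A = (gs (rm false g (rm true y p)) \ A).erase z := by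
        ext w
        simp only [Finset.mem_sdiff, Finset.mem_erase]
        tauto
      rw [e, ← Finset.card_pos]
      have h2 := Finset.pred_card_le_card_erase (s := gs (rm false g (rm true y p)) \ A) (a := z)
      omega
    obtain ⟨N, hN, -⟩ := hv_keep hr wq hA' zq hl h1 hv
    apply hno
    have hN' : HasLn r (rm true z (rm false g (rm true y p))) := ⟨N, hN⟩
    refine hN'.mono ?_
    rw [rm_comm true true y z]
    exact (rm_sub false g (rm true y p)).rm true z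
  intro A hA hl hh
  by_cases hzA : z ∈ A
  · refine key (gs (rm false g (rm true y p)) \ A) Finset.sdiff_subset ?_ hh.2 ?_ fun h => (Finset.mem_sdiff.1 h).2 hzA
    · have := lam_compl r wq hA
      have e : QUB.lam r (rm false g (rm true y p)) (gs (rm false g (rm true y p)) \ A) = QUB.lam r (rm false g (rm true y p)) A := this
      rw [e]
      exact hl
    · rw [Finset.sdiff_sdiff_eq_self hA]
      exact hh.1.card
  · exact key A hA hl hh.1 hh.2.card hzA

/-- NC+ under `Cu` (every RICH pair of removals is `Ok`): independent `W` -/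
theorem nc_cu (S : TP F4 E) {p : Itv E} (h : Cu S p) (hNr : NrD S.r p) (hr5 : 5 ≤ S.r p.2 - S.r p.1)
    (hn : 2 * (S.r p.2 - S.r p.1) ≤ (gs p).card) {W : Finset E} {P : Fin 5 → Finset E} (hF : Fan S.r p W P)
    (hI : S.r W = S.r p.1 + (W \ p.1).card) : ∃ T : Fm F4 E, InV S.U S.W p T ∧ ¬ EqD S.U S.W p T 0 := by
  have hr := S.rk
  have hp := h.hp
  have hNU := h.nu
  have hn10 := h.hn
  have hW2 := hF.hW2
  have hC3 := card_C hF hI hr5
  have mg : ∀ {g : E}, g ∈ W \ p.1 → g ∈ gs p := fun hg => Finset.mem_sdiff.2 ⟨hW2 (Finset.mem_sdiff.1 hg).1, (Finset.mem_sdiff.1 hg).2⟩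
  have sW : ∀ {A : Finset E}, A ⊆ W \ p.1 → p.1 ∪ A ⊆ W := fun hA =>
    Finset.union_subset hF.h1 (hA.trans Finset.sdiff_subset)
  have hs : ∀ {A J : Finset E}, A ⊆ W \ p.1 → J ⊆ gs p → Disjoint J W → J.card ≤ 2 → Cn S.r (bx p A J) :=
    fun hA hJ hJW hJ2 => cnJ h hF hI hA hJ hJW hJ2
  have p1 : ∀ {g : E}, g ∈ W \ p.1 → ({g} : Finset E) ⊆ W \ p.1 := fun h => Finset.singleton_subset_iff.2 h
  have p2 : ∀ {g g' : E}, g ∈ W \ p.1 → g' ∈ W \ p.1 → ({g, g'} : Finset E) ⊆ W \ p.1 := fun h h' => Finset.insert_subset h (p1 h')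
  have p3 : ∀ {g g' g'' : E}, g ∈ W \ p.1 → g' ∈ W \ p.1 → g'' ∈ W \ p.1 → ({g, g', g''} : Finset E) ⊆ W \ p.1 :=
    fun h h' h'' => Finset.insert_subset h (p2 h' h'')
  have he0 : ∀ {A : Finset E}, A ⊆ W \ p.1 → Cn S.r (bx p A ∅) := fun hA =>
    hs hA (Finset.empty_subset _) (Finset.disjoint_empty_left _) (by simp)
  have hex : ∀ w ∈ gs p, ∀ s, ∃ T, InVs S (rm s w p) T := by
    intro w hw s
    refine h.ih _ (QUB.wf_rm hp hw) (rm_sub s w p) ?_
    rw [gs_rm, Finset.card_erase_of_mem hw]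
    omega
  have hnP : ∀ l, ¬ P l ⊆ (∅ : Finset E) := fun l h => (Finset.nonempty_iff_ne_empty.1 (hF.ne l)) (Finset.subset_empty.1 h)
  have hne0 : ∀ A ⊆ W \ p.1, HasRich S.r (bx p A ∅) := fun A hA => nc_rich hF hr (sW hA) (Finset.disjoint_empty_left _) hnP
  have ok2 : ∀ {g g' : E}, g ∈ W \ p.1 → g' ∈ W \ p.1 → g ≠ g' → Ok S.r (rm false g (rm false g' p)) := by
    intro g g' hg hg' hgg
    refine h.ok g (mg hg) g' (mg hg') hgg false false ?_
    rw [bx_20]
    exact hne0 _ (p2 hg hg')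
  obtain ⟨Z, hZ, hZ3⟩ := Finset.exists_subset_card_eq hC3
  obtain ⟨g1, g2, g3, h12, h13, h23, rfl⟩ := Finset.card_eq_three.1 hZ3
  have m1 : g1 ∈ W \ p.1 := hZ (by simp)
  have m2 : g2 ∈ W \ p.1 := hZ (by simp)
  -- the form
  have c12 : Cn S.r (rm false g1 (rm false g2 p)) := by rw [bx_20]; exact he0 (p2 m1 m2)
  obtain ⟨T, i1, i2, hne⟩ := two_hub S hNU hp h12 (mg m1) (mg m2) (hex g1 (mg m1) false) (hex g2 (mg m2) false) c12 (ok2 m1 m2 h12)
  have iA : ∀ g ∈ W \ p.1, InV S.U S.W (rm false g p) T := by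
    intro g mg3
    by_cases e1 : g1 = g
    · rw [← e1]; exact i1
    by_cases e2 : g2 = g
    · rw [← e2]; exact i2
    refine third_hub S hNU hp h12 e1 e2 (mg m1) (mg m2) (mg mg3) i1 i2 (hex g (mg mg3) false) ?_ (ok2 m1 mg3 e1) ?_ (ok2 m2 mg3 e2) ?_ ?_ (Or.inl ?_)
    · rw [bx_20]; exact he0 (p2 m1 mg3)
    · rw [bx_20]; exact he0 (p2 m2 mg3)
    · rw [bx_30]; exact he0 (p3 m1 m2 mg3)
    · rw [bx_30]
      exact nc_ln hF hr (sW (p3 m1 m2 mg3)) (Finset.disjoint_empty_left _) 0 fun l _ => hnP l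
    · rw [bx_30]; exact hne0 _ (p3 m1 m2 mg3)
  -- targets
  have hJ1 : ∀ {x : E}, x ∈ gs p → ({x} : Finset E) ⊆ gs p := fun h => Finset.singleton_subset_iff.2 h
  have hJW1 : ∀ {x : E}, x ∉ W → Disjoint ({x} : Finset E) W := fun h => Finset.disjoint_singleton_left.2 h
  have cx : ∀ {x : E} {A : Finset E}, x ∈ gs p → x ∉ W → A ⊆ W \ p.1 → Cn S.r (bx p A {x}) := fun hx hxW hA =>
    hs hA (hJ1 hx) (hJW1 hxW) (by simp)
  have lx : ∀ {x : E} {A : Finset E}, x ∈ gs p → x ∉ W → A ⊆ W \ p.1 → HasLn S.r (bx p A {x}) := by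
    intro x A hx hxW hA
    have h1 : x ∈ Finset.univ.biUnion P := by
      have : x ∈ W ∪ Finset.univ.biUnion P := by rw [hF.hU]; exact (Finset.mem_sdiff.1 hx).1
      exact (Finset.mem_union.1 this).resolve_left hxW
    obtain ⟨m, -, hm⟩ := Finset.mem_biUnion.1 h1
    refine nc_ln hF hr (sW hA) (hJW1 hxW) m fun l hl h2 => ?_
    obtain ⟨y, hy⟩ := hF.ne l
    have h3 := Finset.mem_singleton.1 (h2 hy)
    exact Finset.disjoint_left.1 (hF.dP l m hl) hy (h3 ▸ hm)
  have gx : ∀ {g x : E}, g ∈ W \ p.1 → x ∉ W → g ≠ x := fun hg hx h => hx (h ▸ (Finset.mem_sdiff.1 hg).1)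
  have tgt : ∀ x ∈ gs p, x ∉ W → HasRich S.r (rm true x p) → ¬ E1 S p (W \ p.1) x → InV S.U S.W (rm true x p) T := by
    intro x hx hxW hRx hE
    obtain ⟨Ts, hTs⟩ := hex x hx true
    have hneq : ¬ EqD S.U S.W (rm true x p) Ts 0 := by
      obtain ⟨N, a, b⟩ := hRx
      exact fun h => hTs.2 N a b (h.mono a)
    unfold E1 at hE
    rw [not_not] at hE
    obtain ⟨k1, n1, k2, n2, k3, n3, q12, q13, q23, l1, l2, l3⟩ := hE
    refine tgt_p1 S hp q12 q13 q23 (gx n1 hxW) (gx n2 hxW) (gx n3 hxW) (mg n1) (mg n2) (mg n3) hx (iA k1 n1) (iA k2 n2) (iA k3 n3) hTs.1 hneq ?_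
      l1 ?_ l2 ?_ l3 ?_ ?_ ?_ ?_ ?_
    · rw [bx_1]; exact cx hx hxW (p1 n1)
    · rw [bx_1]; exact cx hx hxW (p1 n2)
    · rw [bx_1]; exact cx hx hxW (p1 n3)
    · rw [bx_2]; exact cx hx hxW (p2 n1 n2)
    · rw [bx_2]; exact cx hx hxW (p2 n1 n3)
    · rw [bx_2]; exact cx hx hxW (p2 n2 n3)
    · rw [bx_3]; exact cx hx hxW (p3 n1 n2 n3)
    · rw [bx_3]; exact lx hx hxW (p3 n1 n2 n3)
  have tgn : ∀ x ∈ gs p, x ∉ W → ¬ HasRich S.r (rm true x p) → ∀ k1 ∈ W \ p.1, ∀ k2 ∈ W \ p.1, k1 ≠ k2 → Ok S.r (rm false k1 (rm true x p)) →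
      Ok S.r (rm false k2 (rm true x p)) → InV S.U S.W (rm true x p) T := by
    intro x hx hxW hnx k1 n1 k2 n2 q12 o1 o2
    refine tgt_nonP S hNU hp q12 (gx n1 hxW) (gx n2 hxW) (mg n1) (mg n2) hx (iA k1 n1) (iA k2 n2) ?_ o1 ?_ o2 ?_ ?_ hnx
    · rw [bx_1]; exact cx hx hxW (p1 n1)
    · rw [bx_1]; exact cx hx hxW (p1 n2)
    · rw [bx_2]; exact cx hx hxW (p2 n1 n2)
    · rw [bx_2]; exact lx hx hxW (p2 n1 n2)
  have two : ∀ y ∈ gs p, ∀ z ∈ gs p, y ∉ W → z ∉ W → y ≠ z → ¬ HasRich S.r (rm true y p) → ¬ HasRich S.r (rm true z p) →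
      InV S.U S.W (rm true y p) T := by
    intro y hy z hz hyW hzW hyz ny nz
    have hJ2 : ({y, z} : Finset E) ⊆ gs p := Finset.insert_subset hy (hJ1 hz)
    have hJW2 : Disjoint ({y, z} : Finset E) W := by
      rw [Finset.disjoint_left]
      intro w hw
      rcases Finset.mem_insert.1 hw with h | h
      · rw [h]; exact hyW
      · rw [Finset.mem_singleton.1 h]; exact hzW
    have hno : ¬ HasLn S.r (rm true y (rm true z p)) := by
      refine hNr y hy z hz hyz ny nz ?_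
      rw [bx_02]
      exact hs (Finset.empty_subset _) hJ2 hJW2 (Finset.card_le_two)
    have ok : ∀ g ∈ W \ p.1, Ok S.r (rm false g (rm true y p)) := by
      intro g hg
      refine two_ok hr hp (mg hg) hy hz (gx hg hyW) (gx hg hzW) hyz ?_ hno
      rw [bx_12]
      exact hs (p1 hg) hJ2 hJW2 (Finset.card_le_two)
    exact tgn y hy hyW ny g1 m1 g2 m2 h12 (ok g1 m1) (ok g2 m2)
  -- the exceptional points
  have exc : ∀ y ∈ gs p, y ∉ W → ¬ InV S.U S.W (rm true y p) T →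
      (HasRich S.r (rm true y p) ∧ E1 S p (W \ p.1) y) ∨ (¬ HasRich S.r (rm true y p) ∧ E2 S p (W \ p.1) y) := by
    intro y hy hyW hno
    by_cases hR : HasRich S.r (rm true y p)
    · left
      refine ⟨hR, ?_⟩
      by_contra hE
      exact hno (tgt y hy hyW hR hE)
    · right
      refine ⟨hR, ?_⟩
      rintro ⟨k1, n1, k2, n2, q12, o1, o2⟩
      exact hno (tgn y hy hyW hR k1 n1 k2 n2 q12 o1 o2)
  have exc2 : ∀ y ∈ gs p, ∀ z ∈ gs p, y ∉ W → z ∉ W → y ≠ z → E1 S p (W \ p.1) y → (E1 S p (W \ p.1) z ∨ E2 S p (W \ p.1) z) → False := by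
    intro y hy z hz hyW hzW hyz hEy hEz
    obtain ⟨k, hk⟩ := sing h hF hI hr5 hy hyW (Or.inl hEy)
    obtain ⟨k', hk'⟩ := sing h hF hI hr5 hz hzW hEz
    have hkk : k ≠ k' := by
      intro e
      subst e
      rw [hk] at hk'
      exact hyz (Finset.singleton_injective hk')
    exact two_exc h hn hF hI hr5 hk hk' hkk hEy hEz
  -- the count
  classical
  set X := (gs p \ W).filter fun x => InV S.U S.W (rm true x p) T with hX
  have hcX : (gs p \ W).card ≤ X.card + 1 := by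
    have h1 : ((gs p \ W) \ X).card ≤ 1 := by
      rw [Finset.card_le_one]
      intro y hy z hz
      by_contra hyz
      obtain ⟨y1, y2⟩ := Finset.mem_sdiff.1 hy
      obtain ⟨z1, z2⟩ := Finset.mem_sdiff.1 hz
      obtain ⟨y3, y4⟩ := Finset.mem_sdiff.1 y1
      obtain ⟨z3, z4⟩ := Finset.mem_sdiff.1 z1
      have ny : ¬ InV S.U S.W (rm true y p) T := fun h => y2 (Finset.mem_filter.2 ⟨y1, h⟩)
      have nz : ¬ InV S.U S.W (rm true z p) T := fun h => z2 (Finset.mem_filter.2 ⟨z1, h⟩)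
      rcases exc y y3 y4 ny with ⟨-, ey⟩ | ⟨ry, ey⟩
      · rcases exc z z3 z4 nz with ⟨-, ez⟩ | ⟨-, ez⟩
        · exact exc2 y y3 z z3 y4 z4 hyz ey (Or.inl ez)
        · exact exc2 y y3 z z3 y4 z4 hyz ey (Or.inr ez)
      · rcases exc z z3 z4 nz with ⟨-, ez⟩ | ⟨rz, ez⟩
        · exact exc2 z z3 y y3 z4 y4 (fun e => hyz e.symm) ez (Or.inr ey)
        · exact ny (two y y3 z z3 y4 z4 hyz ry rz)
    have h2 := Finset.card_sdiff_add_card_eq_card (Finset.filter_subset (fun x => InV S.U S.W (rm true x p) T) (gs p \ W))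
    rw [← hX] at h2
    omega
  have hcW : (gs p \ W).card + (W \ p.1).card = (gs p).card := by
    rw [← Finset.card_union_of_disjoint]
    · congr 1
      ext w
      have e1 := @hF.h1 w
      have e2 := @hW2 w
      simp only [gs, Finset.mem_sdiff, Finset.mem_union]
      tauto
    · rw [Finset.disjoint_left]
      intro w hw hw'
      exact (Finset.mem_sdiff.1 hw).2 (Finset.mem_sdiff.1 hw').1
  have hrW := hF.rW
  have hVp : InV S.U S.W p T := by
    refine nc_count S hp (mg m1) i1 (X := X) ?_ ?_ ?_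
    · exact (Finset.filter_subset _ _).trans Finset.sdiff_subset
    · intro x hx
      exact (Finset.mem_filter.1 hx).2
    · have e1 : ((W \ p.1).card : ℤ) = S.r p.2 - 2 - S.r p.1 := by omega
      have e2 : ((gs p \ W).card : ℤ) ≤ X.card + 1 := by exact_mod_cast hcX
      have e3 : ((gs p \ W).card : ℤ) + (W \ p.1).card = (gs p).card := by exact_mod_cast hcW
      linarith
  refine ⟨T, hVp, fun h => ?_⟩
  obtain ⟨N, a, b⟩ := hne0 {g1} (p1 m1)
  rw [← bx_10] at a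
  exact hne N a b (h.mono ((rm_sub false g1 p).trans a))

end Pool.Agent.QU
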