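import Pool.Agent.QUP.NcM
import Pool.Agent.QUW.Fin
import Pool.Agent.QUT.Flt

/-!
# QUP/NrdC: `NrD` in the class, all single removals three-connected
-/

set_option autoImplicit false
set_option linter.all false

noncomputable section

open scoped Classical

namespace Pool.Agent.QW

open Pool.Agent.FRM Pool.Agent.QUS Pool.Agent.QUE Pool.Agent.QUY
open Pool.Agent.QU (Fm EqD InV Itv Sub InVs Th3 HasRich HasLn NrD th3_cn)
open QUB (gs Cn rm Ok)

variable {E : Type} [Fintype E]

/-- `NrD` -/
theorem nrd_cls {L : Submodule F4 (E → F4)} {p : Itv E} (hL : Cls L) (hp : p.1 ⊆ p.2) (hC : Cn (rk L) p) (h3 : Th3 (rk L) p)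
    (hn : 5 ≤ (gs p).card) (hR : HasRich (rk L) p) (hall : ∀ w ∈ gs p, ∀ s : Bool, Th3 (rk L) (rm s w p)) : NrD (rk L) p := by
  intro y hy z hz hyz hry hrz hc hN
  have ok : ∀ w ∈ gs p, Ok (rk L) (rm true w p) := by
    intro w hw A hA hl hh
    have hA3 := hh.1.card
    have hB3 := hh.2.card
    have := hall w hw true A hA (by omega) (by
      have e : (gs (rm true w p) \ A).card = (QUB.gs (rm true w p) \ A).card := rfl
      omega)
    have e : Pool.Agent.QU.lam (rk L) (rm true w p) A = QUB.lam (rk L) (rm true w p) A := rfl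
    omega
  have cn : ∀ w ∈ gs p, Cn (rk L) (rm true w p) := fun w hw => th3_cn (tp L).rk hp hC h3 (by omega) hw true
  exact nr_two hL hp h3 (by omega) hyz hy hz (cn y hy) (ok y hy) hry (cn z hz) (ok z hz) hrz hc hN hR

end Pool.Agent.QW
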