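import Pool.Agent.QUP.Tri
import Pool.Agent.QUT.Conn

set_option autoImplicit false

/-!
# QUP/RaF: two hubs, one target with both types; connectors (the part with the forms)

`Uq S q`: a form of `V(q)` is, up to a diagonal form, a multiple of every form of `V(q)` which is diagonal on no rich minor.
`rr`: hubs `u`, `v` of one type, target `x` with both types, the triples connected and rich.
`trg`: `T` in `V` after the removals `u`, `v` (one type) and a connector `a`; target `x`; `M_{x,u,v}` need not be connected nor rich.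
`trg2`: two connectors.
-/

namespace Pool.Agent.QU

open Pool.Agent.FRM

variable {E : Type} [Fintype E] [DecidableEq E]

/-- uniqueness of the form -/
def Uq (S : TP F4 E) (q : Itv E) : Prop :=
  ∀ T Ts : Fm F4 E, InV S.U S.W q T → InVs S q Ts → ∃ k : F4, EqD S.U S.W q T (k • Ts)

theorem uq_of_ok (S : TP F4 E) (hNU : NU S.r) {q : Itv E} (hq : q.1 ⊆ q.2) (hc : QUB.Cn S.r q) (ho : QUB.Ok S.r q) : Uq S q :=
  fun _ _ hT hTs => uniq_f4 S hNU hq hc ho hT hTs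

omit [Fintype E] in
private theorem raf_mem {p : Itv E} {a b : E} {s : Bool} (hab : a ≠ b) (ha : a ∈ gs p) : a ∈ gs (rm s b p) := by
  rw [gs_rm]
  exact Finset.mem_erase.2 ⟨hab, ha⟩

omit [Fintype E] in
private theorem raf_cn {p : Itv E} {a b : E} {s t : Bool} : rm s a (rm t b p) = rm t b (rm s a p) := rm_comm s t a b p

/-- the form of two hubs of one type -/
theorem two_hub' (S : TP F4 E) {p : Itv E} {k1 k2 : E} {t : Bool} (ex1 : ∃ T, InVs S (rm t k1 p) T) (ex2 : ∃ T, InVs S (rm t k2 p) T)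
    (u12 : Uq S (rm t k1 (rm t k2 p))) :
    ∃ T : Fm F4 E, InV S.U S.W (rm t k1 p) T ∧ InV S.U S.W (rm t k2 p) T ∧
      ∀ q, Sub q (rm t k1 p) → Rich S.r q → ¬ EqD S.U S.W q T 0 := by
  obtain ⟨T1, hT1⟩ := ex1
  obtain ⟨T2, hT2⟩ := ex2
  have s1 : Sub (rm t k1 (rm t k2 p)) (rm t k1 p) := (rm_sub t k2 p).rm t k1
  have s2 : Sub (rm t k1 (rm t k2 p)) (rm t k2 p) := rm_sub t k1 _
  obtain ⟨k, l, hk⟩ := u12 T1 T2 (hT1.1.mono s1) (invs_sub hT2 s2)
  obtain ⟨T, hTa, hTb⟩ := glue_rm t t k1 k2 p T1 (k • T2 + dg l) hk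
  have d1 : EqD S.U S.W (rm t k1 p) T T1 := hTa.eqD
  have d2 : EqD S.U S.W (rm t k2 p) T (k • T2) := ⟨_, hTb⟩
  exact ⟨T, hT1.1.congrD d1, (hT2.1.smul k).congrD d2, fun q h1 h2 h3 => hT1.2 q h1 h2 ((d1.symm.mono h1).trans h3)⟩

/-- gluing of two diagonal differences which agree on the common box -/
theorem glue_l (S : TP F4 E) {q : Itv E} {u v : E} {t : Bool} (huv : u ≠ v) (hu : u ∈ gs q) (hv : v ∈ gs q) (hnd : ND S.r q u v t t)
    {T Tw : Fm F4 E} {a b : E → F4} (h1 : EqOn S.U S.W (rm t u q) T (Tw + dg a)) (h2 : EqOn S.U S.W (rm t v q) T (Tw + dg b))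
    (hab : ∀ x ∈ gs (rm t u (rm t v q)), a x = b x) : EqD S.U S.W q T Tw := by
  have e1 : EqOn S.U S.W (rm t u q) (dg (Function.update a u (b u))) (dg a) := by
    refine dg_congr fun x hx => ?_
    rw [gs_rm] at hx
    rw [Function.update_of_ne (Finset.mem_erase.1 hx).1]
  have e2 : EqOn S.U S.W (rm t v q) (dg (Function.update a u (b u))) (dg b) := by
    refine dg_congr fun x hx => ?_
    by_cases hxu : x = u
    · rw [hxu, Function.update_self]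
    · rw [Function.update_of_ne hxu]
      refine hab x ?_
      rw [gs_rm]
      exact Finset.mem_erase.2 ⟨hxu, hx⟩
  refine ⟨Function.update a u (b u), EqOn.of_sub (nd_zero S huv hu hv hnd (fun h => absurd rfl h) ?_ ?_)⟩
  · intro c hc d hd
    have e3 := h1 c hc d hd
    have e4 := e1 c hc d hd
    rw [LinearMap.add_apply, LinearMap.add_apply] at e3
    rw [LinearMap.sub_apply, LinearMap.sub_apply, LinearMap.add_apply, LinearMap.add_apply, LinearMap.zero_apply, LinearMap.zero_apply]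
    linear_combination e3 - e4
  · intro c hc d hd
    have e3 := h2 c hc d hd
    have e4 := e2 c hc d hd
    rw [LinearMap.add_apply, LinearMap.add_apply] at e3
    rw [LinearMap.sub_apply, LinearMap.sub_apply, LinearMap.add_apply, LinearMap.add_apply, LinearMap.zero_apply, LinearMap.zero_apply]
    linear_combination e3 - e4

/-- comparison of two descriptions of `T` on a connected rich box: the same scalar and the same diagonal form -/
private theorem raf_cmp (S : TP F4 E) {q : Itv E} (hq : q.1 ⊆ q.2) (hc : QUB.Cn S.r q) (hR : HasRich S.r q) {T Ts : Fm F4 E}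
    (hTs : InVs S q Ts) {k k' : F4} {l l' : E → F4} (h : EqOn S.U S.W q T (k • Ts + dg l)) (h' : EqOn S.U S.W q T (k' • Ts + dg l')) :
    k = k' ∧ ∀ x ∈ gs q, l x = l' x := by
  have hk : k = k' := by
    by_contra hne
    obtain ⟨N, h1, h2⟩ := hR
    exact hTs.2 N h1 h2 ((eqd_diff ⟨l, h⟩ ⟨l', h'⟩ hne).mono h1)
  subst hk
  refine ⟨rfl, fun x hx => ?_⟩
  have hln : HasLn S.r q := hasLn_of_rich hR
  have h3 : EqOn S.U S.W q (dg (l - l')) 0 := by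
    intro c hc d hd
    have e1 := h c hc d hd
    have e2 := h' c hc d hd
    rw [e1, LinearMap.add_apply, LinearMap.add_apply, LinearMap.add_apply, LinearMap.add_apply] at e2
    rw [dg_sub, LinearMap.sub_apply, LinearMap.sub_apply, LinearMap.zero_apply, LinearMap.zero_apply]
    linear_combination e2
  have h4 := hom_cn S hq hc hln h3 x hx
  rw [Pi.sub_apply] at h4
  exact sub_eq_zero.1 h4

/-- the connector step: `T` on `M_{x,k}` and `M_{x,a}` -/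
private theorem raf_con (S : TP F4 E) {q : Itv E} {k a : E} {t u : Bool} (hak : a ≠ k) (wq : q.1 ⊆ q.2) (nk : k ∈ gs q) (na : a ∈ gs q)
    {T Ts : Fm F4 E} (hTs : InVs S q Ts) {y z : F4} {l m : E → F4} (h1 : EqOn S.U S.W (rm t k q) T (y • Ts + dg l))
    (h2 : EqOn S.U S.W (rm u a q) T (z • Ts + dg m)) (hc : QUB.Cn S.r (rm u a (rm t k q))) (hR : HasRich S.r (rm u a (rm t k q))) :
    y = z ∧ ∀ v ∈ gs (rm u a (rm t k q)), l v = m v := by
  have s1 : Sub (rm u a (rm t k q)) (rm t k q) := rm_sub u a _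
  have s2 : Sub (rm u a (rm t k q)) (rm u a q) := (rm_sub t k q).rm u a
  exact raf_cmp S (QUB.wf_rm (QUB.wf_rm wq nk) (raf_mem hak na)) hc hR (invs_sub hTs ((rm_sub t k q).trans s1)) (h1.mono s1) (h2.mono s2)

/-- the values of the diagonal forms of two hubs agree outside a connector -/
private theorem raf_out (S : TP F4 E) {q : Itv E} {k1 k2 a : E} {t u : Bool} (ha1 : a ≠ k1) (ha2 : a ≠ k2) (wq : q.1 ⊆ q.2)
    (n1 : k1 ∈ gs q) (n2 : k2 ∈ gs q) (na : a ∈ gs q) {T Ts : Fm F4 E} (hTs : InVs S q Ts) (ja : InV S.U S.W (rm u a q) T)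
    (ua : Uq S (rm u a q)) {x1 x2 : F4} {l1 l2 : E → F4} (e1 : EqOn S.U S.W (rm t k1 q) T (x1 • Ts + dg l1))
    (e2 : EqOn S.U S.W (rm t k2 q) T (x2 • Ts + dg l2))
    (ca1 : QUB.Cn S.r (rm u a (rm t k1 q))) (ra1 : HasRich S.r (rm u a (rm t k1 q)))
    (ca2 : QUB.Cn S.r (rm u a (rm t k2 q))) (ra2 : HasRich S.r (rm u a (rm t k2 q))) :
    x1 = x2 ∧ ∀ v ∈ gs (rm t k1 (rm t k2 q)), v ≠ a → l1 v = l2 v := by
  obtain ⟨xa, la, ea⟩ := ua T Ts ja (invs_sub hTs (rm_sub u a q))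
  obtain ⟨y1, q1⟩ := raf_con S ha1 wq n1 na hTs e1 ea ca1 ra1
  obtain ⟨y2, q2⟩ := raf_con S ha2 wq n2 na hTs e2 ea ca2 ra2
  refine ⟨y1.trans y2.symm, fun v hv hva => ?_⟩
  rw [gs_rm, gs_rm] at hv
  have h1 := Finset.mem_erase.1 hv
  have h2 := Finset.mem_erase.1 h1.2
  rw [q1 v, q2 v]
  · rw [gs_rm, gs_rm]
    exact Finset.mem_erase.2 ⟨hva, Finset.mem_erase.2 ⟨h2.1, h2.2⟩⟩
  · rw [gs_rm, gs_rm]
    exact Finset.mem_erase.2 ⟨hva, Finset.mem_erase.2 ⟨h1.1, h2.2⟩⟩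

/-- the final gluing -/
private theorem raf_fin (S : TP F4 E) {q : Itv E} {k1 k2 : E} {t : Bool} (h12 : k1 ≠ k2) (n1 : k1 ∈ gs q) (n2 : k2 ∈ gs q)
    (hnd : ND S.r q k1 k2 t t) {T Ts : Fm F4 E} (hTs : InVs S q Ts) {x1 x2 : F4} {l1 l2 : E → F4}
    (e1 : EqOn S.U S.W (rm t k1 q) T (x1 • Ts + dg l1)) (e2 : EqOn S.U S.W (rm t k2 q) T (x2 • Ts + dg l2)) (hx : x1 = x2)
    (hl : ∀ v ∈ gs (rm t k1 (rm t k2 q)), l1 v = l2 v) : InV S.U S.W q T := by
  subst hx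
  exact (hTs.1.smul x1).congrD (glue_l S h12 n1 n2 hnd e1 e2 hl)

/-- two hubs of one type and a connector which is no loop and no coloop after the removals -/
theorem trg (S : TP F4 E) {p : Itv E} (hp : p.1 ⊆ p.2) {k1 k2 a x : E} {t u s : Bool}
    (h12 : k1 ≠ k2) (h1x : k1 ≠ x) (h2x : k2 ≠ x) (ha1 : a ≠ k1) (ha2 : a ≠ k2) (hax : a ≠ x)
    (m1 : k1 ∈ gs p) (m2 : k2 ∈ gs p) (ma : a ∈ gs p) (mx : x ∈ gs p) {T : Fm F4 E}
    (i1 : InV S.U S.W (rm t k1 p) T) (i2 : InV S.U S.W (rm t k2 p) T) (ia : InV S.U S.W (rm u a p) T)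
    (hex : ∃ T, InVs S (rm s x p) T) (u1 : Uq S (rm t k1 (rm s x p))) (u2 : Uq S (rm t k2 (rm s x p))) (ua : Uq S (rm u a (rm s x p)))
    (ca1 : QUB.Cn S.r (rm u a (rm t k1 (rm s x p)))) (ra1 : HasRich S.r (rm u a (rm t k1 (rm s x p))))
    (ca2 : QUB.Cn S.r (rm u a (rm t k2 (rm s x p)))) (ra2 : HasRich S.r (rm u a (rm t k2 (rm s x p))))
    (hnd : ND S.r (rm s x p) k1 k2 t t)
    (hla : S.r (insert a (rm t k1 (rm t k2 (rm s x p))).1) = S.r (rm t k1 (rm t k2 (rm s x p))).1 + 1)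
    (hlb : S.r ((rm t k1 (rm t k2 (rm s x p))).2.erase a) = S.r (rm t k1 (rm t k2 (rm s x p))).2) :
    InV S.U S.W (rm s x p) T := by
  obtain ⟨Ts, hTs⟩ := hex
  have j1 : InV S.U S.W (rm t k1 (rm s x p)) T := i1.mono ((rm_sub s x p).rm t k1)
  have j2 : InV S.U S.W (rm t k2 (rm s x p)) T := i2.mono ((rm_sub s x p).rm t k2)
  have ja : InV S.U S.W (rm u a (rm s x p)) T := ia.mono ((rm_sub s x p).rm u a)
  have wq : (rm s x p).1 ⊆ (rm s x p).2 := QUB.wf_rm hp mx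
  have n1 : k1 ∈ gs (rm s x p) := raf_mem h1x m1
  have n2 : k2 ∈ gs (rm s x p) := raf_mem h2x m2
  have na : a ∈ gs (rm s x p) := raf_mem hax ma
  generalize rm s x p = q at *
  obtain ⟨x1, l1, e1⟩ := u1 T Ts j1 (invs_sub hTs (rm_sub t k1 q))
  obtain ⟨x2, l2, e2⟩ := u2 T Ts j2 (invs_sub hTs (rm_sub t k2 q))
  obtain ⟨hx, gB⟩ := raf_out S ha1 ha2 wq n1 n2 na hTs ja ua e1 e2 ca1 ra1 ca2 ra2
  refine raf_fin S h12 n1 n2 hnd hTs e1 e2 hx fun v hv => ?_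
  by_cases hva : v = a
  swap
  · exact gB v hv hva
  subst hva
  have hB1 : Sub (rm t k1 (rm t k2 q)) (rm t k1 q) := (rm_sub t k2 q).rm t k1
  have hB2 : Sub (rm t k1 (rm t k2 q)) (rm t k2 q) := rm_sub t k1 _
  obtain ⟨c, hc, hca⟩ := S.van_one hla
  obtain ⟨d, hd, hda⟩ := S.spt_one (Finset.mem_sdiff.1 hv).1 hlb
  have g1 := (e1.mono hB1) c hc d hd
  have g2 := (e2.mono hB2) c hc d hd
  have g3 : dg l1 c d = dg l2 c d := by
    rw [LinearMap.add_apply, LinearMap.add_apply] at g1 g2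
    rw [hx] at g1
    linear_combination g2 - g1
  have g4 : EqOn S.U S.W (rm t k1 (rm t k2 q)) (dg (l1 - l2)) (dg (Pi.single v (l1 v - l2 v) : E → F4)) := by
    refine dg_congr fun z hz => ?_
    by_cases hzv : z = v
    · rw [hzv, Pi.single_eq_same, Pi.sub_apply]
    · rw [Pi.single_eq_of_ne hzv, Pi.sub_apply, gB z hz hzv, sub_self]
  have g5 := g4 c hc d hd
  rw [dg_sub, LinearMap.sub_apply, LinearMap.sub_apply, dg_single, hca, hda, g3, sub_self, mul_one, mul_one] at g5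
  exact (sub_eq_zero.1 g5.symm)

/-- two hubs of one type and two connectors -/
theorem trg2 (S : TP F4 E) {p : Itv E} (hp : p.1 ⊆ p.2) {k1 k2 a b x : E} {t u w s : Bool}
    (h12 : k1 ≠ k2) (h1x : k1 ≠ x) (h2x : k2 ≠ x) (ha1 : a ≠ k1) (ha2 : a ≠ k2) (hax : a ≠ x) (hb1 : b ≠ k1) (hb2 : b ≠ k2) (hbx : b ≠ x)
    (hab : a ≠ b) (m1 : k1 ∈ gs p) (m2 : k2 ∈ gs p) (ma : a ∈ gs p) (mb : b ∈ gs p) (mx : x ∈ gs p) {T : Fm F4 E}
    (i1 : InV S.U S.W (rm t k1 p) T) (i2 : InV S.U S.W (rm t k2 p) T) (ia : InV S.U S.W (rm u a p) T) (ib : InV S.U S.W (rm w b p) T)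
    (hex : ∃ T, InVs S (rm s x p) T) (u1 : Uq S (rm t k1 (rm s x p))) (u2 : Uq S (rm t k2 (rm s x p))) (ua : Uq S (rm u a (rm s x p)))
    (ub : Uq S (rm w b (rm s x p)))
    (ca1 : QUB.Cn S.r (rm u a (rm t k1 (rm s x p)))) (ra1 : HasRich S.r (rm u a (rm t k1 (rm s x p))))
    (ca2 : QUB.Cn S.r (rm u a (rm t k2 (rm s x p)))) (ra2 : HasRich S.r (rm u a (rm t k2 (rm s x p))))
    (cb1 : QUB.Cn S.r (rm w b (rm t k1 (rm s x p)))) (rb1 : HasRich S.r (rm w b (rm t k1 (rm s x p))))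
    (cb2 : QUB.Cn S.r (rm w b (rm t k2 (rm s x p)))) (rb2 : HasRich S.r (rm w b (rm t k2 (rm s x p))))
    (hnd : ND S.r (rm s x p) k1 k2 t t) : InV S.U S.W (rm s x p) T := by
  obtain ⟨Ts, hTs⟩ := hex
  have j1 : InV S.U S.W (rm t k1 (rm s x p)) T := i1.mono ((rm_sub s x p).rm t k1)
  have j2 : InV S.U S.W (rm t k2 (rm s x p)) T := i2.mono ((rm_sub s x p).rm t k2)
  have ja : InV S.U S.W (rm u a (rm s x p)) T := ia.mono ((rm_sub s x p).rm u a)
  have jb : InV S.U S.W (rm w b (rm s x p)) T := ib.mono ((rm_sub s x p).rm w b)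
  have wq : (rm s x p).1 ⊆ (rm s x p).2 := QUB.wf_rm hp mx
  have n1 : k1 ∈ gs (rm s x p) := raf_mem h1x m1
  have n2 : k2 ∈ gs (rm s x p) := raf_mem h2x m2
  have na : a ∈ gs (rm s x p) := raf_mem hax ma
  have nb : b ∈ gs (rm s x p) := raf_mem hbx mb
  generalize rm s x p = q at *
  obtain ⟨x1, l1, e1⟩ := u1 T Ts j1 (invs_sub hTs (rm_sub t k1 q))
  obtain ⟨x2, l2, e2⟩ := u2 T Ts j2 (invs_sub hTs (rm_sub t k2 q))
  obtain ⟨hx, gB⟩ := raf_out S ha1 ha2 wq n1 n2 na hTs ja ua e1 e2 ca1 ra1 ca2 ra2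
  obtain ⟨-, gC⟩ := raf_out S hb1 hb2 wq n1 n2 nb hTs jb ub e1 e2 cb1 rb1 cb2 rb2
  refine raf_fin S h12 n1 n2 hnd hTs e1 e2 hx fun v hv => ?_
  by_cases hva : v = a
  · exact gC v hv (hva ▸ hab)
  · exact gB v hv hva

/-- a third removal, the triple connected and rich -/
theorem third' (S : TP F4 E) {p : Itv E} (hp : p.1 ⊆ p.2) {k1 k2 k3 : E} {t t3 : Bool} (h12 : k1 ≠ k2)
    (h13 : k1 ≠ k3) (h23 : k2 ≠ k3) (m1 : k1 ∈ gs p) (m2 : k2 ∈ gs p) (m3 : k3 ∈ gs p) {T : Fm F4 E}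
    (i1 : InV S.U S.W (rm t k1 p) T) (i2 : InV S.U S.W (rm t k2 p) T) (ex3 : ∃ T, InVs S (rm t3 k3 p) T)
    (u13 : Uq S (rm t k1 (rm t3 k3 p))) (u23 : Uq S (rm t k2 (rm t3 k3 p)))
    (c123 : QUB.Cn S.r (rm t k1 (rm t k2 (rm t3 k3 p)))) (r123 : HasRich S.r (rm t k1 (rm t k2 (rm t3 k3 p))))
    (hnd : ND S.r (rm t3 k3 p) k1 k2 t t) : InV S.U S.W (rm t3 k3 p) T := by
  obtain ⟨Ts, hTs⟩ := ex3
  have j1 : InV S.U S.W (rm t k1 (rm t3 k3 p)) T := i1.mono ((rm_sub t3 k3 p).rm t k1)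
  have j2 : InV S.U S.W (rm t k2 (rm t3 k3 p)) T := i2.mono ((rm_sub t3 k3 p).rm t k2)
  have wq : (rm t3 k3 p).1 ⊆ (rm t3 k3 p).2 := QUB.wf_rm hp m3
  have n1 : k1 ∈ gs (rm t3 k3 p) := raf_mem h13 m1
  have n2 : k2 ∈ gs (rm t3 k3 p) := raf_mem h23 m2
  generalize rm t3 k3 p = q at *
  obtain ⟨x1, l1, e1⟩ := u13 T Ts j1 (invs_sub hTs (rm_sub t k1 q))
  obtain ⟨x2, l2, e2⟩ := u23 T Ts j2 (invs_sub hTs (rm_sub t k2 q))
  obtain ⟨hx, gB⟩ := raf_con S h12 wq n2 n1 hTs e2 e1 c123 r123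
  exact raf_fin S h12 n1 n2 hnd hTs e1 e2 hx.symm fun v hv => (gB v hv).symm

end Pool.Agent.QU
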