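import Pool.Agent.QUR.Tth
import Pool.Agent.QUR.Nd
import Pool.Agent.QUN.G

set_option autoImplicit false

/-!
# QUP/Tri: three hubs

`T` lies in `V` after the removals `k1`, `k2` (type `t`) and `k3` (type `t3`); `x` is removed with type `s`. If the pairs `k_i, x` are connected and
`Ok`, the triples with `x` connected, and the quadruple connected and nonbinary, then `T` lies in `V` after the removal of `x` (`tri_tgt`): the
scalars of `T` against the form of `M_x` on the three pairs cannot be three different ones, because then the form of `M_x` is diagonal on the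
three triples, so on `M_{3,x}`, which is rich. `tri_hub`: with both types of `x` a form in `V(M)`.
-/

namespace Pool.Agent.QU

open Pool.Agent.FRM

variable {E : Type} [Fintype E] [DecidableEq E]

omit [Fintype E] in
private theorem tri_mem {p : Itv E} {a b : E} {s : Bool} (hab : a ≠ b) (ha : a ∈ gs p) : a ∈ gs (rm s b p) := by
  rw [gs_rm]
  exact Finset.mem_erase.2 ⟨hab, ha⟩

/-- restriction of `InVs` -/
theorem invs_sub {S : TP F4 E} {p q : Itv E} {T : Fm F4 E} (h : InVs S p T) (hs : Sub q p) : InVs S q T :=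
  ⟨h.1.mono hs, fun N h1 h2 => h.2 N (hs.trans h1) h2⟩

/-- if `T` is diagonal up to two different multiples of `Ts`, then `Ts` is diagonal -/
theorem eqd_diff {S : TP F4 E} {q : Itv E} {T Ts : Fm F4 E} {a b : F4} (h1 : EqD S.U S.W q T (a • Ts))
    (h2 : EqD S.U S.W q T (b • Ts)) (hab : a ≠ b) : EqD S.U S.W q Ts 0 := by
  obtain ⟨l, hl⟩ := h1
  obtain ⟨m, hm⟩ := h2
  have hne : a - b ≠ 0 := sub_ne_zero.2 hab
  refine ⟨(a - b)⁻¹ • (m - l), fun c hc d hd => ?_⟩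
  have e1 := hl c hc d hd
  have e2 := hm c hc d hd
  rw [LinearMap.add_apply, LinearMap.add_apply, LinearMap.smul_apply, LinearMap.smul_apply, smul_eq_mul] at e1 e2
  rw [LinearMap.add_apply, LinearMap.add_apply, dg_smul, LinearMap.smul_apply, LinearMap.smul_apply, dg_sub, LinearMap.sub_apply,
    LinearMap.sub_apply, LinearMap.zero_apply, LinearMap.zero_apply, zero_add, smul_eq_mul]
  have e3 : (a - b) * Ts c d = dg m c d - dg l c d := by linear_combination e2 - e1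
  rw [← e3, ← mul_assoc, inv_mul_cancel₀ hne, one_mul]

/-- the target: `T` lies in `V` after the removal of `x` -/
theorem tri_tgt (S : TP F4 E) (hNU : NU S.r) {p : Itv E} (hp : p.1 ⊆ p.2) {k1 k2 k3 x : E} {t t3 s : Bool}
    (h12 : k1 ≠ k2) (h13 : k1 ≠ k3) (h23 : k2 ≠ k3) (h1x : k1 ≠ x) (h2x : k2 ≠ x) (h3x : k3 ≠ x)
    (m1 : k1 ∈ gs p) (m2 : k2 ∈ gs p) (m3 : k3 ∈ gs p) (mx : x ∈ gs p) {T Ts : Fm F4 E}
    (i1 : InV S.U S.W (rm t k1 p) T) (i2 : InV S.U S.W (rm t k2 p) T) (i3 : InV S.U S.W (rm t3 k3 p) T)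
    (hTs : InVs S (rm s x p) Ts)
    (c1 : QUB.Cn S.r (rm t k1 (rm s x p))) (o1 : QUB.Ok S.r (rm t k1 (rm s x p)))
    (c2 : QUB.Cn S.r (rm t k2 (rm s x p))) (o2 : QUB.Ok S.r (rm t k2 (rm s x p)))
    (c3 : QUB.Cn S.r (rm t3 k3 (rm s x p))) (o3 : QUB.Ok S.r (rm t3 k3 (rm s x p)))
    (c12 : QUB.Cn S.r (rm t k1 (rm t k2 (rm s x p))))
    (c13 : QUB.Cn S.r (rm t k1 (rm t3 k3 (rm s x p))))
    (c23 : QUB.Cn S.r (rm t k2 (rm t3 k3 (rm s x p))))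
    (c123 : QUB.Cn S.r (rm t k1 (rm t k2 (rm t3 k3 (rm s x p)))))
    (l123 : HasLn S.r (rm t k1 (rm t k2 (rm t3 k3 (rm s x p)))))
    (nd1 : ND S.r (rm t k2 (rm s x p)) k1 k3 t t3) (nd2 : ND S.r (rm t k1 (rm s x p)) k2 k3 t t3) :
    InV S.U S.W (rm s x p) T := by
  -- notation: `q` is the box of the target
  have wq : (rm s x p).1 ⊆ (rm s x p).2 := QUB.wf_rm hp mx
  have n1 : k1 ∈ gs (rm s x p) := tri_mem h1x m1
  have n2 : k2 ∈ gs (rm s x p) := tri_mem h2x m2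
  have n3 : k3 ∈ gs (rm s x p) := tri_mem h3x m3
  have w1 : (rm t k1 (rm s x p)).1 ⊆ (rm t k1 (rm s x p)).2 := QUB.wf_rm wq n1
  have w2 : (rm t k2 (rm s x p)).1 ⊆ (rm t k2 (rm s x p)).2 := QUB.wf_rm wq n2
  have w3 : (rm t3 k3 (rm s x p)).1 ⊆ (rm t3 k3 (rm s x p)).2 := QUB.wf_rm wq n3
  -- `T` on the three pairs
  have j1 : InV S.U S.W (rm t k1 (rm s x p)) T := i1.mono ((rm_sub s x p).rm t k1)
  have j2 : InV S.U S.W (rm t k2 (rm s x p)) T := i2.mono ((rm_sub s x p).rm t k2)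
  have j3 : InV S.U S.W (rm t3 k3 (rm s x p)) T := i3.mono ((rm_sub s x p).rm t3 k3)
  have v1 : InVs S (rm t k1 (rm s x p)) Ts := invs_sub hTs (rm_sub t k1 _)
  have v2 : InVs S (rm t k2 (rm s x p)) Ts := invs_sub hTs (rm_sub t k2 _)
  have v3 : InVs S (rm t3 k3 (rm s x p)) Ts := invs_sub hTs (rm_sub t3 k3 _)
  obtain ⟨a1, ha1⟩ := uniq_f4 S hNU w1 c1 o1 j1 v1
  obtain ⟨a2, ha2⟩ := uniq_f4 S hNU w2 c2 o2 j2 v2
  obtain ⟨a3, ha3⟩ := uniq_f4 S hNU w3 c3 o3 j3 v3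
  -- free scalars
  have fr : ∀ q : Itv E, q.1 ⊆ q.2 → QUB.Cn S.r q → QUB.Ok S.r q → InV S.U S.W q T → InV S.U S.W q Ts → ¬ HasRich S.r q →
      ∀ k : F4, EqD S.U S.W q T (k • Ts) := by
    intro q hq hc ho hT hT' hR k
    refine EqD.of_sub (thmU S hNU q hq hc ho (hT.sub (hT'.smul k)) (Or.inr hR))
  have e12 : rm t k1 (rm t k2 (rm s x p)) = rm t k2 (rm t k1 (rm s x p)) := rm_comm t t k1 k2 _
  have e13 : rm t k1 (rm t3 k3 (rm s x p)) = rm t3 k3 (rm t k1 (rm s x p)) := rm_comm t t3 k1 k3 _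
  have e23 : rm t k2 (rm t3 k3 (rm s x p)) = rm t3 k3 (rm t k2 (rm s x p)) := rm_comm t t3 k2 k3 _
  have e123 : rm t k1 (rm t k2 (rm t3 k3 (rm s x p))) = rm t k1 (rm t3 k3 (rm t k2 (rm s x p))) := by rw [e23]
  have e213 : rm t k1 (rm t k2 (rm t3 k3 (rm s x p))) = rm t k2 (rm t3 k3 (rm t k1 (rm s x p))) := by
    rw [rm_comm t t k1 k2, e13]
  have s123 : Sub (rm t k1 (rm t k2 (rm t3 k3 (rm s x p)))) (rm t k1 (rm t k2 (rm s x p))) :=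
    ((rm_sub t3 k3 (rm s x p)).rm t k2).rm t k1
  have l12 : HasLn S.r (rm t k1 (rm t k2 (rm s x p))) := l123.mono s123
  have card3 : 3 ≤ (gs (rm s x p)).card := by
    have h1 : ({k1, k2, k3} : Finset E) ⊆ gs (rm s x p) := by
      intro z hz
      simp only [Finset.mem_insert, Finset.mem_singleton] at hz
      rcases hz with rfl | rfl | rfl
      · exact n1
      · exact n2
      · exact n3
    have h2 := Finset.card_le_card h1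
    rwa [Finset.card_eq_three.2 ⟨k1, k2, k3, h12, h13, h23, rfl⟩] at h2
  -- claim A
  have clA : ∀ k : F4, EqD S.U S.W (rm t k1 (rm s x p)) T (k • Ts) → EqD S.U S.W (rm t k2 (rm s x p)) T (k • Ts) →
      InV S.U S.W (rm s x p) T := by
    intro k hk1 hk2
    have w12 : (rm t k1 (rm t k2 (rm s x p))).1 ⊆ (rm t k1 (rm t k2 (rm s x p))).2 := QUB.wf_rm w2 (tri_mem h12 n1)
    exact (pair_w S h12 h1x.symm h2x.symm m1 m2 (hTs.1.smul k) hk1 hk2 (fun l hl => hom_cn S w12 c12 l12 hl)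
      (nd_of_cn S.rk h12 n1 n2 card3 c1 c2)).1
  have sb1 : Sub (rm t k1 (rm t k2 (rm s x p))) (rm t k1 (rm s x p)) := (rm_sub t k2 (rm s x p)).rm t k1
  have sb2 : Sub (rm t k1 (rm t k2 (rm s x p))) (rm t k2 (rm s x p)) := rm_sub t k1 _
  have sc1 : Sub (rm t k1 (rm t3 k3 (rm s x p))) (rm t k1 (rm s x p)) := (rm_sub t3 k3 (rm s x p)).rm t k1
  have sc3 : Sub (rm t k1 (rm t3 k3 (rm s x p))) (rm t3 k3 (rm s x p)) := rm_sub t k1 _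
  have sd2 : Sub (rm t k2 (rm t3 k3 (rm s x p))) (rm t k2 (rm s x p)) := (rm_sub t3 k3 (rm s x p)).rm t k2
  have sd3 : Sub (rm t k2 (rm t3 k3 (rm s x p))) (rm t3 k3 (rm s x p)) := rm_sub t k2 _
  -- claim B
  have clB : ∀ k : F4, EqD S.U S.W (rm t k1 (rm s x p)) T (k • Ts) → EqD S.U S.W (rm t3 k3 (rm s x p)) T (k • Ts) →
      EqD S.U S.W (rm t k2 (rm s x p)) T (k • Ts) := by
    intro k hk1 hk3
    refine EqD.of_sub (g_pair S w2 h13 (tri_mem h12 n1) (tri_mem h23.symm n3) (j2.sub (v2.1.smul k)) ?_ ?_ ?_ ?_ nd1)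
    · exact (hk1.mono sb1).to_sub
    · rw [← e23]
      exact (hk3.mono sd3).to_sub
    · rw [← e123]
      exact c123
    · rw [← e123]
      exact l123
  -- claim C
  have clC : ∀ k : F4, EqD S.U S.W (rm t k2 (rm s x p)) T (k • Ts) → EqD S.U S.W (rm t3 k3 (rm s x p)) T (k • Ts) →
      EqD S.U S.W (rm t k1 (rm s x p)) T (k • Ts) := by
    intro k hk2 hk3
    refine EqD.of_sub (g_pair S w1 h23 (tri_mem h12.symm n2) (tri_mem h13.symm n3) (j1.sub (v1.1.smul k)) ?_ ?_ ?_ ?_ nd2)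
    · rw [← e12]
      exact (hk2.mono sb2).to_sub
    · rw [← e13]
      exact (hk3.mono sc3).to_sub
    · rw [← e213]
      exact c123
    · rw [← e213]
      exact l123
  by_contra hcon
  have nAB : ∀ k : F4, EqD S.U S.W (rm t k1 (rm s x p)) T (k • Ts) → ¬ EqD S.U S.W (rm t k2 (rm s x p)) T (k • Ts) :=
    fun k h1 h2 => hcon (clA k h1 h2)
  have nAC : ∀ k : F4, EqD S.U S.W (rm t k1 (rm s x p)) T (k • Ts) → ¬ EqD S.U S.W (rm t3 k3 (rm s x p)) T (k • Ts) :=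
    fun k h1 h3 => nAB k h1 (clB k h1 h3)
  have nBC : ∀ k : F4, EqD S.U S.W (rm t k2 (rm s x p)) T (k • Ts) → ¬ EqD S.U S.W (rm t3 k3 (rm s x p)) T (k • Ts) :=
    fun k h2 h3 => nAB k (clC k h2 h3) h2
  have r3 : HasRich S.r (rm t3 k3 (rm s x p)) := by
    by_contra h
    exact nAC a1 ha1 (fr _ w3 c3 o3 j3 v3.1 h a1)
  have d13 : a1 ≠ a3 := fun h => nAC a1 ha1 (h ▸ ha3)
  have d23 : a2 ≠ a3 := fun h => nBC a2 ha2 (h ▸ ha3)
  have z13 : EqD S.U S.W (rm t k1 (rm t3 k3 (rm s x p))) Ts 0 := eqd_diff (ha1.mono sc1) (ha3.mono sc3) d13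
  have z23 : EqD S.U S.W (rm t k2 (rm t3 k3 (rm s x p))) Ts 0 := eqd_diff (ha2.mono sd2) (ha3.mono sd3) d23
  have card3' : 3 ≤ (gs (rm t3 k3 (rm s x p))).card := by
    obtain ⟨N, hN1, hN2⟩ := r3
    have h1 : gs N ⊆ gs (rm t3 k3 (rm s x p)) := by
      intro z hz
      unfold gs at hz ⊢
      rw [Finset.mem_sdiff] at hz ⊢
      exact ⟨hN1.2 hz.1, fun h => hz.2 (hN1.1 h)⟩
    have h2 := Finset.card_le_card h1
    have h3 : (gs N).card = 5 := hN2.2.1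
    omega
  have nd3 : ND S.r (rm t3 k3 (rm s x p)) k1 k2 t t := nd_of_cn S.rk h12 (tri_mem h13 n1) (tri_mem h23 n2) card3' c13 c23
  have z3 : EqD S.U S.W (rm t3 k3 (rm s x p)) Ts 0 :=
    g_pair S w3 h12 (tri_mem h13 n1) (tri_mem h23 n2) v3.1 z13 z23 c123 l123 nd3
  obtain ⟨N, hN1, hN2⟩ := r3
  exact v3.2 N hN1 hN2 (z3.mono hN1)

/-- the form of two hubs of one type -/
theorem two_hub (S : TP F4 E) (hNU : NU S.r) {p : Itv E} (hp : p.1 ⊆ p.2) {k1 k2 : E} {t : Bool} (h12 : k1 ≠ k2)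
    (m1 : k1 ∈ gs p) (m2 : k2 ∈ gs p) (ex1 : ∃ T, InVs S (rm t k1 p) T) (ex2 : ∃ T, InVs S (rm t k2 p) T)
    (c12 : QUB.Cn S.r (rm t k1 (rm t k2 p))) (o12 : QUB.Ok S.r (rm t k1 (rm t k2 p))) :
    ∃ T : Fm F4 E, InV S.U S.W (rm t k1 p) T ∧ InV S.U S.W (rm t k2 p) T ∧
      ∀ q, Sub q (rm t k1 p) → Rich S.r q → ¬ EqD S.U S.W q T 0 := by
  obtain ⟨T1, hT1⟩ := ex1
  obtain ⟨T2, hT2⟩ := ex2
  have w2 : (rm t k2 p).1 ⊆ (rm t k2 p).2 := QUB.wf_rm hp m2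
  have w12 : (rm t k1 (rm t k2 p)).1 ⊆ (rm t k1 (rm t k2 p)).2 := QUB.wf_rm w2 (tri_mem h12 m1)
  have s1 : Sub (rm t k1 (rm t k2 p)) (rm t k1 p) := (rm_sub t k2 p).rm t k1
  have s2 : Sub (rm t k1 (rm t k2 p)) (rm t k2 p) := rm_sub t k1 _
  obtain ⟨k, l, hk⟩ := uniq_f4 S hNU w12 c12 o12 (hT1.1.mono s1) (invs_sub hT2 s2)
  obtain ⟨T, hTa, hTb⟩ := glue_rm t t k1 k2 p T1 (k • T2 + dg l) hk
  have d1 : EqD S.U S.W (rm t k1 p) T T1 := hTa.eqD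
  have d2 : EqD S.U S.W (rm t k2 p) T (k • T2) := ⟨_, hTb⟩
  exact ⟨T, hT1.1.congrD d1, (hT2.1.smul k).congrD d2, fun q h1 h2 h3 => hT1.2 q h1 h2 ((d1.symm.mono h1).trans h3)⟩

/-- a third hub -/
theorem third_hub (S : TP F4 E) (hNU : NU S.r) {p : Itv E} (hp : p.1 ⊆ p.2) {k1 k2 k3 : E} {t t3 : Bool} (h12 : k1 ≠ k2)
    (h13 : k1 ≠ k3) (h23 : k2 ≠ k3) (m1 : k1 ∈ gs p) (m2 : k2 ∈ gs p) (m3 : k3 ∈ gs p) {T : Fm F4 E}
    (i1 : InV S.U S.W (rm t k1 p) T) (i2 : InV S.U S.W (rm t k2 p) T) (ex3 : ∃ T, InVs S (rm t3 k3 p) T)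
    (c13 : QUB.Cn S.r (rm t k1 (rm t3 k3 p))) (o13 : QUB.Ok S.r (rm t k1 (rm t3 k3 p)))
    (c23 : QUB.Cn S.r (rm t k2 (rm t3 k3 p))) (o23 : QUB.Ok S.r (rm t k2 (rm t3 k3 p)))
    (c123 : QUB.Cn S.r (rm t k1 (rm t k2 (rm t3 k3 p)))) (l123 : HasLn S.r (rm t k1 (rm t k2 (rm t3 k3 p))))
    (r123 : HasRich S.r (rm t k1 (rm t k2 (rm t3 k3 p))) ∨ ¬ HasRich S.r (rm t k1 (rm t3 k3 p)) ∨
      ¬ HasRich S.r (rm t k2 (rm t3 k3 p))) :
    InV S.U S.W (rm t3 k3 p) T := by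
  obtain ⟨T3, hT3⟩ := ex3
  have w3 : (rm t3 k3 p).1 ⊆ (rm t3 k3 p).2 := QUB.wf_rm hp m3
  have n1 : k1 ∈ gs (rm t3 k3 p) := tri_mem h13 m1
  have n2 : k2 ∈ gs (rm t3 k3 p) := tri_mem h23 m2
  have w13 : (rm t k1 (rm t3 k3 p)).1 ⊆ (rm t k1 (rm t3 k3 p)).2 := QUB.wf_rm w3 n1
  have w23 : (rm t k2 (rm t3 k3 p)).1 ⊆ (rm t k2 (rm t3 k3 p)).2 := QUB.wf_rm w3 n2
  have w123 : (rm t k1 (rm t k2 (rm t3 k3 p))).1 ⊆ (rm t k1 (rm t k2 (rm t3 k3 p))).2 := QUB.wf_rm w23 (tri_mem h12 n1)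
  have j1 : InV S.U S.W (rm t k1 (rm t3 k3 p)) T := i1.mono ((rm_sub t3 k3 p).rm t k1)
  have j2 : InV S.U S.W (rm t k2 (rm t3 k3 p)) T := i2.mono ((rm_sub t3 k3 p).rm t k2)
  have v1 : InVs S (rm t k1 (rm t3 k3 p)) T3 := invs_sub hT3 (rm_sub t k1 _)
  have v2 : InVs S (rm t k2 (rm t3 k3 p)) T3 := invs_sub hT3 (rm_sub t k2 _)
  obtain ⟨a1, ha1⟩ := uniq_f4 S hNU w13 c13 o13 j1 v1
  obtain ⟨a2, ha2⟩ := uniq_f4 S hNU w23 c23 o23 j2 v2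
  have fr : ∀ q : Itv E, q.1 ⊆ q.2 → QUB.Cn S.r q → QUB.Ok S.r q → InV S.U S.W q T → InV S.U S.W q T3 → ¬ HasRich S.r q →
      ∀ k : F4, EqD S.U S.W q T (k • T3) := by
    intro q hq hc ho hT hT' hR k
    refine EqD.of_sub (thmU S hNU q hq hc ho (hT.sub (hT'.smul k)) (Or.inr hR))
  have s1 : Sub (rm t k1 (rm t k2 (rm t3 k3 p))) (rm t k1 (rm t3 k3 p)) := (rm_sub t k2 (rm t3 k3 p)).rm t k1
  have s2 : Sub (rm t k1 (rm t k2 (rm t3 k3 p))) (rm t k2 (rm t3 k3 p)) := rm_sub t k1 _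
  have card3 : 3 ≤ (gs (rm t3 k3 p)).card := by
    obtain ⟨N, hN⟩ := l123
    have h1 : N ⊆ gs (rm t k1 (rm t k2 (rm t3 k3 p))) := hN.sub
    have h2 : gs (rm t k1 (rm t k2 (rm t3 k3 p))) ⊆ gs (rm t3 k3 p) := by
      rw [gs_rm, gs_rm]
      exact (Finset.erase_subset _ _).trans (Finset.erase_subset _ _)
    have h3 := Finset.card_le_card (h1.trans h2)
    have h4 : N.card = 4 := hN.1
    omega
  have fin : ∀ k : F4, EqD S.U S.W (rm t k1 (rm t3 k3 p)) T (k • T3) → EqD S.U S.W (rm t k2 (rm t3 k3 p)) T (k • T3) →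
      InV S.U S.W (rm t3 k3 p) T := by
    intro k hk1 hk2
    exact (pair_w S h12 h13.symm h23.symm m1 m2 (hT3.1.smul k) hk1 hk2 (fun l hl => hom_cn S w123 c123 l123 hl)
      (nd_of_cn S.rk h12 n1 n2 card3 c13 c23)).1
  rcases r123 with h | h | h
  · by_cases hab : a1 = a2
    · exact fin a1 ha1 (hab ▸ ha2)
    · obtain ⟨N, hN1, hN2⟩ := h
      exact absurd ((eqd_diff (ha1.mono s1) (ha2.mono s2) hab).mono hN1) (v1.2 N (s1.trans hN1) hN2)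
  · exact fin a2 (fr _ w13 c13 o13 j1 v1.1 h a2) ha2
  · exact fin a1 ha1 (fr _ w23 c23 o23 j2 v2.1 h a1)

/-- THREE HUBS: `k1`, `k2` of type `t`, `k3` of type `t3`, and an element `x` both removals of which are compatible with the hubs -/
theorem tri_hub (S : TP F4 E) (hNU : NU S.r) {p : Itv E} (hp : p.1 ⊆ p.2) {k1 k2 k3 x : E} {t t3 : Bool}
    (h12 : k1 ≠ k2) (h13 : k1 ≠ k3) (h23 : k2 ≠ k3) (h1x : k1 ≠ x) (h2x : k2 ≠ x) (h3x : k3 ≠ x)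
    (m1 : k1 ∈ gs p) (m2 : k2 ∈ gs p) (m3 : k3 ∈ gs p) (mx : x ∈ gs p)
    (hex : ∀ s : Bool, ∀ w ∈ gs p, ∃ T, InVs S (rm s w p) T)
    (c12 : QUB.Cn S.r (rm t k1 (rm t k2 p))) (o12 : QUB.Ok S.r (rm t k1 (rm t k2 p)))
    (c13 : QUB.Cn S.r (rm t k1 (rm t3 k3 p))) (o13 : QUB.Ok S.r (rm t k1 (rm t3 k3 p)))
    (c23 : QUB.Cn S.r (rm t k2 (rm t3 k3 p))) (o23 : QUB.Ok S.r (rm t k2 (rm t3 k3 p)))
    (c123 : QUB.Cn S.r (rm t k1 (rm t k2 (rm t3 k3 p)))) (r123 : HasRich S.r (rm t k1 (rm t k2 (rm t3 k3 p))))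
    (c1 : ∀ s, QUB.Cn S.r (rm t k1 (rm s x p))) (o1 : ∀ s, QUB.Ok S.r (rm t k1 (rm s x p)))
    (c2 : ∀ s, QUB.Cn S.r (rm t k2 (rm s x p))) (o2 : ∀ s, QUB.Ok S.r (rm t k2 (rm s x p)))
    (c3 : ∀ s, QUB.Cn S.r (rm t3 k3 (rm s x p))) (o3 : ∀ s, QUB.Ok S.r (rm t3 k3 (rm s x p)))
    (d12 : ∀ s, QUB.Cn S.r (rm t k1 (rm t k2 (rm s x p))))
    (d13 : ∀ s, QUB.Cn S.r (rm t k1 (rm t3 k3 (rm s x p))))
    (d23 : ∀ s, QUB.Cn S.r (rm t k2 (rm t3 k3 (rm s x p))))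
    (d123 : ∀ s, QUB.Cn S.r (rm t k1 (rm t k2 (rm t3 k3 (rm s x p)))))
    (l123 : ∀ s, HasLn S.r (rm t k1 (rm t k2 (rm t3 k3 (rm s x p)))))
    (nd1 : ∀ s, ND S.r (rm t k2 (rm s x p)) k1 k3 t t3) (nd2 : ∀ s, ND S.r (rm t k1 (rm s x p)) k2 k3 t t3) :
    ∃ T : Fm F4 E, InV S.U S.W p T ∧ ¬ EqD S.U S.W p T 0 := by
  have sub12 : Sub (rm t k1 (rm t k2 (rm t3 k3 p))) (rm t k1 (rm t k2 p)) := ((rm_sub t3 k3 p).rm t k2).rm t k1
  have r12 : HasRich S.r (rm t k1 (rm t k2 p)) := by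
    obtain ⟨N, h1, h2⟩ := r123
    exact ⟨N, sub12.trans h1, h2⟩
  obtain ⟨T, i1, i2, hne⟩ := two_hub S hNU hp h12 m1 m2 (hex t k1 m1) (hex t k2 m2) c12 o12
  have l0 : HasLn S.r (rm t k1 (rm t k2 (rm t3 k3 p))) :=
    (l123 true).mono ((((rm_sub true x p).rm t3 k3).rm t k2).rm t k1)
  have i3 : InV S.U S.W (rm t3 k3 p) T :=
    third_hub S hNU hp h12 h13 h23 m1 m2 m3 i1 i2 (hex t3 k3 m3) c13 o13 c23 o23 c123 l0 (Or.inl r123)
  have key : ∀ s, InV S.U S.W (rm s x p) T := by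
    intro s
    obtain ⟨Ts, hTs⟩ := hex s x mx
    exact tri_tgt S hNU hp h12 h13 h23 h1x h2x h3x m1 m2 m3 mx i1 i2 i3 hTs (c1 s) (o1 s) (c2 s) (o2 s) (c3 s) (o3 s) (d12 s)
      (d13 s) (d23 s) (d123 s) (l123 s) (nd1 s) (nd2 s)
  refine ⟨T, inV_of_rm (key true) (key false), fun h => ?_⟩
  obtain ⟨N, h1, h2⟩ := r12
  have h3 : Sub N (rm t k1 p) := ((rm_sub t k2 p).rm t k1).trans h1
  exact hne N h3 h2 (h.mono ((rm_sub t k1 p).trans h3))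

end Pool.Agent.QU
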